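import Mathlib

/-! JOB Bon: Bonferroni inequalities for numbers in `[0, 1]`. -/

set_option autoImplicit false

namespace FGO

open Finset

/-- The truncated alternating sum over the subsets with fewer than `m` elements. -/
private def Bon_T (x : ℕ → ℝ) (m : ℕ) (s : Finset ℕ) : ℝ :=
  ∑ D ∈ s.powerset, if D.card < m then (-1 : ℝ) ^ D.card * ∏ p ∈ D, x p else 0

private theorem Bon_T_insert (x : ℕ → ℝ) (m : ℕ) {a : ℕ} {s : Finset ℕ} (ha : a ∉ s) :
    Bon_T x (m + 1) (insert a s) = Bon_T x (m + 1) s - x a * Bon_T x m s := by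
  unfold Bon_T
  rw [Finset.sum_powerset_insert ha, sub_eq_add_neg, Finset.mul_sum, ← Finset.sum_neg_distrib]
  congr 1
  refine Finset.sum_congr rfl fun t ht => ?_
  have hat : a ∉ t := fun h => ha (Finset.mem_powerset.mp ht h)
  rw [Finset.card_insert_of_notMem hat, Finset.prod_insert hat]
  by_cases h : t.card < m
  · rw [if_pos (Nat.succ_lt_succ h), if_pos h, pow_succ]
    ring
  · rw [if_neg (fun h' => h (Nat.lt_of_succ_lt_succ h')), if_neg h]
    ring

private theorem Bon_T_zero (x : ℕ → ℝ) (s : Finset ℕ) : Bon_T x 0 s = 0 := by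
  unfold Bon_T
  refine Finset.sum_eq_zero fun D _ => ?_
  rw [if_neg (Nat.not_lt_zero _)]

private theorem Bon_prod_nonneg (s : Finset ℕ) (x : ℕ → ℝ) (h1 : ∀ p ∈ s, x p ≤ 1) :
    0 ≤ ∏ p ∈ s, (1 - x p) :=
  Finset.prod_nonneg fun p hp => by linarith [h1 p hp]

private theorem Bon_main (x : ℕ → ℝ) (s : Finset ℕ) : (∀ p ∈ s, 0 ≤ x p) → (∀ p ∈ s, x p ≤ 1) →
    ∀ k : ℕ, ∏ p ∈ s, (1 - x p) ≤ Bon_T x (2 * k + 1) s ∧
      Bon_T x (2 * k) s ≤ ∏ p ∈ s, (1 - x p) := by
  induction s using Finset.induction_on with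
  | empty =>
    intro _ _ k
    have h1 : Bon_T x (2 * k + 1) ∅ = 1 := by
      unfold Bon_T
      rw [Finset.powerset_empty, Finset.sum_singleton, Finset.card_empty,
        if_pos (Nat.succ_pos _), pow_zero, Finset.prod_empty, one_mul]
    have h2 : Bon_T x (2 * k) ∅ ≤ 1 := by
      unfold Bon_T
      rw [Finset.powerset_empty, Finset.sum_singleton, Finset.card_empty, pow_zero,
        Finset.prod_empty, one_mul]
      split_ifs
      · exact le_refl _
      · exact zero_le_one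
    rw [Finset.prod_empty]
    exact ⟨h1.ge, h2⟩
  | insert a s ha ih =>
    intro h0 h1 k
    have ih' := ih (fun p hp => h0 p (Finset.mem_insert_of_mem hp))
      (fun p hp => h1 p (Finset.mem_insert_of_mem hp))
    have hx0 := h0 a (Finset.mem_insert_self a s)
    have hP : ∏ p ∈ insert a s, (1 - x p) = ∏ p ∈ s, (1 - x p) - x a * ∏ p ∈ s, (1 - x p) := by
      rw [Finset.prod_insert ha]
      ring
    constructor
    · rw [hP, Bon_T_insert x (2 * k) ha]
      obtain ⟨i1, i2⟩ := ih' k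
      have := mul_le_mul_of_nonneg_left i2 hx0
      linarith
    · rcases k with _ | k
      · rw [Nat.mul_zero, Bon_T_zero]
        exact Bon_prod_nonneg _ x h1
      · rw [hP, show 2 * (k + 1) = (2 * k + 1) + 1 by ring, Bon_T_insert x (2 * k + 1) ha]
        obtain ⟨i1, _⟩ := ih' k
        obtain ⟨_, i2⟩ := ih' (k + 1)
        rw [show 2 * (k + 1) = (2 * k + 1) + 1 by ring] at i2
        have := mul_le_mul_of_nonneg_left i1 hx0
        linarith

private theorem Bon_filter (x : ℕ → ℝ) (s : Finset ℕ) (k : ℕ) :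
    ∑ D ∈ s.powerset.filter (fun D => D.card ≤ k), (-1 : ℝ) ^ D.card * ∏ p ∈ D, x p =
      Bon_T x (k + 1) s := by
  unfold Bon_T
  rw [Finset.sum_filter]
  refine Finset.sum_congr rfl fun D _ => ?_
  by_cases h : D.card ≤ k
  · rw [if_pos h, if_pos (Nat.lt_succ_of_le h)]
  · rw [if_neg h, if_neg (fun h' => h (Nat.le_of_lt_succ h'))]

/-- (Bon1) Proof. Let `S_k(s) = ∑_{D ⊆ s, |D| ≤ k} (-1)^{|D|} ∏_D x` and `P(s) = ∏_s (1 - x)`. Induction on `s`: for all `k`, `P(s) ≤ S_{2k}(s)` and `S_{2k+1}(s) ≤ P(s)`. For `insert a s`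
(`Finset.powerset_insert`, subsets with and without `a`): `S_k(insert a s) = S_k(s) - x_a S_{k-1}(s)` (`S_{-1} = 0`), `P(insert a s) = P(s) - x_a P(s)`. Even `k`: `S_{2k} ≥ P`, `S_{2k-1} ≤ P` give
`S_{2k}(insert) ≥ P(s) - x_a P(s)` (`x_a ≥ 0`); odd `k`: `S_{2k+1} ≤ P`, `S_{2k} ≥ P`. `k = 0`: `S_0 = 1 ≥ P`. -/
theorem bonf (s : Finset ℕ) (x : ℕ → ℝ) (h0 : ∀ p ∈ s, 0 ≤ x p) (h1 : ∀ p ∈ s, x p ≤ 1) (k : ℕ) :
    ∏ p ∈ s, (1 - x p) ≤
      ∑ D ∈ s.powerset.filter (fun D => D.card ≤ 2 * k), (-1 : ℝ) ^ D.card * ∏ p ∈ D, x p := by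
  rw [Bon_filter]
  exact (Bon_main x s h0 h1 k).1

/-- (Bon2) Proof. By the same induction (odd case of Bon1): `S_{2k+1}(s) ≤ P(s)`, and `S_{2k+1} = S_{2k} - ∑_{|D| = 2k+1} ∏_D x`. -/
theorem bonf_up (s : Finset ℕ) (x : ℕ → ℝ) (h0 : ∀ p ∈ s, 0 ≤ x p) (h1 : ∀ p ∈ s, x p ≤ 1) (k : ℕ) :
    ∑ D ∈ s.powerset.filter (fun D => D.card ≤ 2 * k), (-1 : ℝ) ^ D.card * ∏ p ∈ D, x p ≤
      ∏ p ∈ s, (1 - x p) + ∑ D ∈ s.powersetCard (2 * k + 1), ∏ p ∈ D, x p := by
  rw [Bon_filter]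
  have h2 := (Bon_main x s h0 h1 (k + 1)).2
  have h3 : Bon_T x (2 * (k + 1)) s = Bon_T x (2 * k + 1) s -
      ∑ D ∈ s.powersetCard (2 * k + 1), ∏ p ∈ D, x p := by
    rw [Finset.powersetCard_eq_filter, Finset.sum_filter]
    unfold Bon_T
    rw [← Finset.sum_sub_distrib]
    refine Finset.sum_congr rfl fun D _ => ?_
    rcases lt_trichotomy D.card (2 * k + 1) with h | h | h
    · rw [if_pos (by omega), if_pos h, if_neg (by omega), sub_zero]
    · rw [if_pos (by omega), if_neg (by omega), if_pos h, h, pow_succ, pow_mul]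
      norm_num
    · rw [if_neg (by omega), if_neg (by omega), if_neg (by omega), sub_zero]
  linarith

private theorem Bon_pow {σ x : ℝ} (hσ : 0 ≤ σ) (hx : 0 ≤ x) (n : ℕ) :
    σ ^ (n + 1) + (n + 1) * x * σ ^ n ≤ (σ + x) ^ (n + 1) := by
  induction n with
  | zero => simp
  | succ n ih =>
    have h1 := mul_le_mul_of_nonneg_left ih (add_nonneg hσ hx)
    have h2 : (σ + x) * (σ ^ (n + 1) + (n + 1) * x * σ ^ n) =
        σ ^ (n + 1 + 1) + ((n + 1 : ℕ) + 1) * x * σ ^ (n + 1) + (n + 1) * x ^ 2 * σ ^ n := by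
      push_cast
      ring
    have h3 : (0 : ℝ) ≤ (n + 1) * x ^ 2 * σ ^ n := by positivity
    have h4 : (σ + x) ^ (n + 1 + 1) = (σ + x) * (σ + x) ^ (n + 1) := by ring
    rw [h4]
    linarith

/-- (Bon3) Proof. Induction on `s`: with `e_j` the left side, `e_{j+1}(insert a s) = e_{j+1}(s) + x_a e_j(s) ≤ σ^{j+1}/(j+1)! + x_a σ^j/j! ≤ (σ + x_a)^{j+1}/(j+1)!`
(`(σ + x)^{j+1} ≥ σ^{j+1} + (j+1) x σ^j`). Or: `Multiset.prod..`/`Finset.prod_powersetCard`, `Finset.sum_pow_of_commute` (multinomial); the induction is short. -/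
theorem esymm_le (s : Finset ℕ) (x : ℕ → ℝ) (h0 : ∀ p ∈ s, 0 ≤ x p) (j : ℕ) :
    ∑ D ∈ s.powersetCard j, ∏ p ∈ D, x p ≤ (∑ p ∈ s, x p) ^ j / (j.factorial : ℝ) := by
  induction s using Finset.induction_on generalizing j with
  | empty =>
    rcases j with _ | j
    · simp
    · have : (∅ : Finset ℕ).powersetCard (j + 1) = ∅ := by
        rw [Finset.powersetCard_eq_empty]
        simp
      rw [this, Finset.sum_empty, Finset.sum_empty, zero_pow (Nat.succ_ne_zero j), zero_div]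
  | insert a s ha ih =>
    have h0' : ∀ p ∈ s, 0 ≤ x p := fun p hp => h0 p (Finset.mem_insert_of_mem hp)
    have ih' := ih h0'
    have hx0 := h0 a (Finset.mem_insert_self a s)
    have hσ : 0 ≤ ∑ p ∈ s, x p := Finset.sum_nonneg h0'
    rcases j with _ | j
    · simp
    · have hrec : ∑ D ∈ (insert a s).powersetCard (j + 1), ∏ p ∈ D, x p =
          ∑ D ∈ s.powersetCard (j + 1), ∏ p ∈ D, x p + x a * ∑ D ∈ s.powersetCard j, ∏ p ∈ D, x p := by
        rw [Finset.powersetCard_eq_filter, Finset.powersetCard_eq_filter,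
          Finset.powersetCard_eq_filter, Finset.sum_filter, Finset.sum_filter, Finset.sum_filter,
          Finset.sum_powerset_insert ha, Finset.mul_sum]
        congr 1
        refine Finset.sum_congr rfl fun t ht => ?_
        have hat : a ∉ t := fun h => ha (Finset.mem_powerset.mp ht h)
        rw [Finset.card_insert_of_notMem hat, Finset.prod_insert hat]
        by_cases h : t.card = j
        · rw [if_pos (by omega), if_pos h]
        · rw [if_neg (by omega), if_neg h, mul_zero]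
      rw [hrec, Finset.sum_insert ha]
      have h2 := ih' (j + 1)
      have h3 := mul_le_mul_of_nonneg_left (ih' j) hx0
      have h4 := Bon_pow hσ hx0 j
      have hf : (0 : ℝ) < ((j + 1).factorial : ℝ) := by exact_mod_cast Nat.factorial_pos _
      have hf0 : (0 : ℝ) < (j.factorial : ℝ) := by exact_mod_cast Nat.factorial_pos _
      have h5 : (∑ p ∈ s, x p) ^ (j + 1) / ((j + 1).factorial : ℝ) +
          x a * ((∑ p ∈ s, x p) ^ j / (j.factorial : ℝ)) =
          ((∑ p ∈ s, x p) ^ (j + 1) + (j + 1) * x a * (∑ p ∈ s, x p) ^ j) /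
            ((j + 1).factorial : ℝ) := by
        rw [Nat.factorial_succ]
        push_cast
        field_simp
      calc _ ≤ (∑ p ∈ s, x p) ^ (j + 1) / ((j + 1).factorial : ℝ) +
          x a * ((∑ p ∈ s, x p) ^ j / (j.factorial : ℝ)) := add_le_add h2 h3
        _ = _ := h5
        _ ≤ (∑ p ∈ s, x p + x a) ^ (j + 1) / ((j + 1).factorial : ℝ) :=
          div_le_div_of_nonneg_right h4 hf.le
        _ = _ := by rw [add_comm]

end FGO
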