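import Pool.Agent.Lib.MP_1ad228_ntG.Kr4

/-! JOB Kr4b: pairs and periodic functions. -/

set_option autoImplicit false

open Classical

namespace FGO

open Finset

/-- reduction modulo `q` -/
private def Kr4br (q : ℕ) (v : V) : V := (v.1 % (q : ℤ), v.2.1 % (q : ℤ), v.2.2 % (q : ℤ))

private theorem Kr4b_mem (q : ℕ) (hq : 0 < q) (v : V) : Kr4br q v ∈ cube q := by
  have hM' : (0 : ℤ) < (q : ℤ) := by exact_mod_cast hq
  rw [mem_cube]
  unfold Kr4br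
  exact ⟨⟨Int.emod_nonneg _ hM'.ne', Int.emod_lt_of_pos _ hM'⟩, ⟨Int.emod_nonneg _ hM'.ne', Int.emod_lt_of_pos _ hM'⟩,
    ⟨Int.emod_nonneg _ hM'.ne', Int.emod_lt_of_pos _ hM'⟩⟩

private theorem Kr4b_one {q : ℕ} {a c : ℤ} (h0 : 0 ≤ c) (h1 : c < q) : a % (q : ℤ) = c ↔ (q : ℤ) ∣ a - c := by
  constructor
  · intro h
    have : a ≡ c [ZMOD q] := by
      rw [Int.ModEq, h, Int.emod_eq_of_lt h0 h1]
    exact this.symm.dvd
  · intro h
    have h2 : c ≡ a [ZMOD q] := (Int.modEq_iff_dvd).2 h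
    have h3 : c % (q : ℤ) = a % (q : ℤ) := h2
    rw [← h3, Int.emod_eq_of_lt h0 h1]

private theorem Kr4b_iff {q : ℕ} {v c : V} (hc : c ∈ cube q) : Kr4br q v = c ↔ Cg q v c := by
  rw [mem_cube] at hc
  obtain ⟨c1, c2, c3⟩ := c
  unfold Kr4br Cg
  simp only [Prod.mk.injEq]
  simp only at hc
  rw [Kr4b_one hc.1.1 hc.1.2, Kr4b_one hc.2.1.1 hc.2.1.2, Kr4b_one hc.2.2.1 hc.2.2.2]

/-- (Kr4b) Proof. Group the pairs `u` by the residues `c ∈ cube2 q` of `u.1`, `u.2` modulo `q` (`Finset.sum_fiberwise_of_maps_to` with `u ↦ (u.1 mod q, u.2 mod q)`; `q ∣ 4NJ`); on a fibre `φ u = φ c`, and the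
sum of `W u.1 * W u.2` over the fibre is the product of two sums of `ex_coset` (`Lam δ r u` and the fibre condition is `Cos δ q r c.1 u.1 ∧ Cos δ q r c.2 u.2`; `Finset.sum_product`, `Finset.filter_product`).
Total `∑_c φ c * ((8N)³/(δ q³))² = (8N)^6/δ² * Ex q φ`. -/
theorem ex_pair {N J δ q q0 : ℕ} {r : ℤ} (hN : 0 < N) (hJ : 0 < J) (hδ : 0 < δ) (hq : 0 < q)
    (hc : δ.Coprime q) (hd : δ * q ∣ J) (hq0 : q ≤ q0) (hG : Good N q0 δ r) (φ : V × V → ℝ) (hφ : Per q φ) :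
    ∑ u ∈ (cube2 (4 * N * J)).filter (Lam δ r), W J (4 * N * J) u.1 * W J (4 * N * J) u.2 * φ u =
      (8 * (N : ℝ)) ^ 6 / (δ : ℝ) ^ 2 * Ex q φ := by
  set M : ℕ := 4 * N * J with hM
  have hmaps : ∀ u ∈ (cube2 M).filter (Lam δ r), (Kr4br q u.1, Kr4br q u.2) ∈ cube2 q := fun u _ =>
    mem_cube2.2 ⟨Kr4b_mem q hq _, Kr4b_mem q hq _⟩
  rw [← sum_fiberwise_of_maps_to hmaps]
  have hfib : ∀ c ∈ cube2 q, ∑ u ∈ ((cube2 M).filter (Lam δ r)).filter (fun u => (Kr4br q u.1, Kr4br q u.2) = c),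
      W J M u.1 * W J M u.2 * φ u = φ c * ((8 * (N : ℝ)) ^ 3 / ((δ : ℝ) * (q : ℝ) ^ 3)) ^ 2 := by
    intro c hcm
    have hc2 := mem_cube2.1 hcm
    have hset : ((cube2 M).filter (Lam δ r)).filter (fun u => (Kr4br q u.1, Kr4br q u.2) = c) =
        ((cube M).filter (Cos δ q r c.1)) ×ˢ ((cube M).filter (Cos δ q r c.2)) := by
      ext u
      simp only [mem_filter, mem_product, mem_cube2]
      have e : ((Kr4br q u.1, Kr4br q u.2) = c) ↔ (Cg q u.1 c.1 ∧ Cg q u.2 c.2) := by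
        rw [← Kr4b_iff hc2.1, ← Kr4b_iff hc2.2]
        exact Prod.ext_iff
      rw [e]
      unfold Lam Cos
      tauto
    rw [hset]
    have hφc : ∀ u ∈ ((cube M).filter (Cos δ q r c.1)) ×ˢ ((cube M).filter (Cos δ q r c.2)),
        W J M u.1 * W J M u.2 * φ u = φ c * (W J M u.1 * W J M u.2) := by
      intro u hu
      obtain ⟨h1, h2⟩ := mem_product.1 hu
      rw [hφ u c (mem_filter.1 h1).2.1 (mem_filter.1 h2).2.1]
      ring
    rw [sum_congr rfl hφc, ← mul_sum, sum_product]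
    simp only
    rw [← sum_mul_sum, ex_coset hN hJ hδ hq hc hd hq0 hG c.1, ex_coset hN hJ hδ hq hc hd hq0 hG c.2]
    ring
  rw [sum_congr rfl hfib, ← sum_mul]
  unfold Ex
  have hδ' : (δ : ℝ) ≠ 0 := by exact_mod_cast hδ.ne'
  have hq' : (q : ℝ) ≠ 0 := by exact_mod_cast hq.ne'
  field_simp

end FGO
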