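import Pool.Agent.Lib.MP_1ad228_ntG.Kr1

/-! JOB Kr5: the sum over the box is majorised by the weighted sum over the cube. -/

set_option autoImplicit false

open Classical

namespace FGO

open Finset

/-- reduction modulo `M` -/
private def Kr5r (M : ℕ) (v : V) : V := (v.1 % (M : ℤ), v.2.1 % (M : ℤ), v.2.2 % (M : ℤ))

private theorem Kr5_cg (M : ℕ) (v : V) : Cg M (Kr5r M v) v := by
  have h : ∀ a : ℤ, (M : ℤ) ∣ a % (M : ℤ) - a := fun a => (Int.mod_modEq a M).symm.dvd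
  exact ⟨h _, h _, h _⟩

private theorem Kr5_mem (M : ℕ) (hM : 0 < M) (v : V) : Kr5r M v ∈ cube M := by
  have hM' : (0 : ℤ) < (M : ℤ) := by exact_mod_cast hM
  rw [mem_cube]
  unfold Kr5r
  exact ⟨⟨Int.emod_nonneg _ hM'.ne', Int.emod_lt_of_pos _ hM'⟩, ⟨Int.emod_nonneg _ hM'.ne', Int.emod_lt_of_pos _ hM'⟩,
    ⟨Int.emod_nonneg _ hM'.ne', Int.emod_lt_of_pos _ hM'⟩⟩

private theorem Kr5_one {N M : ℕ} (h : 2 * N < M) {a b : ℤ} (ha : |a| ≤ N) (hb : |b| ≤ N)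
    (hab : a % (M : ℤ) = b % (M : ℤ)) : a = b := by
  have h1 : (M : ℤ) ∣ a - b := Int.ModEq.dvd hab.symm
  have h2 : |a - b| < (M : ℤ) := by
    have := abs_sub a b
    have h3 : ((2 * N : ℕ) : ℤ) < (M : ℤ) := by exact_mod_cast h
    push_cast at h3
    have h4 := abs_le.1 ha
    have h5 := abs_le.1 hb
    rw [abs_lt]
    constructor <;> linarith [h4.1, h4.2, h5.1, h5.2]
  have := Int.eq_zero_of_abs_lt_dvd h1 h2
  linarith

private theorem Kr5_inj {N M : ℕ} (h : 2 * N < M) {v w : V} (hv : v ∈ box N) (hw : w ∈ box N)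
    (hvw : Kr5r M v = Kr5r M w) : v = w := by
  rw [mem_box] at hv hw
  unfold Kr5r at hvw
  simp only [Prod.mk.injEq] at hvw
  exact Prod.ext (Kr5_one h hv.1 hw.1 hvw.1)
    (Prod.ext (Kr5_one h hv.2.1 hw.2.1 hvw.2.1) (Kr5_one h hv.2.2 hw.2.2 hvw.2.2))

private theorem Kr5_ev {M δ : ℕ} (hδ : δ ∣ M) {r : ℤ} {v w : V} (h : Cg M v w) (hv : (δ : ℤ) ∣ ev w r) :
    (δ : ℤ) ∣ ev v r := by
  have hd : (δ : ℤ) ∣ (M : ℤ) := by exact_mod_cast hδ
  have h1 : (δ : ℤ) ∣ ev v r - ev w r := by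
    have : ev v r - ev w r = (v.1 - w.1) * r ^ 2 + (v.2.1 - w.2.1) * r + (v.2.2 - w.2.2) := by
      unfold ev
      ring
    rw [this]
    exact dvd_add (dvd_add (Dvd.dvd.mul_right (hd.trans h.1) _) (Dvd.dvd.mul_right (hd.trans h.2.1) _)) (hd.trans h.2.2)
  have := dvd_add h1 hv
  simpa using this

/-- (Kr5) Proof. `M = 4NJ > 2N`. The map `v ↦ (v mod M)` (coordinatewise `Int.emod`) from `box N` to `cube M` is injective (`|v_i - v'_i| ≤ 2N < M`), and `W`, `f`, `Lam δ r` (as `δ ∣ J ∣ M`) do not change.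
`1 ≤ W u.1`, `1 ≤ W u.2` on the box (`W_ge_one`), so `f u ≤ W W f`, and all terms are `≥ 0`: `Finset.sum_le_sum_of_injOn`-style (`Finset.sum_image`, `Finset.sum_le_sum_of_subset_of_nonneg`). -/
theorem box_le_cube {N J δ : ℕ} {r : ℤ} (hN : 0 < N) (hJ : 0 < J) (hδ : δ ∣ J) (f : V × V → ℝ)
    (h0 : ∀ u, 0 ≤ f u) (hf : Per (4 * N * J) f) :
    ∑ u ∈ (box2 N).filter (Lam δ r), f u ≤
      ∑ u ∈ (cube2 (4 * N * J)).filter (Lam δ r), W J (4 * N * J) u.1 * W J (4 * N * J) u.2 * f u := by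
  set M : ℕ := 4 * N * J with hM
  have hM0 : 0 < M := by positivity
  have h2N : 2 * N < M := by
    have : N ≤ N * J := Nat.le_mul_of_pos_right _ hJ
    rw [hM]
    nlinarith
  have hδM : δ ∣ M := hδ.trans (Dvd.intro_left _ rfl)
  set R : V × V → V × V := fun u => (Kr5r M u.1, Kr5r M u.2) with hR
  have hinj : Set.InjOn R ((box2 N).filter (Lam δ r)) := by
    intro u hu u' hu' he
    have hu1 := mem_box2.1 (mem_filter.1 hu).1
    have hu2 := mem_box2.1 (mem_filter.1 hu').1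
    have he1 : Kr5r M u.1 = Kr5r M u'.1 := congrArg Prod.fst he
    have he2 : Kr5r M u.2 = Kr5r M u'.2 := congrArg Prod.snd he
    exact Prod.ext (Kr5_inj h2N hu1.1 hu2.1 he1) (Kr5_inj h2N hu1.2 hu2.2 he2)
  have hsub : ((box2 N).filter (Lam δ r)).image R ⊆ (cube2 M).filter (Lam δ r) := by
    intro x hx
    obtain ⟨u, hu, rfl⟩ := mem_image.1 hx
    have hL := (mem_filter.1 hu).2
    refine mem_filter.2 ⟨mem_cube2.2 ⟨Kr5_mem M hM0 _, Kr5_mem M hM0 _⟩, ?_, ?_⟩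
    · exact Kr5_ev hδM (Kr5_cg M u.1) hL.1
    · exact Kr5_ev hδM (Kr5_cg M u.2) hL.2
  calc ∑ u ∈ (box2 N).filter (Lam δ r), f u
      ≤ ∑ u ∈ (box2 N).filter (Lam δ r), W J M (R u).1 * W J M (R u).2 * f (R u) := by
        refine sum_le_sum fun u hu => ?_
        have hub := mem_box2.1 (mem_filter.1 hu).1
        have e1 : W J M (R u).1 = W J M u.1 := W_periodic J M hM0 _ _ (Kr5_cg M u.1)
        have e2 : W J M (R u).2 = W J M u.2 := W_periodic J M hM0 _ _ (Kr5_cg M u.2)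
        have e3 : f (R u) = f u := hf _ _ (Kr5_cg M u.1) (Kr5_cg M u.2)
        rw [e1, e2, e3]
        have g1 := W_ge_one N J hN hJ u.1 hub.1
        have g2 := W_ge_one N J hN hJ u.2 hub.2
        have g3 : 1 ≤ W J M u.1 * W J M u.2 := one_le_mul_of_one_le_of_one_le g1 g2
        exact le_mul_of_one_le_left (h0 u) g3
    _ = ∑ x ∈ ((box2 N).filter (Lam δ r)).image R, W J M x.1 * W J M x.2 * f x := by
        rw [sum_image hinj]
    _ ≤ ∑ u ∈ (cube2 M).filter (Lam δ r), W J M u.1 * W J M u.2 * f u :=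
        sum_le_sum_of_subset_of_nonneg hsub fun u _ _ =>
          mul_nonneg (mul_nonneg (W_nonneg _ _ _) (W_nonneg _ _ _)) (h0 u)

end FGO
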