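import Pool.Agent.Lib.MP_1ad228_ntG.Per

/-! JOB Per2. -/

set_option autoImplicit false

namespace FGO

open Finset

theorem Per2_range (n : ℕ) (f : ℤ → ℝ) : ∑ x ∈ Ico (0 : ℤ) (n : ℤ), f x = ∑ i ∈ range n, f (i : ℤ) := by
  refine (Finset.sum_nbij' (fun i : ℕ => (i : ℤ)) (fun x => x.toNat) ?_ ?_ ?_ ?_ ?_).symm
  · intro i hi
    rw [mem_range] at hi
    rw [mem_Ico]
    exact ⟨Int.natCast_nonneg i, by exact_mod_cast hi⟩
  · intro x hx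
    rw [mem_Ico] at hx
    rw [mem_range]
    omega
  · intro i _
    exact Int.toNat_natCast i
  · intro x hx
    rw [mem_Ico] at hx
    exact Int.toNat_of_nonneg hx.1
  · intro i _
    rfl

theorem Per2_one (a k : ℕ) (f : ℤ → ℝ) (hf : ∀ x y : ℤ, (a : ℤ) ∣ x - y → f x = f y) :
    ∑ x ∈ Ico (0 : ℤ) ((a * k : ℕ) : ℤ), f x = (k : ℝ) * ∑ x ∈ Ico (0 : ℤ) (a : ℤ), f x := by
  rw [Per2_range, Per2_range]
  induction k with
  | zero => simp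
  | succ k ih =>
    rw [Nat.mul_succ, Finset.sum_range_add, ih]
    have h : ∑ x ∈ range a, f ((a * k + x : ℕ) : ℤ) = ∑ x ∈ range a, f (x : ℤ) := by
      refine sum_congr rfl fun x _ => hf _ _ ?_
      refine ⟨(k : ℤ), ?_⟩
      push_cast
      ring
    rw [h]
    push_cast
    ring

theorem Per2_prod {α β : Type} (r : α → α → Prop) (s : β → β → Prop) (hr : ∀ x, r x x) (hs : ∀ y, s y y)
    (A' A : Finset α) (B' B : Finset β) (m n : ℝ)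
    (h1 : ∀ g : α → ℝ, (∀ x y, r x y → g x = g y) → ∑ x ∈ A', g x = m * ∑ x ∈ A, g x)
    (h2 : ∀ g : β → ℝ, (∀ x y, s x y → g x = g y) → ∑ x ∈ B', g x = n * ∑ x ∈ B, g x)
    (g : α × β → ℝ) (hg : ∀ x y, r x.1 y.1 → s x.2 y.2 → g x = g y) :
    ∑ x ∈ A' ×ˢ B', g x = (m * n) * ∑ x ∈ A ×ˢ B, g x := by
  rw [sum_product, sum_product,
    h1 (fun x => ∑ y ∈ B', g (x, y)) (fun x y hxy => sum_congr rfl fun z _ => hg _ _ hxy (hs z)),
    mul_assoc]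
  congr 1
  rw [mul_sum]
  exact sum_congr rfl fun x _ => h2 (fun y => g (x, y)) fun y y' h => hg _ _ (hr x) h

/-- (Per2) Proof. `Finset.induction_on D` with `Ex_mul` (squares of different primes are coprime), `Per.mul`. The empty product: `Ex 1 1 = 1`. -/
theorem Ex_prod (D : Finset ℕ) (hD : ∀ p ∈ D, p.Prime) (x : ℕ → V × V → ℝ) (hx : ∀ p ∈ D, Per (p ^ 2) (x p)) :
    Per ((∏ p ∈ D, p) ^ 2) (fun u => ∏ p ∈ D, x p u) ∧
      Ex ((∏ p ∈ D, p) ^ 2) (fun u => ∏ p ∈ D, x p u) = ∏ p ∈ D, Ex (p ^ 2) (x p) := by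
  induction D using Finset.induction_on with
  | empty =>
    refine ⟨fun u u' _ _ => by simp only [prod_empty], ?_⟩
    have h := Ex_const one_pos 1
    simpa only [prod_empty, one_pow] using h
  | insert p D hp ih =>
    have hpp : p.Prime := hD p (mem_insert_self p D)
    have hD' : ∀ q ∈ D, q.Prime := fun q hq => hD q (mem_insert_of_mem hq)
    obtain ⟨ih1, ih2⟩ := ih hD' (fun q hq => hx q (mem_insert_of_mem hq))
    have hxp := hx p (mem_insert_self p D)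
    have hcop : (p ^ 2).Coprime ((∏ q ∈ D, q) ^ 2) := by
      refine Nat.Coprime.pow 2 2 (Nat.Coprime.prod_right fun q hq => ?_)
      exact (Nat.coprime_primes hpp (hD' q hq)).2 fun h => hp (h ▸ hq)
    have hP : 0 < (∏ q ∈ D, q) ^ 2 := pow_pos (prod_pos fun q hq => (hD' q hq).pos) 2
    simp only [prod_insert hp, mul_pow]
    exact ⟨hxp.mul ih1, by rw [Ex_mul (pow_pos hpp.pos 2) hP hcop hxp ih1, ih2]⟩

/-- (Per3) Proof. `b = a k`: each class modulo `a` contains `k^6` elements of `cube2 b` (fibres of `u ↦ u mod a`). -/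
theorem Ex_dvd {a b : ℕ} (hb : 0 < b) (hab : a ∣ b) {φ : V × V → ℝ} (hφ : Per a φ) : Ex b φ = Ex a φ := by
  obtain ⟨k, rfl⟩ := hab
  have ha : (a : ℝ) ≠ 0 := by
    rintro h0
    rw [Nat.cast_eq_zero.1 h0, zero_mul] at hb
    exact lt_irrefl 0 hb
  have hk : (k : ℝ) ≠ 0 := by
    rintro h0
    rw [Nat.cast_eq_zero.1 h0, mul_zero] at hb
    exact lt_irrefl 0 hb
  let r : ℤ → ℤ → Prop := fun x y => (a : ℤ) ∣ x - y
  have hr : ∀ x, r x x := fun x => by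
    change (a : ℤ) ∣ x - x
    rw [sub_self]
    exact dvd_zero _
  have h1 : ∀ g : ℤ → ℝ, (∀ x y, r x y → g x = g y) →
      ∑ x ∈ Ico (0 : ℤ) ((a * k : ℕ) : ℤ), g x = (k : ℝ) * ∑ x ∈ Ico (0 : ℤ) (a : ℤ), g x :=
    fun g hg => Per2_one a k g hg
  let r2 : ℤ × ℤ → ℤ × ℤ → Prop := fun x y => r x.1 y.1 ∧ r x.2 y.2
  have hr2 : ∀ x, r2 x x := fun x => ⟨hr _, hr _⟩
  have h2 : ∀ g : ℤ × ℤ → ℝ, (∀ x y, r2 x y → g x = g y) →
      ∑ x ∈ Ico (0 : ℤ) ((a * k : ℕ) : ℤ) ×ˢ Ico (0 : ℤ) ((a * k : ℕ) : ℤ), g x =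
        ((k : ℝ) * k) * ∑ x ∈ Ico (0 : ℤ) (a : ℤ) ×ˢ Ico (0 : ℤ) (a : ℤ), g x :=
    fun g hg => Per2_prod r r hr hr _ _ _ _ _ _ h1 h1 g fun x y hx hy => hg x y ⟨hx, hy⟩
  have h3 : ∀ g : V → ℝ, (∀ x y, Cg a x y → g x = g y) →
      ∑ x ∈ cube (a * k), g x = ((k : ℝ) * (k * k)) * ∑ x ∈ cube a, g x :=
    fun g hg => Per2_prod r r2 hr hr2 _ _ _ _ _ _ h1 h2 g fun x y hx hy => hg x y ⟨hx, hy.1, hy.2⟩
  have hc : ∀ x : V, Cg a x x := fun x => ⟨hr _, hr _, hr _⟩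
  have h4 : ∑ u ∈ cube2 (a * k), φ u = (((k : ℝ) * (k * k)) * (k * (k * k))) * ∑ u ∈ cube2 a, φ u :=
    Per2_prod (Cg a) (Cg a) hc hc _ _ _ _ _ _ h3 h3 φ fun x y hx hy => hφ x y hx hy
  unfold Ex
  rw [h4, div_eq_div_iff (pow_ne_zero 6 (by rw [Nat.cast_mul]; exact mul_ne_zero ha hk)) (pow_ne_zero 6 ha)]
  push_cast
  ring

end FGO
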