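import Pool.Agent.Lib.MP_1ad228_ntG.Defs

/-! JOB Pl: integer points of the box on a plane with a primitive normal vector. -/

set_option autoImplicit false

open Classical

namespace FGO

open Finset


/-- counting a residue class, natural number form -/
theorem Pl_class_nat (N : ℕ) (d : ℕ) (hd : 0 < d) (c : ℤ) :
    ((Icc (-(N : ℤ)) (N : ℤ)).filter fun x => (d : ℤ) ∣ x - c).card ≤ 2 * N / d + 1 := by
  set S := (Icc (-(N : ℤ)) (N : ℤ)).filter fun x => (d : ℤ) ∣ x - c with hS
  rcases S.eq_empty_or_nonempty with h0 | hne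
  · rw [h0]; simp
  · obtain ⟨x0, hx0, hmin⟩ := Finset.exists_min_image S id hne
    have hd' : (0 : ℤ) < d := by exact_mod_cast hd
    have hmap : ∀ x ∈ S, (fun x : ℤ => ((x - x0) / d).toNat) x ∈ Finset.range (2 * N / d + 1) := by
      intro x hx
      have h1 := hmin x hx
      simp only [id] at h1
      rw [hS, Finset.mem_filter, Finset.mem_Icc] at hx hx0
      have h2 : 0 ≤ (x - x0) / d := Int.ediv_nonneg (by omega) hd'.le
      have h3 : (x - x0) / d ≤ (2 * N : ℤ) / d := Int.ediv_le_ediv hd' (by omega)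
      rw [Finset.mem_range]
      have h4 : (((x - x0) / d).toNat : ℤ) = (x - x0) / d := Int.toNat_of_nonneg h2
      have h5 : ((2 * N / d : ℕ) : ℤ) = (2 * N : ℤ) / d := by push_cast; rfl
      show ((x - x0) / d).toNat < 2 * N / d + 1
      omega
    have hinj : Set.InjOn (fun x : ℤ => ((x - x0) / d).toNat) (S : Set ℤ) := by
      intro x hx y hy hxy
      rw [Finset.mem_coe] at hx hy
      have h1 := hmin x hx
      have h1' := hmin y hy
      simp only [id] at h1 h1'
      rw [hS, Finset.mem_filter, Finset.mem_Icc] at hx hy hx0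
      have h2 : 0 ≤ (x - x0) / d := Int.ediv_nonneg (by omega) hd'.le
      have h2' : 0 ≤ (y - x0) / d := Int.ediv_nonneg (by omega) hd'.le
      have h3 : (x - x0) / (d : ℤ) = (y - x0) / d := by
        have := congrArg (fun n : ℕ => (n : ℤ)) hxy
        simp only at this
        rw [Int.toNat_of_nonneg h2, Int.toNat_of_nonneg h2'] at this
        exact this
      have h4 : (d : ℤ) ∣ x - x0 := by
        have := dvd_sub hx.2 hx0.2
        have e : x - c - (x0 - c) = x - x0 := by ring
        rwa [e] at this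
      have h5 : (d : ℤ) ∣ y - x0 := by
        have := dvd_sub hy.2 hx0.2
        have e : y - c - (x0 - c) = y - x0 := by ring
        rwa [e] at this
      have h6 := Int.ediv_mul_cancel h4
      have h7 := Int.ediv_mul_cancel h5
      rw [h3] at h6
      linarith
    have := Finset.card_le_card_of_injOn _ hmap hinj
    rwa [Finset.card_range] at this

/-- (Pl1) Proof. `Int.Ico..`: the integers of `[-N, N]` in a residue class modulo `d` are at most `2N/d + 1` (consecutive ones differ by `d`). -/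
theorem class_count (N : ℕ) (d : ℕ) (hd : 0 < d) (c : ℤ) :
    (((Icc (-(N : ℤ)) (N : ℤ)).filter fun x => (d : ℤ) ∣ x - c).card : ℝ) ≤ 2 * (N : ℝ) / d + 1 := by
  have h1 := Pl_class_nat N d hd c
  have h2 : (((Icc (-(N : ℤ)) (N : ℤ)).filter fun x => (d : ℤ) ∣ x - c).card : ℝ) ≤
      ((2 * N / d + 1 : ℕ) : ℝ) := by exact_mod_cast h1
  refine h2.trans ?_
  push_cast
  have h3 : ((2 * N / d : ℕ) : ℝ) ≤ ((2 * N : ℕ) : ℝ) / d := Nat.cast_div_le
  push_cast at h3
  linarith

/-- the case where the last coordinate has the largest absolute value -/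
theorem Pl_aux (N : ℕ) (hN : 0 < N) (n1 n2 n3 m : ℤ) (h3 : n3 ≠ 0)
    (hp : ∀ q : ℕ, (q : ℤ) ∣ n1 → (q : ℤ) ∣ n2 → (q : ℤ) ∣ n3 → q = 1) :
    (((box N).filter fun v => n1 * v.1 + n2 * v.2.1 + n3 * v.2.2 = m).card : ℝ) ≤
      4 * (N : ℝ) ^ 2 / (n3.natAbs : ℝ) + 5 * N := by
  set S := (box N).filter fun v => n1 * v.1 + n2 * v.2.1 + n3 * v.2.2 = m with hS
  have hmem : ∀ v ∈ S, v.1 ∈ Icc (-(N : ℤ)) (N : ℤ) ∧ v.2.1 ∈ Icc (-(N : ℤ)) (N : ℤ) ∧
      n1 * v.1 + n2 * v.2.1 + n3 * v.2.2 = m := by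
    intro v hv
    rw [hS, Finset.mem_filter, box, Finset.mem_product, Finset.mem_product] at hv
    exact ⟨hv.1.1, hv.1.2.1, hv.2⟩
  rcases S.eq_empty_or_nonempty with h0 | hne
  · rw [h0]
    simp only [Finset.card_empty, Nat.cast_zero]
    positivity
  · obtain ⟨v0, hv0⟩ := hne
    have hv0' := hmem v0 hv0
    set d := Int.gcd n2 n3 with hd
    have hdpos : 0 < d := Int.gcd_pos_of_ne_zero_right _ h3
    have hdZ : (d : ℤ) ≠ 0 := by exact_mod_cast hdpos.ne'
    obtain ⟨a2, ha2⟩ : (d : ℤ) ∣ n2 := Int.gcd_dvd_left _ _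
    obtain ⟨a3, ha3⟩ : (d : ℤ) ∣ n3 := Int.gcd_dvd_right _ _
    have ha3ne : a3 ≠ 0 := by
      intro h
      rw [h, mul_zero] at ha3
      exact h3 ha3
    have hcop : IsCoprime a3 a2 := by
      rw [Int.isCoprime_iff_gcd_eq_one, Int.gcd_comm]
      have h1 : Int.gcd n2 n3 = d * Int.gcd a2 a3 := by
        have := Int.gcd_mul_left (d : ℤ) a2 a3
        rw [← ha2, ← ha3] at this
        simpa using this
      have h2 : d * 1 = d * Int.gcd a2 a3 := by rw [mul_one, ← h1]
      exact (Nat.eq_of_mul_eq_mul_left hdpos h2).symm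
    have hcop1 : IsCoprime (d : ℤ) n1 := by
      rw [Int.isCoprime_iff_gcd_eq_one]
      apply hp
      · exact Int.gcd_dvd_right _ _
      · exact (Int.gcd_dvd_left _ _).trans ⟨a2, ha2⟩
      · exact (Int.gcd_dvd_left _ _).trans ⟨a3, ha3⟩
    set e := a3.natAbs with he
    have hepos : 0 < e := Int.natAbs_pos.mpr ha3ne
    have hde : d * e = n3.natAbs := by
      rw [he, ha3, Int.natAbs_mul, Int.natAbs_natCast]
    -- fibres
    have hfib : ∀ a ∈ S.image (fun v => v.1), (S.filter (fun v => v.1 = a)).card ≤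
        2 * N / e + 1 := by
      intro a ha
      rw [Finset.mem_image] at ha
      obtain ⟨w, hw, hwa⟩ := ha
      have hw' := hmem w hw
      refine le_trans ?_ (Pl_class_nat N e hepos w.2.1)
      apply Finset.card_le_card_of_injOn (fun v : V => v.2.1)
      · intro v hv
        rw [Finset.mem_coe, Finset.mem_filter] at hv
        have hv' := hmem v hv.1
        rw [Finset.mem_coe, Finset.mem_filter]
        refine ⟨hv'.2.1, ?_⟩
        have h1 : v.1 = w.1 := hv.2.trans hwa.symm
        have h2 : n2 * (v.2.1 - w.2.1) = n3 * (w.2.2 - v.2.2) := by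
          have := hv'.2.2.trans hw'.2.2.symm
          rw [h1] at this
          linarith
        rw [ha2, ha3] at h2
        have h4 : a2 * (v.2.1 - w.2.1) = a3 * (w.2.2 - v.2.2) := by
          apply mul_left_cancel₀ hdZ
          calc (d : ℤ) * (a2 * (v.2.1 - w.2.1)) = d * a2 * (v.2.1 - w.2.1) := by ring
            _ = d * a3 * (w.2.2 - v.2.2) := h2
            _ = _ := by ring
        have h5 : a3 ∣ a2 * (v.2.1 - w.2.1) := ⟨_, h4⟩
        have h6 : a3 ∣ v.2.1 - w.2.1 := hcop.dvd_of_dvd_mul_left h5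
        rw [he]
        exact Int.natAbs_dvd.mpr h6
      · intro v hv v' hv' hvv
        rw [Finset.mem_coe, Finset.mem_filter] at hv hv'
        have k1 := (hmem v hv.1).2.2
        have k2 := (hmem v' hv'.1).2.2
        have e1 : v.1 = v'.1 := hv.2.trans hv'.2.symm
        have e2 : v.2.1 = v'.2.1 := hvv
        rw [e1, e2] at k1
        have e3 : n3 * v.2.2 = n3 * v'.2.2 := by linarith
        have e4 := mul_left_cancel₀ h3 e3
        exact Prod.ext e1 (Prod.ext e2 e4)
    have himg : (S.image (fun v => v.1)).card ≤ 2 * N / d + 1 := by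
      refine le_trans (Finset.card_le_card ?_) (Pl_class_nat N d hdpos v0.1)
      intro a ha
      rw [Finset.mem_image] at ha
      obtain ⟨v, hv, rfl⟩ := ha
      have hv' := hmem v hv
      rw [Finset.mem_filter]
      refine ⟨hv'.1, ?_⟩
      have h1 : (d : ℤ) ∣ n1 * (v.1 - v0.1) := by
        refine ⟨a2 * (v0.2.1 - v.2.1) + a3 * (v0.2.2 - v.2.2), ?_⟩
        have := hv'.2.2.trans hv0'.2.2.symm
        rw [ha2, ha3] at this
        linear_combination this
      exact hcop1.dvd_of_dvd_mul_left h1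
    have hcard := Finset.card_le_mul_card_image (f := fun v : V => v.1) S (2 * N / e + 1) hfib
    have hcard2 : S.card ≤ (2 * N / e + 1) * (2 * N / d + 1) :=
      hcard.trans (Nat.mul_le_mul_left _ himg)
    have hcard3 : (S.card : ℝ) ≤ ((2 * N / e : ℕ) + 1 : ℝ) * ((2 * N / d : ℕ) + 1 : ℝ) := by
      exact_mod_cast hcard2
    have r1 : ((2 * N / e : ℕ) : ℝ) ≤ ((2 * N : ℕ) : ℝ) / e := Nat.cast_div_le
    have r2 : ((2 * N / d : ℕ) : ℝ) ≤ ((2 * N : ℕ) : ℝ) / d := Nat.cast_div_le
    push_cast at r1 r2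
    have he1 : (1 : ℝ) ≤ e := by exact_mod_cast hepos
    have hd1 : (1 : ℝ) ≤ d := by exact_mod_cast hdpos
    have hN1 : (1 : ℝ) ≤ N := by exact_mod_cast hN
    have hde' : (d : ℝ) * e = (n3.natAbs : ℝ) := by exact_mod_cast hde
    have r3 : 2 * (N : ℝ) / e ≤ 2 * N := div_le_self (by positivity) he1
    have r4 : 2 * (N : ℝ) / d ≤ 2 * N := div_le_self (by positivity) hd1
    calc (S.card : ℝ) ≤ ((2 * N / e : ℕ) + 1 : ℝ) * ((2 * N / d : ℕ) + 1 : ℝ) := hcard3
      _ ≤ (2 * (N : ℝ) / e + 1) * (2 * (N : ℝ) / d + 1) := by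
          apply mul_le_mul (by linarith) (by linarith) (by positivity) (by positivity)
      _ = 4 * (N : ℝ) ^ 2 / (d * e) + 2 * (N : ℝ) / e + 2 * (N : ℝ) / d + 1 := by
          field_simp
          ring
      _ ≤ 4 * (N : ℝ) ^ 2 / (n3.natAbs : ℝ) + 5 * N := by
          rw [hde']
          linarith

/-- (Pl2) Proof. Let `ν = nm n` be attained at the third coordinate (the other two cases are the same; `ν > 0` as `Prim n` excludes `n = 0`), `d = gcd(n₂, n₃) ≥ 1`, `d ≤ ν`. For a point `v = (a, b, c)` of the box with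
`dot n v = m`: `d ∣ m - n₁ a`, and `gcd(n₁, d) = 1` (`Prim`), so `a` lies in one residue class modulo `d`: at most `2N/d + 1` values. For given `a`, two solutions `(b, c), (b', c')` satisfy
`n₂ (b - b') = - n₃ (c - c')`, so `ν/d ∣ b - b'` (`gcd(n₂/d, n₃/d) = 1`): `b` lies in one class modulo `ν/d`: at most `2Nd/ν + 1` values, and `c` is determined by `a, b` (`n₃ ≠ 0`). Total
`≤ (2N/d + 1)(2Nd/ν + 1) = 4N²/ν + 2N/d + 2Nd/ν + 1 ≤ 4N²/ν + 5N`. -/
theorem plane_count (N : ℕ) (hN : 0 < N) (n : V) (hn : Prim n) (m : ℤ) :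
    (((box N).filter fun v => dot n v = m).card : ℝ) ≤ 4 * (N : ℝ) ^ 2 / nm n + 5 * N := by
  obtain ⟨n1, n2, n3⟩ := n
  have hne : ¬ (n1 = 0 ∧ n2 = 0 ∧ n3 = 0) := by
    rintro ⟨h1, h2, h3⟩
    have := hn 2 ⟨by simp [h1], by simp [h2], by simp [h3]⟩
    omega
  have hnm : nm (n1, n2, n3) = n1.natAbs ∨ nm (n1, n2, n3) = n2.natAbs ∨
      nm (n1, n2, n3) = n3.natAbs := by
    unfold nm
    simp only
    omega
  have hnm0 : nm (n1, n2, n3) ≠ 0 := by
    unfold nm
    simp only
    omega
  rcases hnm with h | h | h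
  · have hz : n1 ≠ 0 := by
      intro hz
      rw [hz] at h
      exact hnm0 (by rw [hz]; exact h)
    have h1 := Pl_aux N hN n2 n3 n1 m hz (fun q a b c => hn q ⟨c, a, b⟩)
    rw [h]
    refine le_trans ?_ h1
    have h2 : ((box N).filter fun v => dot (n1, n2, n3) v = m).card ≤
        ((box N).filter fun v => n2 * v.1 + n3 * v.2.1 + n1 * v.2.2 = m).card := by
      apply Finset.card_le_card_of_injOn (fun v : V => ((v.2.1, v.2.2, v.1) : V))
      · intro v hv
        rw [Finset.mem_coe, Finset.mem_filter, box, Finset.mem_product, Finset.mem_product] at hv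
        rw [Finset.mem_coe, Finset.mem_filter, box, Finset.mem_product, Finset.mem_product]
        refine ⟨⟨hv.1.2.1, hv.1.2.2, hv.1.1⟩, ?_⟩
        have := hv.2
        simp only [dot] at this
        simp only
        linarith
      · intro v _ v' _ hvv
        simp only [Prod.mk.injEq] at hvv
        exact Prod.ext hvv.2.2 (Prod.ext hvv.1 hvv.2.1)
    exact_mod_cast h2
  · have hz : n2 ≠ 0 := by
      intro hz
      rw [hz] at h
      exact hnm0 (by rw [hz]; exact h)
    have h1 := Pl_aux N hN n1 n3 n2 m hz (fun q a b c => hn q ⟨a, c, b⟩)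
    rw [h]
    refine le_trans ?_ h1
    have h2 : ((box N).filter fun v => dot (n1, n2, n3) v = m).card ≤
        ((box N).filter fun v => n1 * v.1 + n3 * v.2.1 + n2 * v.2.2 = m).card := by
      apply Finset.card_le_card_of_injOn (fun v : V => ((v.1, v.2.2, v.2.1) : V))
      · intro v hv
        rw [Finset.mem_coe, Finset.mem_filter, box, Finset.mem_product, Finset.mem_product] at hv
        rw [Finset.mem_coe, Finset.mem_filter, box, Finset.mem_product, Finset.mem_product]
        refine ⟨⟨hv.1.1, hv.1.2.2, hv.1.2.1⟩, ?_⟩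
        have := hv.2
        simp only [dot] at this
        simp only
        linarith
      · intro v _ v' _ hvv
        simp only [Prod.mk.injEq] at hvv
        exact Prod.ext hvv.1 (Prod.ext hvv.2.2 hvv.2.1)
    exact_mod_cast h2
  · have hz : n3 ≠ 0 := by
      intro hz
      rw [hz] at h
      exact hnm0 (by rw [hz]; exact h)
    have h1 := Pl_aux N hN n1 n2 n3 m hz (fun q a b c => hn q ⟨a, b, c⟩)
    rw [h]
    exact h1

end FGO
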