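import Pool.Agent.Lib.MP_1ad228_ntG.Defs

/-! JOB Z0: few pairs have resultant zero. -/

set_option autoImplicit false

open Classical

namespace FGO

open Finset

/-- The interval. -/
theorem Z0_card (N : ℕ) : (Icc (-(N : ℤ)) (N : ℤ)).card = 2 * N + 1 := by
  rw [Int.card_Icc]
  omega

/-- A quadratic equation has at most two solutions. -/
theorem Z0_quad (s : Finset ℤ) (a b c : ℤ) (ha : a ≠ 0) :
    (s.filter fun x => a * x ^ 2 + b * x + c = 0).card ≤ 2 := by
  by_contra h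
  push Not at h
  obtain ⟨x, y, z, hx, hy, hz, hxy, hxz, hyz⟩ := two_lt_card_iff.1 h
  have ex := (mem_filter.1 hx).2
  have ey := (mem_filter.1 hy).2
  have ez := (mem_filter.1 hz).2
  have h1 : (x - y) * (a * (x + y) + b) = 0 := by linear_combination ex - ey
  have h2 : (x - z) * (a * (x + z) + b) = 0 := by linear_combination ex - ez
  have h3 := (mul_eq_zero.1 h1).resolve_left (sub_ne_zero.2 hxy)
  have h4 := (mul_eq_zero.1 h2).resolve_left (sub_ne_zero.2 hxz)
  have h5 : a * (y - z) = 0 := by linear_combination h3 - h4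
  exact (mul_ne_zero ha (sub_ne_zero.2 hyz)) h5

/-- Few pairs have resultant zero. -/
theorem res_zero_card (N : ℕ) (hN : 0 < N) :
    (((box2 N).filter fun u => res u.1 u.2 = 0).card : ℝ) ≤ 729 * (N : ℝ) ^ 5 := by
  set I : Finset ℤ := Icc (-(N : ℤ)) (N : ℤ) with hI
  -- the parameters `(v, (B, C))`
  let P : Finset (V × (ℤ × ℤ)) := box N ×ˢ (I ×ˢ I)
  have hP : P.card = (2 * N + 1) ^ 5 := by
    simp only [P, box, card_product, ← hI]
    rw [hI, Z0_card]
    ring
  let S0 : Finset (V × V) := (box2 N).filter fun u => u.1.2.2 = 0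
  let T : V × (ℤ × ℤ) → Finset (V × V) := fun w =>
    if w.1.2.2 = 0 then ∅ else
      (I.filter fun A => w.1.2.2 ^ 2 * A ^ 2 +
        (-2 * w.1.1 * w.2.2 * w.1.2.2 + w.1.2.1 * (w.1.2.1 * w.2.2 - w.2.1 * w.1.2.2)) * A +
        ((w.1.1 * w.2.2) ^ 2 - w.1.1 * w.2.1 * (w.1.2.1 * w.2.2 - w.2.1 * w.1.2.2)) = 0).image
        fun A => (w.1, (A, w.2))
  have hT : ∀ w, (T w).card ≤ 2 := by
    intro w
    by_cases h : w.1.2.2 = 0
    · simp only [T, if_pos h, card_empty]
      norm_num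
    · simp only [T, if_neg h]
      exact card_image_le.trans (Z0_quad _ _ _ _ (pow_ne_zero 2 h))
  have hsub : ((box2 N).filter fun u => res u.1 u.2 = 0) ⊆ S0 ∪ P.biUnion T := by
    intro u hu
    obtain ⟨h1, h2⟩ := mem_filter.1 hu
    rw [mem_union]
    by_cases h : u.1.2.2 = 0
    · exact Or.inl (mem_filter.2 ⟨h1, h⟩)
    · refine Or.inr (mem_biUnion.2 ⟨(u.1, u.2.2), ?_, ?_⟩)
      · obtain ⟨k1, k2⟩ := mem_box2.1 h1
        unfold box at k2
        obtain ⟨_, k3⟩ := mem_product.1 k2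
        exact mem_product.2 ⟨k1, k3⟩
      · simp only [T, if_neg h]
        refine mem_image.2 ⟨u.2.1, mem_filter.2 ⟨?_, ?_⟩, rfl⟩
        · obtain ⟨_, k2⟩ := mem_box2.1 h1
          unfold box at k2
          exact (mem_product.1 k2).1
        · rw [← h2]
          unfold res
          ring
  have hS0 : S0.card ≤ (2 * N + 1) ^ 5 := by
    have h1 : S0 ⊆ ((I ×ˢ (I ×ˢ {0})) : Finset V) ×ˢ box N := by
      intro u hu
      obtain ⟨h2, h3⟩ := mem_filter.1 hu
      obtain ⟨k1, k2⟩ := mem_box2.1 h2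
      refine mem_product.2 ⟨?_, k2⟩
      unfold box at k1
      obtain ⟨j1, j2⟩ := mem_product.1 k1
      obtain ⟨j3, _⟩ := mem_product.1 j2
      exact mem_product.2 ⟨j1, mem_product.2 ⟨j3, mem_singleton.2 h3⟩⟩
    refine (card_le_card h1).trans (le_of_eq ?_)
    simp only [box, card_product, card_singleton, ← hI]
    rw [hI, Z0_card]
    ring
  have h1 : ((box2 N).filter fun u => res u.1 u.2 = 0).card ≤ 3 * (2 * N + 1) ^ 5 := by
    calc _ ≤ (S0 ∪ P.biUnion T).card := card_le_card hsub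
      _ ≤ S0.card + (P.biUnion T).card := card_union_le _ _
      _ ≤ (2 * N + 1) ^ 5 + P.card * 2 :=
          Nat.add_le_add hS0 (card_biUnion_le_card_mul _ _ _ fun w _ => hT w)
      _ = 3 * (2 * N + 1) ^ 5 := by
          rw [hP]
          ring
  have h2 : (2 * N + 1) ^ 5 ≤ (3 * N) ^ 5 := Nat.pow_le_pow_left (by omega) 5
  have h3 : ((box2 N).filter fun u => res u.1 u.2 = 0).card ≤ 729 * N ^ 5 := by
    calc _ ≤ 3 * (2 * N + 1) ^ 5 := h1
      _ ≤ 3 * (3 * N) ^ 5 := Nat.mul_le_mul_left _ h2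
      _ = 729 * N ^ 5 := by ring
  exact_mod_cast h3

end FGO
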