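import Pool.Agent.Lib.MP_1ad228_ntG.Defs

/-! JOB Pl2: primitive vectors. -/

set_option autoImplicit false

open Classical

namespace FGO

open Finset

/-- (Pl3) every nonzero vector is a multiple of a primitive one.
Proof. Divide by the (positive) gcd `e` of the coordinates. -/
theorem exists_prim (n : V) (hn : n ≠ 0) :
    ∃ (e : ℕ) (n' : V), 0 < e ∧ Prim n' ∧ n' ≠ 0 ∧ n.1 = e * n'.1 ∧ n.2.1 = e * n'.2.1 ∧ n.2.2 = e * n'.2.2 ∧
      nm n = e * nm n' := by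
  obtain ⟨e, he⟩ : ∃ e : ℕ, e = Int.gcd n.1 (Int.gcd n.2.1 n.2.2) := ⟨_, rfl⟩
  have h1 : (e : ℤ) ∣ n.1 := by rw [he]; exact Int.gcd_dvd_left _ _
  have h23 : (e : ℤ) ∣ (Int.gcd n.2.1 n.2.2 : ℤ) := by rw [he]; exact Int.gcd_dvd_right _ _
  have h2 : (e : ℤ) ∣ n.2.1 := h23.trans (Int.gcd_dvd_left _ _)
  have h3 : (e : ℤ) ∣ n.2.2 := h23.trans (Int.gcd_dvd_right _ _)
  obtain ⟨a, ha⟩ := h1
  obtain ⟨b, hb⟩ := h2
  obtain ⟨c, hc⟩ := h3
  have hepos : 0 < e := by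
    rcases Nat.eq_zero_or_pos e with h0 | h0
    · exfalso
      apply hn
      rw [h0] at ha hb hc
      refine Prod.ext ?_ (Prod.ext ?_ ?_)
      · rw [ha]; simp
      · rw [hb]; simp
      · rw [hc]; simp
    · exact h0
  refine ⟨e, (a, b, c), hepos, ?_, ?_, ha, hb, hc, ?_⟩
  · intro q hq
    obtain ⟨hqa, hqb, hqc⟩ := hq
    have k1 : ((e * q : ℕ) : ℤ) ∣ n.1 := by
      rw [ha]; push_cast; exact mul_dvd_mul_left _ hqa
    have k2 : ((e * q : ℕ) : ℤ) ∣ n.2.1 := by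
      rw [hb]; push_cast; exact mul_dvd_mul_left _ hqb
    have k3 : ((e * q : ℕ) : ℤ) ∣ n.2.2 := by
      rw [hc]; push_cast; exact mul_dvd_mul_left _ hqc
    have k4 : e * q ∣ e := by
      have k5 : ((e * q : ℕ) : ℤ) ∣ (e : ℤ) := by
        have k6 : ((e * q : ℕ) : ℤ) ∣ (Int.gcd n.1 (Int.gcd n.2.1 n.2.2) : ℤ) :=
          Int.dvd_coe_gcd k1 (Int.dvd_coe_gcd k2 k3)
        rwa [← he] at k6
      exact_mod_cast k5
    have k7 : e * q ∣ e * 1 := by rwa [mul_one]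
    exact Nat.dvd_one.1 (Nat.dvd_of_mul_dvd_mul_left hepos k7)
  · intro h
    apply hn
    have q1 := congrArg (fun v : V => v.1) h
    have q2 := congrArg (fun v : V => v.2.1) h
    have q3 := congrArg (fun v : V => v.2.2) h
    change a = 0 at q1
    change b = 0 at q2
    change c = 0 at q3
    refine Prod.ext ?_ (Prod.ext ?_ ?_)
    · rw [ha, q1]; simp
    · rw [hb, q2]; simp
    · rw [hc, q3]; simp
  · unfold nm
    rw [ha, hb, hc, Int.natAbs_mul, Int.natAbs_mul, Int.natAbs_mul, Int.natAbs_natCast,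
      Nat.mul_max_mul_left, Nat.mul_max_mul_left]

/-- (Pl4) the number of vectors of given norm. Proof. `#{nm ≤ j} = (2j+1)³` (`box j`), `(2j+1)³ - (2j-1)³ = 24 j² + 2 ≤ 26 j²` for `j ≥ 1`. -/
theorem card_nm_eq (K j : ℕ) (hj : 0 < j) : ((box K).filter fun n => nm n = j).card ≤ 26 * j ^ 2 := by
  obtain ⟨i, rfl⟩ : ∃ i, j = i + 1 := ⟨j - 1, by omega⟩
  have hcard : ∀ m : ℕ, (box m).card = (2 * m + 1) ^ 3 := by
    intro m
    have h1 : (Icc (-(m : ℤ)) (m : ℤ)).card = 2 * m + 1 := by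
      rw [Int.card_Icc]
      omega
    rw [box, card_product, card_product, h1]
    ring
  have hle : box i ⊆ box (i + 1) := by
    intro v hv
    rw [mem_box] at hv ⊢
    push_cast
    exact ⟨by linarith [hv.1], by linarith [hv.2.1], by linarith [hv.2.2]⟩
  have hsub : ((box K).filter fun n => nm n = i + 1) ⊆ box (i + 1) \ box i := by
    intro v hv
    rw [mem_filter] at hv
    have h2 : nm v = i + 1 := hv.2
    unfold nm at h2
    rw [mem_sdiff, mem_box, mem_box]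
    refine ⟨?_, ?_⟩
    · rw [Int.abs_eq_natAbs, Int.abs_eq_natAbs, Int.abs_eq_natAbs]
      refine ⟨?_, ?_, ?_⟩ <;> norm_cast <;> omega
    · rw [Int.abs_eq_natAbs, Int.abs_eq_natAbs, Int.abs_eq_natAbs]
      rintro ⟨h3, h4, h5⟩
      norm_cast at h3 h4 h5
      omega
  refine (card_le_card hsub).trans ?_
  rw [card_sdiff_of_subset hle, hcard, hcard]
  have e1 : (2 * (i + 1) + 1) ^ 3 = (2 * i + 1) ^ 3 + (24 * (i + 1) ^ 2 + 2) := by ring
  rw [e1, Nat.add_sub_cancel_left]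
  nlinarith [sq_nonneg i]

end FGO
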