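import Pool.Agent.Lib.MP_1ad228_ntG.Pl
import Pool.Agent.Lib.MP_1ad228_ntG.Pl2

/-! JOB E2b. -/

set_option autoImplicit false

open Classical

namespace FGO

open Finset

private theorem E2b_nm_le {n : V} {M : ℕ} (h : nm n ≤ M) : n ∈ box M := by
  rw [mem_box]
  have h1 : n.1.natAbs ≤ M := (le_max_left _ _).trans h
  have h2 : n.2.1.natAbs ≤ M := ((le_max_left _ _).trans (le_max_right _ _)).trans h
  have h3 : n.2.2.natAbs ≤ M := ((le_max_right _ _).trans (le_max_right _ _)).trans h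
  refine ⟨?_, ?_, ?_⟩
  · rw [Int.abs_eq_natAbs]; exact_mod_cast h1
  · rw [Int.abs_eq_natAbs]; exact_mod_cast h2
  · rw [Int.abs_eq_natAbs]; exact_mod_cast h3

private theorem E2b_two {a b c d : ℤ} {N : ℕ} (ha : |a| ≤ N) (hb : |b| ≤ N) (hc : |c| ≤ N)
    (hd : |d| ≤ N) : (a * b - c * d).natAbs ≤ 2 * N ^ 2 := by
  have h1 : |a * b - c * d| ≤ 2 * (N : ℤ) ^ 2 := by
    have h2 : |a * b| ≤ (N : ℤ) * N := by
      rw [abs_mul]
      exact mul_le_mul ha hb (abs_nonneg _) (by positivity)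
    have h3 : |c * d| ≤ (N : ℤ) * N := by
      rw [abs_mul]
      exact mul_le_mul hc hd (abs_nonneg _) (by positivity)
    calc |a * b - c * d| ≤ |a * b| + |c * d| := abs_sub _ _
      _ ≤ (N : ℤ) * N + N * N := add_le_add h2 h3
      _ = 2 * (N : ℤ) ^ 2 := by ring
  rw [Int.abs_eq_natAbs] at h1
  exact_mod_cast h1

private theorem E2b_crs {N : ℕ} {v w : V} (hv : v ∈ box N) (hw : w ∈ box N) :
    nm (crs v w) ≤ 2 * N ^ 2 := by
  rw [mem_box] at hv hw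
  obtain ⟨a1, a2, a3⟩ := hv
  obtain ⟨b1, b2, b3⟩ := hw
  exact max_le (E2b_two a2 b3 a3 b2) (max_le (E2b_two a3 b1 a1 b3) (E2b_two a1 b2 a2 b1))

private theorem E2b_nm_pos {n : V} (h : n ≠ 0) : 0 < nm n := by
  rw [Nat.pos_iff_ne_zero]
  intro h0
  apply h
  have h1 : n.1.natAbs ≤ 0 := (le_max_left _ _).trans h0.le
  have h2 : n.2.1.natAbs ≤ 0 := ((le_max_left _ _).trans (le_max_right _ _)).trans h0.le
  have h3 : n.2.2.natAbs ≤ 0 := ((le_max_right _ _).trans (le_max_right _ _)).trans h0.le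
  have e1 : n.1 = 0 := by omega
  have e2 : n.2.1 = 0 := by omega
  have e3 : n.2.2 = 0 := by omega
  exact Prod.ext e1 (Prod.ext e2 e3)

/-- (E2c) Proof. `res ≠ 0` so `n := crs u.1 u.2 ≠ 0` (`res_crs`), `nm n ≤ 2N²`, `p ∣ n` with `p > N`: the primitive part `n'` of `n = e n'` satisfies `p ∣ e` hence `nm n' ≤ 2N²/p < 2N`, and
`dot n' u.1 = dot n' u.2 = 0` (`dot_crs_left`, `dot_crs_right`). So the number is `≤ ∑_{n' ∈ box (2N) primitive} (4N²/ν + 5N)²`, `ν = nm n' ≤ 2N`, `5N ≤ 10 N²/ν`: `≤ ∑ 196 N⁴/ν² ≤ ∑_{ν=1}^{2N} 26 ν² · 196 N⁴/ν²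
= 10192 N⁵` (`card_nm_eq`). -/
theorem crs_large (N : ℕ) (hN : 0 < N) :
    (((box2 N).filter fun u => res u.1 u.2 ≠ 0 ∧ ∃ p : ℕ, p.Prime ∧ N < p ∧ Dv p (crs u.1 u.2)).card : ℝ) ≤
      10192 * (N : ℝ) ^ 5 := by
  have hN' : (0 : ℝ) < N := by exact_mod_cast hN
  set B : Finset V := (box (2 * N)).filter fun n => Prim n ∧ n ≠ 0 ∧ nm n ≤ 2 * N with hB
  set P : V → Finset V := fun n => (box N).filter fun v => dot n v = 0 with hP
  have hsub : ((box2 N).filter fun u => res u.1 u.2 ≠ 0 ∧ ∃ p : ℕ, p.Prime ∧ N < p ∧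
      Dv p (crs u.1 u.2)) ⊆ B.biUnion fun n => P n ×ˢ P n := by
    intro u hu
    rw [mem_filter, mem_box2] at hu
    obtain ⟨⟨hu1, hu2⟩, hres, p, hp, hNp, hdv⟩ := hu
    have hn0 : crs u.1 u.2 ≠ 0 := by
      intro h
      apply hres
      rw [res_crs, h]
      rfl
    obtain ⟨e, n', he, hpr, hn', c1, c2, c3, hnm⟩ := exists_prim _ hn0
    have hpe : p ∣ e := by
      by_contra hc
      have hpZ : Prime (p : ℤ) := Nat.prime_iff_prime_int.1 hp
      have hce : ¬ (p : ℤ) ∣ (e : ℤ) := fun h => hc (Int.natCast_dvd_natCast.1 h)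
      have k1 : (p : ℤ) ∣ n'.1 := by
        have h := hdv.1
        rw [c1] at h
        exact (hpZ.dvd_or_dvd h).resolve_left hce
      have k2 : (p : ℤ) ∣ n'.2.1 := by
        have h := hdv.2.1
        rw [c2] at h
        exact (hpZ.dvd_or_dvd h).resolve_left hce
      have k3 : (p : ℤ) ∣ n'.2.2 := by
        have h := hdv.2.2
        rw [c3] at h
        exact (hpZ.dvd_or_dvd h).resolve_left hce
      exact hp.one_lt.ne' (hpr p ⟨k1, k2, k3⟩)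
    have hpe' : p ≤ e := Nat.le_of_dvd he hpe
    have hle := E2b_crs hu1 hu2
    rw [hnm] at hle
    have hν : nm n' ≤ 2 * N := by
      by_contra hc
      push Not at hc
      have h1 : (N + 1) * (2 * N) ≤ e * nm n' := Nat.mul_le_mul (by omega) hc.le
      nlinarith
    have hdot : ∀ v : V, dot (crs u.1 u.2) v = 0 → dot n' v = 0 := by
      intro v hv
      rw [dot, c1, c2, c3] at hv
      have h1 : (e : ℤ) * dot n' v = 0 := by
        rw [dot]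
        linear_combination hv
      rcases mul_eq_zero.1 h1 with h2 | h2
      · exfalso
        exact he.ne' (by exact_mod_cast h2)
      · exact h2
    rw [mem_biUnion]
    refine ⟨n', ?_, ?_⟩
    · rw [hB, mem_filter]
      exact ⟨E2b_nm_le hν, hpr, hn', hν⟩
    · rw [mem_product, hP]
      simp only [mem_filter]
      exact ⟨⟨hu1, hdot _ (dot_crs_left _ _)⟩, ⟨hu2, hdot _ (dot_crs_right _ _)⟩⟩
  have h1 : (((box2 N).filter fun u => res u.1 u.2 ≠ 0 ∧ ∃ p : ℕ, p.Prime ∧ N < p ∧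
      Dv p (crs u.1 u.2)).card : ℝ) ≤ ∑ n ∈ B, ((P n).card : ℝ) ^ 2 := by
    have h2 := (card_le_card hsub).trans card_biUnion_le
    have h3 : (∑ n ∈ B, (P n ×ˢ P n).card : ℕ) = ∑ n ∈ B, (P n).card ^ 2 :=
      sum_congr rfl fun n _ => by rw [card_product, pow_two]
    rw [h3] at h2
    exact_mod_cast h2
  have h2 : ∀ n ∈ B, ((P n).card : ℝ) ^ 2 ≤ 196 * (N : ℝ) ^ 4 / (nm n : ℝ) ^ 2 := by
    intro n hn
    rw [hB, mem_filter] at hn
    obtain ⟨_, hpr, hn0, hle⟩ := hn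
    have hpos : (0 : ℝ) < nm n := by exact_mod_cast E2b_nm_pos hn0
    have hle' : (nm n : ℝ) ≤ 2 * N := by exact_mod_cast hle
    have h3 := plane_count N hN n hpr 0
    have h4 : 5 * (N : ℝ) ≤ 10 * (N : ℝ) ^ 2 / nm n := by
      rw [le_div_iff₀ hpos]
      nlinarith
    have h5 : ((P n).card : ℝ) ≤ 14 * (N : ℝ) ^ 2 / nm n := by
      refine h3.trans ?_
      have e1 : 14 * (N : ℝ) ^ 2 / nm n = 4 * (N : ℝ) ^ 2 / nm n + 10 * (N : ℝ) ^ 2 / nm n := by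
        ring
      rw [e1]
      linarith
    calc ((P n).card : ℝ) ^ 2 ≤ (14 * (N : ℝ) ^ 2 / nm n) ^ 2 :=
          pow_le_pow_left₀ (Nat.cast_nonneg _) h5 2
      _ = 196 * (N : ℝ) ^ 4 / (nm n : ℝ) ^ 2 := by
          rw [div_pow]
          ring
  have h3 : ∑ n ∈ B, 196 * (N : ℝ) ^ 4 / (nm n : ℝ) ^ 2 ≤
      ∑ j ∈ Icc 1 (2 * N), 26 * (j : ℝ) ^ 2 * (196 * (N : ℝ) ^ 4 / (j : ℝ) ^ 2) := by
    have hmap : ∀ n ∈ B, nm n ∈ Icc 1 (2 * N) := by
      intro n hn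
      rw [hB, mem_filter] at hn
      rw [mem_Icc]
      exact ⟨E2b_nm_pos hn.2.2.1, hn.2.2.2⟩
    rw [← sum_fiberwise_of_maps_to hmap]
    refine sum_le_sum fun j hj => ?_
    have hj1 := (mem_Icc.1 hj).1
    have h4 : ∑ n ∈ B.filter (fun n => nm n = j), 196 * (N : ℝ) ^ 4 / (nm n : ℝ) ^ 2 =
        ((B.filter fun n => nm n = j).card : ℝ) * (196 * (N : ℝ) ^ 4 / (j : ℝ) ^ 2) := by
      rw [← nsmul_eq_mul, ← sum_const]
      refine sum_congr rfl fun n hn => ?_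
      rw [(mem_filter.1 hn).2]
    rw [h4]
    have h5 : (B.filter fun n => nm n = j).card ≤ 26 * j ^ 2 := by
      refine le_trans (card_le_card ?_) (card_nm_eq (2 * N) j hj1)
      intro n hn
      rw [mem_filter, hB, mem_filter] at hn
      exact mem_filter.2 ⟨hn.1.1, hn.2⟩
    have h6 : ((B.filter fun n => nm n = j).card : ℝ) ≤ 26 * (j : ℝ) ^ 2 := by exact_mod_cast h5
    exact mul_le_mul_of_nonneg_right h6 (by positivity)
  have h4 : ∑ j ∈ Icc 1 (2 * N), 26 * (j : ℝ) ^ 2 * (196 * (N : ℝ) ^ 4 / (j : ℝ) ^ 2) =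
      10192 * (N : ℝ) ^ 5 := by
    have h5 : ∀ j ∈ Icc 1 (2 * N), 26 * (j : ℝ) ^ 2 * (196 * (N : ℝ) ^ 4 / (j : ℝ) ^ 2) =
        5096 * (N : ℝ) ^ 4 := by
      intro j hj
      have hj1 := (mem_Icc.1 hj).1
      have hj' : (j : ℝ) ≠ 0 := by
        have : 0 < j := hj1
        positivity
      field_simp
      ring
    rw [sum_congr rfl h5, sum_const, Nat.card_Icc, nsmul_eq_mul, Nat.add_sub_cancel]
    push_cast
    ring
  calc (((box2 N).filter fun u => res u.1 u.2 ≠ 0 ∧ ∃ p : ℕ, p.Prime ∧ N < p ∧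
      Dv p (crs u.1 u.2)).card : ℝ) ≤ ∑ n ∈ B, ((P n).card : ℝ) ^ 2 := h1
    _ ≤ ∑ n ∈ B, 196 * (N : ℝ) ^ 4 / (nm n : ℝ) ^ 2 := sum_le_sum h2
    _ ≤ _ := h3
    _ = 10192 * (N : ℝ) ^ 5 := h4

end FGO
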