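import Pool.Agent.Lib.MP_1ad228_ntG.E2
import Pool.Agent.Lib.MP_1ad228_ntG.E2b

/-! JOB E2c. -/

set_option autoImplicit false

open Classical

namespace FGO

open Finset

private theorem E2c_sum (N P0 : ℕ) (hP : 0 < P0) :
    ∑ p ∈ Ioc P0 N, (1 : ℝ) / (p : ℝ) ^ 2 ≤ 1 / (P0 : ℝ) := by
  rcases Nat.lt_or_ge N P0 with h | h
  · rw [Ioc_eq_empty_of_le h.le]
    simp
  · have h1 := sum_Ioc_inv_sq_le_sub (α := ℝ) (k := P0) (n := N) hP.ne' h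
    have h2 : (0 : ℝ) ≤ (N : ℝ)⁻¹ := by positivity
    have h3 : ∑ p ∈ Ioc P0 N, (1 : ℝ) / (p : ℝ) ^ 2 = ∑ i ∈ Ioc P0 N, ((i : ℝ) ^ 2)⁻¹ := by
      apply sum_congr rfl
      intro i _
      rw [one_div]
    rw [h3, one_div]
    linarith

private theorem E2c_sub (N P0 : ℕ) :
    (box2 N).filter (Exc2 P0) ⊆
      ((box2 N).filter fun u => res u.1 u.2 ≠ 0 ∧ ∃ p : ℕ, p.Prime ∧ N < p ∧ Dv p (crs u.1 u.2)) ∪
        ((Ioc P0 N).filter Nat.Prime).biUnion (fun p =>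
          ((box2 N).filter fun u => (p : ℤ) ∣ u.1.1 ∧ (p : ℤ) ∣ u.2.1) ∪
            ((box2 N).filter fun u => Dv p (crs u.1 u.2))) := by
  intro u hu
  obtain ⟨hb, hr, p, hp, hP, hpu⟩ := mem_filter.1 hu
  rw [mem_union]
  rcases Nat.lt_or_ge N p with hNp | hNp
  · left
    rcases hpu with h | ⟨h1, h2⟩
    · exact mem_filter.2 ⟨hb, hr, p, hp, hNp, h⟩
    · exfalso
      have hb' := mem_box2.1 hb
      have a1 := (mem_box.1 hb'.1).1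
      have a2 := (mem_box.1 hb'.2).1
      have hNp' : (N : ℤ) < (p : ℤ) := by exact_mod_cast hNp
      have e1 : u.1.1 = 0 := Int.eq_zero_of_abs_lt_dvd h1 (lt_of_le_of_lt a1 hNp')
      have e2 : u.2.1 = 0 := Int.eq_zero_of_abs_lt_dvd h2 (lt_of_le_of_lt a2 hNp')
      apply hr
      unfold res
      rw [e1, e2]
      ring
  · right
    rw [mem_biUnion]
    refine ⟨p, mem_filter.2 ⟨mem_Ioc.2 ⟨hP, hNp⟩, hp⟩, ?_⟩
    rw [mem_union]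
    rcases hpu with h | h
    · right; exact mem_filter.2 ⟨hb, h⟩
    · left; exact mem_filter.2 ⟨hb, h⟩

/-- (E2d) Proof. The pairs with `Exc2 P0 u`: a prime `p` with `P0 < p ≤ N`: `∑_{p > P0} (729 + 1458) N^6/p² ≤ 2187 N^6/P0` (`∑_{p > P0} 1/p² ≤ 1/P0`, telescoping `1/p² ≤ 1/(p-1) - 1/p`); or `p > N`: E2c, or
`p ∣ u.1.1`, `p ∣ u.2.1` and so `u.1.1 = u.2.1 = 0`, but then `res = 0` (in this case `v.1 = w.1 = 0`: `res = 0` by `ring`), excluded. -/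
theorem exc2_card : ∃ C : ℝ, 0 < C ∧ ∀ N P0 : ℕ, 0 < N → 0 < P0 →
    (((box2 N).filter (Exc2 P0)).card : ℝ) ≤ C * ((N : ℝ) ^ 6 / P0 + (N : ℝ) ^ 5) := by
  refine ⟨10192, by norm_num, ?_⟩
  intro N P0 hN hP
  have h0 : (((box2 N).filter (Exc2 P0)).card : ℝ) ≤
      (((box2 N).filter fun u => res u.1 u.2 ≠ 0 ∧ ∃ p : ℕ, p.Prime ∧ N < p ∧ Dv p (crs u.1 u.2)).card : ℝ) +
        ∑ p ∈ (Ioc P0 N).filter Nat.Prime,
          ((((box2 N).filter fun u => (p : ℤ) ∣ u.1.1 ∧ (p : ℤ) ∣ u.2.1).card : ℝ) +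
            (((box2 N).filter fun u => Dv p (crs u.1 u.2)).card : ℝ)) := by
    have h1 := (card_le_card (E2c_sub N P0)).trans (card_union_le _ _)
    have h2 := card_biUnion_le (s := (Ioc P0 N).filter Nat.Prime) (t := fun p =>
          ((box2 N).filter fun u => (p : ℤ) ∣ u.1.1 ∧ (p : ℤ) ∣ u.2.1) ∪
            ((box2 N).filter fun u => Dv p (crs u.1 u.2)))
    have h3 : ∑ p ∈ (Ioc P0 N).filter Nat.Prime,
          (((box2 N).filter fun u => (p : ℤ) ∣ u.1.1 ∧ (p : ℤ) ∣ u.2.1) ∪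
            ((box2 N).filter fun u => Dv p (crs u.1 u.2))).card ≤
        ∑ p ∈ (Ioc P0 N).filter Nat.Prime,
          (((box2 N).filter fun u => (p : ℤ) ∣ u.1.1 ∧ (p : ℤ) ∣ u.2.1).card +
            ((box2 N).filter fun u => Dv p (crs u.1 u.2)).card) :=
      sum_le_sum (fun p _ => card_union_le _ _)
    have h4 := h1.trans (Nat.add_le_add_left (h2.trans h3) _)
    have h5 : (((box2 N).filter (Exc2 P0)).card : ℝ) ≤ _ := Nat.cast_le.2 h4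
    push_cast at h5
    exact h5
  have h1 := crs_large N hN
  have h2 : ∑ p ∈ (Ioc P0 N).filter Nat.Prime,
          ((((box2 N).filter fun u => (p : ℤ) ∣ u.1.1 ∧ (p : ℤ) ∣ u.2.1).card : ℝ) +
            (((box2 N).filter fun u => Dv p (crs u.1 u.2)).card : ℝ)) ≤
      ∑ p ∈ (Ioc P0 N).filter Nat.Prime, 2187 * (N : ℝ) ^ 6 * (1 / (p : ℝ) ^ 2) := by
    apply sum_le_sum
    intro p hp
    obtain ⟨hp1, hp2⟩ := mem_filter.1 hp
    obtain ⟨hp3, hp4⟩ := mem_Ioc.1 hp1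
    have a1 := lead_small N p hp2.pos hp4
    have a2 := crs_small N p hp2 hp4
    have e : 2187 * (N : ℝ) ^ 6 * (1 / (p : ℝ) ^ 2) =
        729 * (N : ℝ) ^ 6 / (p : ℝ) ^ 2 + 1458 * (N : ℝ) ^ 6 / (p : ℝ) ^ 2 := by ring
    rw [e]
    exact add_le_add a1 a2
  have h3 : ∑ p ∈ (Ioc P0 N).filter Nat.Prime, 2187 * (N : ℝ) ^ 6 * (1 / (p : ℝ) ^ 2) ≤
      2187 * (N : ℝ) ^ 6 * (1 / (P0 : ℝ)) := by
    rw [← mul_sum]
    apply mul_le_mul_of_nonneg_left _ (by positivity)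
    refine le_trans (sum_le_sum_of_subset_of_nonneg (filter_subset _ _) ?_) (E2c_sum N P0 hP)
    intro i _ _
    positivity
  have hP' : (0 : ℝ) < P0 := by exact_mod_cast hP
  have h6 : 0 ≤ (N : ℝ) ^ 6 * (1 / (P0 : ℝ)) := by positivity
  have h7 : 2187 * (N : ℝ) ^ 6 * (1 / (P0 : ℝ)) ≤ 10192 * ((N : ℝ) ^ 6 / P0) := by
    have e1 : 2187 * (N : ℝ) ^ 6 * (1 / (P0 : ℝ)) = 2187 * ((N : ℝ) ^ 6 * (1 / (P0 : ℝ))) := by ring
    have e2 : 10192 * ((N : ℝ) ^ 6 / P0) = 10192 * ((N : ℝ) ^ 6 * (1 / (P0 : ℝ))) := by ring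
    rw [e1, e2]
    linarith
  calc (((box2 N).filter (Exc2 P0)).card : ℝ) ≤ _ := h0
    _ ≤ 10192 * (N : ℝ) ^ 5 + 2187 * (N : ℝ) ^ 6 * (1 / (P0 : ℝ)) := add_le_add h1 (h2.trans h3)
    _ ≤ 10192 * ((N : ℝ) ^ 6 / P0 + (N : ℝ) ^ 5) := by linarith

end FGO
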