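import Pool.Agent.Lib.MP_1ad228_ntG.E3d

/-! JOB E3e. -/

set_option autoImplicit false

open Classical

namespace FGO

open Finset

/-- (E3c4) Proof. `exc3_prim`, then E3b2 and E3c3 (`Finset.card_le_card`, `Finset.card_union_le`). -/
theorem exc3_card : ∃ C : ℝ, 0 < C ∧ ∀ N q0 : ℕ, 0 < N → 0 < q0 →
    (((box2 N).filter (Exc3 N q0)).card : ℝ) ≤ C * (q0 : ℝ) ^ 8 * (N : ℝ) ^ (11 / 2 : ℝ) := by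
  obtain ⟨C1, hC1, h1⟩ := exc3_card_ne
  obtain ⟨C2, hC2, h2⟩ := exc3_card_eq
  refine ⟨C1 + C2, add_pos hC1 hC2, fun N q0 hN hq => ?_⟩
  have hsub : (box2 N).filter (Exc3 N q0) ⊆
      ((box2 N).filter fun u => ∃ (n : V) (d : ℕ), Prim n ∧ 0 < d ∧ d ≤ 3 * N ^ 2 ∧ 4 * N * nm n < q0 * d ∧
        dsc n ≠ 0 ∧ (d : ℤ) ∣ dsc n ∧ (d : ℤ) ∣ dot n u.1 ∧ (d : ℤ) ∣ dot n u.2) ∪
      ((box2 N).filter fun u => res u.1 u.2 ≠ 0 ∧ ∃ (n : V) (d : ℕ), Prim n ∧ 0 < d ∧ d ≤ 3 * N ^ 2 ∧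
        4 * N * nm n < q0 * d ∧ dsc n = 0 ∧ (d : ℤ) ∣ dot n u.1 ∧ (d : ℤ) ∣ dot n u.2) := by
    intro u hu
    obtain ⟨hu1, hR, δ, hδ, hδ2, r, hr1, hr2, hG⟩ := mem_filter.1 hu
    obtain ⟨n, d, hn, -, hd, hdδ, hlt, hdsc, hd1, hd2⟩ := exc3_prim hδ u hr1 hr2 hG
    by_cases h0 : dsc n = 0
    · exact mem_union_right _ (mem_filter.2 ⟨hu1, hR, n, d, hn, hd, hdδ.trans hδ2, hlt, h0, hd1, hd2⟩)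
    · exact mem_union_left _ (mem_filter.2 ⟨hu1, n, d, hn, hd, hdδ.trans hδ2, hlt, h0, hdsc, hd1, hd2⟩)
  have hc := (card_le_card hsub).trans (card_union_le _ _)
  have hc' : (((box2 N).filter (Exc3 N q0)).card : ℝ) ≤
      (((box2 N).filter fun u => ∃ (n : V) (d : ℕ), Prim n ∧ 0 < d ∧ d ≤ 3 * N ^ 2 ∧ 4 * N * nm n < q0 * d ∧
        dsc n ≠ 0 ∧ (d : ℤ) ∣ dsc n ∧ (d : ℤ) ∣ dot n u.1 ∧ (d : ℤ) ∣ dot n u.2).card : ℝ) +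
      (((box2 N).filter fun u => res u.1 u.2 ≠ 0 ∧ ∃ (n : V) (d : ℕ), Prim n ∧ 0 < d ∧ d ≤ 3 * N ^ 2 ∧
        4 * N * nm n < q0 * d ∧ dsc n = 0 ∧ (d : ℤ) ∣ dot n u.1 ∧ (d : ℤ) ∣ dot n u.2).card : ℝ) := by
    exact_mod_cast hc
  calc (((box2 N).filter (Exc3 N q0)).card : ℝ) ≤ _ := hc'
    _ ≤ C1 * (q0 : ℝ) ^ 8 * (N : ℝ) ^ (11 / 2 : ℝ) + C2 * (q0 : ℝ) ^ 8 * (N : ℝ) ^ (11 / 2 : ℝ) :=
        add_le_add (h1 N q0 hN hq) (h2 N q0 hN hq)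
    _ = (C1 + C2) * (q0 : ℝ) ^ 8 * (N : ℝ) ^ (11 / 2 : ℝ) := by ring

end FGO
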