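import Pool.Agent.Lib.MP_1ad228_ntG.E3a
import Pool.Agent.Lib.MP_1ad228_ntG.Pl
import Pool.Agent.Lib.MP_2a816b_nt.Divisor

/-! JOB E3b: the case `dsc n ≠ 0`. -/

set_option autoImplicit false

open Classical

namespace FGO

open Finset

theorem E3b_nm (n : V) : |n.1| ≤ (nm n : ℤ) ∧ |n.2.1| ≤ (nm n : ℤ) ∧ |n.2.2| ≤ (nm n : ℤ) := by
  unfold nm
  refine ⟨?_, ?_, ?_⟩ <;> rw [Int.abs_eq_natAbs] <;> exact_mod_cast (by omega)

theorem E3b_dot {N : ℕ} {n v : V} (hv : v ∈ box N) : |dot n v| ≤ 3 * N * nm n := by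
  obtain ⟨h1, h2, h3⟩ := mem_box.1 hv
  obtain ⟨k1, k2, k3⟩ := E3b_nm n
  have e1 : |n.1 * v.1| ≤ (nm n : ℤ) * N := by
    rw [abs_mul]
    exact mul_le_mul k1 h1 (abs_nonneg _) (by positivity)
  have e2 : |n.2.1 * v.2.1| ≤ (nm n : ℤ) * N := by
    rw [abs_mul]
    exact mul_le_mul k2 h2 (abs_nonneg _) (by positivity)
  have e3 : |n.2.2 * v.2.2| ≤ (nm n : ℤ) * N := by
    rw [abs_mul]
    exact mul_le_mul k3 h3 (abs_nonneg _) (by positivity)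
  have e4 : |dot n v| ≤ |n.1 * v.1| + |n.2.1 * v.2.1| + |n.2.2 * v.2.2| := by
    unfold dot
    exact abs_add_three _ _ _
  calc |dot n v| ≤ _ := e4
    _ ≤ (nm n : ℤ) * N + (nm n : ℤ) * N + (nm n : ℤ) * N := by linarith
    _ = 3 * N * nm n := by ring

theorem E3b_dsc (n : V) : |dsc n| ≤ 2 * (nm n : ℤ) ^ 2 := by
  obtain ⟨k1, k2, k3⟩ := E3b_nm n
  have e1 : |n.2.1 ^ 2| ≤ (nm n : ℤ) ^ 2 := by
    rw [abs_pow]
    exact pow_le_pow_left₀ (abs_nonneg _) k2 2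
  have e2 : |n.1 * n.2.2| ≤ (nm n : ℤ) * nm n := by
    rw [abs_mul]
    exact mul_le_mul k1 k3 (abs_nonneg _) (by positivity)
  have e3 : |dsc n| ≤ |n.2.1 ^ 2| + |n.1 * n.2.2| := by
    unfold dsc
    exact abs_sub _ _
  calc |dsc n| ≤ _ := e3
    _ ≤ (nm n : ℤ) ^ 2 + (nm n : ℤ) * nm n := by linarith
    _ = 2 * (nm n : ℤ) ^ 2 := by ring

/-- The number of the vectors `v` of the box with `d ∣ dot n v`. -/
theorem mult_count (N q0 d : ℕ) (hN : 0 < N) (hq : 0 < q0) (n : V) (hn : Prim n) (hd : 4 * N * nm n < q0 * d) :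
    (((box N).filter fun v => (d : ℤ) ∣ dot n v).card : ℝ) ≤ 2 * q0 * (4 * (N : ℝ) ^ 2 / nm n + 5 * N) := by
  have hd0 : 0 < d := by
    rcases Nat.eq_zero_or_pos d with h | h
    · rw [h, mul_zero] at hd
      exact absurd hd (Nat.not_lt_zero _)
    · exact h
  have hd0' : (0 : ℤ) < d := by exact_mod_cast hd0
  have hsub : ((box N).filter fun v => (d : ℤ) ∣ dot n v) ⊆
      (Ioo (-(q0 : ℤ)) (q0 : ℤ)).biUnion fun k => (box N).filter fun v => dot n v = d * k := by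
    intro v hv
    obtain ⟨h1, k, hk⟩ := mem_filter.1 hv
    rw [mem_biUnion]
    refine ⟨k, ?_, mem_filter.2 ⟨h1, hk⟩⟩
    have h2 := E3b_dot (n := n) h1
    rw [hk, abs_mul, abs_of_pos hd0'] at h2
    have h3 : (4 : ℤ) * N * nm n < q0 * d := by exact_mod_cast hd
    have h4 : (0 : ℤ) ≤ (N : ℤ) * nm n := by positivity
    have h5 : (d : ℤ) * |k| < d * q0 := by nlinarith
    have h6 : |k| < (q0 : ℤ) := lt_of_mul_lt_mul_left h5 hd0'.le
    rw [mem_Ioo]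
    exact abs_lt.1 h6
  have h1 : ((box N).filter fun v => (d : ℤ) ∣ dot n v).card ≤
      ∑ k ∈ Ioo (-(q0 : ℤ)) (q0 : ℤ), ((box N).filter fun v => dot n v = d * k).card :=
    (card_le_card hsub).trans card_biUnion_le
  have h2 : (((box N).filter fun v => (d : ℤ) ∣ dot n v).card : ℝ) ≤
      ∑ k ∈ Ioo (-(q0 : ℤ)) (q0 : ℤ), (4 * (N : ℝ) ^ 2 / nm n + 5 * N) := by
    calc (((box N).filter fun v => (d : ℤ) ∣ dot n v).card : ℝ) ≤
        ((∑ k ∈ Ioo (-(q0 : ℤ)) (q0 : ℤ), ((box N).filter fun v => dot n v = d * k).card : ℕ) : ℝ) := by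
          exact_mod_cast h1
      _ = ∑ k ∈ Ioo (-(q0 : ℤ)) (q0 : ℤ), (((box N).filter fun v => dot n v = d * k).card : ℝ) := by
          push_cast
          rfl
      _ ≤ _ := sum_le_sum fun k _ => plane_count N hN n hn _
  rw [sum_const, nsmul_eq_mul, Int.card_Ioo] at h2
  have h3 : (((q0 : ℤ) - -(q0 : ℤ) - 1).toNat : ℝ) ≤ 2 * q0 := by
    have h4 : ((q0 : ℤ) - -(q0 : ℤ) - 1).toNat ≤ 2 * q0 := by omega
    exact_mod_cast h4
  have h5 : (0 : ℝ) ≤ 4 * (N : ℝ) ^ 2 / nm n + 5 * N := by positivity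
  exact h2.trans (mul_le_mul_of_nonneg_right h3 h5)

/-- The number of vectors in the box. -/
theorem E3b_card_box (B : ℕ) (hB : 0 < B) : ((box B).card : ℝ) ≤ 27 * (B : ℝ) ^ 3 := by
  have h1 : (box B).card = (2 * B + 1) ^ 3 := by
    unfold box
    rw [card_product, card_product, Int.card_Icc]
    have h2 : ((B : ℤ) + 1 - -(B : ℤ)).toNat = 2 * B + 1 := by omega
    rw [h2]
    ring
  have h2 : 2 * B + 1 ≤ 3 * B := by omega
  have h3 : (box B).card ≤ 27 * B ^ 3 := by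
    rw [h1]
    calc (2 * B + 1) ^ 3 ≤ (3 * B) ^ 3 := Nat.pow_le_pow_left h2 3
      _ = 27 * B ^ 3 := by ring
  exact_mod_cast h3

/-- One vector `n` and one divisor `d`. -/
theorem E3b_one {N q0 d : ℕ} (hN : 0 < N) (hq : 0 < q0) {n : V} (hn : Prim n) (hd0 : 0 < d)
    (hd : 4 * N * nm n < q0 * d) (h0 : dsc n ≠ 0) (hdv : (d : ℤ) ∣ dsc n) :
    (((box2 N).filter fun u => (d : ℤ) ∣ dot n u.1 ∧ (d : ℤ) ∣ dot n u.2).card : ℝ) ≤
      196 * (q0 : ℝ) ^ 4 * (N : ℝ) ^ 2 := by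
  have h1 : ((box2 N).filter fun u => (d : ℤ) ∣ dot n u.1 ∧ (d : ℤ) ∣ dot n u.2) =
      ((box N).filter fun v => (d : ℤ) ∣ dot n v) ×ˢ ((box N).filter fun v => (d : ℤ) ∣ dot n v) := by
    ext u
    simp only [mem_filter, mem_box2, mem_product]
    tauto
  have h2 := mult_count N q0 d hN hq n hn hd
  have h3 : (d : ℤ) ≤ 2 * (nm n : ℤ) ^ 2 :=
    (Int.le_of_dvd (abs_pos.2 h0) ((dvd_abs _ _).2 hdv)).trans (E3b_dsc n)
  have h3' : d ≤ 2 * nm n ^ 2 := by exact_mod_cast h3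
  have h4 : 0 < nm n := by
    rcases Nat.eq_zero_or_pos (nm n) with h | h
    · rw [h] at h3'
      omega
    · exact h
  have h5 : 2 * N < q0 * nm n := by
    have h6 : (2 * N) * (2 * nm n) < (q0 * nm n) * (2 * nm n) := by
      calc (2 * N) * (2 * nm n) = 4 * N * nm n := by ring
        _ < q0 * d := hd
        _ ≤ q0 * (2 * nm n ^ 2) := Nat.mul_le_mul_left _ h3'
        _ = (q0 * nm n) * (2 * nm n) := by ring
    exact lt_of_mul_lt_mul_right h6 (Nat.zero_le _)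
  have hN' : (1 : ℝ) ≤ N := by exact_mod_cast hN
  have hq' : (1 : ℝ) ≤ q0 := by exact_mod_cast hq
  have h4' : (0 : ℝ) < nm n := by exact_mod_cast h4
  have h5' : 2 * (N : ℝ) ≤ q0 * nm n := by exact_mod_cast h5.le
  have h7 : 4 * (N : ℝ) ^ 2 / nm n ≤ 2 * q0 * N := by
    rw [div_le_iff₀ h4']
    nlinarith
  have h8 : (((box N).filter fun v => (d : ℤ) ∣ dot n v).card : ℝ) ≤ 14 * (q0 : ℝ) ^ 2 * N := by
    refine h2.trans ?_
    calc 2 * (q0 : ℝ) * (4 * (N : ℝ) ^ 2 / nm n + 5 * N) ≤ 2 * (q0 : ℝ) * (2 * q0 * N + 5 * N) := by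
          gcongr
      _ ≤ 2 * (q0 : ℝ) * (2 * q0 * N + 5 * (q0 * N)) := by
          gcongr
          nlinarith
      _ = 14 * (q0 : ℝ) ^ 2 * N := by ring
  rw [h1, card_product]
  push_cast
  calc _ ≤ (14 * (q0 : ℝ) ^ 2 * N) * (14 * (q0 : ℝ) ^ 2 * N) :=
        mul_le_mul h8 h8 (Nat.cast_nonneg _) (by positivity)
    _ = 196 * (q0 : ℝ) ^ 4 * (N : ℝ) ^ 2 := by ring

/-- The pairs with a common short dual vector with `dsc n ≠ 0`. -/
theorem exc3_card_ne : ∃ C : ℝ, 0 < C ∧ ∀ N q0 : ℕ, 0 < N → 0 < q0 →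
    (((box2 N).filter fun u => ∃ (n : V) (d : ℕ), Prim n ∧ 0 < d ∧ d ≤ 3 * N ^ 2 ∧ 4 * N * nm n < q0 * d ∧
      dsc n ≠ 0 ∧ (d : ℤ) ∣ dsc n ∧ (d : ℤ) ∣ dot n u.1 ∧ (d : ℤ) ∣ dot n u.2).card : ℝ) ≤
      C * (q0 : ℝ) ^ 8 * (N : ℝ) ^ (11 / 2 : ℝ) := by
  obtain ⟨C1, hC1, hdiv⟩ := Pool.Agent.Lib.MP_2a816b_nt.divisor_bound (1 / 8) (by norm_num)
  refine ⟨10584 * C1, by positivity, ?_⟩
  intro N q0 hN hq
  have hN' : (1 : ℝ) ≤ N := by exact_mod_cast hN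
  have hq' : (1 : ℝ) ≤ q0 := by exact_mod_cast hq
  set B : ℕ := q0 * N with hB
  have hB0 : 0 < B := Nat.mul_pos hq hN
  let ok : V → ℕ → Prop := fun n d => Prim n ∧ 0 < d ∧ d ≤ 3 * N ^ 2 ∧ 4 * N * nm n < q0 * d ∧
    dsc n ≠ 0 ∧ (d : ℤ) ∣ dsc n
  let T : V → ℕ → Finset (V × V) := fun n d =>
    if ok n d then (box2 N).filter fun u => (d : ℤ) ∣ dot n u.1 ∧ (d : ℤ) ∣ dot n u.2 else ∅
  have hT : ∀ n d, ((T n d).card : ℝ) ≤ 196 * (q0 : ℝ) ^ 4 * (N : ℝ) ^ 2 := by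
    intro n d
    by_cases h : ok n d
    · simp only [T, if_pos h]
      obtain ⟨h1, h2, _, h4, h5, h6⟩ := h
      exact E3b_one hN hq h1 h2 h4 h5 h6
    · simp only [T, if_neg h, card_empty]
      rw [Nat.cast_zero]
      positivity
  have hsub : ((box2 N).filter fun u => ∃ (n : V) (d : ℕ), Prim n ∧ 0 < d ∧ d ≤ 3 * N ^ 2 ∧
      4 * N * nm n < q0 * d ∧ dsc n ≠ 0 ∧ (d : ℤ) ∣ dsc n ∧ (d : ℤ) ∣ dot n u.1 ∧ (d : ℤ) ∣ dot n u.2) ⊆
      (box B).biUnion fun n => ((dsc n).natAbs.divisors).biUnion fun d => T n d := by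
    intro u hu
    obtain ⟨h1, n, d, g1, g2, g3, g4, g5, g6, g7, g8⟩ := mem_filter.1 hu
    have hν : nm n ≤ B := by
      have h6 : 4 * N * nm n < 4 * N * B := by
        calc 4 * N * nm n < q0 * d := g4
          _ ≤ q0 * (3 * N ^ 2) := Nat.mul_le_mul_left _ g3
          _ = 3 * N * B := by
              rw [hB]
              ring
          _ ≤ 4 * N * B := by
              gcongr
              norm_num
      exact (lt_of_mul_lt_mul_left h6 (Nat.zero_le _)).le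
    rw [mem_biUnion]
    refine ⟨n, ?_, ?_⟩
    · obtain ⟨k1, k2, k3⟩ := E3b_nm n
      have hν' : (nm n : ℤ) ≤ B := by exact_mod_cast hν
      exact mem_box.2 ⟨k1.trans hν', k2.trans hν', k3.trans hν'⟩
    · rw [mem_biUnion]
      refine ⟨d, ?_, ?_⟩
      · rw [Nat.mem_divisors]
        exact ⟨Int.natCast_dvd.1 g6, Int.natAbs_ne_zero.2 g5⟩
      · have hok : ok n d := ⟨g1, g2, g3, g4, g5, g6⟩
        simp only [T, if_pos hok]
        exact mem_filter.2 ⟨h1, g7, g8⟩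
  have hD : ∀ n ∈ box B, (((dsc n).natAbs.divisors).card : ℝ) ≤ C1 * (2 * (B : ℝ) ^ (1 / 4 : ℝ)) := by
    intro n hn
    rcases Nat.eq_zero_or_pos (dsc n).natAbs with h0 | h0
    · rw [h0, Nat.divisors_zero, card_empty]
      rw [Nat.cast_zero]
      positivity
    · refine (hdiv _ h0).trans ?_
      refine mul_le_mul_of_nonneg_left ?_ (by linarith)
      obtain ⟨k1, k2, k3⟩ := mem_box.1 hn
      have hν : nm n ≤ B := by
        unfold nm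
        rw [Int.abs_eq_natAbs] at k1 k2 k3
        have k1' : n.1.natAbs ≤ B := by exact_mod_cast k1
        have k2' : n.2.1.natAbs ≤ B := by exact_mod_cast k2
        have k3' : n.2.2.natAbs ≤ B := by exact_mod_cast k3
        exact max_le k1' (max_le k2' k3')
      have h1 : ((dsc n).natAbs : ℝ) ≤ 2 * (B : ℝ) ^ 2 := by
        have h2 := E3b_dsc n
        rw [Int.abs_eq_natAbs] at h2
        have h3 : (dsc n).natAbs ≤ 2 * nm n ^ 2 := by exact_mod_cast h2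
        have h4 : (dsc n).natAbs ≤ 2 * B ^ 2 :=
          h3.trans (Nat.mul_le_mul_left _ (Nat.pow_le_pow_left hν 2))
        exact_mod_cast h4
      calc ((dsc n).natAbs : ℝ) ^ (1 / 8 : ℝ) ≤ (2 * (B : ℝ) ^ 2) ^ (1 / 8 : ℝ) :=
            Real.rpow_le_rpow (Nat.cast_nonneg _) h1 (by norm_num)
        _ = 2 ^ (1 / 8 : ℝ) * ((B : ℝ) ^ 2) ^ (1 / 8 : ℝ) :=
            Real.mul_rpow (by norm_num) (by positivity)
        _ = 2 ^ (1 / 8 : ℝ) * (B : ℝ) ^ (1 / 4 : ℝ) := by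
            rw [← Real.rpow_natCast, ← Real.rpow_mul (Nat.cast_nonneg _)]
            norm_num
        _ ≤ 2 * (B : ℝ) ^ (1 / 4 : ℝ) := by
            refine mul_le_mul_of_nonneg_right ?_ (by positivity)
            calc (2 : ℝ) ^ (1 / 8 : ℝ) ≤ 2 ^ (1 : ℝ) :=
                  Real.rpow_le_rpow_of_exponent_le (by norm_num) (by norm_num)
              _ = 2 := Real.rpow_one 2
  have hcard : (((box2 N).filter fun u => ∃ (n : V) (d : ℕ), Prim n ∧ 0 < d ∧ d ≤ 3 * N ^ 2 ∧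
      4 * N * nm n < q0 * d ∧ dsc n ≠ 0 ∧ (d : ℤ) ∣ dsc n ∧ (d : ℤ) ∣ dot n u.1 ∧
      (d : ℤ) ∣ dot n u.2).card : ℝ) ≤
      ∑ n ∈ box B, ∑ d ∈ (dsc n).natAbs.divisors, ((T n d).card : ℝ) := by
    have h1 := (card_le_card hsub).trans (card_biUnion_le.trans
      (sum_le_sum fun n _ => card_biUnion_le (s := (dsc n).natAbs.divisors) (t := fun d => T n d)))
    exact_mod_cast h1
  have hq4 : (q0 : ℝ) ^ (1 / 4 : ℝ) ≤ q0 := by
    calc (q0 : ℝ) ^ (1 / 4 : ℝ) ≤ (q0 : ℝ) ^ (1 : ℝ) :=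
          Real.rpow_le_rpow_of_exponent_le hq' (by norm_num)
      _ = q0 := Real.rpow_one _
  have hN4 : (N : ℝ) ^ (1 / 4 : ℝ) ≤ (N : ℝ) ^ (1 / 2 : ℝ) :=
    Real.rpow_le_rpow_of_exponent_le hN' (by norm_num)
  have hB4 : (B : ℝ) ^ (1 / 4 : ℝ) ≤ q0 * (N : ℝ) ^ (1 / 2 : ℝ) := by
    rw [hB]
    push_cast
    rw [Real.mul_rpow (by positivity) (by positivity)]
    exact mul_le_mul hq4 hN4 (by positivity) (by positivity)
  calc _ ≤ ∑ n ∈ box B, ∑ d ∈ (dsc n).natAbs.divisors, ((T n d).card : ℝ) := hcard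
    _ ≤ ∑ n ∈ box B, ∑ d ∈ (dsc n).natAbs.divisors, 196 * (q0 : ℝ) ^ 4 * (N : ℝ) ^ 2 :=
        sum_le_sum fun n _ => sum_le_sum fun d _ => hT n d
    _ = ∑ n ∈ box B, (((dsc n).natAbs.divisors).card : ℝ) * (196 * (q0 : ℝ) ^ 4 * (N : ℝ) ^ 2) := by
        refine sum_congr rfl fun n _ => ?_
        rw [sum_const, nsmul_eq_mul]
    _ ≤ ∑ n ∈ box B, (C1 * (2 * (B : ℝ) ^ (1 / 4 : ℝ))) * (196 * (q0 : ℝ) ^ 4 * (N : ℝ) ^ 2) :=
        sum_le_sum fun n hn => mul_le_mul_of_nonneg_right (hD n hn) (by positivity)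
    _ = ((box B).card : ℝ) * ((C1 * (2 * (B : ℝ) ^ (1 / 4 : ℝ))) * (196 * (q0 : ℝ) ^ 4 * (N : ℝ) ^ 2)) := by
        rw [sum_const, nsmul_eq_mul]
    _ ≤ (27 * (B : ℝ) ^ 3) * ((C1 * (2 * (q0 * (N : ℝ) ^ (1 / 2 : ℝ)))) *
          (196 * (q0 : ℝ) ^ 4 * (N : ℝ) ^ 2)) := by
        gcongr
        exact E3b_card_box B hB0
    _ = 10584 * C1 * (q0 : ℝ) ^ 8 * ((N : ℝ) ^ (5 : ℕ) * (N : ℝ) ^ (1 / 2 : ℝ)) := by
        rw [hB]
        push_cast
        ring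
    _ = 10584 * C1 * (q0 : ℝ) ^ 8 * (N : ℝ) ^ (11 / 2 : ℝ) := by
        have h1 : (N : ℝ) ^ (11 / 2 : ℝ) = (N : ℝ) ^ (5 : ℕ) * (N : ℝ) ^ (1 / 2 : ℝ) := by
          rw [← Real.rpow_natCast, ← Real.rpow_add (by linarith)]
          norm_num
        rw [h1]

end FGO
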