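import Pool.Agent.Lib.MP_1ad228_ntG.Defs

/-! JOB E3c: the case `dsc n = 0`. -/

set_option autoImplicit false

open Classical

namespace FGO

open Finset

/-- (E3c1) Proof. `n₂² = n₁ n₃`, `n` primitive. `gcd(n₁, n₃) = 1`: a prime `p` dividing both divides `n₂`. So `n₁ = ± a²`, `n₃ = ± b²` with the same sign (`n₁ n₃ ≥ 0`; `Int.sq_of_gcd_eq_one` or `Int.sq_of_isCoprime`),
`n₂ = ± ab` (choose the sign of `b`). (If `n₁ = 0` then `n₂ = 0`, `n₃ = ± 1`.) -/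
theorem dsc_zero (n : V) (hn : Prim n) (h : dsc n = 0) :
    ∃ (s a b : ℤ), (s = 1 ∨ s = -1) ∧ ¬ (a = 0 ∧ b = 0) ∧ n.1 = s * a ^ 2 ∧ n.2.1 = s * (a * b) ∧ n.2.2 = s * b ^ 2 := by
  obtain ⟨n1, n2, n3⟩ := n
  simp only [dsc] at h
  have hne : ¬ (n1 = 0 ∧ n2 = 0 ∧ n3 = 0) := by
    rintro ⟨h1, h2, h3⟩
    have := hn 2 ⟨by simp [h1], by simp [h2], by simp [h3]⟩
    omega
  have hgcd : Int.gcd n1 n3 = 1 := by
    rw [Nat.eq_one_iff_not_exists_prime_dvd]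
    intro p hp hpd
    have h1 : (p : ℤ) ∣ n1 := (Int.natCast_dvd_natCast.mpr hpd).trans (Int.gcd_dvd_left _ _)
    have h3 : (p : ℤ) ∣ n3 := (Int.natCast_dvd_natCast.mpr hpd).trans (Int.gcd_dvd_right _ _)
    have h2 : (p : ℤ) ∣ n2 ^ 2 := by
      have : n2 ^ 2 = n1 * n3 := by linarith
      rw [this]
      exact Dvd.dvd.mul_right h1 _
    have h2' : (p : ℤ) ∣ n2 := (Nat.prime_iff_prime_int.mp hp).dvd_of_dvd_pow h2
    exact hp.one_lt.ne' (hn p ⟨h1, h2', h3⟩)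
  have hmul : n1 * n3 = n2 ^ 2 := by linarith
  obtain ⟨a, ha⟩ := Int.sq_of_gcd_eq_one hgcd hmul
  obtain ⟨b, hb⟩ := Int.sq_of_gcd_eq_one (a := n3) (b := n1) (c := n2)
    (by rw [Int.gcd_comm]; exact hgcd) (by rw [mul_comm]; exact hmul)
  have hnab : ¬ (a = 0 ∧ b = 0) := by
    rintro ⟨rfl, rfl⟩
    apply hne
    have h1 : n1 = 0 := by rcases ha with h | h <;> simpa using h
    have h3 : n3 = 0 := by rcases hb with h | h <;> simpa using h
    refine ⟨h1, ?_, h3⟩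
    have : n2 ^ 2 = 0 := by rw [← hmul, h1, zero_mul]
    exact pow_eq_zero_iff (two_ne_zero) |>.mp this
  have hcase : ∀ s : ℤ, (s = 1 ∨ s = -1) → n1 = s * a ^ 2 → n3 = s * b ^ 2 →
      ∃ (s a b : ℤ), (s = 1 ∨ s = -1) ∧ ¬ (a = 0 ∧ b = 0) ∧ n1 = s * a ^ 2 ∧
        n2 = s * (a * b) ∧ n3 = s * b ^ 2 := by
    intro s hs h1 h3
    have hs2 : s ^ 2 = 1 := by rcases hs with h | h <;> rw [h] <;> norm_num
    have h4 : n2 ^ 2 = (s * (a * b)) ^ 2 := by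
      rw [← hmul, h1, h3]
      ring
    rcases sq_eq_sq_iff_eq_or_eq_neg.mp h4 with h5 | h5
    · exact ⟨s, a, b, hs, hnab, h1, h5, h3⟩
    · refine ⟨s, a, -b, hs, ?_, h1, ?_, ?_⟩
      · rintro ⟨x, y⟩
        exact hnab ⟨x, by omega⟩
      · rw [h5]; ring
      · rw [h3]; ring
  rcases ha with ha | ha <;> rcases hb with hb | hb
  · exact hcase 1 (Or.inl rfl) (by rw [ha]; ring) (by rw [hb]; ring)
  · -- opposite signs: one of them vanishes
    have h0 : n2 ^ 2 + (a * b) ^ 2 = 0 := by rw [← hmul, ha, hb]; ring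
    have h1 : (a * b) ^ 2 = 0 := by nlinarith [sq_nonneg n2, sq_nonneg (a * b)]
    have h2 : a * b = 0 := pow_eq_zero_iff (two_ne_zero) |>.mp h1
    rcases mul_eq_zero.mp h2 with h3 | h3
    · exact hcase (-1) (Or.inr rfl) (by rw [ha, h3]; ring) (by rw [hb]; ring)
    · exact hcase 1 (Or.inl rfl) (by rw [ha]; ring) (by rw [hb, h3]; ring)
  · have h0 : n2 ^ 2 + (a * b) ^ 2 = 0 := by rw [← hmul, ha, hb]; ring
    have h1 : (a * b) ^ 2 = 0 := by nlinarith [sq_nonneg n2, sq_nonneg (a * b)]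
    have h2 : a * b = 0 := pow_eq_zero_iff (two_ne_zero) |>.mp h1
    rcases mul_eq_zero.mp h2 with h3 | h3
    · exact hcase 1 (Or.inl rfl) (by rw [ha, h3]; ring) (by rw [hb]; ring)
    · exact hcase (-1) (Or.inr rfl) (by rw [ha]; ring) (by rw [hb, h3]; ring)
  · exact hcase (-1) (Or.inr rfl) (by rw [ha]; ring) (by rw [hb]; ring)

/-- (E3c2) Proof. With E3c1: `dot n v = s (v.1 a² + v.2.1 a b + v.2.2 b²)`; if both vanish then the forms have the common root `(a, b) ≠ 0` and `res v w = 0` (identities: `b³ res`, `a³ res` are combinations of the two values, cf. `BQ.res_z`). -/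
theorem res_zero_of (n : V) (hn : Prim n) (h : dsc n = 0) (v w : V) (h1 : dot n v = 0) (h2 : dot n w = 0) :
    res v w = 0 := by
  obtain ⟨n1, n2, n3⟩ := n
  obtain ⟨v1, v2, v3⟩ := v
  obtain ⟨w1, w2, w3⟩ := w
  simp only [dsc] at h
  simp only [dot] at h1 h2
  simp only [res]
  have hne : ¬ (n1 = 0 ∧ n2 = 0 ∧ n3 = 0) := by
    rintro ⟨h1, h2, h3⟩
    have := hn 2 ⟨by simp [h1], by simp [h2], by simp [h3]⟩
    omega
  have a1 : n1 * (v3 * w1 - v1 * w3) = n2 * (v2 * w3 - v3 * w2) := by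
    linear_combination v3 * h2 - w3 * h1
  have a2 : n1 * (v1 * w2 - v2 * w1) = n3 * (v2 * w3 - v3 * w2) := by
    linear_combination w2 * h1 - v2 * h2
  have a3 : n3 * (v3 * w1 - v1 * w3) = n2 * (v1 * w2 - v2 * w1) := by
    linear_combination w1 * h1 - v1 * h2
  have b1 : n1 ^ 2 * ((v1 * w3 - w1 * v3) ^ 2 - (v1 * w2 - w1 * v2) * (v2 * w3 - w2 * v3)) = 0 := by
    have e1 : n1 ^ 2 * ((v1 * w3 - w1 * v3) ^ 2 - (v1 * w2 - w1 * v2) * (v2 * w3 - w2 * v3)) =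
        (n1 * (v3 * w1 - v1 * w3)) ^ 2 -
          (n1 * (v1 * w2 - v2 * w1)) * (n1 * (v2 * w3 - v3 * w2)) := by ring
    rw [e1, a1, a2]
    linear_combination (v2 * w3 - v3 * w2) ^ 2 * h
  have b3 : n3 ^ 2 * ((v1 * w3 - w1 * v3) ^ 2 - (v1 * w2 - w1 * v2) * (v2 * w3 - w2 * v3)) = 0 := by
    have e1 : n3 ^ 2 * ((v1 * w3 - w1 * v3) ^ 2 - (v1 * w2 - w1 * v2) * (v2 * w3 - w2 * v3)) =
        (n3 * (v3 * w1 - v1 * w3)) ^ 2 -
          (n3 * (v1 * w2 - v2 * w1)) * (n3 * (v2 * w3 - v3 * w2)) := by ring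
    rw [e1, a3, ← a2]
    linear_combination (v1 * w2 - v2 * w1) ^ 2 * h
  by_cases hz1 : n1 = 0
  · by_cases hz3 : n3 = 0
    · exfalso
      apply hne
      refine ⟨hz1, ?_, hz3⟩
      rw [hz1] at h
      have : n2 ^ 2 = 0 := by linarith
      exact pow_eq_zero_iff (two_ne_zero) |>.mp this
    · rcases mul_eq_zero.mp b3 with h3 | h3
      · exact absurd (pow_eq_zero_iff (two_ne_zero) |>.mp h3) hz3
      · exact h3
  · rcases mul_eq_zero.mp b1 with h3 | h3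
    · exact absurd (pow_eq_zero_iff (two_ne_zero) |>.mp h3) hz1
    · exact h3

end FGO
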