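import Pool.Agent.Lib.MP_1ad228_ntG.Pl2

/-! JOB E3a: a bad root gives a short primitive dual vector. -/

set_option autoImplicit false

namespace FGO

open Finset

/-- Division by the common factor. -/
theorem E3a_cancel {δ e : ℕ} (hδ : 0 < δ) {x : ℤ} (h : (δ : ℤ) ∣ e * x) :
    ((δ / Nat.gcd δ e : ℕ) : ℤ) ∣ x := by
  have hg : 0 < Nat.gcd δ e := Nat.gcd_pos_of_pos_left _ hδ
  obtain ⟨δ', hδ'⟩ := Nat.gcd_dvd_left δ e
  obtain ⟨e', he'⟩ := Nat.gcd_dvd_right δ e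
  have h1 : δ / Nat.gcd δ e = δ' := Nat.div_eq_of_eq_mul_right hg hδ'
  have h2 : e / Nat.gcd δ e = e' := Nat.div_eq_of_eq_mul_right hg he'
  have h3 : Nat.Coprime δ' e' := by
    have h4 := Nat.coprime_div_gcd_div_gcd (m := δ) (n := e) hg
    rwa [h1, h2] at h4
  have h5 : (δ' : ℤ) ∣ e' * x := by
    have h6 : ((Nat.gcd δ e : ℕ) : ℤ) * δ' ∣ ((Nat.gcd δ e : ℕ) : ℤ) * (e' * x) := by
      have h7 : ((Nat.gcd δ e : ℕ) : ℤ) * δ' = δ := by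
        exact_mod_cast hδ'.symm
      have h8 : ((Nat.gcd δ e : ℕ) : ℤ) * (e' * x) = e * x := by
        have h9 : ((Nat.gcd δ e : ℕ) : ℤ) * e' = e := by
          exact_mod_cast he'.symm
        rw [← mul_assoc, h9]
      rw [h7, h8]
      exact h
    exact Int.dvd_of_mul_dvd_mul_left (by exact_mod_cast hg.ne') h6
  rw [h1]
  exact (Nat.isCoprime_iff_coprime.2 h3).dvd_of_dvd_mul_left h5

/-- A bad root gives a short primitive dual vector. -/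
theorem exc3_prim {N q0 δ : ℕ} {r : ℤ} (hδ : 0 < δ) (u : V × V) (h1 : (δ : ℤ) ∣ ev u.1 r)
    (h2 : (δ : ℤ) ∣ ev u.2 r) (hG : ¬ Good N q0 δ r) :
    ∃ (n : V) (d : ℕ), Prim n ∧ n ≠ 0 ∧ 0 < d ∧ d ≤ δ ∧ 4 * N * nm n < q0 * d ∧ (d : ℤ) ∣ dsc n ∧
      (d : ℤ) ∣ dot n u.1 ∧ (d : ℤ) ∣ dot n u.2 := by
  unfold Good at hG
  push Not at hG
  obtain ⟨n, hn0, ⟨t, ht1, ht2, ht3⟩, hlt⟩ := hG
  obtain ⟨e, n', he, hP, hn', e1, e2, e3, e4⟩ := exists_prim n hn0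
  have hg : 0 < Nat.gcd δ e := Nat.gcd_pos_of_pos_left _ hδ
  have hdot : ∀ v : V, (δ : ℤ) ∣ ev v r → ((δ / Nat.gcd δ e : ℕ) : ℤ) ∣ dot n' v := by
    intro v hv
    refine E3a_cancel hδ ?_
    have h3 : (e : ℤ) * dot n' v = (n.1 - t * r ^ 2) * v.1 + (n.2.1 - t * r) * v.2.1 +
        (n.2.2 - t) * v.2.2 + t * ev v r := by
      rw [e1, e2, e3]
      unfold dot ev
      ring
    rw [h3]
    exact dvd_add (dvd_add (dvd_add (Dvd.dvd.mul_right ht1 _) (Dvd.dvd.mul_right ht2 _))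
      (Dvd.dvd.mul_right ht3 _)) (Dvd.dvd.mul_left hv _)
  refine ⟨n', δ / Nat.gcd δ e, hP, hn', Nat.div_pos (Nat.gcd_le_left _ hδ) hg, Nat.div_le_self _ _,
    ?_, ?_, hdot u.1 h1, hdot u.2 h2⟩
  · have h3 : Nat.gcd δ e ≤ e := Nat.gcd_le_right _ he
    have h4 : δ = Nat.gcd δ e * (δ / Nat.gcd δ e) := (Nat.mul_div_cancel' (Nat.gcd_dvd_left _ _)).symm
    have h5 : e * (4 * N * nm n') < e * (q0 * (δ / Nat.gcd δ e)) := by
      calc e * (4 * N * nm n') = 4 * N * nm n := by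
            rw [e4]
            ring
        _ < q0 * δ := hlt
        _ = q0 * (Nat.gcd δ e * (δ / Nat.gcd δ e)) := by rw [← h4]
        _ ≤ q0 * (e * (δ / Nat.gcd δ e)) :=
            Nat.mul_le_mul_left _ (Nat.mul_le_mul_right _ h3)
        _ = e * (q0 * (δ / Nat.gcd δ e)) := by ring
    exact lt_of_mul_lt_mul_left h5 (Nat.zero_le _)
  · have k1 : ((δ / Nat.gcd δ e : ℕ) : ℤ) ∣ n'.2.1 - r * n'.2.2 := by
      refine E3a_cancel hδ ?_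
      have h3 : (e : ℤ) * (n'.2.1 - r * n'.2.2) = (n.2.1 - t * r) - r * (n.2.2 - t) := by
        rw [e2, e3]
        ring
      rw [h3]
      exact dvd_sub ht2 (Dvd.dvd.mul_left ht3 _)
    have k2 : ((δ / Nat.gcd δ e : ℕ) : ℤ) ∣ n'.1 - r ^ 2 * n'.2.2 := by
      refine E3a_cancel hδ ?_
      have h3 : (e : ℤ) * (n'.1 - r ^ 2 * n'.2.2) = (n.1 - t * r ^ 2) - r ^ 2 * (n.2.2 - t) := by
        rw [e1, e3]
        ring
      rw [h3]
      exact dvd_sub ht1 (Dvd.dvd.mul_left ht3 _)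
    have h4 : dsc n' = (n'.2.1 - r * n'.2.2) * (n'.2.1 + r * n'.2.2) -
        n'.2.2 * (n'.1 - r ^ 2 * n'.2.2) := by
      unfold dsc
      ring
    rw [h4]
    exact dvd_sub (Dvd.dvd.mul_right k1 _) (Dvd.dvd.mul_left k2 _)

end FGO
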