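import Pool.Agent.Lib.MP_1ad228_ntG.Defs

/-! JOB Kr1: elementary properties of the kernel. -/

set_option autoImplicit false

namespace FGO

open Finset

theorem wt_nonneg (J M : ℕ) (a : ℤ) : 0 ≤ wt J M a := by
  unfold wt
  positivity

/-- Proof. `a = b + M c`: every exponential is unchanged (`Complex.exp_periodic`, `Complex.exp_eq_exp_iff_exists_int`). -/
theorem wt_periodic (J M : ℕ) (hM : 0 < M) (a b : ℤ) (h : (M : ℤ) ∣ a - b) : wt J M a = wt J M b := by
  obtain ⟨c, hc⟩ := h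
  have ha : a = b + M * c := by linarith
  have hM0 : (M : ℂ) ≠ 0 := by exact_mod_cast hM.ne'
  have h1 : ∀ j : ℕ, Complex.exp (2 * Real.pi * Complex.I * ((j : ℂ) * (a : ℂ) / (M : ℂ))) =
      Complex.exp (2 * Real.pi * Complex.I * ((j : ℂ) * (b : ℂ) / (M : ℂ))) := by
    intro j
    rw [Complex.exp_eq_exp_iff_exists_int]
    refine ⟨j * c, ?_⟩
    rw [ha]
    push_cast
    field_simp
  unfold wt
  simp only [h1]

/-- (Kr1c) Proof. `M = 4NJ`. `wt (-a) = wt a` (complex conjugation of the sum), so let `a ≥ 0`. For `0 ≤ j < J`: `0 ≤ 2π j a / M ≤ π/2` as `j a ≤ J N = M/4`. With `u = exp(-iπ/4)`, `‖u‖ = 1`: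
`‖∑‖ = ‖u ∑‖ ≥ Re (u ∑) = ∑ cos(2π j a/M - π/4) ≥ J cos(π/4) = J √2/2` (`|2π j a/M - π/4| ≤ π/4`, `Real.cos_abs`, `Real.cos_le_cos_of_nonneg_of_le_pi`), so the square is `≥ J²/2`. -/
theorem wt_ge_one (N J : ℕ) (hN : 0 < N) (hJ : 0 < J) (a : ℤ) (ha : |a| ≤ N) : 1 ≤ wt J (4 * N * J) a := by
  have hN' : (0 : ℝ) < N := by exact_mod_cast hN
  have hJ' : (0 : ℝ) < J := by exact_mod_cast hJ
  have hpi := Real.pi_pos
  -- the angles
  set θ : ℕ → ℝ := fun j => 2 * Real.pi * ((j : ℝ) * (a : ℝ) / (4 * N * J)) with hθ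
  have hexp : ∀ j : ℕ, Complex.exp (2 * Real.pi * Complex.I *
      ((j : ℂ) * (a : ℂ) / ((4 * N * J : ℕ) : ℂ))) = Complex.exp ((θ j : ℂ) * Complex.I) := by
    intro j
    congr 1
    rw [hθ]
    push_cast
    ring
  have hθle : ∀ j ∈ range J, |θ j| ≤ Real.pi / 2 := by
    intro j hj
    rw [mem_range] at hj
    have hj' : (j : ℝ) ≤ J := by exact_mod_cast hj.le
    have ha' : |(a : ℝ)| ≤ N := by exact_mod_cast ha
    rw [hθ]
    simp only
    rw [abs_mul, abs_of_pos (by positivity : (0 : ℝ) < 2 * Real.pi), abs_div, abs_mul,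
      abs_of_nonneg (by positivity : (0 : ℝ) ≤ (j : ℝ)),
      abs_of_pos (by positivity : (0 : ℝ) < 4 * N * J)]
    have h1 : (j : ℝ) * |(a : ℝ)| ≤ J * N :=
      mul_le_mul hj' ha' (abs_nonneg _) hJ'.le
    have h2 : (j : ℝ) * |(a : ℝ)| / (4 * N * J) ≤ 1 / 4 := by
      rw [div_le_div_iff₀ (by positivity) (by norm_num)]
      nlinarith
    nlinarith
  -- the rotation
  obtain ⟨φ, hφ⟩ : ∃ φ : ℝ, ∀ j ∈ range J, |θ j - φ| ≤ Real.pi / 4 := by
    by_cases hs : 0 ≤ a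
    · refine ⟨Real.pi / 4, fun j hj => ?_⟩
      have h0 : 0 ≤ θ j := by
        have : (0 : ℝ) ≤ (a : ℝ) := by exact_mod_cast hs
        rw [hθ]
        positivity
      have h1 := (abs_le.mp (hθle j hj)).2
      rw [abs_le]
      constructor <;> linarith
    · refine ⟨-(Real.pi / 4), fun j hj => ?_⟩
      have h0 : θ j ≤ 0 := by
        have h2 : (a : ℝ) ≤ 0 := by exact_mod_cast (not_le.mp hs).le
        rw [hθ]
        simp only
        have h3 : (j : ℝ) * (a : ℝ) / (4 * N * J) ≤ 0 :=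
          div_nonpos_of_nonpos_of_nonneg (mul_nonpos_of_nonneg_of_nonpos (by positivity) h2)
            (by positivity)
        nlinarith
      have h1 := (abs_le.mp (hθle j hj)).1
      rw [abs_le]
      constructor <;> linarith
  have hnorm : (J : ℝ) * (Real.sqrt 2 / 2) ≤
      ‖∑ j ∈ range J, Complex.exp ((θ j : ℂ) * Complex.I)‖ := by
    have h1 : ‖∑ j ∈ range J, Complex.exp ((θ j : ℂ) * Complex.I)‖ =
        ‖Complex.exp (((-φ : ℝ) : ℂ) * Complex.I) *
          ∑ j ∈ range J, Complex.exp ((θ j : ℂ) * Complex.I)‖ := by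
      rw [norm_mul, Complex.norm_exp_ofReal_mul_I, one_mul]
    rw [h1]
    refine le_trans ?_ (Complex.re_le_norm _)
    rw [Finset.mul_sum, Complex.re_sum]
    have h2 : ∀ j ∈ range J, Real.sqrt 2 / 2 ≤ (Complex.exp (((-φ : ℝ) : ℂ) * Complex.I) *
        Complex.exp ((θ j : ℂ) * Complex.I)).re := by
      intro j hj
      rw [← Complex.exp_add]
      have h3 : ((-φ : ℝ) : ℂ) * Complex.I + (θ j : ℂ) * Complex.I =
          ((θ j - φ : ℝ) : ℂ) * Complex.I := by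
        push_cast
        ring
      rw [h3, Complex.exp_ofReal_mul_I_re, ← Real.cos_pi_div_four, ← Real.cos_abs (θ j - φ)]
      exact Real.cos_le_cos_of_nonneg_of_le_pi (abs_nonneg _) (by linarith) (hφ j hj)
    have h4 := Finset.sum_le_sum h2
    rw [Finset.sum_const, card_range, nsmul_eq_mul] at h4
    exact h4
  unfold wt
  simp only [hexp]
  have h5 : ((J : ℝ) * (Real.sqrt 2 / 2)) ^ 2 ≤
      ‖∑ j ∈ range J, Complex.exp ((θ j : ℂ) * Complex.I)‖ ^ 2 :=
    pow_le_pow_left₀ (by positivity) hnorm 2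
  have h6 : ((J : ℝ) * (Real.sqrt 2 / 2)) ^ 2 = (J : ℝ) ^ 2 / 2 := by
    rw [mul_pow, div_pow, Real.sq_sqrt (by norm_num)]
    ring
  rw [h6] at h5
  rw [div_mul_eq_mul_div, le_div_iff₀ (by positivity)]
  linarith

theorem W_nonneg (J M : ℕ) (v : V) : 0 ≤ W J M v :=
  mul_nonneg (wt_nonneg J M _) (mul_nonneg (wt_nonneg J M _) (wt_nonneg J M _))

theorem W_periodic (J M : ℕ) (hM : 0 < M) (v w : V) (h : Cg M v w) : W J M v = W J M w := by
  unfold W
  rw [wt_periodic J M hM v.1 w.1 h.1, wt_periodic J M hM v.2.1 w.2.1 h.2.1,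
    wt_periodic J M hM v.2.2 w.2.2 h.2.2]

theorem W_ge_one (N J : ℕ) (hN : 0 < N) (hJ : 0 < J) (v : V) (hv : v ∈ box N) : 1 ≤ W J (4 * N * J) v := by
  rw [mem_box] at hv
  have h1 := wt_ge_one N J hN hJ v.1 hv.1
  have h2 := wt_ge_one N J hN hJ v.2.1 hv.2.1
  have h3 := wt_ge_one N J hN hJ v.2.2 hv.2.2
  unfold W
  exact one_le_mul_of_one_le_of_one_le h1 (one_le_mul_of_one_le_of_one_le h2 h3)

end FGO
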