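import Pool.Agent.Lib.MP_1ad228_ntG.Defs

/-! JOB St: the structure of the bad pairs. -/

set_option autoImplicit false

open Classical

namespace FGO

open Finset

theorem St_aux1 {d n1 n2 n3 a b t v1 v2 v3 : ℤ} (hab : a * n3 + b * d = 1)
    (hres : n2 ^ 2 - n1 * n3 = d * t) (hdot : n1 * v1 + n2 * v2 + n3 * v3 = 0) :
    d ∣ v1 * (a * n2) ^ 2 + v2 * (a * n2) + v3 := by
  have hc : IsCoprime d (n3 ^ 2) := IsCoprime.pow_right ⟨b, a, by linarith⟩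
  refine hc.dvd_of_dvd_mul_left ?_
  have hk : n3 * (a * n2) = n2 - b * d * n2 := by linear_combination n2 * hab
  refine ⟨v1 * t + v1 * (-2 * b * n2 ^ 2 + b ^ 2 * d * n2 ^ 2) - v2 * b * n2 * n3, ?_⟩
  linear_combination (v1 * (n3 * (a * n2) + n2 - b * d * n2) + v2 * n3) * hk + v1 * hres + n3 * hdot

theorem St_aux2 {d r0 r : ℤ} (v : V) (hr : d ∣ r0 - r) (h : d ∣ v.1 * r0 ^ 2 + v.2.1 * r0 + v.2.2) :
    d ∣ ev v r := by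
  unfold ev
  have h1 : v.1 * r ^ 2 + v.2.1 * r + v.2.2 =
      (v.1 * r0 ^ 2 + v.2.1 * r0 + v.2.2) - (r0 - r) * (v.1 * (r0 + r) + v.2.1) := by ring
  rw [h1]
  exact dvd_sub h (hr.mul_right _)

theorem St_aux3 {N : ℕ} {a b c d : ℤ} (ha : |a| ≤ N) (hb : |b| ≤ N) (hc : |c| ≤ N) (hd : |d| ≤ N) :
    |a * b - c * d| ≤ 2 * (N : ℤ) ^ 2 := by
  have hN : (0 : ℤ) ≤ N := Int.natCast_nonneg N
  calc |a * b - c * d| ≤ |a * b| + |c * d| := abs_sub _ _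
    _ = |a| * |b| + |c| * |d| := by rw [abs_mul, abs_mul]
    _ ≤ (N : ℤ) * N + N * N := add_le_add (mul_le_mul ha hb (abs_nonneg _) hN) (mul_le_mul hc hd (abs_nonneg _) hN)
    _ = 2 * (N : ℤ) ^ 2 := by ring

/-- (St1) the common root modulo `d`.
Proof. `n = crs v w`, `(n₁, n₂, n₃)`. For every prime `p ∣ d`: `p ∣ res v w = n₂² - n₁ n₃`, and not all of `n₁, n₂, n₃` are divisible by `p`. If `p ∣ n₃` then `p ∣ n₂`, `p ∤ n₁`, and `0 = dot n v ≡ n₁ v.1`, `0 ≡ n₁ w.1 mod p`,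
so `p ∣ v.1`, `p ∣ w.1`: excluded by hypothesis. So `n₃` is prime to `d`; let `r ∈ [0, d)` with `r n₃ ≡ n₂ mod d`. As `d ∣ res` (`n₂² ≡ n₁ n₃`): `n₁ ≡ r² n₃`. So `0 = dot n v ≡ n₃ (v.1 r² + v.2.1 r + v.2.2) mod d`, hence `d ∣ ev v r`,
and the same for `w`. -/
theorem common_root (d : ℕ) (hd : 0 < d) (v w : V) (hR : (d : ℤ) ∣ res v w)
    (h : ∀ p : ℕ, p.Prime → p ∣ d → ¬ Dv p (crs v w) ∧ ¬ ((p : ℤ) ∣ v.1 ∧ (p : ℤ) ∣ w.1)) :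
    ∃ r ∈ range d, (d : ℤ) ∣ ev v (r : ℤ) ∧ (d : ℤ) ∣ ev w (r : ℤ) := by
  have hv := dot_crs_left v w
  have hw := dot_crs_right v w
  rw [res_crs] at hR
  obtain ⟨t, ht⟩ := hR
  generalize crs v w = n at h hv hw ht
  unfold dot at hv hw
  unfold dsc at ht
  have hcop : Int.gcd n.2.2 (d : ℤ) = 1 := by
    by_contra hne
    obtain ⟨p, hp, hpd⟩ := Nat.exists_prime_and_dvd hne
    have h3 : (p : ℤ) ∣ n.2.2 := (Int.natCast_dvd_natCast.2 hpd).trans (Int.gcd_dvd_left _ _)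
    have hd' : (p : ℤ) ∣ (d : ℤ) := (Int.natCast_dvd_natCast.2 hpd).trans (Int.gcd_dvd_right _ _)
    obtain ⟨h1, h2⟩ := h p hp (Int.natCast_dvd_natCast.1 hd')
    have hpp : Prime (p : ℤ) := Nat.prime_iff_prime_int.1 hp
    have h4 : (p : ℤ) ∣ n.2.1 := by
      refine hpp.dvd_of_dvd_pow (n := 2) ?_
      have h5 : n.2.1 ^ 2 = (d : ℤ) * t + n.1 * n.2.2 := by linarith
      rw [h5]
      exact dvd_add (hd'.mul_right t) (h3.mul_left n.1)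
    have h6 : ¬ (p : ℤ) ∣ n.1 := fun h7 => h1 ⟨h7, h4, h3⟩
    have h8 : ∀ x : V, n.1 * x.1 + n.2.1 * x.2.1 + n.2.2 * x.2.2 = 0 → (p : ℤ) ∣ x.1 := by
      intro x hx
      have h9 : (p : ℤ) ∣ n.1 * x.1 := by
        have h10 : n.1 * x.1 = -(n.2.1 * x.2.1 + n.2.2 * x.2.2) := by linarith
        rw [h10]
        exact (dvd_add (h4.mul_right _) (h3.mul_right _)).neg_right
      exact (hpp.dvd_or_dvd h9).resolve_left h6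
    exact h2 ⟨h8 v hv, h8 w hw⟩
  obtain ⟨a, b, hab⟩ := Int.isCoprime_iff_gcd_eq_one.2 hcop
  have hd0 : (d : ℤ) ≠ 0 := by exact_mod_cast hd.ne'
  have hr0 : 0 ≤ (a * n.2.1) % (d : ℤ) := Int.emod_nonneg _ hd0
  have hr1 : (a * n.2.1) % (d : ℤ) < d := Int.emod_lt_of_pos _ (by exact_mod_cast hd)
  have hr2 : (d : ℤ) ∣ a * n.2.1 - (a * n.2.1) % (d : ℤ) := Int.dvd_self_sub_emod
  have hcast : ((((a * n.2.1) % (d : ℤ)).toNat : ℕ) : ℤ) = (a * n.2.1) % (d : ℤ) := Int.toNat_of_nonneg hr0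
  refine ⟨((a * n.2.1) % (d : ℤ)).toNat, by rw [mem_range]; omega, ?_, ?_⟩
  · rw [hcast]
    exact St_aux2 v hr2 (St_aux1 hab ht hv)
  · rw [hcast]
    exact St_aux2 w hr2 (St_aux1 hab ht hw)

/-- (St2) Proof. `|res| ≤ (2N²)² + (2N²)(2N²) = 8 N⁴`. -/
theorem abs_res_le (N : ℕ) (u : V × V) (hu : u ∈ box2 N) : |res u.1 u.2| ≤ 8 * (N : ℤ) ^ 4 := by
  rw [mem_box2, mem_box, mem_box] at hu
  obtain ⟨⟨a1, a2, a3⟩, b1, b2, b3⟩ := hu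
  have h1 := St_aux3 a1 b3 b1 a3
  have h2 := St_aux3 a1 b2 b1 a2
  have h3 := St_aux3 a2 b3 b2 a3
  unfold res
  have h0 : (0 : ℤ) ≤ 2 * (N : ℤ) ^ 2 := by positivity
  calc |(u.1.1 * u.2.2.2 - u.2.1 * u.1.2.2) ^ 2 -
        (u.1.1 * u.2.2.1 - u.2.1 * u.1.2.1) * (u.1.2.1 * u.2.2.2 - u.2.2.1 * u.1.2.2)|
      ≤ |(u.1.1 * u.2.2.2 - u.2.1 * u.1.2.2) ^ 2| +
        |(u.1.1 * u.2.2.1 - u.2.1 * u.1.2.1) * (u.1.2.1 * u.2.2.2 - u.2.2.1 * u.1.2.2)| := abs_sub _ _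
    _ = |u.1.1 * u.2.2.2 - u.2.1 * u.1.2.2| ^ 2 +
        |u.1.1 * u.2.2.1 - u.2.1 * u.1.2.1| * |u.1.2.1 * u.2.2.2 - u.2.2.1 * u.1.2.2| := by
        rw [abs_pow, abs_mul]
    _ ≤ (2 * (N : ℤ) ^ 2) ^ 2 + (2 * (N : ℤ) ^ 2) * (2 * (N : ℤ) ^ 2) :=
        add_le_add (pow_le_pow_left₀ (abs_nonneg _) h1 2) (mul_le_mul h2 h3 (abs_nonneg _) h0)
    _ = 8 * (N : ℤ) ^ 4 := by ring

end FGO
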