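import Pool.Agent.Lib.MP_1ad228_ntG.LcB

/-! JOB LcB2. -/

set_option autoImplicit false

open Classical

namespace FGO

open Finset

private theorem LcB2_card (q : ℕ) : ((cube q).card : ℝ) = (q : ℝ) ^ 3 := by
  have h : (cube q).card = q * (q * q) := by
    rw [cube, card_product, card_product, Int.card_Ico, sub_zero, Int.toNat_natCast]
  rw [h]
  push_cast
  ring

private theorem LcB2_one (q : ℕ) (P : V → Prop) :
    ∑ u ∈ cube2 q, (if P u.1 then (1 : ℝ) else 0) = ((cube q).filter P).card * (q : ℝ) ^ 3 := by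
  rw [cube2, sum_product]
  have h : ∀ x ∈ cube q, ∑ y ∈ cube q, (if P (x, y).1 then (1 : ℝ) else 0) =
      (if P x then (1 : ℝ) else 0) * (q : ℝ) ^ 3 := by
    intro x _
    change ∑ y ∈ cube q, (if P x then (1 : ℝ) else 0) = _
    rw [sum_const, nsmul_eq_mul, LcB2_card, mul_comm]
  rw [sum_congr rfl h, ← sum_mul, sum_boole]

private theorem LcB2_two (q : ℕ) (P : V → Prop) :
    ∑ u ∈ cube2 q, (if P u.2 then (1 : ℝ) else 0) = ((cube q).filter P).card * (q : ℝ) ^ 3 := by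
  rw [cube2, sum_product]
  have h : ∀ x ∈ cube q, ∑ y ∈ cube q, (if P (x, y).2 then (1 : ℝ) else 0) =
      ((cube q).filter P).card := by
    intro x _
    rw [sum_boole]
  rw [sum_congr rfl h, sum_const, nsmul_eq_mul, LcB2_card, mul_comm]

private theorem LcB2_three (q : ℕ) (P : V → Prop) :
    ∑ u ∈ cube2 q, (if P u.1 ∧ P u.2 then (1 : ℝ) else 0) = (((cube q).filter P).card : ℝ) ^ 2 := by
  rw [cube2, sum_product]
  have h : ∀ x ∈ cube q, ∑ y ∈ cube q, (if P (x, y).1 ∧ P (x, y).2 then (1 : ℝ) else 0) =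
      (if P x then (1 : ℝ) else 0) * ((cube q).filter P).card := by
    intro x _
    by_cases hx : P x
    · simp only [hx, true_and, if_true, one_mul]
      rw [sum_boole]
    · simp only [hx, false_and, if_false, sum_const_zero, zero_mul]
  rw [sum_congr rfl h, ← sum_mul, sum_boole, pow_two]

/-- (LcB2) Proof. `∑ over cube2 = (card) * #(cube)`, `#(cube q) = q³`. -/
theorem Ex_Om (δ : ℤ) (p : ℕ) (hp : p.Prime) (h2 : p ≠ 2) (hδ : ¬ (p : ℤ) ∣ δ) :
    Ex (p ^ 2) (fun u => if Om δ p u.1 then 1 else 0) = ((p : ℝ) - 1) ^ 2 / (2 * (p : ℝ) ^ 3) ∧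
    Ex (p ^ 2) (fun u => if Om δ p u.2 then 1 else 0) = ((p : ℝ) - 1) ^ 2 / (2 * (p : ℝ) ^ 3) ∧
    Ex (p ^ 2) (fun u => if Om δ p u.1 ∧ Om δ p u.2 then 1 else 0) = (((p : ℝ) - 1) ^ 2 / (2 * (p : ℝ) ^ 3)) ^ 2 := by
  have hc := card_Om δ p hp h2 hδ
  have hp1 : 1 ≤ p := hp.one_lt.le
  have hp0 : (p : ℝ) ≠ 0 := by
    have := hp.ne_zero
    exact_mod_cast this
  have hcR : 2 * ((((cube (p ^ 2)).filter (Om δ p)).card : ℕ) : ℝ) =
      (p : ℝ) ^ 3 * ((p : ℝ) - 1) ^ 2 := by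
    have h := congrArg (fun n : ℕ => (n : ℝ)) hc
    push_cast [Nat.cast_sub hp1] at h
    exact h
  have hcR' : ((((cube (p ^ 2)).filter (Om δ p)).card : ℕ) : ℝ) =
      (p : ℝ) ^ 3 * ((p : ℝ) - 1) ^ 2 / 2 := by linarith
  refine ⟨?_, ?_, ?_⟩
  · unfold Ex
    rw [LcB2_one, hcR']
    push_cast
    field_simp
  · unfold Ex
    rw [LcB2_two, hcR']
    push_cast
    field_simp
  · unfold Ex
    rw [LcB2_three, hcR']
    push_cast
    field_simp

end FGO
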