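import Pool.Agent.Lib.MP_1ad228_ntG.LcB

/-! JOB LcB3. -/

set_option autoImplicit false

open Classical

namespace FGO

open Finset

private theorem LcB3_aux1 (p : ℕ) (hp : p.Prime) (k s : ℤ) (hk : ¬ (p : ℤ) ∣ k) :
    ((Ico (0 : ℤ) ((p ^ 2 : ℕ) : ℤ)).filter fun C => (p : ℤ) ∣ k * C + s).card = p := by
  have hp0 : (0 : ℤ) < p := by exact_mod_cast hp.pos
  have hpp : Prime (p : ℤ) := Nat.prime_iff_prime_int.mp hp
  have hcop : IsCoprime (p : ℤ) k := (Prime.coprime_iff_not_dvd hpp).mpr hk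
  obtain ⟨x, y, hxy⟩ := hcop
  have heq : ((Ico (0 : ℤ) ((p ^ 2 : ℕ) : ℤ)).filter fun C => (p : ℤ) ∣ k * C + s)
      = (Ico (0 : ℤ) ((p ^ 2 : ℕ) : ℤ)).filter (fun C => C ≡ -(y * s) [ZMOD (p : ℤ)]) := by
    apply Finset.filter_congr
    intro C _
    rw [Int.modEq_comm, Int.modEq_iff_dvd]
    constructor
    · intro h
      have h1 : C - -(y * s) = y * (k * C + s) + (p : ℤ) * (x * C) := by
        linear_combination (-C) * hxy
      rw [h1]
      exact dvd_add (Dvd.dvd.mul_left h _) (dvd_mul_right _ _)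
    · intro h
      have h1 : k * C + s = k * (C - -(y * s)) + (p : ℤ) * (x * s) := by
        linear_combination (-s) * hxy
      rw [h1]
      exact dvd_add (Dvd.dvd.mul_left h _) (dvd_mul_right _ _)
  rw [heq]
  have h2 := Int.Ico_filter_modEq_card (0 : ℤ) ((p ^ 2 : ℕ) : ℤ) hp0 (-(y * s))
  have hq : ((p : ℤ) : ℚ) ≠ 0 := by exact_mod_cast hp.pos.ne'
  have h3 : ((((p ^ 2 : ℕ) : ℤ) : ℚ) - ((-(y * s) : ℤ) : ℚ)) / ((p : ℤ) : ℚ)
      = (((0 : ℤ) : ℚ) - ((-(y * s) : ℤ) : ℚ)) / ((p : ℤ) : ℚ) + ((p : ℤ) : ℚ) := by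
    field_simp
    push_cast
    ring
  rw [h3, Int.ceil_add_intCast] at h2
  have h4 : ∀ t : ℤ, max (t + (p : ℤ) - t) 0 = p := by
    intro t
    rw [add_sub_cancel_left]
    exact max_eq_left hp0.le
  rw [h4] at h2
  exact_mod_cast h2

/-- (LcB3) If `Om δ p v` then exactly `p² · p³` of the `p⁶` classes `w` modulo `p²` satisfy `p ∣ res v w`.
Proof. `a = v.1` is prime to `p`, `p ∣ disc v`: `16 a² res ≡ (A b² - 2abB + 4a² C)² mod p`, so `p ∣ res` iff `p ∣ A b² - 2 a b B + 4 a² C`: for given `A, B` exactly one class of `C` modulo `p`, i.e. `p` classes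
modulo `p²`: in total `p² p² p = p⁵` classes. -/
theorem card_res (δ : ℤ) (p : ℕ) (hp : p.Prime) (h2 : p ≠ 2) (v : V) (hv : Om δ p v) :
    ((cube (p ^ 2)).filter fun w => (p : ℤ) ∣ res v w).card = p ^ 5 := by
  have hp0 : (0 : ℤ) < p := by exact_mod_cast hp.pos
  have hpp : Prime (p : ℤ) := Nat.prime_iff_prime_int.mp hp
  obtain ⟨hd, _, ha, _⟩ := hv
  have h2' : ¬ (p : ℤ) ∣ 2 := by
    intro h
    have : p ∣ 2 := by exact_mod_cast h
    exact h2 ((Nat.prime_dvd_prime_iff_eq hp Nat.prime_two).mp this)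
  have h4' : ¬ (p : ℤ) ∣ 4 := by
    intro h
    have h' : (p : ℤ) ∣ 2 * 2 := by
      have h22 : (2 : ℤ) * 2 = 4 := by norm_num
      rw [h22]
      exact h
    rcases hpp.dvd_or_dvd h' with h | h <;> exact h2' h
  have hk : ¬ (p : ℤ) ∣ 4 * v.1 ^ 2 := by
    intro h
    rcases hpp.dvd_or_dvd h with h | h
    · exact h4' h
    · exact ha (hpp.dvd_of_dvd_pow h)
  have key : ∀ w : V, ((p : ℤ) ∣ res v w ↔
      (p : ℤ) ∣ (4 * v.1 ^ 2) * w.2.2 + (w.1 * v.2.1 ^ 2 - 2 * v.1 * v.2.1 * w.2.1)) := by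
    intro w
    have h16 : (4 * v.1 ^ 2) * (4 * res v w)
        = ((4 * v.1 ^ 2) * w.2.2 + (w.1 * v.2.1 ^ 2 - 2 * v.1 * v.2.1 * w.2.1)) ^ 2
          + disc v * (2 * (4 * v.1 ^ 2 * w.2.2 - w.1 * v.2.1 ^ 2) * w.1 + w.1 ^ 2 * disc v
            - 4 * v.1 * (v.1 * w.2.1 - w.1 * v.2.1) * w.2.1) := by
      unfold res disc
      ring
    have hdt : (p : ℤ) ∣ disc v * (2 * (4 * v.1 ^ 2 * w.2.2 - w.1 * v.2.1 ^ 2) * w.1 + w.1 ^ 2 * disc v
            - 4 * v.1 * (v.1 * w.2.1 - w.1 * v.2.1) * w.2.1) := Dvd.dvd.mul_right hd _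
    constructor
    · intro h
      have h1 : (p : ℤ) ∣ (4 * v.1 ^ 2) * (4 * res v w) := Dvd.dvd.mul_left (Dvd.dvd.mul_left h _) _
      rw [h16] at h1
      exact hpp.dvd_of_dvd_pow ((dvd_add_left hdt).mp h1)
    · intro h
      have h1 : (p : ℤ) ∣ (4 * v.1 ^ 2) * (4 * res v w) := by
        rw [h16]
        exact dvd_add (dvd_pow h two_ne_zero) hdt
      rcases hpp.dvd_or_dvd h1 with h | h
      · exact absurd h hk
      · rcases hpp.dvd_or_dvd h with h | h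
        · exact absurd h h4'
        · exact h
  rw [Finset.filter_congr (fun w _ => key w), Finset.card_filter, cube, Finset.sum_product]
  have hin : ∀ A ∈ Ico (0 : ℤ) ((p ^ 2 : ℕ) : ℤ),
      (∑ y ∈ Ico (0 : ℤ) ((p ^ 2 : ℕ) : ℤ) ×ˢ Ico (0 : ℤ) ((p ^ 2 : ℕ) : ℤ),
        (if (p : ℤ) ∣ (4 * v.1 ^ 2) * y.2 + (A * v.2.1 ^ 2 - 2 * v.1 * v.2.1 * y.1) then 1 else 0))
      = p ^ 2 * p := by
    intro A _
    rw [Finset.sum_product]
    have hB : ∀ B ∈ Ico (0 : ℤ) ((p ^ 2 : ℕ) : ℤ),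
        (∑ C ∈ Ico (0 : ℤ) ((p ^ 2 : ℕ) : ℤ),
          (if (p : ℤ) ∣ (4 * v.1 ^ 2) * C + (A * v.2.1 ^ 2 - 2 * v.1 * v.2.1 * B) then 1 else 0)) = p := by
      intro B _
      rw [← Finset.card_filter]
      exact LcB3_aux1 p hp _ _ hk
    rw [Finset.sum_congr rfl hB, Finset.sum_const, Int.card_Ico, smul_eq_mul, sub_zero, Int.toNat_natCast]
  rw [Finset.sum_congr rfl hin, Finset.sum_const, Int.card_Ico, smul_eq_mul]
  simp only [sub_zero, Int.toNat_natCast]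
  ring

end FGO
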