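import Pool.Agent.Lib.MP_1ad228_ntG.LcB
import Pool.Agent.Lib.MP_1ad228_ntG.LcB3

/-! JOB LcB4. -/

set_option autoImplicit false

open Classical

namespace FGO

open Finset

private theorem LcB4_sum (δ : ℤ) (p : ℕ) (hp : p.Prime) (h2 : p ≠ 2) (hδ : ¬ (p : ℤ) ∣ δ) :
    (∑ v ∈ cube (p ^ 2), ∑ w ∈ cube (p ^ 2),
      (if Om δ p v ∧ (p : ℤ) ∣ res v w then (1 : ℝ) else 0)) / ((p ^ 2 : ℕ) : ℝ) ^ 6 =
      ((p : ℝ) - 1) ^ 2 / (2 * (p : ℝ) ^ 3) / p := by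
  have h1 : ∀ v ∈ cube (p ^ 2), ∑ w ∈ cube (p ^ 2),
      (if Om δ p v ∧ (p : ℤ) ∣ res v w then (1 : ℝ) else 0) =
      if Om δ p v then (p : ℝ) ^ 5 else 0 := by
    intro v _
    by_cases hv : Om δ p v
    · rw [if_pos hv]
      have h3 : ∑ w ∈ cube (p ^ 2), (if Om δ p v ∧ (p : ℤ) ∣ res v w then (1 : ℝ) else 0) =
          ∑ w ∈ cube (p ^ 2), (if (p : ℤ) ∣ res v w then (1 : ℝ) else 0) := by
        refine sum_congr rfl fun w _ => ?_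
        by_cases hw : (p : ℤ) ∣ res v w
        · rw [if_pos ⟨hv, hw⟩, if_pos hw]
        · rw [if_neg (fun h => hw h.2), if_neg hw]
      rw [h3, sum_boole, card_res δ p hp h2 v hv]
      push_cast
      ring
    · rw [if_neg hv]
      refine sum_eq_zero fun w _ => ?_
      rw [if_neg (fun h => hv h.1)]
  rw [sum_congr rfl h1, ← sum_filter, sum_const, nsmul_eq_mul]
  have h4 : (2 : ℝ) * (((cube (p ^ 2)).filter (Om δ p)).card : ℝ) = (p : ℝ) ^ 3 * ((p : ℝ) - 1) ^ 2 := by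
    have h5 := card_Om δ p hp h2 hδ
    have h6 : ((p - 1 : ℕ) : ℝ) = (p : ℝ) - 1 := by
      rw [Nat.cast_sub hp.one_lt.le, Nat.cast_one]
    rw [← h6]
    exact_mod_cast h5
  have hp0 : (p : ℝ) ≠ 0 := by exact_mod_cast hp.ne_zero
  push_cast
  have h7 : (((cube (p ^ 2)).filter (Om δ p)).card : ℝ) = (p : ℝ) ^ 3 * ((p : ℝ) - 1) ^ 2 / 2 := by
    linarith
  rw [h7]
  field_simp

/-- (LcB4) Proof. LcB1 and LcB3 (and `res_symm` for the second one): `card_Om * p⁵ / p¹² = (p-1)²/(2p³) / p`. -/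
theorem Ex_Om_res (δ : ℤ) (p : ℕ) (hp : p.Prime) (h2 : p ≠ 2) (hδ : ¬ (p : ℤ) ∣ δ) :
    Ex (p ^ 2) (fun u => if Om δ p u.1 ∧ (p : ℤ) ∣ res u.1 u.2 then 1 else 0) =
      ((p : ℝ) - 1) ^ 2 / (2 * (p : ℝ) ^ 3) / p ∧
    Ex (p ^ 2) (fun u => if Om δ p u.2 ∧ (p : ℤ) ∣ res u.1 u.2 then 1 else 0) =
      ((p : ℝ) - 1) ^ 2 / (2 * (p : ℝ) ^ 3) / p := by
  have hs := LcB4_sum δ p hp h2 hδ
  refine ⟨?_, ?_⟩
  · unfold Ex cube2
    rw [sum_product]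
    exact hs
  · unfold Ex cube2
    rw [sum_product_right]
    have h3 : ∑ w ∈ cube (p ^ 2), ∑ v ∈ cube (p ^ 2),
        (if Om δ p w ∧ (p : ℤ) ∣ res v w then (1 : ℝ) else 0) =
        ∑ v ∈ cube (p ^ 2), ∑ w ∈ cube (p ^ 2),
        (if Om δ p v ∧ (p : ℤ) ∣ res v w then (1 : ℝ) else 0) := by
      refine sum_congr rfl fun w _ => sum_congr rfl fun v _ => ?_
      rw [res_symm]
    rw [← hs, ← h3]

end FGO
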