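import Pool.Agent.Lib.MP_1ad228_ntG.LcA
import Pool.Agent.Lib.MP_1ad228_ntG.LcB2
import Pool.Agent.Lib.MP_1ad228_ntG.LcB4
import Pool.Agent.Lib.MP_1ad228_ntG.Per2

/-! JOB LcC: the density of the sieve weight. -/

set_option autoImplicit false

open Classical

namespace FGO

open Finset

/-- Proof. `res` modulo `p²` and `Om_congr`. -/
theorem Per_xp (δ : ℤ) (p : ℕ) : Per (p ^ 2) (xp δ p) := by
  intro u u' e1 e2
  have hd : (p : ℤ) ∣ ((p ^ 2 : ℕ) : ℤ) := by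
    push_cast
    exact dvd_pow_self _ two_ne_zero
  have c1 : Cg p u.1 u'.1 := ⟨hd.trans e1.1, hd.trans e1.2.1, hd.trans e1.2.2⟩
  have c2 : Cg p u.2 u'.2 := ⟨hd.trans e2.1, hd.trans e2.2.1, hd.trans e2.2.2⟩
  have hip := Per_ip p u u' c1 c2
  have hres : (p : ℤ) ∣ res u.1 u.2 ↔ (p : ℤ) ∣ res u'.1 u'.2 := by
    unfold ip at hip
    by_cases g1 : (p : ℤ) ∣ res u.1 u.2 <;> by_cases g2 : (p : ℤ) ∣ res u'.1 u'.2
    · exact ⟨fun _ => g2, fun _ => g1⟩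
    · rw [if_pos g1, if_neg g2] at hip
      norm_num at hip
    · rw [if_neg g1, if_pos g2] at hip
      norm_num at hip
    · exact ⟨fun h => absurd h g1, fun h => absurd h g2⟩
  have o1 := Om_congr δ p u.1 u'.1 e1
  have o2 := Om_congr δ p u.2 u'.2 e2
  unfold xp
  simp only [hres, o1, o2]

theorem xp_nonneg (δ : ℤ) (p : ℕ) (u : V × V) : 0 ≤ xp δ p u := by
  unfold xp
  split_ifs <;> norm_num

theorem xp_le_one (δ : ℤ) (p : ℕ) (u : V × V) : xp δ p u ≤ 1 := by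
  unfold xp
  split_ifs <;> norm_num

theorem LcC_inv (p : ℕ) (hp : p.Prime) (h2 : p ≠ 2) : 0 < 1 / (p : ℝ) ∧ 1 / (p : ℝ) ≤ 1 / 3 := by
  have h3 : 3 ≤ p := by
    have := hp.two_le
    omega
  have h3' : (3 : ℝ) ≤ p := by exact_mod_cast h3
  refine ⟨by positivity, ?_⟩
  exact one_div_le_one_div_of_le (by norm_num) h3'

theorem LcC_o (p : ℕ) (hp : p.Prime) : ((p : ℝ) - 1) ^ 2 / (2 * (p : ℝ) ^ 3) =
    (1 / (p : ℝ) - 2 * (1 / (p : ℝ)) ^ 2 + (1 / (p : ℝ)) ^ 3) / 2 := by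
  have h0 : (p : ℝ) ≠ 0 := by exact_mod_cast hp.ne_zero
  field_simp
  ring

/-- (LcC1) Proof. Let `A1, A2` be the indicators of `Om δ p u.1`, `Om δ p u.2`, `R` that of `p ∣ res`. Pointwise `xp ≥ R/2 + A1 + A2 - A1 A2 - A1 R - A2 R` (four cases). Take mean values:
`Ex (p²) (ip p) = Ex p (ip p) = 1/p + 1/p² - 1/p³` (`Ex_dvd`), and LcB with `o = (p-1)²/(2p³)`:
`≥ (1/p)/2 + 2 o - o² - 2 o/p`. `o = 1/(2p) - 1/p² + 1/(2p³) ≥ 1/(2p) - 1/p²`, `o ≤ 1/(2p)`: so `≥ 1/(2p) + 1/p - 2/p² - 1/(4p²) - 1/p² ≥ 3/(2p) - 4/p² = dn p` (`1/p² ≥ 1/p³` for the first term). -/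
theorem dn_le_Ex (δ : ℤ) (p : ℕ) (hp : p.Prime) (h2 : p ≠ 2) (hδ : ¬ (p : ℤ) ∣ δ) :
    dn p ≤ Ex (p ^ 2) (xp δ p) := by
  have hPer := Per_ip p
  have hpp : 0 < p ^ 2 := pow_pos hp.pos 2
  have hR : Ex (p ^ 2) (ip p) = 1 / (p : ℝ) + 1 / (p : ℝ) ^ 2 - 1 / (p : ℝ) ^ 3 := by
    rw [Ex_dvd hpp (dvd_pow_self p two_ne_zero) hPer, Ex_ip p hp h2]
  obtain ⟨m1, m2, m3⟩ := Ex_Om δ p hp h2 hδ
  obtain ⟨n1, n2⟩ := Ex_Om_res δ p hp h2 hδ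
  have hle : Ex (p ^ 2) (fun u => 1 / 2 * ip p u + (if Om δ p u.1 then 1 else 0) +
      (if Om δ p u.2 then 1 else 0) - (if Om δ p u.1 ∧ Om δ p u.2 then 1 else 0) -
      (if Om δ p u.1 ∧ (p : ℤ) ∣ res u.1 u.2 then 1 else 0) -
      (if Om δ p u.2 ∧ (p : ℤ) ∣ res u.1 u.2 then 1 else 0)) ≤ Ex (p ^ 2) (xp δ p) := by
    refine Ex_mono _ _ _ fun u => ?_
    unfold xp ip
    by_cases g1 : (p : ℤ) ∣ res u.1 u.2 <;> by_cases g2 : Om δ p u.1 <;> by_cases g3 : Om δ p u.2 <;>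
      simp only [g1, g2, g3, and_self, and_true, and_false, or_self, or_true, or_false, true_or,
        if_true, if_false, false_and, true_and] <;> norm_num
  rw [Ex_sub, Ex_sub, Ex_sub, Ex_add, Ex_add, Ex_smul, hR, m1, m2, m3, n1, n2, LcC_o p hp] at hle
  refine le_trans ?_ hle
  obtain ⟨hP0, hP1⟩ := LcC_inv p hp h2
  unfold dn
  have e2 : 1 / (p : ℝ) ^ 2 = (1 / (p : ℝ)) ^ 2 := by rw [one_div_pow]
  have e3 : 1 / (p : ℝ) ^ 3 = (1 / (p : ℝ)) ^ 3 := by rw [one_div_pow]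
  have e4 : 3 / (2 * (p : ℝ)) = 3 / 2 * (1 / (p : ℝ)) := by
    have h0 : (p : ℝ) ≠ 0 := by exact_mod_cast hp.ne_zero
    field_simp
  have e5 : 4 / (p : ℝ) ^ 2 = 4 * (1 / (p : ℝ)) ^ 2 := by
    rw [← e2]; ring
  have e6 : ∀ y : ℝ, y / (p : ℝ) = y * (1 / (p : ℝ)) := fun y => by ring
  rw [e2, e3, e4, e5, e6 ((1 / (p : ℝ) - 2 * (1 / (p : ℝ)) ^ 2 + (1 / (p : ℝ)) ^ 3) / 2)]
  set P : ℝ := 1 / (p : ℝ) with hP
  have k1 : (1 - P) ^ 4 ≤ 1 := pow_le_one₀ (by linarith) (by linarith)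
  have k2 : P ^ 2 ≤ P := by nlinarith
  have k3 : 0 ≤ P ^ 2 * (3 / 2 + 5 / 2 * P - P ^ 2 - (1 - P) ^ 4 / 4) :=
    mul_nonneg (by positivity) (by linarith)
  nlinarith [k3]

/-- (LcC2) Proof. `xp ≤ R/2 + A1 + A2`, so the mean value is `≤ (1/p + 1/p²)/2 + 2 · 1/(2p) ≤ 2/p`. -/
theorem Ex_le (δ : ℤ) (p : ℕ) (hp : p.Prime) (h2 : p ≠ 2) (hδ : ¬ (p : ℤ) ∣ δ) :
    Ex (p ^ 2) (xp δ p) ≤ 2 / (p : ℝ) := by
  have hPer := Per_ip p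
  have hpp : 0 < p ^ 2 := pow_pos hp.pos 2
  have hR : Ex (p ^ 2) (ip p) = 1 / (p : ℝ) + 1 / (p : ℝ) ^ 2 - 1 / (p : ℝ) ^ 3 := by
    rw [Ex_dvd hpp (dvd_pow_self p two_ne_zero) hPer, Ex_ip p hp h2]
  obtain ⟨m1, m2, m3⟩ := Ex_Om δ p hp h2 hδ
  have hle : Ex (p ^ 2) (xp δ p) ≤ Ex (p ^ 2) (fun u => 1 / 2 * ip p u +
      (if Om δ p u.1 then 1 else 0) + (if Om δ p u.2 then 1 else 0)) := by
    refine Ex_mono _ _ _ fun u => ?_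
    unfold xp ip
    by_cases g1 : (p : ℤ) ∣ res u.1 u.2 <;> by_cases g2 : Om δ p u.1 <;> by_cases g3 : Om δ p u.2 <;>
      simp only [g1, g2, g3, and_self, and_true, and_false, or_self, or_true, or_false, true_or,
        if_true, if_false, false_and, true_and] <;> norm_num
  rw [Ex_add, Ex_add, Ex_smul, hR, m1, m2, LcC_o p hp] at hle
  refine hle.trans ?_
  obtain ⟨hP0, hP1⟩ := LcC_inv p hp h2
  have e2 : 1 / (p : ℝ) ^ 2 = (1 / (p : ℝ)) ^ 2 := by rw [one_div_pow]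
  have e3 : 1 / (p : ℝ) ^ 3 = (1 / (p : ℝ)) ^ 3 := by rw [one_div_pow]
  have e4 : 2 / (p : ℝ) = 2 * (1 / (p : ℝ)) := by ring
  rw [e2, e3, e4]
  set P : ℝ := 1 / (p : ℝ) with hP
  have k2 : 0 ≤ P ^ 2 := by positivity
  have k3 : P ^ 3 ≤ P ^ 2 := by nlinarith
  nlinarith [k3]

end FGO
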