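import Pool.Agent.Lib.MP_1ad228_ntG.SV
import Pool.Agent.Lib.MP_1ad228_ntG.LcC

/-! JOB UB: the union bound. -/

set_option autoImplicit false

open Classical

namespace FGO

open Finset

theorem UB_divs (s : Finset ℕ) (h : ∀ p ∈ s, p.Prime) : (∏ p ∈ s, p).divisors.card = 2 ^ s.card := by
  induction s using Finset.induction_on with
  | empty => simp
  | insert a s ha ih =>
    have h1 : Nat.Coprime a (∏ p ∈ s, p) := by
      refine Nat.Coprime.prod_right fun p hp => ?_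
      refine (Nat.coprime_primes (h a (mem_insert_self a s)) (h p (mem_insert_of_mem hp))).2 ?_
      rintro rfl
      exact ha hp
    have h2 : a.divisors.card = 2 := by
      rw [(h a (mem_insert_self a s)).divisors, card_pair]
      exact (h a (mem_insert_self a s)).one_lt.ne
    rw [prod_insert ha, Nat.Coprime.card_divisors_mul h1, ih fun p hp => h p (mem_insert_of_mem hp),
      h2, card_insert_of_notMem ha, pow_succ, mul_comm]

/-- (UB1) Proof. `∏ over the primes ≤ P0`: squarefree, the divisors are the products of the subsets: `2^{π(P0)}`. (Induction, or `Nat.Coprime.card_divisors_mul`, or an injection `d ↦ d.primeFactors` into the powerset of `(range (P0+1)).filter Prime`,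
of cardinality `≤ 2^{P0}` as `0` is not prime: `#filter ≤ P0`.) -/
theorem card_divisors_primorial (P0 : ℕ) : (primorial P0).divisors.card ≤ 2 ^ P0 := by
  rw [primorial, UB_divs _ fun p hp => (mem_filter.1 hp).2]
  refine Nat.pow_le_pow_right (by norm_num) ?_
  refine le_trans (card_le_card (t := Icc 1 P0) ?_) (by rw [Nat.card_Icc]; omega)
  intro p hp
  rw [mem_filter, mem_range] at hp
  rw [mem_Icc]
  exact ⟨hp.2.one_lt.le, by omega⟩

theorem UB_not_dvd {P0 d0 p : ℕ} (hd0 : d0 ∈ (primorial P0).divisors) (hp : p.Prime)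
    (hpP : P0 < p) : ¬ p ∣ d0 := by
  intro h
  have h1 : p ∣ primorial P0 := h.trans (Nat.mem_divisors.1 hd0).1
  rw [primorial, Prime.dvd_finsetProd_iff hp.prime] at h1
  obtain ⟨q, hq, hpq⟩ := h1
  rw [mem_filter, mem_range] at hq
  have h2 := Nat.le_of_dvd hq.2.pos hpq
  omega

theorem UB_dn_le (p : ℕ) (hp : 2 ≤ p) : dn p ≤ 1 := by
  have hp0 : (2 : ℝ) ≤ p := by exact_mod_cast hp
  rw [dn]
  have h1 : 3 / (2 * (p : ℝ)) ≤ 1 := by
    rw [div_le_one (by positivity)]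
    linarith
  have h2 : 0 ≤ 4 / (p : ℝ) ^ 2 := by positivity
  linarith

/-- (UB2) one term. Proof. `1 ≤ 2^(m - omd) * ∏ (1 - xp)` on the pairs counted, so the count is `≤ 2^(m - omd) ∑_{u ∈ box2, Lam} ∏ (1 - xp)`; `sieve` with `Q' = Q.filter (¬ p ∣ d1)`, `x = xp (σ d0 d1)`; the prime `p ∈ Q'` does not divide `σ d0 d1`
(`p > P0 ≥` all prime factors of `d0`). `dn p ≤ Ex ≤ 1`: `∏ (1 - Ex) ≤ ∏ (1 - dn p)` (`0 ≤ 1 - Ex`: `Ex ≤ 2/p ≤ 1`), `B = ∑_{p ∈ Q} 2/p`. -/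
theorem one_term (N P0 q0 m k : ℕ) (hN : 0 < N) (hP0 : 4 ≤ P0) (Q : Finset ℕ) (hQ : ∀ p ∈ Q, p.Prime ∧ P0 < p)
    (hk : ∀ D ⊆ Q, D.card ≤ 2 * k → (∏ p ∈ D, p) ^ 2 ≤ q0) (σ : ℤ) (hσ : σ = 1 ∨ σ = -1) (d0 : ℕ)
    (hd0 : d0 ∈ (primorial P0).divisors) (d1 : ℕ) (hd1 : d1 ∈ DD N P0) (r : ℤ) (hG : Good N q0 d1 r) :
    (((box2 N).filter fun u => Lam d1 r u ∧ omd Q d1 ≤ m ∧
      (1 / 2 : ℝ) ^ (m - omd Q d1) ≤ ∏ p ∈ Q.filter (fun p => ¬ p ∣ d1), (1 - xp (σ * d0 * d1) p u)).card : ℝ) ≤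
    2 ^ m * (1 / 2) ^ (omd Q d1) * ((8 * (N : ℝ)) ^ 6 / (d1 : ℝ) ^ 2) *
      (∏ p ∈ Q.filter (fun p => ¬ p ∣ d1), (1 - dn p) +
        (∑ p ∈ Q, 2 / (p : ℝ)) ^ (2 * k + 1) / ((2 * k + 1).factorial : ℝ)) := by
  have hd1' : 0 < d1 := by
    rw [DD, mem_filter, mem_Icc] at hd1
    omega
  have hdn : ∀ p ∈ Q.filter (fun p => ¬ p ∣ d1), 0 ≤ 1 - dn p := by
    intro p hp
    rw [mem_filter] at hp
    have := UB_dn_le p (hQ p hp.1).1.two_le
    linarith
  have hB0 : 0 ≤ ∑ p ∈ Q, 2 / (p : ℝ) := sum_nonneg fun p _ => by positivity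
  have hR : 0 ≤ ∏ p ∈ Q.filter (fun p => ¬ p ∣ d1), (1 - dn p) +
      (∑ p ∈ Q, 2 / (p : ℝ)) ^ (2 * k + 1) / ((2 * k + 1).factorial : ℝ) :=
    add_nonneg (prod_nonneg hdn) (by positivity)
  by_cases hm : omd Q d1 ≤ m
  · -- the sieve
    have hnd : ∀ p ∈ Q.filter (fun p => ¬ p ∣ d1), ¬ (p : ℤ) ∣ σ * d0 * d1 := by
      intro p hp h
      rw [mem_filter] at hp
      have hpp := (hQ p hp.1).1
      have hpi : Prime (p : ℤ) := Nat.prime_iff_prime_int.1 hpp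
      rcases hpi.dvd_or_dvd h with h1 | h1
      · rcases hpi.dvd_or_dvd h1 with h2 | h2
        · rcases hσ with rfl | rfl
          · exact hpi.not_isUnit (isUnit_of_dvd_one h2)
          · exact hpi.not_isUnit (isUnit_of_dvd_one ((dvd_neg).1 h2))
        · exact UB_not_dvd hd0 hpp (hQ p hp.1).2 (Int.natCast_dvd_natCast.1 h2)
      · exact hp.2 (Int.natCast_dvd_natCast.1 h1)
    have hne2 : ∀ p ∈ Q.filter (fun p => ¬ p ∣ d1), p ≠ 2 := by
      intro p hp h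
      rw [mem_filter] at hp
      have := (hQ p hp.1).2
      omega
    have hEx : ∀ p ∈ Q.filter (fun p => ¬ p ∣ d1), Ex (p ^ 2) (xp (σ * d0 * d1) p) ≤ 2 / (p : ℝ) :=
      fun p hp => Ex_le _ p (hQ p (mem_filter.1 hp).1).1 (hne2 p hp) (hnd p hp)
    have hB : ∑ p ∈ Q.filter (fun p => ¬ p ∣ d1), Ex (p ^ 2) (xp (σ * d0 * d1) p) ≤
        ∑ p ∈ Q, 2 / (p : ℝ) := by
      refine (sum_le_sum hEx).trans ?_
      exact sum_le_sum_of_subset_of_nonneg (filter_subset _ _) fun p _ _ => by positivity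
    have hs := sieve (N := N) (δ := d1) (q0 := q0) (k := k) (r := r) hN hd1'
      (Q.filter (fun p => ¬ p ∣ d1)) (fun p hp => ⟨(hQ p (mem_filter.1 hp).1).1, (mem_filter.1 hp).2⟩)
      (fun D hD hc => hk D (hD.trans (filter_subset _ _)) hc) hG (xp (σ * d0 * d1))
      (fun p _ => Per_xp _ p) (fun p _ u => xp_nonneg _ p u) (fun p _ u => xp_le_one _ p u)
      (∑ p ∈ Q, 2 / (p : ℝ)) hB
    have hpr : ∏ p ∈ Q.filter (fun p => ¬ p ∣ d1), (1 - Ex (p ^ 2) (xp (σ * d0 * d1) p)) ≤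
        ∏ p ∈ Q.filter (fun p => ¬ p ∣ d1), (1 - dn p) := by
      refine prod_le_prod (fun p hp => ?_) fun p hp => ?_
      · have h1 := hEx p hp
        have h2 : (2 : ℝ) ≤ p := by exact_mod_cast (hQ p (mem_filter.1 hp).1).1.two_le
        have h3 : 2 / (p : ℝ) ≤ 1 := by
          rw [div_le_one (by linarith)]
          exact h2
        linarith
      · have h1 := dn_le_Ex _ p (hQ p (mem_filter.1 hp).1).1 (hne2 p hp) (hnd p hp)
        linarith
    -- the counting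
    have hpos : ∀ u : V × V, 0 ≤ ∏ p ∈ Q.filter (fun p => ¬ p ∣ d1), (1 - xp (σ * d0 * d1) p u) :=
      fun u => prod_nonneg fun p _ => by
        have := xp_le_one (σ * d0 * d1) p u
        linarith
    obtain ⟨S, hS⟩ : ∃ S, S = (box2 N).filter fun u => Lam d1 r u ∧ omd Q d1 ≤ m ∧
      (1 / 2 : ℝ) ^ (m - omd Q d1) ≤ ∏ p ∈ Q.filter (fun p => ¬ p ∣ d1), (1 - xp (σ * d0 * d1) p u) :=
      ⟨_, rfl⟩
    rw [← hS]
    have hc : (S.card : ℝ) ≤ 2 ^ (m - omd Q d1) *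
        ∑ u ∈ S, ∏ p ∈ Q.filter (fun p => ¬ p ∣ d1), (1 - xp (σ * d0 * d1) p u) := by
      have h1 : (S.card : ℝ) = ∑ u ∈ S, (1 : ℝ) := by rw [sum_const, nsmul_eq_mul, mul_one]
      rw [h1, mul_sum]
      refine sum_le_sum fun u hu => ?_
      rw [hS, mem_filter] at hu
      have h2 := mul_le_mul_of_nonneg_left hu.2.2.2 (by positivity : (0 : ℝ) ≤ 2 ^ (m - omd Q d1))
      rwa [← mul_pow, mul_one_div_cancel two_ne_zero, one_pow] at h2
    have hsub : S ⊆ (box2 N).filter (Lam d1 r) := by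
      intro u hu
      rw [hS, mem_filter] at hu
      exact mem_filter.2 ⟨hu.1, hu.2.1⟩
    have hc2 : ∑ u ∈ S, ∏ p ∈ Q.filter (fun p => ¬ p ∣ d1), (1 - xp (σ * d0 * d1) p u) ≤
        ∑ u ∈ (box2 N).filter (Lam d1 r), ∏ p ∈ Q.filter (fun p => ¬ p ∣ d1),
          (1 - xp (σ * d0 * d1) p u) :=
      sum_le_sum_of_subset_of_nonneg hsub fun u _ _ => hpos u
    have hpw : (2 : ℝ) ^ (m - omd Q d1) = 2 ^ m * (1 / 2) ^ (omd Q d1) := by
      have h1 : (2 : ℝ) ^ m = 2 ^ (m - omd Q d1) * 2 ^ (omd Q d1) := by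
        rw [← pow_add, Nat.sub_add_cancel hm]
      rw [h1, mul_assoc, ← mul_pow, mul_one_div_cancel two_ne_zero, one_pow, mul_one]
    have h2 : ∑ u ∈ S, ∏ p ∈ Q.filter (fun p => ¬ p ∣ d1), (1 - xp (σ * d0 * d1) p u) ≤
        (8 * (N : ℝ)) ^ 6 / (d1 : ℝ) ^ 2 * (∏ p ∈ Q.filter (fun p => ¬ p ∣ d1), (1 - dn p) +
          (∑ p ∈ Q, 2 / (p : ℝ)) ^ (2 * k + 1) / ((2 * k + 1).factorial : ℝ)) := by
      refine hc2.trans (hs.trans ?_)
      refine mul_le_mul_of_nonneg_left ?_ (by positivity)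
      linarith
    refine hc.trans ?_
    rw [hpw]
    have h3 := mul_le_mul_of_nonneg_left h2
      (by positivity : (0 : ℝ) ≤ 2 ^ m * (1 / 2) ^ (omd Q d1))
    refine h3.trans (le_of_eq ?_)
    ring
  · have h0 : ((box2 N).filter fun u => Lam d1 r u ∧ omd Q d1 ≤ m ∧
        (1 / 2 : ℝ) ^ (m - omd Q d1) ≤
          ∏ p ∈ Q.filter (fun p => ¬ p ∣ d1), (1 - xp (σ * d0 * d1) p u)) = ∅ := by
      rw [filter_eq_empty_iff]
      intro u _ h
      exact hm h.2.1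
    rw [h0, card_empty]
    push_cast
    positivity

end FGO
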