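import Pool.Agent.Lib.MP_1ad228_ntG.Pl

/-! JOB Po3: common large prime factors of two discriminants. -/

set_option autoImplicit false

open Classical

namespace FGO

open Finset

theorem Po3_fib {α β : Type*} (A : Finset α) (B : Finset β) (P : α × β → Prop) {i1 : DecidablePred P}
    (C : ℝ) (h : ∑ v ∈ A, ((B.filter fun w => P (v, w)).card : ℝ) ≤ C) :
    (((A ×ˢ B).filter P).card : ℝ) ≤ C := by
  have e : ((A ×ˢ B).filter P).card = ∑ v ∈ A, (B.filter fun w => P (v, w)).card := by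
    rw [Finset.card_filter, Finset.sum_product]
    refine Finset.sum_congr rfl fun v _ => ?_
    rw [Finset.card_filter]
  rw [e]
  push_cast
  exact h

theorem Po3_Icc (N : ℕ) (hN : 6 ≤ N) : ((Icc (-(N : ℤ)) (N : ℤ)).card : ℝ) ≤ 3 * N := by
  rw [Int.card_Icc]
  have h : ((N : ℤ) + 1 - -(N : ℤ)).toNat = 2 * N + 1 := by omega
  rw [h]
  push_cast
  have : (6 : ℝ) ≤ N := by exact_mod_cast hN
  linarith

theorem Po3_box (N : ℕ) (hN : 6 ≤ N) : ((box N).card : ℝ) ≤ 27 * (N : ℝ) ^ 3 := by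
  have h := Po3_Icc N hN
  rw [box, card_product, card_product]
  push_cast
  have h0 : (0 : ℝ) ≤ ((Icc (-(N : ℤ)) (N : ℤ)).card : ℝ) := Nat.cast_nonneg _
  have h1 : ((Icc (-(N : ℤ)) (N : ℤ)).card : ℝ) * (((Icc (-(N : ℤ)) (N : ℤ)).card : ℝ) *
      ((Icc (-(N : ℤ)) (N : ℤ)).card : ℝ)) ≤ (3 * N) * ((3 * N) * (3 * N)) := by
    gcongr
  refine h1.trans (le_of_eq ?_)
  ring

/-- forms with discriminant zero -/
theorem Po3_zero (N : ℕ) (hN : 6 ≤ N) :
    (((box N).filter fun v => v.1 ≠ 0 ∧ disc v = 0).card : ℝ) ≤ 9 * (N : ℝ) ^ 2 := by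
  have h1 : ((box N).filter fun v => v.1 ≠ 0 ∧ disc v = 0).card ≤
      ((Icc (-(N : ℤ)) (N : ℤ)) ×ˢ (Icc (-(N : ℤ)) (N : ℤ))).card := by
    refine Finset.card_le_card_of_injOn (fun v => (v.1, v.2.1)) ?_ ?_
    · intro v hv
      rw [Finset.mem_coe, Finset.mem_filter, box, Finset.mem_product, Finset.mem_product] at hv
      rw [Finset.mem_coe, Finset.mem_product]
      exact ⟨hv.1.1, hv.1.2.1⟩
    · intro v hv w hw h
      change (v.1, v.2.1) = (w.1, w.2.1) at h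
      rw [Finset.mem_coe, Finset.mem_filter] at hv hw
      rw [Prod.mk.injEq] at h
      obtain ⟨e1, e2⟩ := h
      have h3 := hv.2.2
      have h4 := hw.2.2
      rw [disc] at h3 h4
      have h5 : (4 * v.1) * (v.2.2 - w.2.2) = 0 := by
        rw [← e1, ← e2] at h4
        linear_combination h4 - h3
      have h6 : v.2.2 = w.2.2 := by
        rcases mul_eq_zero.1 h5 with h7 | h7
        · exact absurd h7 (mul_ne_zero (by norm_num) hv.2.1)
        · linarith
      exact Prod.ext e1 (Prod.ext e2 h6)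
  have h2 := Po3_Icc N hN
  have h0 : (0 : ℝ) ≤ ((Icc (-(N : ℤ)) (N : ℤ)).card : ℝ) := Nat.cast_nonneg _
  calc (((box N).filter fun v => v.1 ≠ 0 ∧ disc v = 0).card : ℝ)
      ≤ (((Icc (-(N : ℤ)) (N : ℤ)) ×ˢ (Icc (-(N : ℤ)) (N : ℤ))).card : ℝ) := by exact_mod_cast h1
    _ = ((Icc (-(N : ℤ)) (N : ℤ)).card : ℝ) * ((Icc (-(N : ℤ)) (N : ℤ)).card : ℝ) := by
        rw [card_product]
        push_cast
        ring
    _ ≤ (3 * N) * (3 * N) := by gcongr
    _ = 9 * (N : ℝ) ^ 2 := by ring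

/-- forms with discriminant divisible by a large prime -/
theorem Po3_prime (N : ℕ) (hN : 6 ≤ N) (p : ℕ) (hp : p.Prime) (hNp : N < p) :
    (((box N).filter fun w => w.1 ≠ 0 ∧ (p : ℤ) ∣ disc w).card : ℝ) ≤ 27 * (N : ℝ) ^ 2 := by
  have hp0 : (0 : ℝ) < p := by exact_mod_cast hp.pos
  have hI := Po3_Icc N hN
  have h0 : (0 : ℝ) ≤ ((Icc (-(N : ℤ)) (N : ℤ)).card : ℝ) := Nat.cast_nonneg _
  have h1 : ∀ a ∈ Icc (-(N : ℤ)) (N : ℤ),
      ((((Icc (-(N : ℤ)) (N : ℤ)) ×ˢ (Icc (-(N : ℤ)) (N : ℤ))).filter fun w =>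
        (a, w).1 ≠ 0 ∧ (p : ℤ) ∣ disc (a, w)).card : ℝ) ≤ 9 * N := by
    intro a ha
    rw [Finset.mem_Icc] at ha
    refine Po3_fib _ _ _ _ ?_
    have h2 : ∀ b ∈ Icc (-(N : ℤ)) (N : ℤ), (((Icc (-(N : ℤ)) (N : ℤ)).filter fun c =>
        (a, (b, c)).1 ≠ 0 ∧ (p : ℤ) ∣ disc (a, (b, c))).card : ℝ) ≤ 3 := by
      intro b _
      by_cases hne : ((Icc (-(N : ℤ)) (N : ℤ)).filter fun c =>
        (a, (b, c)).1 ≠ 0 ∧ (p : ℤ) ∣ disc (a, (b, c))).Nonempty
      · obtain ⟨c0, hc0⟩ := hne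
        rw [Finset.mem_filter] at hc0
        have ha0 : a ≠ 0 := hc0.2.1
        have h4 : IsCoprime (p : ℤ) (4 * a) := by
          rw [Int.isCoprime_iff_gcd_eq_one, Int.gcd_eq_natAbs, Int.natAbs_natCast, ← Nat.coprime_iff_gcd_eq_one,
            Nat.Prime.coprime_iff_not_dvd hp, Int.natAbs_mul]
          intro h5
          rcases (Nat.Prime.dvd_mul hp).1 h5 with h6 | h6
          · have h7 : (4 : ℤ).natAbs = 4 := rfl
            rw [h7] at h6
            have := Nat.le_of_dvd (by norm_num) h6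
            omega
          · have := Nat.le_of_dvd (Int.natAbs_pos.2 ha0) h6
            omega
        have hsub : ((Icc (-(N : ℤ)) (N : ℤ)).filter fun c =>
            (a, (b, c)).1 ≠ 0 ∧ (p : ℤ) ∣ disc (a, (b, c))) ⊆
            (Icc (-(N : ℤ)) (N : ℤ)).filter fun c => (p : ℤ) ∣ c - c0 := by
          intro c hc
          rw [Finset.mem_filter] at hc ⊢
          refine ⟨hc.1, ?_⟩
          have h5 := dvd_sub hc0.2.2 hc.2.2
          have e : disc (a, (b, c0)) - disc (a, (b, c)) = (4 * a) * (c - c0) := by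
            simp only [disc]
            ring
          rw [e] at h5
          exact h4.dvd_of_dvd_mul_left h5
        have h5 := class_count N p hp.pos c0
        have h6 : 2 * (N : ℝ) / p + 1 ≤ 3 := by
          have h7 : (N : ℝ) ≤ p := by exact_mod_cast hNp.le
          have h8 : 2 * (N : ℝ) / p ≤ 2 := by
            rw [div_le_iff₀ hp0]
            linarith
          linarith
        have h9 : (((Icc (-(N : ℤ)) (N : ℤ)).filter fun c =>
            (a, (b, c)).1 ≠ 0 ∧ (p : ℤ) ∣ disc (a, (b, c))).card : ℝ) ≤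
            (((Icc (-(N : ℤ)) (N : ℤ)).filter fun c => (p : ℤ) ∣ c - c0).card : ℝ) := by
          exact_mod_cast Finset.card_le_card hsub
        linarith
      · rw [Finset.not_nonempty_iff_eq_empty] at hne
        rw [hne]
        norm_num
    refine (Finset.sum_le_sum h2).trans ?_
    rw [Finset.sum_const, nsmul_eq_mul]
    linarith
  refine Po3_fib _ _ _ _ ?_
  refine (Finset.sum_le_sum h1).trans ?_
  rw [Finset.sum_const, nsmul_eq_mul]
  have hN0 : (0 : ℝ) ≤ N := Nat.cast_nonneg _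
  nlinarith [mul_le_mul_of_nonneg_right hI hN0]

/-- the large primes dividing a discriminant -/
theorem Po3_two (N : ℕ) (hN : 6 ≤ N) (v : V) (hv : v ∈ box N) (hd : disc v ≠ 0) :
    ((disc v).natAbs.primeFactors.filter fun p => N < p).card ≤ 2 := by
  by_contra h
  push Not at h
  have h1 : ((disc v).natAbs.primeFactors.filter fun p => N < p) ⊆ (disc v).natAbs.primeFactors :=
    Finset.filter_subset _ _
  have h2 : ∏ p ∈ ((disc v).natAbs.primeFactors.filter fun p => N < p), p ∣ (disc v).natAbs :=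
    (Finset.prod_dvd_prod_of_subset _ _ _ h1).trans (Nat.prod_primeFactors_dvd _)
  have h3 := Nat.le_of_dvd (Int.natAbs_pos.2 hd) h2
  have h4 : N ^ 3 ≤ ∏ p ∈ ((disc v).natAbs.primeFactors.filter fun p => N < p), p := by
    calc N ^ 3 ≤ N ^ ((disc v).natAbs.primeFactors.filter fun p => N < p).card :=
          Nat.pow_le_pow_right (by omega) h
      _ = ∏ _p ∈ ((disc v).natAbs.primeFactors.filter fun p => N < p), N := by
          rw [Finset.prod_const]
      _ ≤ _ := Finset.prod_le_prod' fun p hp => (Finset.mem_filter.1 hp).2.le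
  have h5 : (disc v).natAbs ≤ 5 * N ^ 2 := by
    rw [mem_box] at hv
    obtain ⟨a1, a2, a3⟩ := hv
    have b1 : |disc v| ≤ 5 * (N : ℤ) ^ 2 := by
      rw [disc]
      have c1 : |v.2.1 ^ 2 - 4 * v.1 * v.2.2| ≤ |v.2.1 ^ 2| + |4 * v.1 * v.2.2| := abs_sub _ _
      have c2 : |v.2.1 ^ 2| ≤ (N : ℤ) ^ 2 := by
        rw [abs_pow]
        exact pow_le_pow_left₀ (abs_nonneg _) a2 2
      have c3 : |4 * v.1 * v.2.2| ≤ 4 * (N : ℤ) ^ 2 := by
        rw [abs_mul, abs_mul]
        have c4 : |(4 : ℤ)| = 4 := rfl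
        rw [c4, mul_assoc, sq]
        have := mul_le_mul a1 a3 (abs_nonneg _) (by positivity : (0 : ℤ) ≤ N)
        linarith
      linarith
    have b2 : ((disc v).natAbs : ℤ) ≤ 5 * (N : ℤ) ^ 2 := by
      rw [Int.natCast_natAbs]
      exact b1
    exact_mod_cast b2
  have h6 : N ^ 3 ≤ 5 * N ^ 2 := h4.trans (h3.trans h5)
  nlinarith [pow_pos (show 0 < N by omega) 2]

/-- (Po3) Proof. `N ≥ 5`. Pairs with `disc u.1 = 0`: for given `v.1 ≠ 0`, `v.2.1` at most one `v.2.2`: `≤ (3N)² (3N)³ = 243 N^5` pairs. Pairs with `disc u.1 ≠ 0`: `|disc u.1| ≤ 5N²`, at most two primes `p > N` divide it (`N³ > 5N²`); for each of them the number of `w`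
with `w.1 ≠ 0`, `p ∣ disc w`: `p ∤ w.1` as `0 < |w.1| ≤ N < p`, so for given `w.1, w.2.1` `w.2.2` is in one class modulo `p > N`: at most `3` values (`2N/p + 1 < 3`): `≤ (3N)² · 3 = 27 N²`. Total `≤ 243 N^5 + 27N³ · 2 · 27 N² = 1701 N^5`. -/
theorem disc_large (N : ℕ) (hN : 6 ≤ N) :
    (((box2 N).filter fun u => u.1.1 ≠ 0 ∧ u.2.1 ≠ 0 ∧ ∃ p : ℕ, p.Prime ∧ N < p ∧ (p : ℤ) ∣ disc u.1 ∧
      (p : ℤ) ∣ disc u.2).card : ℝ) ≤ 1701 * (N : ℝ) ^ 5 := by
  refine Po3_fib _ _ _ _ ?_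
  have hN0 : (0 : ℝ) ≤ N := Nat.cast_nonneg _
  have h1 : ∀ v ∈ box N, ((((box N).filter fun w => (v, w).1.1 ≠ 0 ∧ (v, w).2.1 ≠ 0 ∧ ∃ p : ℕ, p.Prime ∧
      N < p ∧ (p : ℤ) ∣ disc (v, w).1 ∧ (p : ℤ) ∣ disc (v, w).2).card : ℕ) : ℝ) ≤
      (if v.1 ≠ 0 ∧ disc v = 0 then 27 * (N : ℝ) ^ 3 else 0) + 54 * (N : ℝ) ^ 2 := by
    intro v hv
    split_ifs with h
    · have h2 : ((((box N).filter fun w => (v, w).1.1 ≠ 0 ∧ (v, w).2.1 ≠ 0 ∧ ∃ p : ℕ, p.Prime ∧
        N < p ∧ (p : ℤ) ∣ disc (v, w).1 ∧ (p : ℤ) ∣ disc (v, w).2).card : ℕ) : ℝ) ≤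
        ((box N).card : ℝ) := by
        exact_mod_cast Finset.card_filter_le _ _
      have h3 := Po3_box N hN
      have h4 : (0 : ℝ) ≤ 54 * (N : ℝ) ^ 2 := by positivity
      linarith
    · rw [zero_add]
      by_cases hv0 : v.1 = 0
      · have h2 : ((box N).filter fun w => (v, w).1.1 ≠ 0 ∧ (v, w).2.1 ≠ 0 ∧ ∃ p : ℕ, p.Prime ∧
            N < p ∧ (p : ℤ) ∣ disc (v, w).1 ∧ (p : ℤ) ∣ disc (v, w).2) = ∅ := by
          rw [Finset.filter_eq_empty_iff]
          intro w _ hw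
          exact hw.1 hv0
        rw [h2, Finset.card_empty]
        push_cast
        positivity
      · have hd : disc v ≠ 0 := fun h2 => h ⟨hv0, h2⟩
        have hsub : ((box N).filter fun w => (v, w).1.1 ≠ 0 ∧ (v, w).2.1 ≠ 0 ∧ ∃ p : ℕ, p.Prime ∧
            N < p ∧ (p : ℤ) ∣ disc (v, w).1 ∧ (p : ℤ) ∣ disc (v, w).2) ⊆
            ((disc v).natAbs.primeFactors.filter fun p => N < p).biUnion fun p =>
              (box N).filter fun w => w.1 ≠ 0 ∧ (p : ℤ) ∣ disc w := by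
          intro w hw
          rw [Finset.mem_filter] at hw
          obtain ⟨hw1, _, hw2, p, hp, hNp, hd1, hd2⟩ := hw
          rw [Finset.mem_biUnion]
          refine ⟨p, ?_, ?_⟩
          · rw [Finset.mem_filter, Nat.mem_primeFactors]
            refine ⟨⟨hp, Int.natCast_dvd.1 hd1, Int.natAbs_ne_zero.2 hd⟩, hNp⟩
          · rw [Finset.mem_filter]
            exact ⟨hw1, hw2, hd2⟩
        have h2 := (Finset.card_le_card hsub).trans Finset.card_biUnion_le
        have h3 : ((∑ p ∈ ((disc v).natAbs.primeFactors.filter fun p => N < p),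
            ((box N).filter fun w => w.1 ≠ 0 ∧ (p : ℤ) ∣ disc w).card : ℕ) : ℝ) ≤ 54 * (N : ℝ) ^ 2 := by
          push_cast
          have h4 : ∀ p ∈ ((disc v).natAbs.primeFactors.filter fun p => N < p),
              (((box N).filter fun w => w.1 ≠ 0 ∧ (p : ℤ) ∣ disc w).card : ℝ) ≤ 27 * (N : ℝ) ^ 2 := by
            intro p hp
            rw [Finset.mem_filter] at hp
            exact Po3_prime N hN p (Nat.prime_of_mem_primeFactors hp.1) hp.2
          refine (Finset.sum_le_sum h4).trans ?_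
          rw [Finset.sum_const, nsmul_eq_mul]
          have h5 : (((disc v).natAbs.primeFactors.filter fun p => N < p).card : ℝ) ≤ 2 := by
            exact_mod_cast Po3_two N hN v hv hd
          nlinarith [sq_nonneg (N : ℝ)]
        refine le_trans ?_ h3
        exact_mod_cast h2
  refine (Finset.sum_le_sum h1).trans ?_
  rw [Finset.sum_add_distrib, Finset.sum_const, nsmul_eq_mul, ← Finset.sum_filter, Finset.sum_const,
    nsmul_eq_mul]
  have h2 := Po3_zero N hN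
  have h3 := Po3_box N hN
  have h4 : (((box N).filter fun v => v.1 ≠ 0 ∧ disc v = 0).card : ℝ) * (27 * (N : ℝ) ^ 3) ≤
      (9 * (N : ℝ) ^ 2) * (27 * (N : ℝ) ^ 3) := mul_le_mul_of_nonneg_right h2 (by positivity)
  have h5 : ((box N).card : ℝ) * (54 * (N : ℝ) ^ 2) ≤ (27 * (N : ℝ) ^ 3) * (54 * (N : ℝ) ^ 2) :=
    mul_le_mul_of_nonneg_right h3 (by positivity)
  have e : (9 * (N : ℝ) ^ 2) * (27 * (N : ℝ) ^ 3) + (27 * (N : ℝ) ^ 3) * (54 * (N : ℝ) ^ 2) =
      1701 * (N : ℝ) ^ 5 := by ring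
  linarith

end FGO
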