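import Pool.Agent.Lib.MP_1ad228_nt.GTVal
import Pool.Agent.Lib.MP_1ad228_nt.ZHodd

/-! JOB Al1: norms of `X² - d Y²`. -/

set_option autoImplicit false

namespace FGO

open Finset ZC

/-- (Al1a) The norm of `X² - d Y²` is again of this form.
Proof. Let `A, B` be the matrices of multiplication by `X`, `Y` (`Algebra.leftMulMatrix b`, `b = Module.finBasis F K`, `Algebra.norm_eq_matrix_det`); they commute.
In `F[T]` let `D = det (A.map C + T • B.map C)` (`T = Polynomial.X`) and `D' = D.comp (-T) = det (A.map C - T • B.map C)` (the ring hom `Polynomial.compRingHom (-X)`, `RingHom.map_det`).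
`D * D' = det ((A + TB)(A - TB)) = det (A² - T² B²) = expand 2 G` (`Polynomial.expand F 2`, `T ↦ T²`) where `G = det (A².map C - T • B².map C)`.
Every polynomial is `D = expand 2 E + T * expand 2 O` (induction, `Polynomial.induction_on'` or by degrees), and then `D.comp (-T) = expand 2 E - T * expand 2 O`.
So `expand 2 G = (expand 2 E)² - T² (expand 2 O)² = expand 2 (E² - T O²)`, `G = E² - T O²` (`Polynomial.expand_injective`), and evaluation at `d`:
`norm (X² - d Y²) = det (A² - d B²) = E(d)² - d O(d)²`. (Any other proof is welcome.) -/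
theorem norm_form {F K : Type} [Field F] [Field K] [Algebra F K] [FiniteDimensional F K] (d : F) (X Y : K) :
    ∃ x y : F, Algebra.norm F (X ^ 2 - algebraMap F K d * Y ^ 2) = x ^ 2 - d * y ^ 2 := by
  classical
  obtain ⟨n, b, -⟩ : ∃ n : ℕ, ∃ _b : Module.Basis (Fin n) F K, True :=
    ⟨_, Module.finBasis F K, trivial⟩
  obtain ⟨A, hA⟩ : ∃ A : Matrix (Fin n) (Fin n) F, A = Algebra.leftMulMatrix b X := ⟨_, rfl⟩
  obtain ⟨B, hB⟩ : ∃ B : Matrix (Fin n) (Fin n) F, B = Algebra.leftMulMatrix b Y := ⟨_, rfl⟩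
  have hAB : A * B = B * A := by
    rw [hA, hB, ← map_mul, ← map_mul, mul_comm X Y]
  obtain ⟨φ, hφ⟩ : ∃ φ : F →+* QuadraticAlgebra F d 0, φ = algebraMap F (QuadraticAlgebra F d 0) :=
    ⟨_, rfl⟩
  obtain ⟨om, hom⟩ : ∃ om : QuadraticAlgebra F d 0, om = ⟨0, 1⟩ := ⟨_, rfl⟩
  obtain ⟨σ, hσ⟩ : ∃ σ : QuadraticAlgebra F d 0 →+* QuadraticAlgebra F d 0,
      σ = starRingEnd (QuadraticAlgebra F d 0) := ⟨_, rfl⟩
  have hom2 : om * om = φ d := by
    rw [hom, hφ]
    ext <;> simp
  have hσom : σ om = -om := by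
    rw [hσ, hom, starRingEnd_apply]
    ext <;> simp
  have hσφ : ∀ a : F, σ (φ a) = φ a := by
    intro a
    rw [hσ, hφ, starRingEnd_apply]
    ext <;> simp
  obtain ⟨A', hA'⟩ : ∃ A' : Matrix (Fin n) (Fin n) (QuadraticAlgebra F d 0),
      A' = φ.mapMatrix A := ⟨_, rfl⟩
  obtain ⟨B', hB'⟩ : ∃ B' : Matrix (Fin n) (Fin n) (QuadraticAlgebra F d 0),
      B' = φ.mapMatrix B := ⟨_, rfl⟩
  have hAB' : A' * B' = B' * A' := by
    rw [hA', hB', ← map_mul, ← map_mul, hAB]
  have hdet : σ (A' + om • B').det = (A' - om • B').det := by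
    rw [RingHom.map_det]
    congr 1
    refine Matrix.ext fun i j => ?_
    rw [RingHom.mapMatrix_apply, Matrix.map_apply, Matrix.add_apply, Matrix.sub_apply,
      Matrix.smul_apply, smul_eq_mul, map_add, map_mul, hσom, hA', hB', RingHom.mapMatrix_apply,
      RingHom.mapMatrix_apply, Matrix.map_apply, Matrix.map_apply, hσφ, hσφ]
    ring
  have hprod : (A' + om • B') * (A' - om • B') = φ.mapMatrix (A ^ 2 - d • B ^ 2) := by
    have e1 : (A' + om • B') * (A' - om • B') = A' * A' - (om * om) • (B' * B') := by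
      rw [Matrix.add_mul, Matrix.mul_sub, Matrix.mul_sub, Matrix.mul_smul, Matrix.smul_mul,
        Matrix.smul_mul, Matrix.mul_smul, smul_smul, hAB']
      abel
    have e2 : φ.mapMatrix (d • B ^ 2) = φ d • (B' * B') := by
      rw [hB', ← map_mul, ← pow_two]
      refine Matrix.ext fun i j => ?_
      rw [RingHom.mapMatrix_apply, Matrix.map_apply, Matrix.smul_apply, Matrix.smul_apply,
        smul_eq_mul, smul_eq_mul, map_mul, RingHom.mapMatrix_apply, Matrix.map_apply]
    rw [e1, hom2, map_sub, e2, map_pow, ← hA', pow_two]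
  have hnorm : Algebra.norm F (X ^ 2 - algebraMap F K d * Y ^ 2) = (A ^ 2 - d • B ^ 2).det := by
    rw [Algebra.norm_eq_matrix_det b]
    congr 1
    rw [map_sub, map_pow, map_mul, map_pow, ← hA, ← hB, AlgHom.commutes, ← Algebra.smul_def]
  refine ⟨(A' + om • B').det.re, (A' + om • B').det.im, ?_⟩
  have hinj : Function.Injective φ := by
    rw [hφ]
    exact QuadraticAlgebra.algebraMap_injective
  apply hinj
  have h1 : φ ((A ^ 2 - d • B ^ 2).det) = (A' + om • B').det * σ (A' + om • B').det := by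
    rw [hdet, ← Matrix.det_mul, hprod, RingHom.map_det]
  have h2 : (A' + om • B').det * σ (A' + om • B').det = φ ((A' + om • B').det.norm) := by
    rw [hσ, hφ, starRingEnd_apply, QuadraticAlgebra.algebraMap_norm_eq_mul_star]
  rw [hnorm, h1, h2, QuadraticAlgebra.norm_def]
  congr 1
  ring

/-- (Al1b) If `p ∥ d` and the norm of `u = X² - d Y²` has even valuation, then it is a square.
Proof. Al1a gives `norm u = x² - d y²`, so `ZC.Split ℚ_[p] (norm u) d` (the point `(1, y, x)`), and `ZC.split_odd_iff hp (norm u) d` (file `ZHodd.lean`): the valuation of `d`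
is `1` (`Padic.valuation_intCast`, `padicValInt`), odd. -/
theorem norm_isSquare {p : ℕ} [Fact p.Prime] (hp : p ≠ 2) {K : Type} [Field K] [Algebra ℚ_[p] K]
    [FiniteDimensional ℚ_[p] K] (d : ℤ) (h1 : (p : ℤ) ∣ d) (h2 : ¬ (p : ℤ) ^ 2 ∣ d) (X Y u : K) (hu : u ≠ 0)
    (h : u = X ^ 2 - (d : K) * Y ^ 2) (he : Even (Algebra.norm ℚ_[p] u).valuation) :
    IsSquare (Algebra.norm ℚ_[p] u) := by
  obtain ⟨x, y, hxy⟩ := norm_form (d : ℚ_[p]) X Y
  rw [map_intCast, ← h] at hxy
  have hd0 : d ≠ 0 := by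
    rintro rfl
    exact h2 (dvd_zero _)
  have hn0 : Algebra.norm ℚ_[p] u ≠ 0 := Algebra.norm_ne_zero_iff.2 hu
  have hval : (d : ℚ_[p]).valuation = 1 := by
    rw [Padic.valuation_intCast]
    have h3 : 1 ≤ padicValInt p d := by
      have h4 := (padicValInt_dvd_iff 1 d).1 (by rw [pow_one]; exact h1)
      exact h4.resolve_left hd0
    have h5 : ¬ 2 ≤ padicValInt p d := by
      intro h6
      exact h2 ((padicValInt_dvd_iff 2 d).2 (Or.inr h6))
    have h7 : padicValInt p d = 1 := by omega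
    rw [h7]
    rfl
  have hodd : Odd (d : ℚ_[p]).valuation := by
    rw [hval]
    exact odd_one
  have hsplit : Split ℚ_[p] (Algebra.norm ℚ_[p] u) (d : ℚ_[p]) := by
    refine ⟨1, y, x, fun h3 => one_ne_zero h3.1, ?_⟩
    rw [hxy]
    ring
  exact (split_odd_iff hp _ _ hn0 (by exact_mod_cast hd0) he hodd).1 hsplit

end FGO
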