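import Pool.Agent.Lib.MP_1ad228_ntG.Al1
import Pool.Agent.Lib.MP_1ad228_nt.GTGlob

/-! JOB Al2: the classes of one point of `w² = g_0 g_1` over a finite extension of `ℚ_p`. Models: `GTUnr.lean`, `GTPtA.lean`, `GTData.lean` (the tools are in `GTVal.lean`:
`ZC.exists_lval p K : Nonempty (LVal p K)`, `L.v` is the absolute value with `v_mul` etc., `even_val`, `v_int`, `v_int_le`, `v_int_lt`, `v_eq_of_close`, `sq_of_close`, `norm_sq`). -/

set_option autoImplicit false

namespace FGO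

open Finset ZC ZG

private theorem Al2_erase (i j : Fin 2) (hij : i ≠ j) :
    (@Finset.erase (Fin 2) (fun a b => Classical.propDecidable (a = b)) univ i) = {j} := by
  ext x
  have h1 : ∀ i j x : Fin 2, i ≠ j → (x ≠ i ↔ x = j) := by decide
  rw [Finset.mem_singleton, ← h1 i j x hij]
  exact (@Finset.mem_erase (Fin 2) (fun a b => Classical.propDecidable (a = b)) x i univ).trans
    (and_iff_left (Finset.mem_univ x))

private theorem Al2_val_zero {F : Type} [Field F] {g : Fin 2 → BQ} (P : Pt F g 1) {i j : Fin 2} (hij : i ≠ j)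
    (h : (g i).ev P.x P.z = 0) : P.val i = (g j).ev P.x P.z := by
  unfold ZG.Pt.val
  rw [if_pos h, Int.cast_one, one_mul, Al2_erase i j hij, Finset.prod_singleton]

private theorem Al2_val_ne {F : Type} [Field F] {g : Fin 2 → BQ} (P : Pt F g 1) {i : Fin 2}
    (h : (g i).ev P.x P.z ≠ 0) : P.val i = (g i).ev P.x P.z := by
  unfold ZG.Pt.val
  rw [if_neg h]

private theorem Al2_eq {F : Type} [Field F] {g : Fin 2 → BQ} (P : Pt F g 1) :
    P.w ^ 2 = (g 0).ev P.x P.z * (g 1).ev P.x P.z := by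
  have h := P.eq
  rw [Fin.prod_univ_two, Int.cast_one, one_mul] at h
  exact h

/-- (Al2a) The product of the two classes is a square. -/
theorem pt_mul_sq {F : Type} [Field F] [CharZero F] (g : Fin 2 → BQ) (hR : (g 0).res (g 1) ≠ 0) (P : Pt F g 1) :
    IsSquare (P.val 0 * P.val 1) := by
  have hc : CharZero P.K := charZero_of_injective_algebraMap (algebraMap F P.K).injective
  have hR' : (((g 0).res (g 1) : ℤ) : P.K) ≠ 0 := by exact_mod_cast hR
  have hR2 : (((g 1).res (g 0) : ℤ) : P.K) ≠ 0 := by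
    rw [BQ.res_comm]
    exact hR'
  by_cases h0 : (g 0).ev P.x P.z = 0
  · have h1 := BQ.res_zero (g 0) (g 1) P.x P.z P.ne hR' h0
    rw [Al2_val_zero P (by decide : (0 : Fin 2) ≠ 1) h0, Al2_val_ne P h1]
    exact ⟨_, rfl⟩
  · by_cases h1 : (g 1).ev P.x P.z = 0
    · rw [Al2_val_zero P (by decide : (1 : Fin 2) ≠ 0) h1, Al2_val_ne P h0]
      exact ⟨_, rfl⟩
    · rw [Al2_val_ne P h0, Al2_val_ne P h1, ← Al2_eq P]
      exact ⟨P.w, sq P.w⟩

private theorem Al2_ev_le {p : ℕ} [Fact p.Prime] {K : Type} [Field K] [Algebra ℚ_[p] K] (L : LVal p K) (h : BQ)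
    (x z : K) {rho : ℝ} (hx : L.v x ≤ rho) (hz : L.v z ≤ rho) : L.v (h.ev x z) ≤ rho ^ 2 := by
  have hr : 0 ≤ rho := (L.nonneg x).trans hx
  unfold BQ.ev
  refine (L.add _ _).trans (max_le ((L.add _ _).trans (max_le ?_ ?_)) ?_)
  · rw [L.mul, v_pow]
    have h1 := v_int_le L h.A
    have h2 := pow_le_pow_left₀ (L.nonneg x) hx 2
    calc L.v (h.A : K) * L.v x ^ 2 ≤ 1 * rho ^ 2 :=
          mul_le_mul h1 h2 (pow_nonneg (L.nonneg x) 2) zero_le_one
      _ = rho ^ 2 := one_mul _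
  · rw [L.mul, L.mul]
    have h1 := v_int_le L h.B
    calc L.v (h.B : K) * L.v x * L.v z ≤ 1 * rho * rho :=
          mul_le_mul (mul_le_mul h1 hx (L.nonneg x) zero_le_one) hz (L.nonneg z) (by positivity)
      _ = rho ^ 2 := by ring
  · rw [L.mul, v_pow]
    have h1 := v_int_le L h.C
    have h2 := pow_le_pow_left₀ (L.nonneg z) hz 2
    calc L.v (h.C : K) * L.v z ^ 2 ≤ 1 * rho ^ 2 :=
          mul_le_mul h1 h2 (pow_nonneg (L.nonneg z) 2) zero_le_one
      _ = rho ^ 2 := one_mul _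

/-- a combination with integer coefficients -/
private theorem Al2_lin {p : ℕ} [Fact p.Prime] {K : Type} [Field K] [Algebra ℚ_[p] K] (L : LVal p K) (a b : ℤ)
    (x z : K) {rho : ℝ} (hx : L.v x ≤ rho) (hz : L.v z ≤ rho) : L.v ((a : K) * x - (b : K) * z) ≤ rho := by
  refine (v_sub L _ _).trans (max_le ?_ ?_)
  · rw [L.mul]
    calc L.v (a : K) * L.v x ≤ 1 * rho := mul_le_mul (v_int_le L a) hx (L.nonneg x) zero_le_one
      _ = rho := one_mul _
  · rw [L.mul]
    calc L.v (b : K) * L.v z ≤ 1 * rho := mul_le_mul (v_int_le L b) hz (L.nonneg z) zero_le_one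
      _ = rho := one_mul _

private theorem Al2_max {p : ℕ} [Fact p.Prime] {K : Type} [Field K] [Algebra ℚ_[p] K] (L : LVal p K) (g h : BQ)
    (hR : ¬ (p : ℤ) ∣ g.res h) (x z : K) {rho : ℝ} (hr : 0 < rho) (hx : L.v x ≤ rho) (hz : L.v z ≤ rho)
    (he : L.v x = rho ∨ L.v z = rho) : rho ^ 2 ≤ max (L.v (g.ev x z)) (L.v (h.ev x z)) := by
  have hres : L.v ((g.res h : ℤ) : K) = 1 := v_int L hR
  set M := max (L.v (g.ev x z)) (L.v (h.ev x z)) with hM
  have hg : L.v (g.ev x z) ≤ M := le_max_left _ _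
  have hh : L.v (h.ev x z) ≤ M := le_max_right _ _
  have hM0 : 0 ≤ M := (L.nonneg _).trans hg
  have key : rho ^ 3 ≤ rho * M := by
    rcases he with he | he
    · have h1 := BQ.res_x g h x z
      have h2 : L.v (((g.res h : ℤ) : K) * x ^ 3) = rho ^ 3 := by rw [L.mul, hres, v_pow, he, one_mul]
      rw [← h2, h1]
      refine (v_sub L _ _).trans (max_le ?_ ?_)
      · rw [L.mul]
        refine mul_le_mul ?_ (Al2_lin L h.C g.C _ _ hg hh |>.trans_eq rfl) (L.nonneg _) hr.le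
        have h3 := Al2_lin L (g.A * h.C - h.A * g.C) (g.B * h.C - h.B * g.C) x z hx hz
        push_cast at h3
        exact h3
      · rw [L.mul, L.mul]
        refine mul_le_mul ?_ (Al2_lin L h.B g.B _ _ hg hh) (L.nonneg _) hr.le
        have h3 := v_int_le L (g.B * h.C - h.B * g.C)
        push_cast at h3
        calc _ ≤ 1 * rho := mul_le_mul h3 hx (L.nonneg _) zero_le_one
          _ = rho := one_mul _
    · have h1 := BQ.res_z g h x z
      have h2 : L.v (((g.res h : ℤ) : K) * z ^ 3) = rho ^ 3 := by rw [L.mul, hres, v_pow, he, one_mul]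
      rw [← h2, h1]
      refine (L.add _ _).trans (max_le ?_ ?_)
      · rw [L.mul]
        refine mul_le_mul ?_ (Al2_lin L g.A h.A _ _ hh hg) (L.nonneg _) hr.le
        have h3 := Al2_lin L (g.A * h.C - h.A * g.C) (g.A * h.B - h.A * g.B) z x hz hx
        push_cast at h3
        exact h3
      · rw [L.mul, L.mul]
        refine mul_le_mul ?_ (Al2_lin L h.B g.B _ _ hg hh) (L.nonneg _) hr.le
        have h3 := v_int_le L (g.A * h.B - h.A * g.B)
        push_cast at h3
        calc _ ≤ 1 * rho := mul_le_mul h3 hz (L.nonneg _) zero_le_one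
          _ = rho := one_mul _
  have h4 : rho * rho ^ 2 ≤ rho * M := by
    calc rho * rho ^ 2 = rho ^ 3 := by ring
      _ ≤ _ := key
  exact le_of_mul_le_mul_left h4 hr

/-- (Al2b) If `p ∤ res` the valuations of the norms of the values are even. -/
theorem pt_even {p : ℕ} [Fact p.Prime] (g : Fin 2 → BQ) (hR : ¬ (p : ℤ) ∣ (g 0).res (g 1)) (P : Pt ℚ_[p] g 1)
    (i : Fin 2) : Even (Algebra.norm ℚ_[p] (P.val i)).valuation := by
  obtain ⟨L⟩ := exists_lval p P.K
  obtain ⟨lam, rho, hlam, hr, hx, hz, he⟩ : ∃ (lam : P.K) (rho : ℝ), L.v lam = rho ∧ 0 < rho ∧ L.v P.x ≤ rho ∧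
      L.v P.z ≤ rho ∧ (L.v P.x = rho ∨ L.v P.z = rho) := by
    have hpos : ∀ y : P.K, y ≠ 0 → 0 < L.v y := fun y hy =>
      lt_of_le_of_ne (L.nonneg y) fun h => hy ((L.zero_iff y).1 h.symm)
    rcases le_total (L.v P.x) (L.v P.z) with h | h
    · refine ⟨P.z, L.v P.z, rfl, hpos _ ?_, h, le_rfl, Or.inr rfl⟩
      intro h0
      rw [h0, (L.zero_iff 0).2 rfl] at h
      exact P.ne ⟨(L.zero_iff _).1 (le_antisymm h (L.nonneg _)), h0⟩
    · refine ⟨P.x, L.v P.x, rfl, hpos _ ?_, le_rfl, h, Or.inl rfl⟩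
      intro h0
      rw [h0, (L.zero_iff 0).2 rfl] at h
      exact P.ne ⟨h0, (L.zero_iff _).1 (le_antisymm h (L.nonneg _))⟩
  have hlam0 : lam ≠ 0 := fun h => by
    rw [h, (L.zero_iff 0).2 rfl] at hlam
    exact hr.ne hlam
  have hmax := Al2_max L (g 0) (g 1) hR P.x P.z hr hx hz he
  have hex : ∃ k l : Fin 2, k ≠ l ∧ L.v ((g k).ev P.x P.z) = rho ^ 2 := by
    rcases le_max_iff.1 hmax with h | h
    · exact ⟨0, 1, by decide, le_antisymm (Al2_ev_le L _ _ _ hx hz) h⟩
    · exact ⟨1, 0, by decide, le_antisymm (Al2_ev_le L _ _ _ hx hz) h⟩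
  obtain ⟨k, l, hkl, hk⟩ := hex
  have hk0 : (g k).ev P.x P.z ≠ 0 := fun h => by
    rw [h, (L.zero_iff 0).2 rfl] at hk
    exact (pow_pos hr 2).ne hk
  have hevk : Even (Algebra.norm ℚ_[p] ((g k).ev P.x P.z)).valuation :=
    even_val L hk0 hlam0 (by rw [hk, hlam])
  have hik : i = k ∨ i = l := by
    have h1 : ∀ i k l : Fin 2, k ≠ l → i = k ∨ i = l := by decide
    exact h1 i k l hkl
  have hprod : P.w ^ 2 = (g k).ev P.x P.z * (g l).ev P.x P.z := by
    have h1 : ∀ k l : Fin 2, k ≠ l → (k = 0 ∧ l = 1) ∨ (k = 1 ∧ l = 0) := by decide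
    rcases h1 k l hkl with ⟨rfl, rfl⟩ | ⟨rfl, rfl⟩
    · exact Al2_eq P
    · rw [Al2_eq P, mul_comm]
  rcases hik with rfl | rfl
  · rw [Al2_val_ne P hk0]
    exact hevk
  · by_cases hl0 : (g i).ev P.x P.z = 0
    · rw [Al2_val_zero P hkl.symm hl0]
      exact hevk
    · rw [Al2_val_ne P hl0]
      have hw0 : P.w ≠ 0 := by
        intro h
        rw [h, zero_pow two_ne_zero] at hprod
        exact (mul_ne_zero hk0 hl0) hprod.symm
      refine even_val L hl0 (div_ne_zero hw0 hlam0) ?_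
      have h1 : L.v (P.w ^ 2) = rho ^ 2 * L.v ((g i).ev P.x P.z) := by
        rw [hprod, L.mul, hk]
      rw [v_div, hlam, div_pow, ← v_pow, h1]
      field_simp

end FGO
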