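import Pool.Agent.Lib.MP_1ad228_ntG.Al2

/-! JOB Al2c: the class of one point at a prime dividing the discriminant exactly once. Tools and models as in Al2.lean: `GTVal.lean`, `GTPtA.lean`, `GTPtB.lean` of Lib/MP_1ad228_nt. -/

set_option autoImplicit false

namespace FGO

open Finset ZC ZG

/-- the other index -/
private theorem Al2c_other (i : Fin 2) : ∃ j : Fin 2, j ≠ i ∧ (univ : Finset (Fin 2)).erase i = {j} ∧
    ({i, j} : Set (Fin 2)) = {0, 1} := by
  fin_cases i
  · exact ⟨1, by decide, by decide, rfl⟩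
  · exact ⟨0, by decide, by decide, Set.pair_comm _ _⟩

private theorem Al2c_res {p : ℕ} (g : Fin 2 → BQ) (hR : ¬ (p : ℤ) ∣ (g 0).res (g 1)) (i j : Fin 2) (hij : j ≠ i) :
    ¬ (p : ℤ) ∣ (g i).res (g j) := by
  fin_cases i <;> fin_cases j
  · exact absurd rfl hij
  · exact hR
  · have h : (g 1).res (g 0) = (g 0).res (g 1) := BQ.res_comm _ _
    intro h'
    exact hR (h ▸ h')
  · exact absurd rfl hij

/-- the valuation of an integer not divisible by `p` -/
private theorem Al2c_val {p : ℕ} [Fact p.Prime] {m : ℤ} (hm : ¬ (p : ℤ) ∣ m) : ((m : ℤ) : ℚ_[p]).valuation = 0 := by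
  rw [Padic.valuation_intCast, padicValInt.eq_zero_of_not_dvd hm]
  rfl

/-- the valuation of an integer exactly divisible by `p` -/
private theorem Al2c_val1 {p : ℕ} [Fact p.Prime] {m : ℤ} (h1 : (p : ℤ) ∣ m) (h2 : ¬ (p : ℤ) ^ 2 ∣ m) :
    ((m : ℤ) : ℚ_[p]).valuation = 1 := by
  have hm : m ≠ 0 := by
    rintro rfl
    exact h2 (dvd_zero _)
  obtain ⟨k, rfl⟩ := h1
  have hk : ¬ (p : ℤ) ∣ k := by
    intro hk
    apply h2
    rw [pow_two]
    exact mul_dvd_mul_left _ hk
  have hp0 : ((p : ℕ) : ℚ_[p]) ≠ 0 := by exact_mod_cast (Fact.out : p.Prime).ne_zero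
  have hk0 : ((k : ℤ) : ℚ_[p]) ≠ 0 := by
    have : k ≠ 0 := right_ne_zero_of_mul hm
    exact_mod_cast this
  have e : (((p : ℤ) * k : ℤ) : ℚ_[p]) = ((p : ℕ) : ℚ_[p]) * ((k : ℤ) : ℚ_[p]) := by push_cast; ring
  rw [e, Padic.valuation_mul hp0 hk0, Padic.valuation_p, Al2c_val hk, add_zero]

/-- (Al2c) If moreover `p ∥ disc (g i)`, `p ≠ 2`, `p ∤ A = (g i).A`: the norm of the value is `A ^ n` up to squares, `n = [K : ℚ_p]`.
Proof. `4 A G_i = X² - d z²`, `X = 2 A x + B z`, `d = disc` (`BQ.four_A`). If `G_i ≠ 0`: `u = 4 A G_i`; `norm u = (4A)^n norm(val i)` has even valuation (Al2b; `4A` is prime to `p`), so it is a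
square by `norm_isSquare`, and `4^n` is a square. If `G_i = 0`: `X² = d z²`, `z ≠ 0` (else `x = 0` as `A ≠ 0` in `K`), `s = X / z`, `s² = d`; taking norms:
`norm(s)² = d^n`, so `2 v(norm s) = n` and `n` is even. `val i = G_j` (`j` the other index) and with `A, B, C` for `g i` and `A', B', C'` for `g j`:
`4 A² G_j = z² (T' + S s)` with `T' = A' B² - 2 A B B' + 4 A² C' + A' d`, `S = 2 (A B' - A' B)` (integers; check with `linear_combination`), and `T'² ≡ 16 A² res mod d` so `p ∤ T'`.
As `L.v s < 1`, `L.v (T' + S s - T') < 1 = L.v T'`: by `sq_of_close` `(T' + S s) * T'` is a square (divide by `T'²`), so `G_j * T'` is a square in `K`, `norm_sq_even` (`c = T'`)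
gives `norm G_j` a square, and `A^n` is a square since `n` is even. -/
theorem pt_disc {p : ℕ} [Fact p.Prime] (hp : p ≠ 2) (g : Fin 2 → BQ) (hR : ¬ (p : ℤ) ∣ (g 0).res (g 1))
    (i : Fin 2) (h1 : (p : ℤ) ∣ (g i).disc) (h2 : ¬ (p : ℤ) ^ 2 ∣ (g i).disc) (hA : ¬ (p : ℤ) ∣ (g i).A)
    (P : Pt ℚ_[p] g 1) :
    IsSquare (Algebra.norm ℚ_[p] (P.val i) * ((g i).A : ℚ_[p]) ^ Module.finrank ℚ_[p] P.K) := by
  have hch : CharZero P.K := charZero_of_injective_algebraMap (algebraMap ℚ_[p] P.K).injective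
  have hpr : p.Prime := Fact.out
  have hpz : Prime (p : ℤ) := Nat.prime_iff_prime_int.1 hpr
  have h2p : ¬ (p : ℤ) ∣ 2 := by
    intro h
    have h' : p ∣ 2 := by exact_mod_cast h
    exact hp ((Nat.prime_dvd_prime_iff_eq hpr Nat.prime_two).1 h')
  have h4p : ¬ (p : ℤ) ∣ 4 := by
    intro h
    have h' : (p : ℤ) ∣ 2 * 2 := by norm_num; exact h
    rcases hpz.dvd_or_dvd h' with h'' | h'' <;> exact h2p h''
  obtain ⟨j, hji, hj, -⟩ := Al2c_other i
  have hRij : ¬ (p : ℤ) ∣ (g i).res (g j) := Al2c_res g hR i j hji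
  have hA0 : (g i).A ≠ 0 := fun h => hA (h ▸ dvd_zero _)
  have hAK : ((g i).A : P.K) ≠ 0 := by exact_mod_cast hA0
  have hAQ : ((g i).A : ℚ_[p]) ≠ 0 := by exact_mod_cast hA0
  have hd0 : (g i).disc ≠ 0 := fun h => h2 (h ▸ dvd_zero _)
  set n := Module.finrank ℚ_[p] P.K with hn
  by_cases hG : (g i).ev P.x P.z = 0
  · -- the form vanishes at the point
    have hval : P.val i = (g j).ev P.x P.z := by
      have hj' : ∀ inst : DecidableEq (Fin 2), @Finset.erase (Fin 2) inst univ i = {j} := by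
        intro inst
        rw [Subsingleton.elim inst (instDecidableEqFin 2)]
        exact hj
      unfold ZG.Pt.val
      rw [if_pos hG, hj' _, Finset.prod_singleton]
      push_cast
      ring
    set X : P.K := 2 * ((g i).A : P.K) * P.x + ((g i).B : P.K) * P.z with hX
    have hX2 : X ^ 2 = ((g i).disc : P.K) * P.z ^ 2 := by
      have h := BQ.four_A (g i) P.x P.z
      rw [hG, mul_zero] at h
      linear_combination -h
    have hz : P.z ≠ 0 := by
      intro hz
      apply P.ne
      refine ⟨?_, hz⟩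
      rw [hz] at hX2
      have h3 : X = 0 := by
        have h4 : X ^ 2 = 0 := by rw [hX2]; ring
        exact pow_eq_zero_iff two_ne_zero |>.1 h4
      rw [hX, hz, mul_zero, add_zero] at h3
      rcases mul_eq_zero.1 h3 with h5 | h5
      · rcases mul_eq_zero.1 h5 with h6 | h6
        · exact absurd h6 two_ne_zero
        · exact absurd h6 hAK
      · exact h5
    set s : P.K := X / P.z with hs
    have hs2 : s ^ 2 = ((g i).disc : P.K) := by
      rw [hs, div_pow, hX2]
      field_simp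
    have hXs : X = s * P.z := by
      rw [hs]
      field_simp
    have hs0 : s ≠ 0 := by
      intro h
      rw [h] at hs2
      apply hd0
      have h3 : ((g i).disc : P.K) = 0 := by rw [← hs2]; ring
      exact_mod_cast h3
    -- the degree is even
    have hne : Even n := by
      have h3 : Algebra.norm ℚ_[p] s ^ 2 = ((g i).disc : ℚ_[p]) ^ n := by
        rw [← map_pow, hs2]
        have e : (((g i).disc : ℤ) : P.K) = algebraMap ℚ_[p] P.K (((g i).disc : ℤ) : ℚ_[p]) := by rw [map_intCast]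
        rw [e, Algebra.norm_algebraMap]
      have h4 := congrArg Padic.valuation h3
      rw [Padic.valuation_pow, Padic.valuation_pow, Al2c_val1 h1 h2] at h4
      have h5 : Even ((n : ℕ) : ℤ) := ⟨(Algebra.norm ℚ_[p] s).valuation, by
        push_cast at h4
        linarith⟩
      exact_mod_cast h5
    obtain ⟨L⟩ := ZC.exists_lval p P.K
    -- the value of the other form
    set T : ℤ := (g j).A * (g i).B ^ 2 - 2 * (g i).A * (g i).B * (g j).B + 4 * (g i).A ^ 2 * (g j).C +
      (g j).A * (g i).disc with hT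
    set S : ℤ := 2 * ((g i).A * (g j).B - (g j).A * (g i).B) with hS
    have hTp : ¬ (p : ℤ) ∣ T := by
      intro h
      have e : T ^ 2 = 16 * (g i).A ^ 2 * (g i).res (g j) + S ^ 2 * (g i).disc := by
        rw [hT, hS]
        unfold BQ.res BQ.disc
        ring
      have h3 : (p : ℤ) ∣ 16 * (g i).A ^ 2 * (g i).res (g j) := by
        have h4 : (p : ℤ) ∣ T ^ 2 := dvd_pow h two_ne_zero
        rw [e] at h4
        exact (dvd_add_left (h1.mul_left _)).1 h4
      rcases hpz.dvd_or_dvd h3 with h5 | h5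
      · rcases hpz.dvd_or_dvd h5 with h6 | h6
        · have h7 : (p : ℤ) ∣ 4 * 4 := by norm_num; exact h6
          rcases hpz.dvd_or_dvd h7 with h8 | h8 <;> exact h4p h8
        · exact hA (hpz.dvd_of_dvd_pow h6)
      · exact hRij h5
    have hid : 4 * ((g i).A : P.K) ^ 2 * (g j).ev P.x P.z = P.z ^ 2 * ((T : P.K) + (S : P.K) * s) := by
      have e1 : 2 * ((g i).A : P.K) * P.x = s * P.z - ((g i).B : P.K) * P.z := by
        rw [← hXs, hX]
        ring
      have e2 : 4 * ((g i).A : P.K) ^ 2 * P.x ^ 2 = (s * P.z - ((g i).B : P.K) * P.z) ^ 2 := by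
        rw [← e1]
        ring
      rw [hT, hS]
      unfold BQ.ev
      push_cast
      linear_combination ((g j).A : P.K) * e2 + 2 * ((g i).A : P.K) * ((g j).B : P.K) * P.z * e1 +
        ((g j).A : P.K) * P.z ^ 2 * hs2
    have hvs : L.v s < 1 := by
      have h3 : L.v s ^ 2 = L.v ((g i).disc : P.K) := by rw [← v_pow, hs2]
      have h4 := v_int_lt L h1
      rw [← h3] at h4
      have h5 := L.nonneg s
      nlinarith
    have hvT : L.v (T : P.K) = 1 := v_int L hTp
    have hsq : IsSquare (((T : P.K) + (S : P.K) * s) * (T : P.K)) := by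
      refine sq_of_close L hp hvT ?_
      rw [add_sub_cancel_left, L.mul]
      have h3 := v_int_le L S
      have h4 := L.nonneg s
      nlinarith
    have hsq2 : IsSquare ((g j).ev P.x P.z * (T : P.K)) := by
      have e : (g j).ev P.x P.z * (T : P.K) =
          (P.z / (2 * ((g i).A : P.K))) * (P.z / (2 * ((g i).A : P.K))) * (((T : P.K) + (S : P.K) * s) * (T : P.K)) := by
        field_simp
        linear_combination (T : P.K) * hid
      rw [e]
      exact (IsSquare.mul_self _).mul hsq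
    have hT0 : T ≠ 0 := fun h => hTp (h ▸ dvd_zero _)
    rw [hval]
    exact (norm_sq_even hsq2 hT0 hne).mul (hne.isSquare_pow _)
  · -- the form does not vanish
    have hval : P.val i = (g i).ev P.x P.z := by
      unfold ZG.Pt.val
      rw [if_neg hG]
    have hev := pt_even g hR P i
    have e4 : (4 : P.K) * ((g i).A : P.K) = algebraMap ℚ_[p] P.K ((4 * (g i).A : ℤ) : ℚ_[p]) := by
      rw [map_intCast]
      push_cast
      ring
    have hu : 4 * ((g i).A : P.K) * (g i).ev P.x P.z ≠ 0 := mul_ne_zero (mul_ne_zero (by norm_num) hAK) hG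
    have hN : Algebra.norm ℚ_[p] (4 * ((g i).A : P.K) * (g i).ev P.x P.z) =
        ((4 * (g i).A : ℤ) : ℚ_[p]) ^ n * Algebra.norm ℚ_[p] (P.val i) := by
      rw [map_mul, e4, Algebra.norm_algebraMap, hval]
    have h4A : ¬ (p : ℤ) ∣ 4 * (g i).A := fun h => by
      rcases hpz.dvd_or_dvd h with h' | h'
      · exact h4p h'
      · exact hA h'
    have h40 : ((4 * (g i).A : ℤ) : ℚ_[p]) ≠ 0 := by
      have : (4 * (g i).A : ℤ) ≠ 0 := mul_ne_zero (by norm_num) hA0
      exact_mod_cast this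
    have hNv : Algebra.norm ℚ_[p] (P.val i) ≠ 0 := by
      rw [hval]
      exact Algebra.norm_ne_zero_iff.2 hG
    have hev2 : Even (Algebra.norm ℚ_[p] (4 * ((g i).A : P.K) * (g i).ev P.x P.z)).valuation := by
      rw [hN, Padic.valuation_mul (pow_ne_zero _ h40) hNv, Padic.valuation_pow, Al2c_val h4A, mul_zero, zero_add]
      exact hev
    have hsq := norm_isSquare hp (g i).disc h1 h2 (2 * ((g i).A : P.K) * P.x + ((g i).B : P.K) * P.z) P.z
      (4 * ((g i).A : P.K) * (g i).ev P.x P.z) hu (BQ.four_A (g i) P.x P.z) hev2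
    rw [hN] at hsq
    have e5 : ((4 * (g i).A : ℤ) : ℚ_[p]) ^ n * Algebra.norm ℚ_[p] (P.val i) =
        (Algebra.norm ℚ_[p] (P.val i) * ((g i).A : ℚ_[p]) ^ n) * ((2 : ℚ_[p]) ^ n * (2 : ℚ_[p]) ^ n) := by
      push_cast
      rw [mul_pow, ← mul_pow (2 : ℚ_[p])]
      norm_num
      ring
    rw [e5] at hsq
    exact isSquare_of_mul hsq ⟨_, rfl⟩ (mul_ne_zero (pow_ne_zero _ two_ne_zero) (pow_ne_zero _ two_ne_zero))

end FGO
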