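import Pool.Agent.Lib.MP_1ad228_nt.GTDefs

/-!
# MP_1ad228_nt, FactoredGenusOne: definitions

The genus one curves `w² = g(x, z) h(x, z)`, where `(g, h)` runs over ALL pairs of binary quadratic forms over `ℤ`.
A form `a x² + b x z + c z²` is the vector `(a, b, c) : V`.
-/

set_option autoImplicit false

namespace FGO

open Finset

/-- integer vectors of length three -/
abbrev V : Type := ℤ × ℤ × ℤ

/-- the binary quadratic form of a vector -/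
def bq (v : V) : ZG.BQ := ⟨v.1, v.2.1, v.2.2⟩

/-- the discriminant `b² - 4ac` -/
def disc (v : V) : ℤ := v.2.1 ^ 2 - 4 * v.1 * v.2.2

/-- the resultant -/
def res (v w : V) : ℤ :=
  (v.1 * w.2.2 - w.1 * v.2.2) ^ 2 - (v.1 * w.2.1 - w.1 * v.2.1) * (v.2.1 * w.2.2 - w.2.1 * v.2.2)

/-- the value at `(r, 1)` -/
def ev (v : V) (r : ℤ) : ℤ := v.1 * r ^ 2 + v.2.1 * r + v.2.2

/-- the scalar product -/
def dot (n v : V) : ℤ := n.1 * v.1 + n.2.1 * v.2.1 + n.2.2 * v.2.2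

/-- the vector product -/
def crs (v w : V) : V :=
  (v.2.1 * w.2.2 - v.2.2 * w.2.1, v.2.2 * w.1 - v.1 * w.2.2, v.1 * w.2.1 - v.2.1 * w.1)

/-- the form `n₂² - n₁ n₃` -/
def dsc (n : V) : ℤ := n.2.1 ^ 2 - n.1 * n.2.2

/-- the maximum of the absolute values of the coordinates -/
def nm (n : V) : ℕ := max n.1.natAbs (max n.2.1.natAbs n.2.2.natAbs)

/-- `q` divides all coordinates -/
def Dv (q : ℕ) (n : V) : Prop := (q : ℤ) ∣ n.1 ∧ (q : ℤ) ∣ n.2.1 ∧ (q : ℤ) ∣ n.2.2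

/-- primitive vectors -/
def Prim (n : V) : Prop := ∀ q : ℕ, Dv q n → q = 1

/-- congruence modulo `q` of all coordinates -/
def Cg (q : ℕ) (v w : V) : Prop := (q : ℤ) ∣ v.1 - w.1 ∧ (q : ℤ) ∣ v.2.1 - w.2.1 ∧ (q : ℤ) ∣ v.2.2 - w.2.2

/-- the vectors with all coordinates in `[-N, N]` -/
noncomputable def box (N : ℕ) : Finset V :=
  Icc (-(N : ℤ)) (N : ℤ) ×ˢ (Icc (-(N : ℤ)) (N : ℤ) ×ˢ Icc (-(N : ℤ)) (N : ℤ))

/-- the pairs of vectors with all coordinates in `[-N, N]` -/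
noncomputable def box2 (N : ℕ) : Finset (V × V) := box N ×ˢ box N

/-- the vectors with all coordinates in `[0, q)` -/
noncomputable def cube (q : ℕ) : Finset V :=
  Ico (0 : ℤ) (q : ℤ) ×ˢ (Ico (0 : ℤ) (q : ℤ) ×ˢ Ico (0 : ℤ) (q : ℤ))

/-- the pairs of vectors with all coordinates in `[0, q)` -/
noncomputable def cube2 (q : ℕ) : Finset (V × V) := cube q ×ˢ cube q

/-- functions of pairs which depend only on the residues modulo `q` -/
def Per (q : ℕ) (φ : V × V → ℝ) : Prop := ∀ u u' : V × V, Cg q u.1 u'.1 → Cg q u.2 u'.2 → φ u = φ u'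

/-- the mean value of a function modulo `q` -/
noncomputable def Ex (q : ℕ) (φ : V × V → ℝ) : ℝ := (∑ u ∈ cube2 q, φ u) / (q : ℝ) ^ 6

/-- The local conditions at the primes `p ∥ disc v`. -/
def Cnd (δ : ℤ) (v w : V) : Prop :=
  ∀ p : ℕ, p.Prime → p ≠ 2 → ¬ (p : ℤ) ∣ res v w → (p : ℤ) ∣ disc v → ¬ (p : ℤ) ^ 2 ∣ disc v →
    ¬ (p : ℤ) ∣ v.1 → jacobiSym (δ * v.1) p = 1

/-- The pair `u` satisfies the necessary conditions with a small squarefree divisor of the resultant. -/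
def Bad (u : V × V) : Prop :=
  res u.1 u.2 ≠ 0 ∧ ∃ δ : ℤ, Squarefree δ ∧ δ ∣ res u.1 u.2 ∧ δ ^ 2 ≤ |res u.1 u.2| ∧
    Cnd δ u.1 u.2 ∧ Cnd δ u.2 u.1

/-- The root `r` modulo `δ` is good: the dual of the lattice `ev v r ≡ 0 mod δ` contains no short vectors. -/
def Good (N q0 δ : ℕ) (r : ℤ) : Prop :=
  ∀ n : V, n ≠ 0 → (∃ t : ℤ, (δ : ℤ) ∣ n.1 - t * r ^ 2 ∧ (δ : ℤ) ∣ n.2.1 - t * r ∧ (δ : ℤ) ∣ n.2.2 - t) →
    q0 * δ ≤ 4 * N * nm n

/-- the residue classes modulo `p²` where the local condition at `p` is violated -/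
def Om (δ : ℤ) (p : ℕ) (v : V) : Prop :=
  (p : ℤ) ∣ disc v ∧ ¬ (p : ℤ) ^ 2 ∣ disc v ∧ ¬ (p : ℤ) ∣ v.1 ∧ jacobiSym (δ * v.1) p = -1

open Classical in
/-- the sieve weight at `p` -/
noncomputable def xp (δ : ℤ) (p : ℕ) (u : V × V) : ℝ :=
  if (p : ℤ) ∣ res u.1 u.2 then 1 / 2 else if Om δ p u.1 ∨ Om δ p u.2 then 1 else 0

open Classical in
/-- the indicator function of `p ∣ res` -/
noncomputable def ip (p : ℕ) (u : V × V) : ℝ := if (p : ℤ) ∣ res u.1 u.2 then 1 else 0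

/-- the kernel on `ℤ`, periodic modulo `M` -/
noncomputable def wt (J M : ℕ) (a : ℤ) : ℝ :=
  2 / (J : ℝ) ^ 2 * ‖∑ j ∈ range J, Complex.exp (2 * Real.pi * Complex.I * ((j : ℂ) * (a : ℂ) / (M : ℂ)))‖ ^ 2

/-- the kernel on `V` -/
noncomputable def W (J M : ℕ) (v : V) : ℝ := wt J M v.1 * (wt J M v.2.1 * wt J M v.2.2)

open Classical in
/-- the number of primes in `Q` dividing the resultant -/
noncomputable def om (Q : Finset ℕ) (u : V × V) : ℕ := (Q.filter fun p => (p : ℤ) ∣ res u.1 u.2).card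

/-- the number of primes in `Q` dividing `d` -/
def omd (Q : Finset ℕ) (d : ℕ) : ℕ := (Q.filter fun p => p ∣ d).card

/-- the exceptional pairs: some prime `p > P0` divides the vector product, or both leading coefficients -/
def Exc2 (P0 : ℕ) (u : V × V) : Prop :=
  res u.1 u.2 ≠ 0 ∧ ∃ p : ℕ, p.Prime ∧ P0 < p ∧ (Dv p (crs u.1 u.2) ∨ ((p : ℤ) ∣ u.1.1 ∧ (p : ℤ) ∣ u.2.1))

/-- the exceptional pairs: the common root modulo some divisor of the resultant is not good -/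
def Exc3 (N q0 : ℕ) (u : V × V) : Prop :=
  res u.1 u.2 ≠ 0 ∧ ∃ δ : ℕ, 0 < δ ∧ δ ≤ 3 * N ^ 2 ∧ ∃ r : ℤ, (δ : ℤ) ∣ ev u.1 r ∧ (δ : ℤ) ∣ ev u.2 r ∧
    ¬ Good N q0 δ r

/-- both forms have the root `(r : 1)` modulo `δ` -/
def Lam (δ : ℕ) (r : ℤ) (u : V × V) : Prop := (δ : ℤ) ∣ ev u.1 r ∧ (δ : ℤ) ∣ ev u.2 r

/-- the coset of `c` modulo `q` in the lattice `ev v r ≡ 0 mod δ` -/
def Cos (δ q : ℕ) (r : ℤ) (c v : V) : Prop := Cg q v c ∧ (δ : ℤ) ∣ ev v r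

open Classical in
/-- the squarefree numbers `≤ 3 N²` without prime factors `≤ P0` -/
noncomputable def DD (N P0 : ℕ) : Finset ℕ :=
  (Icc 1 (3 * N ^ 2)).filter fun d => Squarefree d ∧ ∀ p : ℕ, p.Prime → p ∣ d → P0 < p

/-- the lower bound for the density of the sieve weight at `p` -/
noncomputable def dn (p : ℕ) : ℝ := 3 / (2 * (p : ℝ)) - 4 / (p : ℝ) ^ 2

/-- The genus one curve `w² = g(x, z) h(x, z)` has points over all `ℚ_p` and over `ℝ`. -/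
def ELS (g h : ZG.BQ) : Prop :=
  (∀ (p : ℕ) [Fact p.Prime], ∃ x z w : ℚ_[p], ¬ (x = 0 ∧ z = 0) ∧ w ^ 2 = g.ev x z * h.ev x z) ∧
    ∃ x z w : ℝ, ¬ (x = 0 ∧ z = 0) ∧ w ^ 2 = g.ev x z * h.ev x z

/-- The coefficients of both forms are at most `N` in absolute value. -/
def InBox (N : ℕ) (q : ZG.BQ × ZG.BQ) : Prop :=
  (|q.1.A| ≤ N ∧ |q.1.B| ≤ N ∧ |q.1.C| ≤ N) ∧ (|q.2.A| ≤ N ∧ |q.2.B| ≤ N ∧ |q.2.C| ≤ N)

theorem mem_box {N : ℕ} {v : V} : v ∈ box N ↔ |v.1| ≤ N ∧ |v.2.1| ≤ N ∧ |v.2.2| ≤ N := by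
  simp only [box, mem_product, mem_Icc, abs_le]

theorem mem_cube {q : ℕ} {v : V} :
    v ∈ cube q ↔ (0 ≤ v.1 ∧ v.1 < q) ∧ (0 ≤ v.2.1 ∧ v.2.1 < q) ∧ (0 ≤ v.2.2 ∧ v.2.2 < q) := by
  simp only [cube, mem_product, mem_Ico]

theorem mem_box2 {N : ℕ} {u : V × V} : u ∈ box2 N ↔ u.1 ∈ box N ∧ u.2 ∈ box N := by
  simp only [box2, mem_product]

theorem mem_cube2 {q : ℕ} {u : V × V} : u ∈ cube2 q ↔ u.1 ∈ cube q ∧ u.2 ∈ cube q := by
  simp only [cube2, mem_product]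

theorem res_crs (v w : V) : res v w = dsc (crs v w) := by
  unfold res dsc crs
  ring

theorem res_symm (v w : V) : res w v = res v w := by
  unfold res
  ring

theorem dot_crs_left (v w : V) : dot (crs v w) v = 0 := by
  unfold dot crs
  ring

theorem dot_crs_right (v w : V) : dot (crs v w) w = 0 := by
  unfold dot crs
  ring

end FGO
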