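import Pool.Agent.Lib.MP_1ad228_ntG.Al2
import Pool.Agent.Lib.MP_1ad228_ntG.Al2c
import Pool.Agent.Lib.MP_1ad228_ntG.Defs
import Pool.Agent.Lib.MP_1ad228_nt.ZDual

/-! JOB Al3: from an adelic zero-cycle to a divisor of the resultant. -/

set_option autoImplicit false

namespace FGO

open Finset ZC ZG

private theorem Al3_cons {F : Type} [Field F] {g : Fin 2 → BQ} (q : ℤ × ZG.Pt F g 1) (z : ZG.Cyc F g 1)
    (i : Fin 2) : ZG.Cyc.cls (q :: z : ZG.Cyc F g 1) i = (Algebra.norm F (q.2.val i)) ^ q.1 * z.cls i := by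
  unfold ZG.Cyc.cls
  rw [List.map_cons, List.prod_cons]

private theorem Al3_nil {F : Type} [Field F] {g : Fin 2 → BQ} (i : Fin 2) :
    ZG.Cyc.cls ([] : ZG.Cyc F g 1) i = 1 := by
  unfold ZG.Cyc.cls
  rw [List.map_nil, List.prod_nil]

private theorem Al3_hR {g : Fin 2 → BQ} (h : (g 0).res (g 1) ≠ 0) : ∀ i j, i ≠ j → (g i).res (g j) ≠ 0 := by
  intro i j hij
  have h1 : ∀ k l : Fin 2, k ≠ l → (k = 0 ∧ l = 1) ∨ (k = 1 ∧ l = 0) := by decide
  rcases h1 i j hij with ⟨rfl, rfl⟩ | ⟨rfl, rfl⟩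
  · exact h
  · rw [BQ.res_comm]
    exact h

/-- (Al3a) The valuations of the classes of a zero-cycle are even if `p ∤ res`. -/
theorem cyc_even {p : ℕ} [Fact p.Prime] (g : Fin 2 → BQ) (hR : ¬ (p : ℤ) ∣ (g 0).res (g 1)) (z : Cyc ℚ_[p] g 1)
    (i : Fin 2) : Even (z.cls i).valuation := by
  have hR0 : (g 0).res (g 1) ≠ 0 := fun h => hR (h ▸ dvd_zero _)
  induction z with
  | nil =>
    rw [Al3_nil, Padic.valuation_one]
    exact Even.zero
  | cons q z ih =>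
    have h1 : Algebra.norm ℚ_[p] (q.2.val i) ≠ 0 :=
      Algebra.norm_ne_zero_iff.2 (q.2.val_ne (Al3_hR hR0) one_ne_zero i)
    have h2 : ZG.Cyc.cls z i ≠ 0 := ZG.Cyc.cls_ne (Al3_hR hR0) one_ne_zero z i
    rw [Al3_cons, Padic.valuation_mul (zpow_ne_zero _ h1) h2, Padic.valuation_zpow]
    exact ((pt_even g hR q.2 i).mul_left _).add ih

/-- (Al3b) The class of a zero-cycle of degree one at a prime which divides the discriminant exactly once. -/
theorem cyc_disc {p : ℕ} [Fact p.Prime] (hp : p ≠ 2) (g : Fin 2 → BQ) (hR : ¬ (p : ℤ) ∣ (g 0).res (g 1))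
    (i : Fin 2) (h1 : (p : ℤ) ∣ (g i).disc) (h2 : ¬ (p : ℤ) ^ 2 ∣ (g i).disc) (hA : ¬ (p : ℤ) ∣ (g i).A)
    (z : Cyc ℚ_[p] g 1) (hz : z.deg = 1) : IsSquare (z.cls i * ((g i).A : ℚ_[p])) := by
  have hA0 : ((g i).A : ℚ_[p]) ≠ 0 := by
    have h3 : (g i).A ≠ 0 := fun h => hA (h ▸ dvd_zero _)
    exact_mod_cast h3
  have key : ∀ z : ZG.Cyc ℚ_[p] g 1, IsSquare (z.cls i * ((g i).A : ℚ_[p]) ^ z.deg) := by
    intro z
    induction z with
    | nil =>
      have h3 : ZG.Cyc.deg ([] : ZG.Cyc ℚ_[p] g 1) = 0 := by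
        unfold ZG.Cyc.deg
        rw [List.map_nil, List.sum_nil]
      rw [Al3_nil, h3, zpow_zero, mul_one]
      exact IsSquare.one
    | cons q z ih =>
      have h3 : ZG.Cyc.deg (q :: z : ZG.Cyc ℚ_[p] g 1) =
          q.1 * (Module.finrank ℚ_[p] q.2.K : ℤ) + ZG.Cyc.deg z := by
        unfold ZG.Cyc.deg
        rw [List.map_cons, List.sum_cons]
      have h4 := (pt_disc hp g hR i h1 h2 hA q.2).zpow q.1
      have h5 : ZG.Cyc.cls (q :: z : ZG.Cyc ℚ_[p] g 1) i *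
          ((g i).A : ℚ_[p]) ^ ZG.Cyc.deg (q :: z : ZG.Cyc ℚ_[p] g 1) =
          (Algebra.norm ℚ_[p] (q.2.val i) * ((g i).A : ℚ_[p]) ^ Module.finrank ℚ_[p] q.2.K) ^ q.1 *
            (ZG.Cyc.cls z i * ((g i).A : ℚ_[p]) ^ ZG.Cyc.deg z) := by
        rw [Al3_cons, h3, zpow_add₀ hA0, mul_zpow, mul_comm q.1, zpow_mul, zpow_natCast]
        ring
      rw [h5]
      exact h4.mul ih
  have h6 := key z
  rw [hz, zpow_one] at h6
  exact h6

/-- (Al3c) The product of the two classes is a square. -/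
theorem cyc_mul_sq {F : Type} [Field F] [CharZero F] (g : Fin 2 → BQ) (hR : (g 0).res (g 1) ≠ 0) (z : Cyc F g 1) :
    IsSquare (z.cls 0 * z.cls 1) := by
  induction z with
  | nil =>
    rw [Al3_nil, Al3_nil, one_mul]
    exact IsSquare.one
  | cons q z ih =>
    have h1 := ((pt_mul_sq g hR q.2).map (Algebra.norm F)).zpow q.1
    rw [map_mul, mul_zpow] at h1
    rw [Al3_cons, Al3_cons, mul_mul_mul_comm]
    exact h1.mul ih

end FGO
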