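import Pool.Agent.Lib.MP_1ad228_ntG.Al3
import Pool.Agent.Lib.MP_1ad228_nt.ZHodd

/-! JOB Al3d: from an adelic zero-cycle to a divisor of the resultant. -/

set_option autoImplicit false

namespace FGO

open Finset ZC ZG

private theorem Al3d_sq_even {p : ℕ} [Fact p.Prime] {x : ℚ_[p]} (h0 : x ≠ 0) (h : IsSquare x) :
    Even x.valuation := by
  obtain ⟨r, rfl⟩ := h
  have hr : r ≠ 0 := by
    rintro rfl
    exact h0 (mul_zero 0)
  rw [Padic.valuation_mul hr hr]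
  exact ⟨_, rfl⟩

private theorem Al3d_sq_div {F : Type} [Field F] {c x : F} (hc : c ≠ 0) (h : IsSquare (c * c * x)) :
    IsSquare x := by
  obtain ⟨r, hr⟩ := h
  refine ⟨r / c, ?_⟩
  field_simp
  linear_combination hr

private theorem Al3d_val {p : ℕ} [hp : Fact p.Prime] {n : ℤ} (hn : n ≠ 0) (h1 : (p : ℤ) ∣ n)
    (h2 : ¬ (p : ℤ) ^ 2 ∣ n) : (n : ℚ_[p]).valuation = 1 := by
  obtain ⟨m, rfl⟩ := h1
  have hm : ¬ (p : ℤ) ∣ m := by
    intro hm
    exact h2 (by rw [sq]; exact mul_dvd_mul_left _ hm)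
  have hm0 : m ≠ 0 := by
    rintro rfl
    exact hm (dvd_zero _)
  have hp0 : ((p : ℤ) : ℚ_[p]) ≠ 0 := by
    exact_mod_cast hp.out.ne_zero
  have hm1 : (m : ℚ_[p]) ≠ 0 := by exact_mod_cast hm0
  rw [Int.cast_mul, Padic.valuation_mul hp0 hm1, Int.cast_natCast, Padic.valuation_p,
    Padic.valuation_intCast, padicValInt.eq_zero_of_not_dvd hm]
  rfl

private theorem Al3d_dvd {β n : ℤ} (hβ : Squarefree β) (h : ∀ p : ℕ, p.Prime → (p : ℤ) ∣ β → (p : ℤ) ∣ n) :
    β ∣ n := by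
  rw [← Int.natAbs_dvd_natAbs]
  have h1 : Squarefree β.natAbs := Int.squarefree_natAbs.2 hβ
  rw [← Nat.prod_primeFactors_of_squarefree h1]
  refine Finset.prod_primes_dvd _ (fun q hq => (Nat.prime_of_mem_primeFactors hq).prime) ?_
  intro q hq
  have h2 := h q (Nat.prime_of_mem_primeFactors hq)
    (Int.natCast_dvd.2 (Nat.dvd_of_mem_primeFactors hq))
  exact Int.natCast_dvd.1 h2

/-- (Al3d) Proof. `obtain ⟨z, z₀, hz, hz₀, hs⟩ := h`. `ZC.dual (fun p _ => (z p).cls 0) (z₀.cls 0) ..` with `T` = the prime factors of `res` gives a squarefree `β` with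
`(z p).cls 0 * β` a square in `ℚ_[p]` for all `p`. If a prime `p ∤ res` divides `β`, the valuation of `β` is `1` (squarefree) but that of `(z p).cls 0` is even: contradiction. So
every prime factor of `β` divides `res`, and `β ∣ res` as `β` is squarefree (`Int`; pass to `natAbs`: `Squarefree`, `Nat.Coprime`/`UniqueFactorizationMonoid.dvd_of_squarefree..`).
At `p ∥ disc v` etc.: `cls 0 * A` and `cls 0 * β` are squares, so `β * A` is a square in `ℚ_[p]`, an integer prime to `p` (`p ∤ β` as `β ∣ res`), and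
`ZC.isSquare_int_iff` (ZHodd.lean) gives `jacobiSym (β * A) p = 1`. For `w`: `cls 1 * cls 0` is a square (Al3c), so `cls 1 * β` is a square; `res w v = res v w`.
(`(bq v).res (bq w) = res v w`, `(bq v).disc = disc v` by `rfl`/`unfold`; `![bq v, bq w] 0 = bq v`: `rfl`.) -/
theorem adelic_arith (v w : V) (hR : res v w ≠ 0) (h : Adelic ![bq v, bq w] 1) :
    ∃ β : ℤ, Squarefree β ∧ β ∣ res v w ∧ Cnd β v w ∧ Cnd β w v := by
  obtain ⟨z, z₀, hz, hz₀, hs⟩ := h
  have hres : (bq v).res (bq w) = res v w := rfl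
  have hR' : ∀ i j : Fin 2, i ≠ j →
      ((![bq v, bq w] : Fin 2 → BQ) i).res ((![bq v, bq w] : Fin 2 → BQ) j) ≠ 0 := by
    intro i j hij
    fin_cases i <;> fin_cases j
    · exact absurd rfl hij
    · change (bq v).res (bq w) ≠ 0
      rw [hres]
      exact hR
    · change (bq w).res (bq v) ≠ 0
      rw [BQ.res_comm, hres]
      exact hR
    · exact absurd rfl hij
  have hc : ∀ (p : ℕ) [Fact p.Prime] (i : Fin 2), (z p).cls i ≠ 0 := fun p _ i =>
    ZG.Cyc.cls_ne hR' one_ne_zero (z p) i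
  have hR2 : ∀ p : ℕ, ¬ (p : ℤ) ∣ res v w →
      ¬ (p : ℤ) ∣ ((![bq v, bq w] : Fin 2 → BQ) 0).res ((![bq v, bq w] : Fin 2 → BQ) 1) := by
    intro p hp
    exact hp
  have hT : ∀ (p : ℕ) [Fact p.Prime], p ∉ (res v w).natAbs.primeFactors →
      Even ((z p).cls 0).valuation := by
    intro p hp hpT
    refine cyc_even _ (hR2 p ?_) (z p) 0
    intro hd
    exact hpT (Nat.mem_primeFactors.2 ⟨hp.out, Int.natCast_dvd.1 hd, Int.natAbs_ne_zero.2 hR⟩)
  obtain ⟨β, hβ, hsq⟩ := ZC.dual (fun p _ => (z p).cls 0) (z₀.cls 0) (fun p _ => hc p 0)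
    (ZG.Cyc.cls_ne hR' one_ne_zero z₀ 0) _ hT (fun β hβ => hs 0 β hβ)
  have hβ0 : β ≠ 0 := hβ.ne_zero
  have hdvd : β ∣ res v w := by
    refine Al3d_dvd hβ ?_
    intro p hp hpβ
    by_contra hpr
    have : Fact p.Prime := ⟨hp⟩
    have hβp : (β : ℚ_[p]) ≠ 0 := by exact_mod_cast hβ0
    have e1 := Al3d_sq_even (mul_ne_zero (hc p 0) hβp) (hsq p)
    have e2 : Even ((z p).cls 0).valuation := cyc_even _ (hR2 p hpr) (z p) 0
    have hnp : ¬ (p : ℤ) ^ 2 ∣ β := by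
      intro hd
      rw [sq] at hd
      have hu := hβ _ hd
      exact (Nat.prime_iff_prime_int.1 hp).not_isUnit hu
    rw [Padic.valuation_mul (hc p 0) hβp, Al3d_val hβ0 hpβ hnp] at e1
    exact Int.not_even_iff_odd.2 (e2.add_one) e1
  refine ⟨β, hβ, hdvd, ?_, ?_⟩
  · intro p hp hp2 hpr h1 h2 hA
    have : Fact p.Prime := ⟨hp⟩
    have k1 : IsSquare ((z p).cls 0 * ((v.1 : ℤ) : ℚ_[p])) :=
      cyc_disc hp2 _ (hR2 p hpr) 0 h1 h2 hA (z p) (hz p)
    have k2 : IsSquare ((z p).cls 0 * (β : ℚ_[p])) := hsq p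
    have k3 : IsSquare (((β * v.1 : ℤ)) : ℚ_[p]) := by
      refine Al3d_sq_div (hc p 0) ?_
      have e : (z p).cls 0 * (z p).cls 0 * ((β * v.1 : ℤ) : ℚ_[p])
          = ((z p).cls 0 * ((v.1 : ℤ) : ℚ_[p])) * ((z p).cls 0 * (β : ℚ_[p])) := by
        push_cast
        ring
      rw [e]
      exact k1.mul k2
    refine (ZC.isSquare_int_iff hp2 _ ?_).1 k3
    intro hd
    rcases (Nat.prime_iff_prime_int.1 hp).dvd_or_dvd hd with hd | hd
    · exact hpr (hd.trans hdvd)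
    · exact hA hd
  · intro p hp hp2 hpr h1 h2 hA
    have : Fact p.Prime := ⟨hp⟩
    rw [res_symm] at hpr
    have k1 : IsSquare ((z p).cls 1 * ((w.1 : ℤ) : ℚ_[p])) :=
      cyc_disc hp2 _ (hR2 p hpr) 1 h1 h2 hA (z p) (hz p)
    have k2 : IsSquare ((z p).cls 0 * (β : ℚ_[p])) := hsq p
    have k4 : IsSquare ((z p).cls 0 * (z p).cls 1) := cyc_mul_sq (![bq v, bq w] : Fin 2 → BQ) hR (z p)
    have k3 : IsSquare (((β * w.1 : ℤ)) : ℚ_[p]) := by
      refine Al3d_sq_div (mul_ne_zero (hc p 0) (hc p 1)) ?_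
      have e : (z p).cls 0 * (z p).cls 1 * ((z p).cls 0 * (z p).cls 1) * ((β * w.1 : ℤ) : ℚ_[p])
          = ((z p).cls 1 * ((w.1 : ℤ) : ℚ_[p])) * ((z p).cls 0 * (β : ℚ_[p]))
            * ((z p).cls 0 * (z p).cls 1) := by
        push_cast
        ring
      rw [e]
      exact (k1.mul k2).mul k4
    refine (ZC.isSquare_int_iff hp2 _ ?_).1 k3
    intro hd
    rcases (Nat.prime_iff_prime_int.1 hp).dvd_or_dvd hd with hd | hd
    · exact hpr (hd.trans hdvd)
    · exact hA hd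

end FGO
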