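import Pool.Agent.Lib.MP_1ad228_ntG.Defs

/-! JOB An0. -/

set_option autoImplicit false

namespace FGO

open Finset

/-- (An1a) Proof. `n! ≥ (n/e)^n` (`Nat.factorial_lt..`, or `Real.add_pow_le_pow_mul_pow_of_add_eq_one`; simplest: `exp n ≥ n^n / n!`, `Real.pow_div_factorial_le_exp`), so with `n = 2k+1 ≥ 40 L`, `B ≤ 2 L`:
`B^n/n! ≤ (e B/n)^n ≤ (e/20)^n ≤ exp(-n) ≤ exp(-10 L)` as `e/20 ≤ exp(-1)` (`e² ≤ 20`). -/
theorem tail_le (L B : ℝ) (hL : 0 ≤ L) (hB0 : 0 ≤ B) (hB : B ≤ 2 * L) (k : ℕ) (hk : 20 * L ≤ k) :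
    B ^ (2 * k + 1) / ((2 * k + 1).factorial : ℝ) ≤ Real.exp (-(10 * L)) := by
  obtain ⟨n, hn⟩ : ∃ n : ℕ, n = 2 * k + 1 := ⟨_, rfl⟩
  rw [← hn]
  have hnr : (n : ℝ) = 2 * k + 1 := by rw [hn]; push_cast; ring
  have hn0 : (0 : ℝ) < n := by rw [hnr]; positivity
  have hBn : B ≤ n / 20 := by
    rw [hnr]
    linarith
  have hf : (0 : ℝ) < (n.factorial : ℝ) := by exact_mod_cast n.factorial_pos
  have h1 : B ^ n ≤ ((n : ℝ) / 20) ^ n := pow_le_pow_left₀ hB0 hBn n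
  have h2 : (n : ℝ) ^ n / (n.factorial : ℝ) ≤ Real.exp n := Real.pow_div_factorial_le_exp _ hn0.le n
  have he2 : Real.exp 1 * Real.exp 1 ≤ 20 := by
    have h3 := Real.exp_one_lt_d9
    nlinarith [Real.exp_pos 1]
  have h4 : Real.exp (n : ℝ) = Real.exp 1 ^ n := by
    rw [← Real.exp_nat_mul, mul_one]
  have h5 : Real.exp 1 ^ n * Real.exp 1 ^ n ≤ 20 ^ n := by
    rw [← mul_pow]
    exact pow_le_pow_left₀ (mul_pos (Real.exp_pos 1) (Real.exp_pos 1)).le he2 n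
  have h20 : (0 : ℝ) < 20 ^ n := by positivity
  calc B ^ n / (n.factorial : ℝ) ≤ ((n : ℝ) / 20) ^ n / (n.factorial : ℝ) :=
        div_le_div_of_nonneg_right h1 hf.le
    _ = ((n : ℝ) ^ n / (n.factorial : ℝ)) / 20 ^ n := by
        rw [div_pow]
        ring
    _ ≤ Real.exp 1 ^ n / 20 ^ n := by
        rw [← h4]
        exact div_le_div_of_nonneg_right h2 h20.le
    _ ≤ Real.exp (-(n : ℝ)) := by
        rw [Real.exp_neg, h4, div_le_iff₀ h20, ← div_eq_inv_mul, le_div_iff₀ (by positivity)]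
        exact h5
    _ ≤ Real.exp (-(10 * L)) := by
        apply Real.exp_le_exp.2
        rw [hnr]
        linarith

end FGO
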