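import Pool.Agent.Lib.MP_1ad228_ntG.Defs
import Pool.Agent.Lib.MP_42948a_nt.SV.B1

/-! JOB An1: the choice of the parameters. -/

set_option autoImplicit false

namespace FGO

open Finset

private theorem An1_mem {u v : ℝ} {p : ℕ} : p ∈ Pool.Agent.Lib.MP_42948a_nt.SV.Pri u v ↔ (⌊u⌋₊ < p ∧ p ≤ ⌊v⌋₊) ∧ p.Prime := by
  unfold Pool.Agent.Lib.MP_42948a_nt.SV.Pri
  rw [mem_filter, mem_Ioc]

/-- the conditions on `N` -/
private theorem An1_ev (T : ℝ) : ∃ N0 : ℕ, 16 ≤ N0 ∧ ∀ N : ℕ, N0 ≤ N →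
    T ≤ Real.log (Real.log N) ∧
    4 * (20 * Real.log (Real.log N) + 1) * Real.log N ^ (9 / 10 : ℝ) + 1 ≤ Real.log N / 20 := by
  have h1 : Filter.Tendsto (fun N : ℕ => Real.log (N : ℝ)) Filter.atTop Filter.atTop :=
    Real.tendsto_log_atTop.comp tendsto_natCast_atTop_atTop
  have h2 : Filter.Tendsto (fun N : ℕ => Real.log (Real.log (N : ℝ))) Filter.atTop Filter.atTop :=
    Real.tendsto_log_atTop.comp h1
  have h3 : Filter.Tendsto (fun N : ℕ => Real.log (N : ℝ) ^ (1 / 20 : ℝ)) Filter.atTop Filter.atTop :=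
    (tendsto_rpow_atTop (by norm_num)).comp h1
  have h4 := ((h2.eventually_ge_atTop T).and (h1.eventually_ge_atTop 1)).and
    ((h3.eventually_ge_atTop 32100).and (Filter.eventually_ge_atTop 16))
  obtain ⟨N1, hN1⟩ := Filter.eventually_atTop.1 h4
  refine ⟨max N1 16, le_max_right _ _, fun N hN => ?_⟩
  obtain ⟨⟨ha, hb⟩, hc, -⟩ := hN1 N ((le_max_left _ _).trans hN)
  refine ⟨ha, ?_⟩
  generalize hL : Real.log (N : ℝ) = L at ha hb hc ⊢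
  have hL0 : 0 < L := by linarith
  have h5 : Real.log L ≤ 20 * L ^ (1 / 20 : ℝ) := by
    have := Real.log_le_rpow_div hL0.le (show (0 : ℝ) < 1 / 20 by norm_num)
    linarith
  have h6 : 1 ≤ L ^ (1 / 20 : ℝ) := by linarith
  have h7 : L ^ (1 / 20 : ℝ) * L ^ (9 / 10 : ℝ) = L ^ (19 / 20 : ℝ) := by
    rw [← Real.rpow_add hL0]
    norm_num
  have h8 : L ^ (1 / 20 : ℝ) * L ^ (19 / 20 : ℝ) = L := by
    rw [← Real.rpow_add hL0]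
    norm_num
  have h9 : 1 ≤ L ^ (19 / 20 : ℝ) := Real.one_le_rpow hb (by norm_num)
  have h10 : 0 ≤ L ^ (9 / 10 : ℝ) := (Real.rpow_pos_of_pos hL0 _).le
  calc 4 * (20 * Real.log L + 1) * L ^ (9 / 10 : ℝ) + 1
      ≤ 4 * (20 * (20 * L ^ (1 / 20 : ℝ)) + L ^ (1 / 20 : ℝ)) * L ^ (9 / 10 : ℝ) + L ^ (19 / 20 : ℝ) := by
        have : 4 * (20 * Real.log L + 1) * L ^ (9 / 10 : ℝ) ≤
            4 * (20 * (20 * L ^ (1 / 20 : ℝ)) + L ^ (1 / 20 : ℝ)) * L ^ (9 / 10 : ℝ) :=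
          mul_le_mul_of_nonneg_right (by linarith) h10
        linarith
    _ = 1605 * L ^ (19 / 20 : ℝ) := by
        rw [← h7]
        ring
    _ ≤ L / 20 := by
        have h11 : 32100 * L ^ (19 / 20 : ℝ) ≤ L ^ (1 / 20 : ℝ) * L ^ (19 / 20 : ℝ) :=
          mul_le_mul_of_nonneg_right hc (by linarith)
        rw [h8] at h11
        linarith

/-- (An1b) the parameters. Write `LL = log log N`.
Proof. `P0 = ⌊LL/20⌋ + 4`, `y = exp((log N)^(9/10))`, `Q = Pri P0 y` (`Pool.Agent.Lib.MP_42948a_nt.SV.Pri`: the primes in `(P0, y]`), `Q2 = Pri y (3N²)`, `m = ⌈11/10 S⌉`, `k = ⌈20 LL⌉`, `q0 = ⌊N^(1/20)⌋`.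
`2^P0 ≤ 16 · 2^(LL/20) = 16 exp(LL log 2/20) ≤ 16 exp(7/200 LL)` (`log 2 ≤ 0.7`). `mertA` (file `SV/B1.lean`): `S ≥ log(log y / log P0) - C/log P0 = 9/10 LL - log log P0 - C/log P0 ≥ 89/100 LL` for `N` large
(`log log P0 ≤ log log(LL/20 + 4) = o(LL)`), `S ≤ 9/10 LL + C' ≤ LL`, `S2 ≤ log(log(3N²)/log y) + C/log y ≤ log(3 log N/(log N)^(9/10)) + C = LL/10 + C'' ≤ 11/100 LL`.
`(∏_D p)² ≤ y^(4k) = exp(4 k (log N)^(9/10)) ≤ q0` as `4 (20 LL + 1)(log N)^(9/10) ≤ (log N)/20 - log 2` for large `N` (`⌊x⌋ ≥ x/2`); `p p' ≤ y² ≤ 4N`; `q0^8 ≤ N^(8/20)`. `S ≥ 20` for large `N`. -/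
theorem params : ∃ N0 : ℕ, 16 ≤ N0 ∧ ∀ N : ℕ, N0 ≤ N → ∃ (P0 q0 m k : ℕ) (Q Q2 : Finset ℕ),
    4 ≤ P0 ∧ Real.log (Real.log N) / 20 ≤ P0 ∧ (2 : ℝ) ^ P0 ≤ 16 * Real.exp (7 / 200 * Real.log (Real.log N)) ∧
    (∀ p ∈ Q, p.Prime ∧ P0 < p) ∧ (∀ p ∈ Q2, p.Prime) ∧ Disjoint Q Q2 ∧
    (∀ p : ℕ, p.Prime → P0 < p → p ≤ 3 * N ^ 2 → p ∈ Q ∪ Q2) ∧
    (∀ D ⊆ Q, D.card ≤ 2 * k → (∏ p ∈ D, p) ^ 2 ≤ q0) ∧ (∀ p ∈ Q, ∀ p' ∈ Q, p * p' ≤ 4 * N) ∧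
    (q0 : ℝ) ^ 8 ≤ (N : ℝ) ^ (2 / 5 : ℝ) ∧ 20 * Real.log (Real.log N) ≤ k ∧
    20 ≤ ∑ p ∈ Q, 1 / (p : ℝ) ∧ 89 / 100 * Real.log (Real.log N) ≤ ∑ p ∈ Q, 1 / (p : ℝ) ∧
    ∑ p ∈ Q, 1 / (p : ℝ) ≤ Real.log (Real.log N) ∧
    ∑ p ∈ Q2, 1 / (p : ℝ) ≤ 11 / 100 * Real.log (Real.log N) ∧
    11 / 10 * ∑ p ∈ Q, 1 / (p : ℝ) ≤ m ∧ (m : ℝ) ≤ 11 / 10 * ∑ p ∈ Q, 1 / (p : ℝ) + 1 := by
  obtain ⟨C, hC0, hC⟩ := Pool.Agent.Lib.MP_42948a_nt.SV.mertA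
  obtain ⟨N0, hN0, hev⟩ := An1_ev (200 * (C + 9))
  refine ⟨N0, hN0, fun N hN => ?_⟩
  obtain ⟨e1, e3⟩ := hev N hN
  have hN16 : 16 ≤ N := hN0.trans hN
  have hNpos : (0 : ℝ) < N := by
    have : (16 : ℝ) ≤ N := by exact_mod_cast hN16
    linarith
  obtain ⟨L, hL⟩ : ∃ L : ℝ, L = Real.log N := ⟨_, rfl⟩
  obtain ⟨t, ht⟩ : ∃ t : ℝ, t = Real.log L := ⟨_, rfl⟩
  rw [← hL] at e1 e3 ⊢
  rw [← ht] at e1 e3 ⊢
  have ht0 : 1800 ≤ t := by nlinarith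
  have hLexp : Real.exp L = N := by rw [hL, Real.exp_log hNpos]
  have hL1 : 1 < L := by
    by_contra hle
    rw [not_lt] at hle
    rcases le_or_gt L 0 with h | h
    · have hN1 : (1 : ℝ) ≤ N := by
        have : (16 : ℝ) ≤ N := by exact_mod_cast hN16
        linarith
      have : 0 ≤ L := by rw [hL]; exact Real.log_nonneg hN1
      have h0 : L = 0 := le_antisymm h this
      rw [h0, Real.log_zero] at ht
      linarith
    · have := Real.log_nonpos h.le hle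
      linarith
  have hL0 : 0 < L := by linarith
  have hLt : Real.exp t = L := by rw [ht, Real.exp_log hL0]
  have hLt' : t + 1 ≤ L := by rw [← hLt]; exact Real.add_one_le_exp t
  obtain ⟨w, hw⟩ : ∃ w : ℝ, w = L ^ (9 / 10 : ℝ) := ⟨_, rfl⟩
  rw [← hw] at e3
  have hw1 : 1 ≤ w := by rw [hw]; exact Real.one_le_rpow hL1.le (by norm_num)
  have hlogw : Real.log w = 9 / 10 * t := by rw [hw, Real.log_rpow hL0, ht]
  have hwL : 80 * w + 1 ≤ L / 20 := by nlinarith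
  obtain ⟨y, hy⟩ : ∃ y : ℝ, y = Real.exp w := ⟨_, rfl⟩
  have hlogy : Real.log y = w := by rw [hy, Real.log_exp]
  have hy0 : 0 < y := by rw [hy]; exact Real.exp_pos _
  obtain ⟨P0, hP0⟩ : ∃ P0 : ℕ, P0 = ⌊t / 20⌋₊ + 4 := ⟨_, rfl⟩
  have hfl : (⌊t / 20⌋₊ : ℝ) ≤ t / 20 := Nat.floor_le (by linarith)
  have hfl' : t / 20 < (⌊t / 20⌋₊ : ℝ) + 1 := Nat.lt_floor_add_one _
  have hP0r : (P0 : ℝ) = (⌊t / 20⌋₊ : ℝ) + 4 := by rw [hP0]; push_cast; ring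
  have hP04 : (4 : ℝ) ≤ P0 := by
    rw [hP0r]
    have : (0 : ℝ) ≤ (⌊t / 20⌋₊ : ℝ) := Nat.cast_nonneg _
    linarith
  have hlog4 : 1 ≤ Real.log (P0 : ℝ) := by
    rw [Real.le_log_iff_exp_le (by linarith)]
    have := Real.exp_one_lt_d9
    linarith
  have hloglog0 : 0 ≤ Real.log (Real.log (P0 : ℝ)) := Real.log_nonneg hlog4
  have hlogP0 : Real.log (P0 : ℝ) ≤ t / 200 + 9 := by
    have h1 : Real.log (P0 : ℝ) = Real.log ((P0 : ℝ) / 10) + Real.log 10 := by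
      rw [← Real.log_mul (by positivity) (by norm_num)]
      congr 1
      ring
    have h2 : Real.log ((P0 : ℝ) / 10) ≤ (P0 : ℝ) / 10 - 1 := Real.log_le_sub_one_of_pos (by positivity)
    have h3 : Real.log 10 ≤ 10 - 1 := Real.log_le_sub_one_of_pos (by norm_num)
    rw [h1]
    linarith
  have hloglog : Real.log (Real.log (P0 : ℝ)) ≤ t / 200 + 8 := by
    have := Real.log_le_sub_one_of_pos (show 0 < Real.log (P0 : ℝ) by linarith)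
    linarith
  have hP0y : (P0 : ℝ) ≤ y := by
    have h1 : w + 1 ≤ y := by rw [hy]; exact Real.add_one_le_exp w
    have h2 : 9 / 10 * t + 1 ≤ w := by
      rw [← hlogw]
      have := Real.add_one_le_exp (Real.log w)
      rwa [Real.exp_log (by linarith)] at this
    linarith
  have hyN : y ^ 2 ≤ N := by
    rw [hy, ← Real.exp_nat_mul, ← hLexp]
    apply Real.exp_le_exp.2
    push_cast
    linarith
  have hy1 : 1 ≤ y := by linarith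
  have hyN' : y ≤ 3 * (N : ℝ) ^ 2 := by
    have h1 : y ≤ y ^ 2 := by nlinarith
    have h2 : (1 : ℝ) ≤ N := by
      have : (16 : ℝ) ≤ N := by exact_mod_cast hN16
      linarith
    nlinarith
  obtain ⟨Y, hY⟩ : ∃ Y : ℕ, Y = ⌊y⌋₊ := ⟨_, rfl⟩
  have hYy : (Y : ℝ) ≤ y := by rw [hY]; exact Nat.floor_le hy0.le
  have hY1 : 1 ≤ Y := by rw [hY]; exact Nat.le_floor (by exact_mod_cast hy1)
  obtain ⟨Q, hQ⟩ : ∃ Q : Finset ℕ, Q = Pool.Agent.Lib.MP_42948a_nt.SV.Pri (P0 : ℝ) y := ⟨_, rfl⟩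
  obtain ⟨Q2, hQ2⟩ : ∃ Q2 : Finset ℕ, Q2 = Pool.Agent.Lib.MP_42948a_nt.SV.Pri y ((3 * N ^ 2 : ℕ) : ℝ) := ⟨_, rfl⟩
  have hQm : ∀ p, p ∈ Q ↔ (P0 < p ∧ p ≤ Y) ∧ p.Prime := fun p => by
    rw [hQ, An1_mem, Nat.floor_natCast, hY]
  have hQ2m : ∀ p, p ∈ Q2 ↔ (Y < p ∧ p ≤ 3 * N ^ 2) ∧ p.Prime := fun p => by
    rw [hQ2, An1_mem, Nat.floor_natCast, hY]
  have hS := hC (P0 : ℝ) y (by linarith) hP0y
  rw [← hQ, hlogy, Real.log_div (by linarith) (by linarith), hlogw] at hS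
  have hS' := abs_le.1 hS
  have hCd : C / Real.log (P0 : ℝ) ≤ C := div_le_self hC0 hlog4
  obtain ⟨S, hSd⟩ : ∃ S : ℝ, S = ∑ p ∈ Q, 1 / (p : ℝ) := ⟨_, rfl⟩
  rw [← hSd] at hS'
  have hS_hi : S ≤ t := by linarith [hS'.2]
  have hS_lo : 89 / 100 * t ≤ S := by linarith [hS'.1]
  have hS2 := hC y ((3 * N ^ 2 : ℕ) : ℝ) (by linarith) (by push_cast; exact hyN')
  rw [← hQ2, hlogy] at hS2
  have hS2' := (abs_le.1 hS2).2
  have hCd2 : C / w ≤ C := div_le_self hC0 hw1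
  have hlog3N : Real.log (((3 * N ^ 2 : ℕ) : ℝ)) ≤ 4 * L := by
    push_cast
    rw [Real.log_mul (by norm_num) (by positivity), Real.log_pow, ← hL]
    have h3 : Real.log 3 ≤ 3 - 1 := Real.log_le_sub_one_of_pos (by norm_num)
    push_cast
    linarith
  have hlog3N0 : 0 < Real.log (((3 * N ^ 2 : ℕ) : ℝ)) := by
    apply Real.log_pos
    push_cast
    have : (16 : ℝ) ≤ N := by exact_mod_cast hN16
    nlinarith
  have hS2_hi : ∑ p ∈ Q2, 1 / (p : ℝ) ≤ 11 / 100 * t := by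
    have h1 : Real.log (Real.log (((3 * N ^ 2 : ℕ) : ℝ)) / w) ≤ t / 10 + 3 := by
      rw [Real.log_div (by linarith) (by linarith), hlogw]
      have h2 : Real.log (Real.log (((3 * N ^ 2 : ℕ) : ℝ))) ≤ Real.log (4 * L) := Real.log_le_log hlog3N0 hlog3N
      have h3 : Real.log (4 * L) = Real.log 4 + t := by
        rw [Real.log_mul (by norm_num) (by linarith), ht]
      have h4 : Real.log 4 ≤ 4 - 1 := Real.log_le_sub_one_of_pos (by norm_num)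
      linarith
    linarith
  have hk : (⌈20 * t⌉₊ : ℝ) ≤ 20 * t + 1 := by
    have := Nat.ceil_lt_add_one (show 0 ≤ 20 * t by linarith)
    linarith
  have hq0 : (⌊(N : ℝ) ^ (1 / 20 : ℝ)⌋₊ : ℝ) ≤ (N : ℝ) ^ (1 / 20 : ℝ) := Nat.floor_le (by positivity)
  refine ⟨P0, ⌊(N : ℝ) ^ (1 / 20 : ℝ)⌋₊, ⌈11 / 10 * S⌉₊, ⌈20 * t⌉₊, Q, Q2, ?_, ?_, ?_, ?_, ?_, ?_, ?_, ?_, ?_, ?_, ?_, ?_,
    ?_, ?_, ?_, ?_, ?_⟩
  · exact_mod_cast hP04
  · rw [hP0r]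
    linarith
  · rw [hP0, pow_add]
    have h1 : (2 : ℝ) ^ ⌊t / 20⌋₊ ≤ Real.exp (7 / 200 * t) := by
      have h2 : (2 : ℝ) ^ ⌊t / 20⌋₊ = Real.exp (⌊t / 20⌋₊ * Real.log 2) := by
        rw [Real.exp_nat_mul, Real.exp_log (by norm_num)]
      rw [h2]
      apply Real.exp_le_exp.2
      have h3 : Real.log 2 ≤ 7 / 10 := by
        have := Real.log_two_lt_d9
        linarith
      have h4 : 0 ≤ Real.log 2 := Real.log_nonneg (by norm_num)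
      calc (⌊t / 20⌋₊ : ℝ) * Real.log 2 ≤ t / 20 * (7 / 10) :=
            mul_le_mul hfl h3 h4 (by linarith)
        _ = 7 / 200 * t := by ring
    linarith
  · intro p hp
    obtain ⟨⟨h1, h2⟩, h3⟩ := (hQm p).1 hp
    exact ⟨h3, h1⟩
  · intro p hp
    exact ((hQ2m p).1 hp).2
  · rw [disjoint_left]
    intro p hp hp2
    have h1 := ((hQm p).1 hp).1.2
    have h2 := ((hQ2m p).1 hp2).1.1
    omega
  · intro p hp h1 h2
    rw [mem_union, hQm, hQ2m]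
    rcases le_or_gt p Y with h | h
    · exact Or.inl ⟨⟨h1, h⟩, hp⟩
    · exact Or.inr ⟨⟨h, h2⟩, hp⟩
  · intro D hD hcard
    have h1 : (∏ p ∈ D, p) ≤ Y ^ (2 * ⌈20 * t⌉₊) := by
      calc (∏ p ∈ D, p) ≤ ∏ _p ∈ D, Y := Finset.prod_le_prod' fun p hp => ((hQm p).1 (hD hp)).1.2
        _ = Y ^ D.card := by rw [prod_const]
        _ ≤ Y ^ (2 * ⌈20 * t⌉₊) := Nat.pow_le_pow_right hY1 hcard
    have h2 : (∏ p ∈ D, p) ^ 2 ≤ Y ^ (4 * ⌈20 * t⌉₊) := by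
      calc (∏ p ∈ D, p) ^ 2 ≤ (Y ^ (2 * ⌈20 * t⌉₊)) ^ 2 := Nat.pow_le_pow_left h1 2
        _ = Y ^ (4 * ⌈20 * t⌉₊) := by
          rw [← pow_mul]
          congr 1
          ring
    refine h2.trans (Nat.le_floor ?_)
    push_cast
    calc (Y : ℝ) ^ (4 * ⌈20 * t⌉₊) ≤ y ^ (4 * ⌈20 * t⌉₊) := pow_le_pow_left₀ (Nat.cast_nonneg _) hYy _
      _ = Real.exp ((4 * ⌈20 * t⌉₊ : ℕ) * w) := by rw [hy, Real.exp_nat_mul]
      _ ≤ Real.exp (L / 20) := by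
        apply Real.exp_le_exp.2
        push_cast
        have h3 : 4 * (⌈20 * t⌉₊ : ℝ) * w ≤ 4 * (20 * t + 1) * w :=
          mul_le_mul_of_nonneg_right (by linarith) (by linarith)
        linarith
      _ = (N : ℝ) ^ (1 / 20 : ℝ) := by
        rw [Real.rpow_def_of_pos hNpos, ← hL]
        congr 1
        ring
  · intro p hp p' hp'
    have h1 := ((hQm p).1 hp).1.2
    have h2 := ((hQm p').1 hp').1.2
    have h3 : (p * p' : ℕ) ≤ Y * Y := Nat.mul_le_mul h1 h2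
    have h4 : ((Y * Y : ℕ) : ℝ) ≤ N := by
      push_cast
      have : (Y : ℝ) * Y ≤ y * y := mul_le_mul hYy hYy (Nat.cast_nonneg _) hy0.le
      nlinarith
    have h5 : Y * Y ≤ N := by exact_mod_cast h4
    omega
  · calc ((⌊(N : ℝ) ^ (1 / 20 : ℝ)⌋₊ : ℕ) : ℝ) ^ 8 ≤ ((N : ℝ) ^ (1 / 20 : ℝ)) ^ 8 :=
          pow_le_pow_left₀ (Nat.cast_nonneg _) hq0 _
      _ = (N : ℝ) ^ (2 / 5 : ℝ) := by
        rw [← Real.rpow_natCast, ← Real.rpow_mul hNpos.le]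
        norm_num
  · exact Nat.le_ceil _
  · rw [← hSd]
    linarith
  · rw [← hSd]
    exact hS_lo
  · rw [← hSd]
    exact hS_hi
  · exact hS2_hi
  · rw [← hSd]
    exact Nat.le_ceil _
  · rw [← hSd]
    have := Nat.ceil_lt_add_one (show 0 ≤ 11 / 10 * S by linarith)
    linarith

end FGO
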