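import Pool.Agent.Lib.MP_1ad228_ntG.Defs

/-! JOB Eu: the sums over the divisors. -/

set_option autoImplicit false

open Classical

namespace FGO

open Finset

private theorem Eu_mem {N P0 d : ℕ} (hd : d ∈ DD N P0) :
    d ≠ 0 ∧ d ≤ 3 * N ^ 2 ∧ Squarefree d ∧ ∀ p : ℕ, p.Prime → p ∣ d → P0 < p := by
  unfold DD at hd
  rw [Finset.mem_filter, Finset.mem_Icc] at hd
  exact ⟨by omega, hd.1.2, hd.2.1, hd.2.2⟩

private theorem Eu_sub {N P0 : ℕ} {Q Q2 : Finset ℕ}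
    (hcov : ∀ p : ℕ, p.Prime → P0 < p → p ≤ 3 * N ^ 2 → p ∈ Q ∪ Q2) {d : ℕ} (hd : d ∈ DD N P0) :
    d.primeFactors ⊆ Q ∪ Q2 := by
  obtain ⟨h0, h1, -, h3⟩ := Eu_mem hd
  intro p hp
  have hpp := Nat.prime_of_mem_primeFactors hp
  have hpd := Nat.dvd_of_mem_primeFactors hp
  exact hcov p hpp (h3 p hpp hpd) ((Nat.le_of_dvd (Nat.pos_of_ne_zero h0) hpd).trans h1)

private theorem Eu_key {N P0 : ℕ} {Q Q2 : Finset ℕ}
    (hcov : ∀ p : ℕ, p.Prime → P0 < p → p ≤ 3 * N ^ 2 → p ∈ Q ∪ Q2) (a b : ℕ → ℝ)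
    (ha : ∀ p ∈ Q ∪ Q2, 0 ≤ a p) (hb : ∀ p ∈ Q ∪ Q2, 0 ≤ b p) :
    ∑ d ∈ DD N P0, (∏ p ∈ d.primeFactors, a p) * ∏ p ∈ (Q ∪ Q2) \ d.primeFactors, b p ≤
      ∏ p ∈ Q ∪ Q2, (a p + b p) := by
  rw [Finset.prod_add]
  have hinj : Set.InjOn Nat.primeFactors (DD N P0 : Set ℕ) := by
    intro d hd d' hd' h
    have e1 := Nat.prod_primeFactors_of_squarefree (Eu_mem (Finset.mem_coe.1 hd)).2.2.1
    have e2 := Nat.prod_primeFactors_of_squarefree (Eu_mem (Finset.mem_coe.1 hd')).2.2.1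
    rw [← e1, ← e2, h]
  have himg := Finset.sum_image (f := fun D : Finset ℕ => (∏ p ∈ D, a p) * ∏ p ∈ (Q ∪ Q2) \ D, b p) hinj
  rw [← himg]
  refine Finset.sum_le_sum_of_subset_of_nonneg ?_ ?_
  · intro D hD
    obtain ⟨d, hd, rfl⟩ := Finset.mem_image.1 hD
    exact Finset.mem_powerset.2 (Eu_sub hcov hd)
  · intro D hD _
    have hDU := Finset.mem_powerset.1 hD
    exact mul_nonneg (Finset.prod_nonneg fun p hp => ha p (hDU hp))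
      (Finset.prod_nonneg fun p hp => hb p (Finset.mem_sdiff.1 hp).1)

private noncomputable def Eu_a (Q : Finset ℕ) (p : ℕ) : ℝ := 1 / (p : ℝ) * (if p ∈ Q then 1 / 2 else 1)

private theorem Eu_a_nonneg (Q : Finset ℕ) (p : ℕ) : 0 ≤ Eu_a Q p := by
  unfold Eu_a
  split_ifs <;> positivity

private theorem Eu_a_le (Q : Finset ℕ) (p : ℕ) : Eu_a Q p ≤ 1 / (p : ℝ) := by
  unfold Eu_a
  have : (0 : ℝ) ≤ 1 / (p : ℝ) := by positivity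
  split_ifs <;> linarith

private theorem Eu_prod_a {N P0 : ℕ} {Q : Finset ℕ} (hQ : ∀ p ∈ Q, p.Prime ∧ 5 ≤ p) {d : ℕ} (hd : d ∈ DD N P0) :
    ∏ p ∈ d.primeFactors, Eu_a Q p = 1 / (d : ℝ) * (1 / 2) ^ (omd Q d) := by
  obtain ⟨h0, -, h2, -⟩ := Eu_mem hd
  unfold Eu_a
  rw [Finset.prod_mul_distrib]
  have e1 : ∏ p ∈ d.primeFactors, 1 / (p : ℝ) = 1 / (d : ℝ) := by
    have h := congrArg (Nat.cast : ℕ → ℝ) (Nat.prod_primeFactors_of_squarefree h2)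
    rw [Nat.cast_prod] at h
    rw [Finset.prod_div_distrib, Finset.prod_const_one, h]
  have e2 : ∏ p ∈ d.primeFactors, (if p ∈ Q then (1 / 2 : ℝ) else 1) = (1 / 2) ^ (omd Q d) := by
    rw [← Finset.prod_filter, Finset.prod_const]
    congr 1
    unfold omd
    congr 1
    ext p
    simp only [Finset.mem_filter, Nat.mem_primeFactors]
    constructor
    · rintro ⟨⟨_, h, _⟩, h'⟩
      exact ⟨h', h⟩
    · rintro ⟨h, h'⟩
      exact ⟨⟨(hQ p h).1, h', h0⟩, h⟩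
  rw [e1, e2]

private theorem Eu_sum_sq (Q : Finset ℕ) (hQ : ∀ p ∈ Q, p.Prime ∧ 5 ≤ p) : ∑ p ∈ Q, 4 / (p : ℝ) ^ 2 ≤ 1 := by
  have hsub : Q ⊆ Finset.Ioc 4 (Q.sup id + 4) := by
    intro p hp
    rw [Finset.mem_Ioc]
    have h1 := (hQ p hp).2
    have h2 : p ≤ Q.sup id := Finset.le_sup (f := id) hp
    omega
  calc ∑ p ∈ Q, 4 / (p : ℝ) ^ 2 ≤ ∑ p ∈ Finset.Ioc 4 (Q.sup id + 4), 4 / (p : ℝ) ^ 2 :=
        Finset.sum_le_sum_of_subset_of_nonneg hsub fun _ _ _ => by positivity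
    _ = 4 * ∑ p ∈ Finset.Ioc 4 (Q.sup id + 4), ((p : ℝ) ^ 2)⁻¹ := by
        rw [Finset.mul_sum]
        exact Finset.sum_congr rfl fun p _ => div_eq_mul_inv _ _
    _ ≤ 4 * (((4 : ℕ) : ℝ)⁻¹ - ((Q.sup id + 4 : ℕ) : ℝ)⁻¹) :=
        mul_le_mul_of_nonneg_left (sum_Ioc_inv_sq_le_sub (by norm_num) (by omega)) (by norm_num)
    _ ≤ 1 := by
        have : (0 : ℝ) ≤ ((Q.sup id + 4 : ℕ) : ℝ)⁻¹ := by positivity
        have e : ((4 : ℕ) : ℝ)⁻¹ = 1 / 4 := by norm_num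
        rw [e]
        linarith

private theorem Eu_dn_le {p : ℕ} (hp : 5 ≤ p) : 0 ≤ 1 - dn p := by
  unfold dn
  have h5 : (5 : ℝ) ≤ (p : ℝ) := by exact_mod_cast hp
  have hp0 : (0 : ℝ) < p := by linarith
  have h1 : 3 / (2 * (p : ℝ)) ≤ 1 := by
    rw [div_le_one (by positivity)]
    linarith
  have h2 : (0 : ℝ) ≤ 4 / (p : ℝ) ^ 2 := by positivity
  linarith

/-- (Eu1) Proof. Every `d ∈ DD N P0` is the product of the set `D = d.primeFactors ⊆ Q ∪ Q2` (squarefree, prime factors `p` with `P0 < p ≤ d ≤ 3N²`), `d ↦ D` is injective, so the sum is at most the sum over all subsets `D` of `Q ∪ Q2` (all terms are `≥ 0`), i.e.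
(disjoint union, `Finset.prod_add`/`Finset.prod_one_add`) `∏_{p ∈ Q} (1/(2p) + 1 - dn p) · ∏_{p ∈ Q2} (1 + 1/p)`: a subset `D` gives `∏_{D ∩ Q} 1/(2p) · ∏_{D ∩ Q2} 1/p · ∏_{Q ∖ D} (1 - dn p)`. For `p ∈ Q` (`p ≥ 5`):
`1/(2p) + 1 - dn p = 1 - 1/p + 4/p² ≤ exp(-1/p + 4/p²)`, `∑ 4/p² ≤ 4 · (1/4) = 1`-type bound (`∑_{p ≥ 5} 1/p² ≤ 1/4`, distinct integers), `1 + 1/p ≤ exp(1/p)`. So the sum is `≤ e · exp(-S + S2)`, `S = ∑_Q 1/p`, `S2 = ∑_{Q2} 1/p`. (`0 ≤ 1 - dn p`.) -/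
theorem sum_main (N P0 : ℕ) (Q Q2 : Finset ℕ) (hQ : ∀ p ∈ Q, p.Prime ∧ 5 ≤ p) (hQ2 : ∀ p ∈ Q2, p.Prime)
    (hdisj : Disjoint Q Q2) (hcov : ∀ p : ℕ, p.Prime → P0 < p → p ≤ 3 * N ^ 2 → p ∈ Q ∪ Q2) :
    ∑ d ∈ DD N P0, 1 / (d : ℝ) * (1 / 2) ^ (omd Q d) * ∏ p ∈ Q.filter (fun p => ¬ p ∣ d), (1 - dn p) ≤
      Real.exp 1 * Real.exp (-(∑ p ∈ Q, 1 / (p : ℝ)) + ∑ p ∈ Q2, 1 / (p : ℝ)) := by
  have hkey := Eu_key hcov (Eu_a Q) (fun p => if p ∈ Q then 1 - dn p else 1)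
    (fun p _ => Eu_a_nonneg Q p) (fun p _ => by
      show (0 : ℝ) ≤ if p ∈ Q then 1 - dn p else 1
      split_ifs with h
      · exact Eu_dn_le (hQ p h).2
      · exact zero_le_one)
  have heq : ∀ d ∈ DD N P0,
      1 / (d : ℝ) * (1 / 2) ^ (omd Q d) * ∏ p ∈ Q.filter (fun p => ¬ p ∣ d), (1 - dn p) =
      (∏ p ∈ d.primeFactors, Eu_a Q p) * ∏ p ∈ (Q ∪ Q2) \ d.primeFactors, (if p ∈ Q then 1 - dn p else 1) := by
    intro d hd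
    rw [Eu_prod_a hQ hd, ← Finset.prod_filter]
    congr 1
    refine Finset.prod_congr ?_ fun _ _ => rfl
    ext p
    simp only [Finset.mem_filter, Finset.mem_sdiff, Finset.mem_union, Nat.mem_primeFactors]
    constructor
    · rintro ⟨h, h'⟩
      exact ⟨⟨Or.inl h, fun h2 => h' h2.2.1⟩, h⟩
    · rintro ⟨⟨_, h'⟩, h⟩
      exact ⟨h, fun h2 => h' ⟨(hQ p h).1, h2, (Eu_mem hd).1⟩⟩
  rw [Finset.sum_congr rfl heq]
  refine hkey.trans ?_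
  rw [Finset.prod_union hdisj]
  have hQprod : ∏ p ∈ Q, (Eu_a Q p + if p ∈ Q then 1 - dn p else 1) ≤
      Real.exp (∑ p ∈ Q, (-(1 / (p : ℝ)) + 4 / (p : ℝ) ^ 2)) := by
    rw [Real.exp_sum]
    refine Finset.prod_le_prod (fun p hp => ?_) fun p hp => ?_
    · rw [if_pos hp]
      exact add_nonneg (Eu_a_nonneg Q p) (Eu_dn_le (hQ p hp).2)
    · rw [if_pos hp]
      have h5 : (5 : ℝ) ≤ (p : ℝ) := by exact_mod_cast (hQ p hp).2
      have hp0 : (p : ℝ) ≠ 0 := by linarith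
      have e : Eu_a Q p + (1 - dn p) = (-(1 / (p : ℝ)) + 4 / (p : ℝ) ^ 2) + 1 := by
        unfold Eu_a dn
        rw [if_pos hp]
        field_simp
        ring
      rw [e]
      exact Real.add_one_le_exp _
  have hQ2prod : ∏ p ∈ Q2, (Eu_a Q p + if p ∈ Q then 1 - dn p else 1) ≤
      Real.exp (∑ p ∈ Q2, 1 / (p : ℝ)) := by
    rw [Real.exp_sum]
    have hnot : ∀ p ∈ Q2, p ∉ Q := fun p hp h => Finset.disjoint_left.1 hdisj h hp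
    refine Finset.prod_le_prod (fun p hp => ?_) fun p hp => ?_
    · rw [if_neg (hnot p hp)]
      exact add_nonneg (Eu_a_nonneg Q p) zero_le_one
    · rw [if_neg (hnot p hp)]
      have h1 := Eu_a_le Q p
      have h2 := Real.add_one_le_exp (1 / (p : ℝ))
      linarith
  calc (∏ p ∈ Q, (Eu_a Q p + if p ∈ Q then 1 - dn p else 1)) *
        ∏ p ∈ Q2, (Eu_a Q p + if p ∈ Q then 1 - dn p else 1)
      ≤ Real.exp (∑ p ∈ Q, (-(1 / (p : ℝ)) + 4 / (p : ℝ) ^ 2)) * Real.exp (∑ p ∈ Q2, 1 / (p : ℝ)) := by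
        refine mul_le_mul hQprod hQ2prod ?_ (Real.exp_pos _).le
        refine Finset.prod_nonneg fun p hp => ?_
        refine add_nonneg (Eu_a_nonneg Q p) ?_
        split_ifs with h
        · exact Eu_dn_le (hQ p h).2
        · exact zero_le_one
    _ ≤ Real.exp 1 * Real.exp (-(∑ p ∈ Q, 1 / (p : ℝ)) + ∑ p ∈ Q2, 1 / (p : ℝ)) := by
        rw [← Real.exp_add, ← Real.exp_add]
        apply Real.exp_le_exp.2
        rw [Finset.sum_add_distrib, Finset.sum_neg_distrib]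
        have := Eu_sum_sq Q hQ
        linarith

/-- (Eu2) Proof. The same without the product: `(1/2)^{..} ≤ 1`, `∑_D ∏_{p ∈ D} 1/p = ∏_{Q ∪ Q2} (1 + 1/p) ≤ exp(S + S2)`. -/
theorem sum_triv (N P0 : ℕ) (Q Q2 : Finset ℕ) (hQ : ∀ p ∈ Q, p.Prime ∧ 5 ≤ p) (hQ2 : ∀ p ∈ Q2, p.Prime)
    (hdisj : Disjoint Q Q2) (hcov : ∀ p : ℕ, p.Prime → P0 < p → p ≤ 3 * N ^ 2 → p ∈ Q ∪ Q2) :
    ∑ d ∈ DD N P0, 1 / (d : ℝ) * (1 / 2) ^ (omd Q d) ≤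
      Real.exp (∑ p ∈ Q, 1 / (p : ℝ) + ∑ p ∈ Q2, 1 / (p : ℝ)) := by
  have hkey := Eu_key hcov (Eu_a Q) (fun _ => 1) (fun p _ => Eu_a_nonneg Q p) (fun _ _ => zero_le_one)
  have heq : ∀ d ∈ DD N P0, 1 / (d : ℝ) * (1 / 2) ^ (omd Q d) =
      (∏ p ∈ d.primeFactors, Eu_a Q p) * ∏ p ∈ (Q ∪ Q2) \ d.primeFactors, (1 : ℝ) := by
    intro d hd
    rw [Eu_prod_a hQ hd, Finset.prod_const_one, mul_one]
  rw [Finset.sum_congr rfl heq]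
  refine hkey.trans ?_
  rw [← Finset.sum_union hdisj, Real.exp_sum]
  refine Finset.prod_le_prod (fun p _ => add_nonneg (Eu_a_nonneg Q p) zero_le_one) fun p _ => ?_
  have h1 := Eu_a_le Q p
  have h2 := Real.add_one_le_exp (1 / (p : ℝ))
  linarith

end FGO
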