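import Pool.Agent.Lib.MP_1ad228_ntG.TK

/-! JOB TK2. -/

set_option autoImplicit false

open Classical

namespace FGO

open Finset

private theorem TK2_sum_sq (Q : Finset ℕ) (hQ : ∀ p ∈ Q, p.Prime) : ∑ p ∈ Q, 1 / (p : ℝ) ^ 2 ≤ 1 := by
  have hsub : Q ⊆ Finset.Ioc 1 (Q.sup id + 1) := by
    intro p hp
    rw [Finset.mem_Ioc]
    have h1 := (hQ p hp).one_lt
    have h2 : p ≤ Q.sup id := Finset.le_sup (f := id) hp
    omega
  calc ∑ p ∈ Q, 1 / (p : ℝ) ^ 2 ≤ ∑ p ∈ Finset.Ioc 1 (Q.sup id + 1), 1 / (p : ℝ) ^ 2 :=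
        Finset.sum_le_sum_of_subset_of_nonneg hsub fun _ _ _ => by positivity
    _ = ∑ p ∈ Finset.Ioc 1 (Q.sup id + 1), ((p : ℝ) ^ 2)⁻¹ := by simp only [one_div]
    _ ≤ ((1 : ℕ) : ℝ)⁻¹ - ((Q.sup id + 1 : ℕ) : ℝ)⁻¹ := sum_Ioc_inv_sq_le_sub one_ne_zero (by omega)
    _ ≤ 1 := by
        have : (0 : ℝ) ≤ ((Q.sup id + 1 : ℕ) : ℝ)⁻¹ := by positivity
        simp only [Nat.cast_one, inv_one]
        linarith

/-- (TK3) Proof. `S = ∑ 1/p ≥ 20`. `om Q u = ∑_{p ∈ Q} ip p u`; `μ = ∑ Ex p (ip p) ≤ S + ∑_{p ∈ Q} 1/p² ≤ S + 1` (`Ex_ip`; `∑ over distinct p ≥ 3 of 1/p² ≤ 1`), `μ ≤ 2S`. If `om Q u > m ≥ 11/10 S` then `om Q u ≥ m + 1`, so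
`om Q u - μ ≥ 11/10 S + 1 - S - 1 = S/10`. Chebyshev: `(S/10)² card ≤ (8N)^6 · 2S`. -/
theorem om_card (N : ℕ) (hN : 0 < N) (Q : Finset ℕ) (hQ : ∀ p ∈ Q, p.Prime ∧ p ≠ 2)
    (hQ2 : ∀ p ∈ Q, ∀ p' ∈ Q, p * p' ≤ 4 * N) (m : ℕ) (hS : 20 ≤ ∑ p ∈ Q, 1 / (p : ℝ))
    (hm : 11 / 10 * ∑ p ∈ Q, 1 / (p : ℝ) ≤ m) :
    (((box2 N).filter fun u => m < om Q u).card : ℝ) ≤ 200 * (8 * (N : ℝ)) ^ 6 / ∑ p ∈ Q, 1 / (p : ℝ) := by
  set S : ℝ := ∑ p ∈ Q, 1 / (p : ℝ) with hSdef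
  have hμ : ∑ p ∈ Q, Ex p (ip p) ≤ S + 1 := by
    calc ∑ p ∈ Q, Ex p (ip p) ≤ ∑ p ∈ Q, (1 / (p : ℝ) + 1 / (p : ℝ) ^ 2) := by
          refine Finset.sum_le_sum fun p hp => ?_
          rw [Ex_ip p (hQ p hp).1 (hQ p hp).2]
          have : (0 : ℝ) ≤ 1 / (p : ℝ) ^ 3 := by positivity
          linarith
      _ = S + ∑ p ∈ Q, 1 / (p : ℝ) ^ 2 := by rw [Finset.sum_add_distrib]
      _ ≤ S + 1 := by
          have := TK2_sum_sq Q fun p hp => (hQ p hp).1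
          linarith
  have hvar := variance N hN Q hQ hQ2
  have hom : ∀ u : V × V, (om Q u : ℝ) = ∑ p ∈ Q, ip p u := by
    intro u
    have himg : (do let a ← Q; pure (a : ℤ) : Finset ℤ) = Q.image fun a : ℕ => (a : ℤ) := by
      ext x
      simp [Finset.bind_def, Finset.pure_def]
    unfold om ip
    rw [himg, Finset.card_filter, Finset.sum_image fun a _ b _ h => by exact_mod_cast h]
    push_cast
    rfl
  have hSpos : 0 < S := by linarith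
  have h8 : (0 : ℝ) ≤ (8 * (N : ℝ)) ^ 6 := by positivity
  have hcheb : (((box2 N).filter fun u => m < om Q u).card : ℝ) * (S / 10) ^ 2 ≤
      (8 * (N : ℝ)) ^ 6 * (2 * S) := by
    calc (((box2 N).filter fun u => m < om Q u).card : ℝ) * (S / 10) ^ 2
        = ∑ _u ∈ (box2 N).filter (fun u => m < om Q u), (S / 10) ^ 2 := by
          rw [Finset.sum_const, nsmul_eq_mul]
      _ ≤ ∑ u ∈ (box2 N).filter (fun u => m < om Q u), (∑ p ∈ Q, (ip p u - Ex p (ip p))) ^ 2 := by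
          refine Finset.sum_le_sum fun u hu => ?_
          have h1 : m + 1 ≤ om Q u := (Finset.mem_filter.1 hu).2
          have h2 : ((m : ℝ) + 1) ≤ (om Q u : ℝ) := by exact_mod_cast h1
          rw [hom u] at h2
          have h3 : ∑ p ∈ Q, (ip p u - Ex p (ip p)) = ∑ p ∈ Q, ip p u - ∑ p ∈ Q, Ex p (ip p) := by
            rw [Finset.sum_sub_distrib]
          rw [h3]
          apply pow_le_pow_left₀ (by positivity)
          linarith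
      _ ≤ ∑ u ∈ box2 N, (∑ p ∈ Q, (ip p u - Ex p (ip p))) ^ 2 :=
          Finset.sum_le_sum_of_subset_of_nonneg (Finset.filter_subset _ _) fun _ _ _ => sq_nonneg _
      _ ≤ (8 * (N : ℝ)) ^ 6 * ∑ p ∈ Q, Ex p (ip p) := hvar
      _ ≤ (8 * (N : ℝ)) ^ 6 * (2 * S) := mul_le_mul_of_nonneg_left (by linarith) h8
  rw [le_div_iff₀ hSpos]
  have h5 : (((box2 N).filter fun u => m < om Q u).card : ℝ) * S * S ≤ 200 * (8 * (N : ℝ)) ^ 6 * S := by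
    nlinarith [hcheb]
  exact le_of_mul_le_mul_right h5 hSpos

end FGO
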