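import Pool.Agent.Lib.MP_1ad228_ntG.UB2
import Pool.Agent.Lib.MP_1ad228_ntG.Eu
import Pool.Agent.Lib.MP_1ad228_ntG.E2c
import Pool.Agent.Lib.MP_1ad228_ntG.E3e
import Pool.Agent.Lib.MP_1ad228_ntG.TK2
import Pool.Agent.Lib.MP_1ad228_ntG.An1
import Pool.Agent.Lib.MP_1ad228_ntG.An0

/-! JOB An2: the number of the bad pairs. -/

set_option autoImplicit false
set_option linter.unusedSectionVars false

open Classical

namespace FGO

open Finset

private theorem An2_main {L S S2 T1 T2 tl PP MM N6 : ℝ} (hL : 0 < L) (h1 : 89 / 100 * L ≤ S)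
    (h2 : S ≤ L) (h3 : S2 ≤ 11 / 100 * L) (hT1 : T1 ≤ Real.exp 1 * Real.exp (-S + S2))
    (hT2 : T2 ≤ Real.exp (S + S2)) (htl0 : 0 ≤ tl) (htl : tl ≤ Real.exp (-(10 * L)))
    (hPP0 : 0 ≤ PP) (hPP : PP ≤ 16 * Real.exp (7 / 200 * L)) (hMM0 : 0 ≤ MM)
    (hMM : MM ≤ 2 * Real.exp (7626 / 10000 * S)) (hN6 : 0 ≤ N6) :
    2 * PP * N6 * MM * (T1 + T2 * tl) ≤ 3136 * N6 / L := by
  have e1 : T1 + T2 * tl ≤ Real.exp 1 * Real.exp (-S + S2) +
      Real.exp (S + S2) * Real.exp (-(10 * L)) :=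
    add_le_add hT1 (mul_le_mul hT2 htl htl0 (Real.exp_pos _).le)
  have hU : 0 ≤ Real.exp 1 * Real.exp (-S + S2) + Real.exp (S + S2) * Real.exp (-(10 * L)) := by
    positivity
  have e2 : 2 * PP * N6 * MM ≤
      2 * (16 * Real.exp (7 / 200 * L)) * N6 * (2 * Real.exp (7626 / 10000 * S)) := by
    gcongr
  have e3 : 2 * PP * N6 * MM * (T1 + T2 * tl) ≤
      2 * (16 * Real.exp (7 / 200 * L)) * N6 * (2 * Real.exp (7626 / 10000 * S)) *
        (Real.exp 1 * Real.exp (-S + S2) + Real.exp (S + S2) * Real.exp (-(10 * L))) :=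
    (mul_le_mul_of_nonneg_left e1 (by positivity)).trans (mul_le_mul_of_nonneg_right e2 hU)
  have e4 : 2 * (16 * Real.exp (7 / 200 * L)) * N6 * (2 * Real.exp (7626 / 10000 * S)) *
        (Real.exp 1 * Real.exp (-S + S2) + Real.exp (S + S2) * Real.exp (-(10 * L))) =
      64 * N6 * (Real.exp 1 * Real.exp (7 / 200 * L + 7626 / 10000 * S + (-S + S2)) +
        Real.exp (7 / 200 * L + 7626 / 10000 * S + (S + S2) + -(10 * L))) := by
    simp only [Real.exp_add]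
    ring
  have inv : ∀ c : ℝ, 0 < c → Real.exp (-(c * L)) ≤ 1 / (c * L) := by
    intro c hc
    have hcL : 0 < c * L := mul_pos hc hL
    rw [Real.exp_neg, ← one_div]
    exact one_div_le_one_div_of_le hcL (by linarith [Real.add_one_le_exp (c * L)])
  have e5 : Real.exp (7 / 200 * L + 7626 / 10000 * S + (-S + S2)) ≤ 16 / L := by
    refine (Real.exp_le_exp.2 ?_).trans ((inv (66 / 1000) (by norm_num)).trans ?_)
    · nlinarith
    · rw [div_le_div_iff₀ (by positivity) hL]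
      nlinarith
  have e6 : Real.exp (7 / 200 * L + 7626 / 10000 * S + (S + S2) + -(10 * L)) ≤ 1 / L := by
    refine (Real.exp_le_exp.2 ?_).trans ((inv 1 one_pos).trans ?_)
    · nlinarith
    · rw [one_mul]
  have e7 : Real.exp 1 ≤ 3 := by linarith [Real.exp_one_lt_d9]
  have e8 : Real.exp 1 * Real.exp (7 / 200 * L + 7626 / 10000 * S + (-S + S2)) ≤ 3 * (16 / L) :=
    mul_le_mul e7 e5 (Real.exp_pos _).le (by norm_num)
  refine e3.trans ?_
  rw [e4]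
  have e9 : 64 * N6 * (Real.exp 1 * Real.exp (7 / 200 * L + 7626 / 10000 * S + (-S + S2)) +
        Real.exp (7 / 200 * L + 7626 / 10000 * S + (S + S2) + -(10 * L))) ≤
      64 * N6 * (3 * (16 / L) + 1 / L) :=
    mul_le_mul_of_nonneg_left (add_le_add e8 e6) (by positivity)
  refine e9.trans (le_of_eq ?_)
  field_simp
  ring

private theorem An2_box (N : ℕ) : ((box2 N).card : ℝ) = (2 * (N : ℝ) + 1) ^ 6 := by
  have h1 : (Icc (-(N : ℤ)) (N : ℤ)).card = 2 * N + 1 := by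
    rw [Int.card_Icc]
    omega
  have h2 : (box2 N).card = (2 * N + 1) ^ 6 := by
    unfold box2 box
    simp only [card_product, h1]
    ring
  rw [h2]
  push_cast
  ring

private theorem An2_small (N : ℕ) (hN : 16 ≤ N) :
    (((box2 N).filter Bad).card : ℝ) ≤ 729 * (N : ℝ) ^ 6 := by
  have h1 : (((box2 N).filter Bad).card : ℝ) ≤ ((box2 N).card : ℝ) := by
    exact_mod_cast card_filter_le _ _
  have h2 : (16 : ℝ) ≤ N := by exact_mod_cast hN
  refine h1.trans ?_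
  rw [An2_box]
  calc (2 * (N : ℝ) + 1) ^ 6 ≤ (3 * (N : ℝ)) ^ 6 :=
        pow_le_pow_left₀ (by positivity) (by linarith) 6
    _ = 729 * (N : ℝ) ^ 6 := by ring

private theorem An2_log {N : ℕ} (hN : 16 ≤ N) : 1 < Real.log N ∧ 0 < Real.log (Real.log N) := by
  have h2 : (16 : ℝ) ≤ N := by exact_mod_cast hN
  have h3 : Real.log 16 ≤ Real.log N := Real.log_le_log (by norm_num) h2
  have h4 : Real.log 16 = 4 * Real.log 2 := by
    rw [show (16 : ℝ) = 2 ^ 4 by norm_num, Real.log_pow]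
    norm_num
  have h5 := Real.log_two_gt_d9
  have h6 : 1 < Real.log N := by
    rw [h4] at h3
    linarith
  exact ⟨h6, Real.log_pos h6⟩

private theorem An2_two {S : ℝ} (hS : 0 ≤ S) {m : ℕ} (hm : (m : ℝ) ≤ 11 / 10 * S + 1) :
    (2 : ℝ) ^ m ≤ 2 * Real.exp (7626 / 10000 * S) := by
  have h1 : (2 : ℝ) ^ m = Real.exp (Real.log 2 * m) := by
    rw [← Real.rpow_natCast, Real.rpow_def_of_pos (by norm_num)]
  have h2 : 2 * Real.exp (7626 / 10000 * S) =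
      Real.exp (Real.log 2 + 7626 / 10000 * S) := by
    rw [Real.exp_add, Real.exp_log (by norm_num)]
  rw [h1, h2]
  refine Real.exp_le_exp.2 ?_
  have h3 := Real.log_two_gt_d9
  have h4 := Real.log_two_lt_d9
  have h5 : Real.log 2 * m ≤ Real.log 2 * (11 / 10 * S + 1) :=
    mul_le_mul_of_nonneg_left hm (by linarith)
  nlinarith

/-- (An2) Proof. `LL = log log N > 0` for `N ≥ 16`. For `N ≥ N0` take the parameters of `params` and put everything into `union_bound`: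
`exc2_card`: `≤ C (N^6/P0 + N^5) ≤ C' N^6/LL`; `exc3_card`: `≤ C N^(2/5) N^(11/2) = C N^(59/10) ≤ C' N^6/LL` (`LL ≤ log N ≤ 10 N^(1/10)`); `om_card`: `≤ 200 · 8^6 N^6/S ≤ C N^6/LL`. Main term: `2 · 2^P0 (8N)^6 2^m · (T1 + T2)` with (`Eu.lean`)
`T1 ≤ e · exp(-S + S2)`, `T2 ≤ exp(S + S2) · tail`, `tail ≤ exp(-10 LL)` (`tail_le` with `B = ∑ 2/p = 2S ≤ 2 LL`). `2^m ≤ 2 exp(11/10 S log 2) ≤ 2 exp(0.7626 S)` (`Real.log_two_lt_d9`). So the main term is
`≤ C N^6 [exp(0.035 LL + 0.7626 S - S + S2) + exp(0.035 LL + 1.7626 S + S2 - 10 LL)] ≤ C N^6 [exp(-0.066 LL) + exp(-8 LL)]` by `S ≥ 0.89 LL`, `S ≤ LL`, `S2 ≤ 0.11 LL`, and `exp(-0.066 LL) ≤ 20/LL`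
(`x exp(-x) ≤ 1`). For `16 ≤ N < N0`: the number is `≤ (2N+1)^6 ≤ 729 N^6 ≤ C N^6/LL` with `C = 729 log log N0`. -/
theorem bad_card : ∃ C : ℝ, 0 < C ∧ ∀ N : ℕ, 16 ≤ N →
    (((box2 N).filter Bad).card : ℝ) ≤ C * (N : ℝ) ^ 6 / Real.log (Real.log N) := by
  obtain ⟨C2, hC2, H2⟩ := exc2_card
  obtain ⟨C3, hC3, H3⟩ := exc3_card
  obtain ⟨N0, hN0, HP⟩ := params
  have hLL0 := (An2_log hN0).2
  have hpos : 0 < 729 * Real.log (Real.log N0) + (21 * C2 + 10 * C3 + 200 * 8 ^ 6 * 100 / 89 +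
      3136 * 8 ^ 6) := by positivity
  refine ⟨_, hpos, ?_⟩
  intro N hN
  obtain ⟨hlog, hLL⟩ := An2_log hN
  have hNR : (16 : ℝ) ≤ N := by exact_mod_cast hN
  have hN6 : (0 : ℝ) < (N : ℝ) ^ 6 := by positivity
  rcases lt_or_ge N N0 with hlt | hge
  · have h1 : Real.log (Real.log N) ≤ Real.log (Real.log N0) := by
      refine Real.log_le_log (by linarith) (Real.log_le_log (by linarith) ?_)
      exact_mod_cast hlt.le
    refine (An2_small N hN).trans ?_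
    rw [le_div_iff₀ hLL]
    have h2 : 729 * (N : ℝ) ^ 6 * Real.log (Real.log N) ≤
        729 * Real.log (Real.log N0) * (N : ℝ) ^ 6 := by
      nlinarith
    refine h2.trans ?_
    have h3 : 0 ≤ (21 * C2 + 10 * C3 + 200 * 8 ^ 6 * 100 / 89 + 3136 * 8 ^ 6) * (N : ℝ) ^ 6 := by
      positivity
    linarith
  · obtain ⟨P0, q0, m, k, Q, Q2, p1, p2, p3, p4, p5, p6, p7, p8, p9, p10, p11, p12, p13, p14, p15,
      p16, p17⟩ := HP N hge
    obtain ⟨LL, hLLd⟩ : ∃ LL, LL = Real.log (Real.log N) := ⟨_, rfl⟩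
    obtain ⟨S, hS⟩ : ∃ S, S = ∑ p ∈ Q, 1 / (p : ℝ) := ⟨_, rfl⟩
    obtain ⟨S2, hS2⟩ : ∃ S2, S2 = ∑ p ∈ Q2, 1 / (p : ℝ) := ⟨_, rfl⟩
    have hN1 : 0 < N := by omega
    have hq0 : 0 < q0 := by
      have := p8 ∅ (empty_subset _) (by simp)
      rw [prod_empty] at this
      omega
    have hU := union_bound N P0 q0 m k hN1 p1 Q p4 p8
    have hE2 := H2 N P0 hN1 (by omega)
    have hE3 := H3 N q0 hN1 hq0
    have hQ5 : ∀ p ∈ Q, p.Prime ∧ 5 ≤ p := fun p hp => ⟨(p4 p hp).1, by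
      have := (p4 p hp).2
      omega⟩
    have hom := om_card N hN1 Q (fun p hp => ⟨(p4 p hp).1, by
      have := (p4 p hp).2
      omega⟩) p9 m p12 p16
    have hT1 := sum_main N P0 Q Q2 hQ5 p5 p6 p7
    have hT2 := sum_triv N P0 Q Q2 hQ5 p5 p6 p7
    have hB : ∑ p ∈ Q, 2 / (p : ℝ) = 2 * S := by
      rw [hS, mul_sum]
      refine sum_congr rfl fun p _ => ?_
      ring
    rw [← hS] at hom hT1 hT2 p12 p13 p14 p16 p17
    rw [← hS2] at hT1 hT2 p15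
    rw [← hLLd] at hLL p2 p3 p11 p13 p14 p15 ⊢
    have hS0 : 0 ≤ S := by linarith
    have htl := tail_le LL (2 * S) hLL.le (by linarith) (by linarith) k p11
    -- the sum
    have hsum : ∑ d ∈ DD N P0, 1 / (d : ℝ) * (1 / 2) ^ (omd Q d) *
        (∏ p ∈ Q.filter (fun p => ¬ p ∣ d), (1 - dn p) +
          (∑ p ∈ Q, 2 / (p : ℝ)) ^ (2 * k + 1) / ((2 * k + 1).factorial : ℝ)) =
        ∑ d ∈ DD N P0, 1 / (d : ℝ) * (1 / 2) ^ (omd Q d) *
          ∏ p ∈ Q.filter (fun p => ¬ p ∣ d), (1 - dn p) +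
        (∑ d ∈ DD N P0, 1 / (d : ℝ) * (1 / 2) ^ (omd Q d)) *
          ((2 * S) ^ (2 * k + 1) / ((2 * k + 1).factorial : ℝ)) := by
      rw [hB, sum_mul, ← sum_add_distrib]
      refine sum_congr rfl fun d _ => ?_
      ring
    rw [hsum] at hU
    have hmain := An2_main (PP := (2 : ℝ) ^ P0) (MM := (2 : ℝ) ^ m) (N6 := (8 * (N : ℝ)) ^ 6) hLL p13
      p14 p15 hT1 hT2 (by positivity) htl (by positivity) p3 (by positivity) (An2_two hS0 p17)
      (by positivity)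
    -- the three other terms
    have a1 : C2 * ((N : ℝ) ^ 6 / P0 + (N : ℝ) ^ 5) ≤ 21 * C2 * (N : ℝ) ^ 6 / LL := by
      have b1 : (N : ℝ) ^ 6 / P0 ≤ 20 * (N : ℝ) ^ 6 / LL := by
        have hP : (0 : ℝ) < P0 := by
          have : 0 < P0 := by omega
          exact_mod_cast this
        rw [div_le_div_iff₀ hP hLL]
        nlinarith
      have b2 : (N : ℝ) ^ 5 ≤ (N : ℝ) ^ 6 / LL := by
        have c1 : LL ≤ N := by
          have c2 : Real.log (Real.log N) ≤ Real.log N :=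
            (Real.log_le_sub_one_of_pos (by linarith)).trans (by linarith)
          have c3 : Real.log N ≤ N :=
            (Real.log_le_sub_one_of_pos (by linarith)).trans (by linarith)
          rw [hLLd]
          exact c2.trans c3
        rw [le_div_iff₀ hLL]
        have c4 : (0 : ℝ) ≤ (N : ℝ) ^ 5 := by positivity
        calc (N : ℝ) ^ 5 * LL ≤ (N : ℝ) ^ 5 * N := mul_le_mul_of_nonneg_left c1 c4
          _ = (N : ℝ) ^ 6 := by ring
      have b3 := mul_le_mul_of_nonneg_left (add_le_add b1 b2) hC2.le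
      refine b3.trans (le_of_eq ?_)
      ring
    have a2 : C3 * (q0 : ℝ) ^ 8 * (N : ℝ) ^ (11 / 2 : ℝ) ≤ 10 * C3 * (N : ℝ) ^ 6 / LL := by
      have hNp : (0 : ℝ) < N := by linarith
      have b1 : (N : ℝ) ^ (2 / 5 : ℝ) * (N : ℝ) ^ (11 / 2 : ℝ) = (N : ℝ) ^ (59 / 10 : ℝ) := by
        rw [← Real.rpow_add hNp]
        norm_num
      have b2 : (N : ℝ) ^ 6 = (N : ℝ) ^ (59 / 10 : ℝ) * (N : ℝ) ^ (1 / 10 : ℝ) := by
        rw [← Real.rpow_add hNp, ← Real.rpow_natCast]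
        norm_num
      have b3 : LL ≤ 10 * (N : ℝ) ^ (1 / 10 : ℝ) := by
        have c2 : Real.log (Real.log N) ≤ Real.log N :=
          (Real.log_le_sub_one_of_pos (by linarith)).trans (by linarith)
        have c3 := Real.log_le_rpow_div hNp.le (ε := 1 / 10) (by norm_num)
        rw [hLLd]
        refine (c2.trans c3).trans (le_of_eq ?_)
        ring
      have b4 : (0 : ℝ) < (N : ℝ) ^ (59 / 10 : ℝ) := by positivity
      rw [le_div_iff₀ hLL]
      calc C3 * (q0 : ℝ) ^ 8 * (N : ℝ) ^ (11 / 2 : ℝ) * LL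
          ≤ C3 * (N : ℝ) ^ (2 / 5 : ℝ) * (N : ℝ) ^ (11 / 2 : ℝ) * LL := by gcongr
        _ = C3 * (N : ℝ) ^ (59 / 10 : ℝ) * LL := by rw [← b1]; ring
        _ ≤ C3 * (N : ℝ) ^ (59 / 10 : ℝ) * (10 * (N : ℝ) ^ (1 / 10 : ℝ)) := by gcongr
        _ = 10 * C3 * (N : ℝ) ^ 6 := by rw [b2]; ring
    have a3 : 200 * (8 * (N : ℝ)) ^ 6 / S ≤ 200 * 8 ^ 6 * 100 / 89 * (N : ℝ) ^ 6 / LL := by
      rw [div_le_div_iff₀ (by linarith) hLL, mul_pow]
      have b1 : LL ≤ 100 / 89 * S := by linarith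
      have b2 : (0 : ℝ) ≤ 200 * (8 ^ 6 * (N : ℝ) ^ 6) := by positivity
      calc 200 * (8 ^ 6 * (N : ℝ) ^ 6) * LL ≤ 200 * (8 ^ 6 * (N : ℝ) ^ 6) * (100 / 89 * S) :=
            mul_le_mul_of_nonneg_left b1 b2
        _ = 200 * 8 ^ 6 * 100 / 89 * (N : ℝ) ^ 6 * S := by ring
    have a4 : 3136 * (8 * (N : ℝ)) ^ 6 / LL = 3136 * 8 ^ 6 * (N : ℝ) ^ 6 / LL := by
      rw [mul_pow]
      ring
    rw [a4] at hmain
    have a5 : 0 ≤ 729 * Real.log (Real.log N0) * (N : ℝ) ^ 6 / LL := by positivity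
    have a6 : (729 * Real.log (Real.log N0) + (21 * C2 + 10 * C3 + 200 * 8 ^ 6 * 100 / 89 +
        3136 * 8 ^ 6)) * (N : ℝ) ^ 6 / LL = 729 * Real.log (Real.log N0) * (N : ℝ) ^ 6 / LL +
        (21 * C2 * (N : ℝ) ^ 6 / LL + 10 * C3 * (N : ℝ) ^ 6 / LL +
          200 * 8 ^ 6 * 100 / 89 * (N : ℝ) ^ 6 / LL + 3136 * 8 ^ 6 * (N : ℝ) ^ 6 / LL) := by ring
    rw [a6]
    linarith [hE2.trans a1, hE3.trans a2, hom.trans a3]


end FGO
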