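import Pool.Agent.Lib.MP_1ad228_ntG.Pl

/-! JOB E2: few pairs are proportional modulo a prime `p > P0`. -/

set_option autoImplicit false

open Classical

namespace FGO

open Finset

private theorem E2_cls (N p : ℕ) (hp : 0 < p) (hpN : p ≤ N) (c : ℤ) :
    (((Icc (-(N : ℤ)) (N : ℤ)).filter fun x => (p : ℤ) ∣ x - c).card : ℝ) ≤ 3 * (N : ℝ) / p := by
  have h1 := class_count N p hp c
  have hp' : (0 : ℝ) < p := by exact_mod_cast hp
  have h2 : (1 : ℝ) ≤ N / p := by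
    rw [one_le_div hp']
    exact_mod_cast hpN
  have e : 3 * (N : ℝ) / p = 2 * (N : ℝ) / p + N / p := by ring
  rw [e]
  linarith

private theorem E2_I (N : ℕ) (hN : 0 < N) : ((Icc (-(N : ℤ)) (N : ℤ)).card : ℝ) ≤ 3 * (N : ℝ) := by
  have h : (Icc (-(N : ℤ)) (N : ℤ)).card = 2 * N + 1 := by
    rw [Int.card_Icc]
    omega
  rw [h]
  have h1 : (1 : ℝ) ≤ N := by exact_mod_cast hN
  push_cast
  linarith

private theorem E2_box (N : ℕ) (hN : 0 < N) : ((box N).card : ℝ) ≤ (3 * (N : ℝ)) ^ 3 := by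
  have h := E2_I N hN
  have e : (box N).card = (Icc (-(N : ℤ)) (N : ℤ)).card * ((Icc (-(N : ℤ)) (N : ℤ)).card *
      (Icc (-(N : ℤ)) (N : ℤ)).card) := by
    unfold box
    rw [card_product, card_product]
  rw [e]
  push_cast
  have h0 : (0 : ℝ) ≤ ((Icc (-(N : ℤ)) (N : ℤ)).card : ℝ) := Nat.cast_nonneg _
  calc ((Icc (-(N : ℤ)) (N : ℤ)).card : ℝ) * (((Icc (-(N : ℤ)) (N : ℤ)).card : ℝ) *
        ((Icc (-(N : ℤ)) (N : ℤ)).card : ℝ)) = ((Icc (-(N : ℤ)) (N : ℤ)).card : ℝ) ^ 3 := by ring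
    _ ≤ (3 * (N : ℝ)) ^ 3 := pow_le_pow_left₀ h0 h 3

private theorem E2_coset (N p : ℕ) (hp : 0 < p) (hpN : p ≤ N) (c : V) :
    (((box N).filter fun w => Cg p w c).card : ℝ) ≤ (3 * (N : ℝ) / p) ^ 3 := by
  have hsub : ((box N).filter fun w => Cg p w c) ⊆
      ((Icc (-(N : ℤ)) (N : ℤ)).filter fun x => (p : ℤ) ∣ x - c.1) ×ˢ
      (((Icc (-(N : ℤ)) (N : ℤ)).filter fun x => (p : ℤ) ∣ x - c.2.1) ×ˢ
      ((Icc (-(N : ℤ)) (N : ℤ)).filter fun x => (p : ℤ) ∣ x - c.2.2)) := by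
    intro w hw
    rw [mem_filter] at hw
    obtain ⟨hb, h1, h2, h3⟩ := hw
    unfold box at hb
    rw [mem_product, mem_product] at hb
    rw [mem_product, mem_product, mem_filter, mem_filter, mem_filter]
    exact ⟨⟨hb.1, h1⟩, ⟨hb.2.1, h2⟩, hb.2.2, h3⟩
  have h1 := card_le_card hsub
  rw [card_product, card_product] at h1
  have h2 : (((box N).filter fun w => Cg p w c).card : ℝ) ≤
      (((Icc (-(N : ℤ)) (N : ℤ)).filter fun x => (p : ℤ) ∣ x - c.1).card : ℝ) *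
      ((((Icc (-(N : ℤ)) (N : ℤ)).filter fun x => (p : ℤ) ∣ x - c.2.1).card : ℝ) *
      (((Icc (-(N : ℤ)) (N : ℤ)).filter fun x => (p : ℤ) ∣ x - c.2.2).card : ℝ)) := by
    exact_mod_cast h1
  refine h2.trans ?_
  have a1 := E2_cls N p hp hpN c.1
  have a2 := E2_cls N p hp hpN c.2.1
  have a3 := E2_cls N p hp hpN c.2.2
  have hM : (0 : ℝ) ≤ 3 * (N : ℝ) / p := by positivity
  calc _ ≤ (3 * (N : ℝ) / p) * ((3 * (N : ℝ) / p) * (3 * (N : ℝ) / p)) := by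
        apply mul_le_mul a1 _ (by positivity) hM
        exact mul_le_mul a2 a3 (by positivity) hM
    _ = (3 * (N : ℝ) / p) ^ 3 := by ring

private theorem E2_inv {p : ℕ} (hp : p.Prime) (a w : ℤ) (ha : ¬ (p : ℤ) ∣ a) :
    ∃ l : ℕ, l < p ∧ (p : ℤ) ∣ w - l * a := by
  have : Fact p.Prime := ⟨hp⟩
  have ha' : (a : ZMod p) ≠ 0 := by
    rw [Ne, ZMod.intCast_zmod_eq_zero_iff_dvd]
    exact ha
  refine ⟨((w : ZMod p) * (a : ZMod p)⁻¹).val, ZMod.val_lt _, ?_⟩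
  rw [← ZMod.intCast_zmod_eq_zero_iff_dvd]
  push_cast
  rw [ZMod.natCast_val, ZMod.cast_id', id_eq, mul_assoc, inv_mul_cancel₀ ha', mul_one, sub_self]

private theorem E2_tr {p : ℕ} (hp : p.Prime) {a w x y l : ℤ} (ha : ¬ (p : ℤ) ∣ a)
    (h1 : (p : ℤ) ∣ w - l * a) (h2 : (p : ℤ) ∣ a * y - x * w) : (p : ℤ) ∣ y - l * x := by
  have h3 : (p : ℤ) ∣ a * (y - l * x) := by
    have e : a * (y - l * x) = (a * y - x * w) + x * (w - l * a) := by ring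
    rw [e]
    exact dvd_add h2 (Dvd.dvd.mul_left h1 x)
  exact ((Nat.prime_iff_prime_int.1 hp).dvd_or_dvd h3).resolve_left ha

private theorem E2_prop {p : ℕ} (hp : p.Prime) (v w : V) (h : Dv p (crs v w)) (hv : ¬ Dv p v) :
    ∃ l : ℕ, l < p ∧ Cg p w ((l : ℤ) * v.1, (l : ℤ) * v.2.1, (l : ℤ) * v.2.2) := by
  obtain ⟨h1, h2, h3⟩ := h
  simp only [crs] at h1 h2 h3
  have neg : ∀ {x y : ℤ}, (p : ℤ) ∣ x → y = -x → (p : ℤ) ∣ y := by
    intro x y hx hy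
    rw [hy]
    exact (dvd_neg).2 hx
  by_cases ha : (p : ℤ) ∣ v.1
  · by_cases hb : (p : ℤ) ∣ v.2.1
    · have hc : ¬ (p : ℤ) ∣ v.2.2 := fun hc => hv ⟨ha, hb, hc⟩
      obtain ⟨l, hl, hd⟩ := E2_inv hp v.2.2 w.2.2 hc
      refine ⟨l, hl, ?_, ?_, hd⟩
      · exact E2_tr hp hc hd h2
      · exact E2_tr hp hc hd (neg h1 (by ring))
    · obtain ⟨l, hl, hd⟩ := E2_inv hp v.2.1 w.2.1 hb
      refine ⟨l, hl, ?_, hd, ?_⟩
      · exact E2_tr hp hb hd (neg h3 (by ring))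
      · exact E2_tr hp hb hd h1
  · obtain ⟨l, hl, hd⟩ := E2_inv hp v.1 w.1 ha
    refine ⟨l, hl, hd, ?_, ?_⟩
    · exact E2_tr hp ha hd h3
    · exact E2_tr hp ha hd (neg h2 (by ring))

/-- (E2a) Proof. `p ≤ N`. `a = u.1.1`, `A = u.2.1` are multiples of `p` in `[-N, N]`: at most `2N/p + 1 ≤ 3N/p` each; the other four coordinates: `2N + 1 ≤ 3N` each. So `≤ (3N)^6/p² = 729 N^6/p²`. -/
theorem lead_small (N p : ℕ) (hp : 0 < p) (hpN : p ≤ N) :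
    (((box2 N).filter fun u => (p : ℤ) ∣ u.1.1 ∧ (p : ℤ) ∣ u.2.1).card : ℝ) ≤ 729 * (N : ℝ) ^ 6 / (p : ℝ) ^ 2 := by
  have hN : 0 < N := by omega
  have hsub : ((box2 N).filter fun u => (p : ℤ) ∣ u.1.1 ∧ (p : ℤ) ∣ u.2.1) ⊆
      (((Icc (-(N : ℤ)) (N : ℤ)).filter fun x => (p : ℤ) ∣ x - 0) ×ˢ
        (Icc (-(N : ℤ)) (N : ℤ) ×ˢ Icc (-(N : ℤ)) (N : ℤ))) ×ˢ
      (((Icc (-(N : ℤ)) (N : ℤ)).filter fun x => (p : ℤ) ∣ x - 0) ×ˢ
        (Icc (-(N : ℤ)) (N : ℤ) ×ˢ Icc (-(N : ℤ)) (N : ℤ))) := by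
    intro u hu
    rw [mem_filter, mem_box2] at hu
    obtain ⟨⟨hb, hb'⟩, h1, h2⟩ := hu
    unfold box at hb hb'
    rw [mem_product, mem_product] at hb hb'
    simp only [mem_product, mem_filter, sub_zero]
    exact ⟨⟨⟨hb.1, h1⟩, hb.2.1, hb.2.2⟩, ⟨hb'.1, h2⟩, hb'.2.1, hb'.2.2⟩
  have h1 := card_le_card hsub
  rw [card_product, card_product, card_product] at h1
  set F := ((Icc (-(N : ℤ)) (N : ℤ)).filter fun x => (p : ℤ) ∣ x - 0).card with hF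
  set J := (Icc (-(N : ℤ)) (N : ℤ)).card with hJ
  have h2 : (((box2 N).filter fun u => (p : ℤ) ∣ u.1.1 ∧ (p : ℤ) ∣ u.2.1).card : ℝ) ≤
      ((F : ℝ) * ((J : ℝ) * (J : ℝ))) * ((F : ℝ) * ((J : ℝ) * (J : ℝ))) := by
    exact_mod_cast h1
  refine h2.trans ?_
  have a1 : (F : ℝ) ≤ 3 * (N : ℝ) / p := E2_cls N p hp hpN 0
  have a2 : (J : ℝ) ≤ 3 * (N : ℝ) := E2_I N hN
  have hp' : (0 : ℝ) < p := by exact_mod_cast hp
  have hM : (0 : ℝ) ≤ 3 * (N : ℝ) / p := by positivity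
  have hM' : (0 : ℝ) ≤ 3 * (N : ℝ) := by positivity
  have a3 : (F : ℝ) * ((J : ℝ) * (J : ℝ)) ≤ (3 * (N : ℝ) / p) * ((3 * (N : ℝ)) * (3 * (N : ℝ))) := by
    apply mul_le_mul a1 _ (by positivity) hM
    exact mul_le_mul a2 a2 (by positivity) hM'
  calc _ ≤ ((3 * (N : ℝ) / p) * ((3 * (N : ℝ)) * (3 * (N : ℝ)))) *
        ((3 * (N : ℝ) / p) * ((3 * (N : ℝ)) * (3 * (N : ℝ)))) :=
        mul_le_mul a3 a3 (by positivity) (by positivity)
    _ = 729 * (N : ℝ) ^ 6 / (p : ℝ) ^ 2 := by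
        field_simp
        ring

/-- (E2b) Proof. `p ≤ N` prime. If `p ∣ v` (all coordinates): at most `(3N/p)³` such `v` and `(3N)³` vectors `w`: `≤ 729 N^6/p³`. Otherwise some coordinate of `v` is prime to `p` and
`w ≡ λ v mod p` for some `λ ∈ [0, p)` (from `Dv p (crs v w)`): for each `λ` at most `(3N/p)³` vectors `w`, so at most `27 N³/p²` vectors `w` for each of the `(3N)³` vectors `v`. Total `≤ 1458 N^6/p²`. -/
theorem crs_small (N p : ℕ) (hp : p.Prime) (hpN : p ≤ N) :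
    (((box2 N).filter fun u => Dv p (crs u.1 u.2)).card : ℝ) ≤ 1458 * (N : ℝ) ^ 6 / (p : ℝ) ^ 2 := by
  have hp0 : 0 < p := hp.pos
  have hN : 0 < N := by omega
  have hp' : (1 : ℝ) ≤ p := by exact_mod_cast hp.one_lt.le
  set S1 : Finset (V × V) := ((box N).filter fun v => Cg p v 0) ×ˢ box N with hS1
  set S2 : Finset (V × V) := (box N ×ˢ range p).biUnion fun x =>
    ((box N).filter fun w => Cg p w ((x.2 : ℤ) * x.1.1, (x.2 : ℤ) * x.1.2.1, (x.2 : ℤ) * x.1.2.2)).image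
      fun w => (x.1, w) with hS2
  have hsub : ((box2 N).filter fun u => Dv p (crs u.1 u.2)) ⊆ S1 ∪ S2 := by
    intro u hu
    rw [mem_filter, mem_box2] at hu
    obtain ⟨⟨hb, hb'⟩, h1⟩ := hu
    rw [mem_union]
    by_cases hv : Dv p u.1
    · left
      rw [hS1, mem_product, mem_filter]
      refine ⟨⟨hb, ?_, ?_, ?_⟩, hb'⟩
      · simpa using hv.1
      · simpa using hv.2.1
      · simpa using hv.2.2
    · right
      obtain ⟨l, hl, hC⟩ := E2_prop hp u.1 u.2 h1 hv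
      rw [hS2, mem_biUnion]
      refine ⟨(u.1, l), mem_product.2 ⟨hb, mem_range.2 hl⟩, ?_⟩
      rw [mem_image]
      exact ⟨u.2, mem_filter.2 ⟨hb', hC⟩, rfl⟩
  have h1 := (card_le_card hsub).trans (card_union_le S1 S2)
  have h2 : (((box2 N).filter fun u => Dv p (crs u.1 u.2)).card : ℝ) ≤ (S1.card : ℝ) + (S2.card : ℝ) := by
    exact_mod_cast h1
  have hbox := E2_box N hN
  have hM : (0 : ℝ) ≤ (3 * (N : ℝ) / p) ^ 3 := by positivity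
  have k1 : (S1.card : ℝ) ≤ 729 * (N : ℝ) ^ 6 / (p : ℝ) ^ 2 := by
    rw [hS1, card_product]
    push_cast
    have a := E2_coset N p hp0 hpN 0
    calc _ ≤ (3 * (N : ℝ) / p) ^ 3 * (3 * (N : ℝ)) ^ 3 :=
          mul_le_mul a hbox (by positivity) hM
      _ = (729 * (N : ℝ) ^ 6 / (p : ℝ) ^ 2) / p := by
          field_simp
          ring
      _ ≤ 729 * (N : ℝ) ^ 6 / (p : ℝ) ^ 2 := div_le_self (by positivity) hp'
  have k2 : (S2.card : ℝ) ≤ 729 * (N : ℝ) ^ 6 / (p : ℝ) ^ 2 := by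
    have c1 : S2.card ≤ ∑ x ∈ box N ×ˢ range p, ((box N).filter fun w =>
        Cg p w ((x.2 : ℤ) * x.1.1, (x.2 : ℤ) * x.1.2.1, (x.2 : ℤ) * x.1.2.2)).card := by
      rw [hS2]
      exact card_biUnion_le.trans (sum_le_sum fun x _ => card_image_le)
    have c2 : (S2.card : ℝ) ≤ ∑ x ∈ box N ×ˢ range p, (((box N).filter fun w =>
        Cg p w ((x.2 : ℤ) * x.1.1, (x.2 : ℤ) * x.1.2.1, (x.2 : ℤ) * x.1.2.2)).card : ℝ) := by
      exact_mod_cast c1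
    have c3 : (S2.card : ℝ) ≤ ∑ x ∈ box N ×ˢ range p, (3 * (N : ℝ) / p) ^ 3 :=
      c2.trans (sum_le_sum fun x _ => E2_coset N p hp0 hpN _)
    rw [sum_const, nsmul_eq_mul, card_product, card_range] at c3
    push_cast at c3
    calc (S2.card : ℝ) ≤ _ := c3
      _ ≤ ((3 * (N : ℝ)) ^ 3 * p) * (3 * (N : ℝ) / p) ^ 3 :=
          mul_le_mul_of_nonneg_right (mul_le_mul_of_nonneg_right hbox (by positivity)) hM
      _ = 729 * (N : ℝ) ^ 6 / (p : ℝ) ^ 2 := by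
          field_simp
          ring
  have e : 1458 * (N : ℝ) ^ 6 / (p : ℝ) ^ 2 = 729 * (N : ℝ) ^ 6 / (p : ℝ) ^ 2 + 729 * (N : ℝ) ^ 6 / (p : ℝ) ^ 2 := by
    ring
  rw [e]
  linarith

end FGO
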