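import Pool.Agent.Lib.MP_1ad228_ntG.E3c
import Pool.Agent.Lib.MP_1ad228_ntG.E3b

/-! JOB E3d. -/

set_option autoImplicit false

open Classical

namespace FGO

open Finset

private theorem E3d_nm (n : V) : |n.1| ≤ (nm n : ℤ) ∧ |n.2.1| ≤ (nm n : ℤ) ∧ |n.2.2| ≤ (nm n : ℤ) := by
  unfold nm
  refine ⟨?_, ?_, ?_⟩ <;> rw [Int.abs_eq_natAbs] <;> exact_mod_cast (by omega)

private theorem E3d_dot {N : ℕ} {n v : V} (hv : v ∈ box N) : |dot n v| ≤ 3 * N * nm n := by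
  obtain ⟨h1, h2, h3⟩ := mem_box.1 hv
  obtain ⟨k1, k2, k3⟩ := E3d_nm n
  have e1 : |n.1 * v.1| ≤ (nm n : ℤ) * N := by
    rw [abs_mul]
    exact mul_le_mul k1 h1 (abs_nonneg _) (by positivity)
  have e2 : |n.2.1 * v.2.1| ≤ (nm n : ℤ) * N := by
    rw [abs_mul]
    exact mul_le_mul k2 h2 (abs_nonneg _) (by positivity)
  have e3 : |n.2.2 * v.2.2| ≤ (nm n : ℤ) * N := by
    rw [abs_mul]
    exact mul_le_mul k3 h3 (abs_nonneg _) (by positivity)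
  have e4 : |dot n v| ≤ |n.1 * v.1| + |n.2.1 * v.2.1| + |n.2.2 * v.2.2| := by
    unfold dot
    exact abs_add_three _ _ _
  calc |dot n v| ≤ _ := e4
    _ ≤ (nm n : ℤ) * N + (nm n : ℤ) * N + (nm n : ℤ) * N := by linarith
    _ = 3 * N * nm n := by ring

private theorem E3d_card_box (B : ℕ) (hB : 0 < B) : ((box B).card : ℝ) ≤ 27 * (B : ℝ) ^ 3 := by
  have h1 : (box B).card = (2 * B + 1) ^ 3 := by
    unfold box
    rw [card_product, card_product, Int.card_Icc]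
    have h2 : ((B : ℤ) + 1 - -(B : ℤ)).toNat = 2 * B + 1 := by omega
    rw [h2]
    ring
  have h2 : 2 * B + 1 ≤ 3 * B := by omega
  have h3 : (box B).card ≤ 27 * B ^ 3 := by
    rw [h1]
    calc (2 * B + 1) ^ 3 ≤ (3 * B) ^ 3 := Nat.pow_le_pow_left h2 3
      _ = 27 * B ^ 3 := by ring
  exact_mod_cast h3

/-- the vectors with `dsc = 0` -/
private def E3d_vec (i : (ℤ × ℤ) × (ℕ × ℕ)) : V :=
  (i.1.1 * (i.2.1 : ℤ) ^ 2, i.1.1 * (i.1.2 * ((i.2.1 : ℤ) * (i.2.2 : ℤ))), i.1.1 * (i.2.2 : ℤ) ^ 2)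

private theorem E3d_sq_le (i : (ℤ × ℤ) × (ℕ × ℕ)) (hs : i.1.1 = 1 ∨ i.1.1 = -1) :
    i.2.1 ^ 2 ≤ nm (E3d_vec i) ∧ i.2.2 ^ 2 ≤ nm (E3d_vec i) := by
  have h1 : (i.1.1).natAbs = 1 := by
    rcases hs with h | h <;> rw [h] <;> rfl
  have e1 : (E3d_vec i).1.natAbs = i.2.1 ^ 2 := by
    unfold E3d_vec
    rw [Int.natAbs_mul, h1, one_mul, Int.natAbs_pow, Int.natAbs_natCast]
  have e2 : (E3d_vec i).2.2.natAbs = i.2.2 ^ 2 := by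
    unfold E3d_vec
    rw [Int.natAbs_mul, h1, one_mul, Int.natAbs_pow, Int.natAbs_natCast]
  unfold nm
  rw [e1, e2]
  exact ⟨le_max_left _ _, (le_max_right _ _).trans (le_max_right _ _)⟩

private theorem E3d_nm_pos {n : V} (hn : Prim n) : 0 < nm n := by
  rcases Nat.eq_zero_or_pos (nm n) with h | h
  · exfalso
    obtain ⟨k1, k2, k3⟩ := E3d_nm n
    rw [h] at k1 k2 k3
    have e1 : n.1 = 0 := abs_nonpos_iff.1 (by exact_mod_cast k1)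
    have e2 : n.2.1 = 0 := abs_nonpos_iff.1 (by exact_mod_cast k2)
    have e3 : n.2.2 = 0 := abs_nonpos_iff.1 (by exact_mod_cast k3)
    have h2 := hn 2 ⟨by rw [e1]; exact dvd_zero _, by rw [e2]; exact dvd_zero _, by rw [e3]; exact dvd_zero _⟩
    omega
  · exact h

private theorem E3d_prod_le (i : (ℤ × ℤ) × (ℕ × ℕ)) (hs : i.1.1 = 1 ∨ i.1.1 = -1) (hn : Prim (E3d_vec i)) :
    max i.2.1 1 * max i.2.2 1 ≤ nm (E3d_vec i) := by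
  obtain ⟨h1, h2⟩ := E3d_sq_le i hs
  have h3 := E3d_nm_pos hn
  rcases Nat.eq_zero_or_pos i.2.1 with ha | ha
  · rw [ha, max_eq_right (by norm_num : 0 ≤ 1), one_mul]
    refine max_le ?_ h3
    refine le_trans ?_ h2
    rcases Nat.eq_zero_or_pos i.2.2 with hb | hb
    · rw [hb]
      norm_num
    · nlinarith
  · rcases Nat.eq_zero_or_pos i.2.2 with hb | hb
    · rw [hb, max_eq_right (by norm_num : 0 ≤ 1), mul_one]
      refine max_le ?_ h3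
      refine le_trans ?_ h1
      nlinarith
    · rw [max_eq_left ha, max_eq_left hb]
      rcases le_total i.2.1 i.2.2 with hab | hab
      · exact (by nlinarith : i.2.1 * i.2.2 ≤ i.2.2 ^ 2).trans h2
      · exact (by nlinarith : i.2.1 * i.2.2 ≤ i.2.1 ^ 2).trans h1

private theorem E3d_exists {n : V} (hn : Prim n) (h : dsc n = 0) :
    ∃ i : (ℤ × ℤ) × (ℕ × ℕ), (i.1.1 = 1 ∨ i.1.1 = -1) ∧ (i.1.2 = 1 ∨ i.1.2 = -1) ∧ E3d_vec i = n := by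
  obtain ⟨s, a, b, hs, -, h1, h2, h3⟩ := dsc_zero n hn h
  obtain ⟨t, ht, hab⟩ : ∃ t : ℤ, (t = 1 ∨ t = -1) ∧ a * b = t * ((a.natAbs : ℤ) * (b.natAbs : ℤ)) := by
    have e : (a.natAbs : ℤ) * (b.natAbs : ℤ) = |a * b| := by
      rw [Int.abs_eq_natAbs, Int.natAbs_mul]
      push_cast
      rfl
    rcases le_total 0 (a * b) with h | h
    · exact ⟨1, Or.inl rfl, by rw [e, abs_of_nonneg h, one_mul]⟩
    · exact ⟨-1, Or.inr rfl, by rw [e, abs_of_nonpos h]; ring⟩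
  refine ⟨((s, t), (a.natAbs, b.natAbs)), hs, ht, ?_⟩
  unfold E3d_vec
  refine Prod.ext ?_ (Prod.ext ?_ ?_)
  · change s * (a.natAbs : ℤ) ^ 2 = n.1
    rw [h1, Int.natAbs_sq]
  · change s * (t * ((a.natAbs : ℤ) * (b.natAbs : ℤ))) = n.2.1
    rw [h2, hab]
  · change s * (b.natAbs : ℤ) ^ 2 = n.2.2
    rw [h3, Int.natAbs_sq]

/-- the harmonic sum -/
private theorem E3d_harm (K : ℕ) (hK : 0 < K) :
    ∑ a ∈ range (K + 1), (1 : ℝ) / (max a 1 : ℕ) ≤ 6 * (K : ℝ) ^ (1 / 4 : ℝ) := by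
  have hK' : (1 : ℝ) ≤ K := by exact_mod_cast hK
  rw [sum_range_succ']
  have e1 : ∑ k ∈ range K, (1 : ℝ) / (max (k + 1) 1 : ℕ) = ((harmonic K : ℚ) : ℝ) := by
    unfold harmonic
    push_cast
    refine sum_congr rfl fun k _ => ?_
    rw [max_eq_left (by linarith [(Nat.cast_nonneg k : (0 : ℝ) ≤ k)]), one_div]
  have e2 : (1 : ℝ) / (max 0 1 : ℕ) = 1 := by norm_num
  rw [e1, e2]
  have h1 := harmonic_le_one_add_log K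
  have h2 : Real.log K ≤ (K : ℝ) ^ (1 / 4 : ℝ) / (1 / 4 : ℝ) := Real.log_le_rpow_div (by linarith) (by norm_num)
  have h3 : (1 : ℝ) ≤ (K : ℝ) ^ (1 / 4 : ℝ) := Real.one_le_rpow hK' (by norm_num)
  linarith

/-- the sum over the index set -/
private theorem E3d_sum (N K : ℕ) (hK : 0 < K) :
    ∑ i ∈ (({1, -1} : Finset ℤ) ×ˢ ({1, -1} : Finset ℤ)) ×ˢ (range (K + 1) ×ˢ range (K + 1)),
      (4 * (N : ℝ) ^ 2 / ((max i.2.1 1 * max i.2.2 1 : ℕ) : ℝ) + 5 * N) ≤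
      576 * (N : ℝ) ^ 2 * ((K : ℝ) ^ (1 / 4 : ℝ)) ^ 2 + 80 * (N : ℝ) * (K : ℝ) ^ 2 := by
  rw [sum_product, sum_product]
  simp only [sum_const]
  have hc : ({1, -1} : Finset ℤ).card = 2 := by decide
  rw [hc]
  have h1 : ∑ x ∈ range (K + 1) ×ˢ range (K + 1), (4 * (N : ℝ) ^ 2 / ((max x.1 1 * max x.2 1 : ℕ) : ℝ) + 5 * N) =
      4 * (N : ℝ) ^ 2 * (∑ a ∈ range (K + 1), (1 : ℝ) / (max a 1 : ℕ)) ^ 2 + 5 * N * ((K : ℝ) + 1) ^ 2 := by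
    rw [sum_add_distrib, sum_const, card_product, card_range, pow_two (∑ a ∈ range (K + 1), (1 : ℝ) / (max a 1 : ℕ)),
      sum_mul_sum, mul_sum, sum_product]
    congr 1
    · refine sum_congr rfl fun a _ => ?_
      rw [mul_sum]
      refine sum_congr rfl fun b _ => ?_
      rw [Nat.cast_mul]
      field_simp
    · rw [nsmul_eq_mul]
      push_cast
      ring
  have hK' : (1 : ℝ) ≤ K := by exact_mod_cast hK
  have h2 := E3d_harm K hK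
  have h3 : (0 : ℝ) ≤ ∑ a ∈ range (K + 1), (1 : ℝ) / (max a 1 : ℕ) := sum_nonneg fun a _ => by positivity
  have h4 : (∑ a ∈ range (K + 1), (1 : ℝ) / (max a 1 : ℕ)) ^ 2 ≤ (6 * (K : ℝ) ^ (1 / 4 : ℝ)) ^ 2 :=
    pow_le_pow_left₀ h3 h2 2
  have h5 : ((K : ℝ) + 1) ^ 2 ≤ 4 * (K : ℝ) ^ 2 := by nlinarith
  have h6 : (0 : ℝ) ≤ (N : ℝ) := Nat.cast_nonneg N
  rw [smul_smul, nsmul_eq_mul, h1]
  push_cast
  calc (4 : ℝ) * (4 * (N : ℝ) ^ 2 * (∑ a ∈ range (K + 1), (1 : ℝ) / (max (a : ℝ) 1)) ^ 2 + 5 * N * ((K : ℝ) + 1) ^ 2) ≤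
      4 * (4 * (N : ℝ) ^ 2 * (6 * (K : ℝ) ^ (1 / 4 : ℝ)) ^ 2 + 5 * N * (4 * (K : ℝ) ^ 2)) := by
        push_cast at h4
        gcongr
    _ = 576 * (N : ℝ) ^ 2 * ((K : ℝ) ^ (1 / 4 : ℝ)) ^ 2 + 80 * (N : ℝ) * (K : ℝ) ^ 2 := by ring

/-- the pairs with `dot n u.1 ≠ 0` -/
private theorem E3d_main : ∃ C : ℝ, 0 < C ∧ ∀ N q0 : ℕ, 0 < N → 0 < q0 →
    (((box2 N).filter fun u => ∃ (n : V) (d : ℕ), Prim n ∧ 0 < d ∧ d ≤ 3 * N ^ 2 ∧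
      4 * N * nm n < q0 * d ∧ dsc n = 0 ∧ (d : ℤ) ∣ dot n u.1 ∧ (d : ℤ) ∣ dot n u.2 ∧ dot n u.1 ≠ 0).card : ℝ) ≤
      C * (q0 : ℝ) ^ 8 * (N : ℝ) ^ (11 / 2 : ℝ) := by
  obtain ⟨C1, hC1, hdiv⟩ := Pool.Agent.Lib.MP_2a816b_nt.divisor_bound (1 / 8) (by norm_num)
  refine ⟨106272 * C1, by positivity, ?_⟩
  intro N q0 hN hq
  have hN' : (1 : ℝ) ≤ N := by exact_mod_cast hN
  have hq' : (1 : ℝ) ≤ q0 := by exact_mod_cast hq
  set K : ℕ := Nat.sqrt (q0 * N) with hK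
  have hqN : 0 < q0 * N := Nat.mul_pos hq hN
  have hK0 : 0 < K := Nat.sqrt_pos.2 hqN
  have hK2 : K ^ 2 ≤ q0 * N := Nat.sqrt_le' _
  set F : Finset ((ℤ × ℤ) × (ℕ × ℕ)) :=
    (({1, -1} : Finset ℤ) ×ˢ ({1, -1} : Finset ℤ)) ×ˢ (range (K + 1) ×ˢ range (K + 1)) with hF
  set I : Finset ((ℤ × ℤ) × (ℕ × ℕ)) :=
    F.filter (fun i => Prim (E3d_vec i) ∧ nm (E3d_vec i) ≤ q0 * N) with hI
  let T : ((ℤ × ℤ) × (ℕ × ℕ)) → V → ℕ → Finset (V × V) := fun i v d =>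
    if 4 * N * nm (E3d_vec i) < q0 * d then
      (({v} : Finset V) ×ˢ (box N).filter fun w => (d : ℤ) ∣ dot (E3d_vec i) w) else ∅
  have hs : ∀ i ∈ F, i.1.1 = 1 ∨ i.1.1 = -1 := by
    intro i hi
    have h1 := (mem_product.1 (mem_product.1 hi).1).1
    simpa using h1
  have hT : ∀ i ∈ I, ∀ v d, ((T i v d).card : ℝ) ≤
      2 * q0 * (4 * (N : ℝ) ^ 2 / ((max i.2.1 1 * max i.2.2 1 : ℕ) : ℝ) + 5 * N) := by
    intro i hi v d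
    obtain ⟨h1, h2, h3⟩ := mem_filter.1 hi
    by_cases h : 4 * N * nm (E3d_vec i) < q0 * d
    · simp only [T, if_pos h]
      rw [card_product, card_singleton, one_mul]
      refine (mult_count N q0 d hN hq _ h2 h).trans ?_
      have h4 := E3d_prod_le i (hs i h1) h2
      have h5 : (0 : ℝ) < ((max i.2.1 1 * max i.2.2 1 : ℕ) : ℝ) := by
        have : 0 < max i.2.1 1 * max i.2.2 1 :=
          Nat.mul_pos (lt_of_lt_of_le Nat.one_pos (le_max_right _ _)) (lt_of_lt_of_le Nat.one_pos (le_max_right _ _))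
        exact_mod_cast this
      have h6 : ((max i.2.1 1 * max i.2.2 1 : ℕ) : ℝ) ≤ (nm (E3d_vec i) : ℝ) := by exact_mod_cast h4
      gcongr
    · simp only [T, if_neg h, card_empty]
      rw [Nat.cast_zero]
      positivity
  have hsub : ((box2 N).filter fun u => ∃ (n : V) (d : ℕ), Prim n ∧ 0 < d ∧ d ≤ 3 * N ^ 2 ∧
      4 * N * nm n < q0 * d ∧ dsc n = 0 ∧ (d : ℤ) ∣ dot n u.1 ∧ (d : ℤ) ∣ dot n u.2 ∧ dot n u.1 ≠ 0) ⊆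
      I.biUnion fun i => (box N).biUnion fun v => ((dot (E3d_vec i) v).natAbs.divisors).biUnion fun d => T i v d := by
    intro u hu
    obtain ⟨h1, n, d, g1, g2, g3, g4, g5, g6, g7, g8⟩ := mem_filter.1 hu
    obtain ⟨hu1, hu2⟩ := mem_box2.1 h1
    have hν : nm n ≤ q0 * N := by
      have h6 : 4 * N * nm n < 4 * N * (q0 * N) := by
        calc 4 * N * nm n < q0 * d := g4
          _ ≤ q0 * (3 * N ^ 2) := Nat.mul_le_mul_left _ g3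
          _ = 3 * N * (q0 * N) := by ring
          _ ≤ 4 * N * (q0 * N) := by
              gcongr
              norm_num
      exact (lt_of_mul_lt_mul_left h6 (Nat.zero_le _)).le
    obtain ⟨i, hi1, hi2, hi3⟩ := E3d_exists g1 g5
    obtain ⟨ha, hb⟩ := E3d_sq_le i hi1
    rw [hi3] at ha hb
    have ha' : i.2.1 ≤ K := Nat.le_sqrt'.2 (ha.trans hν)
    have hb' : i.2.2 ≤ K := Nat.le_sqrt'.2 (hb.trans hν)
    have hiF : i ∈ F := by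
      rw [hF, mem_product, mem_product, mem_product]
      refine ⟨⟨?_, ?_⟩, ?_, ?_⟩
      · simpa using hi1
      · simpa using hi2
      · exact mem_range.2 (Nat.lt_succ_of_le ha')
      · exact mem_range.2 (Nat.lt_succ_of_le hb')
    rw [mem_biUnion]
    refine ⟨i, mem_filter.2 ⟨hiF, by rw [hi3]; exact g1, by rw [hi3]; exact hν⟩, ?_⟩
    rw [mem_biUnion]
    refine ⟨u.1, hu1, ?_⟩
    rw [mem_biUnion]
    refine ⟨d, ?_, ?_⟩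
    · rw [hi3, Nat.mem_divisors]
      exact ⟨Int.natCast_dvd.1 g6, Int.natAbs_ne_zero.2 g8⟩
    · have hok : 4 * N * nm (E3d_vec i) < q0 * d := by rw [hi3]; exact g4
      simp only [T, if_pos hok]
      rw [mem_product]
      exact ⟨mem_singleton.2 rfl, mem_filter.2 ⟨hu2, by rw [hi3]; exact g7⟩⟩
  have hD : ∀ i ∈ I, ∀ v ∈ box N, (((dot (E3d_vec i) v).natAbs.divisors).card : ℝ) ≤
      3 * C1 * q0 * (N : ℝ) ^ (1 / 4 : ℝ) := by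
    intro i hi v hv
    obtain ⟨h1, h2, h3⟩ := mem_filter.1 hi
    rcases Nat.eq_zero_or_pos (dot (E3d_vec i) v).natAbs with h0 | h0
    · rw [h0, Nat.divisors_zero, card_empty, Nat.cast_zero]
      positivity
    · refine (hdiv _ h0).trans ?_
      have h4 := E3d_dot (n := E3d_vec i) hv
      rw [Int.abs_eq_natAbs] at h4
      have h5 : (dot (E3d_vec i) v).natAbs ≤ 3 * N * nm (E3d_vec i) := by exact_mod_cast h4
      have h6 : (dot (E3d_vec i) v).natAbs ≤ 3 * q0 * N ^ 2 := by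
        calc _ ≤ 3 * N * nm (E3d_vec i) := h5
          _ ≤ 3 * N * (q0 * N) := Nat.mul_le_mul_left _ h3
          _ = 3 * q0 * N ^ 2 := by ring
      have h7 : ((dot (E3d_vec i) v).natAbs : ℝ) ≤ 3 * q0 * (N : ℝ) ^ 2 := by exact_mod_cast h6
      have h8 : ((3 : ℝ) * q0) ^ (1 / 8 : ℝ) ≤ 3 * q0 := by
        calc ((3 : ℝ) * q0) ^ (1 / 8 : ℝ) ≤ ((3 : ℝ) * q0) ^ (1 : ℝ) :=
              Real.rpow_le_rpow_of_exponent_le (by linarith) (by norm_num)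
          _ = 3 * q0 := Real.rpow_one _
      have h9 : ((N : ℝ) ^ 2) ^ (1 / 8 : ℝ) = (N : ℝ) ^ (1 / 4 : ℝ) := by
        rw [← Real.rpow_natCast, ← Real.rpow_mul (Nat.cast_nonneg _)]
        norm_num
      calc C1 * ((dot (E3d_vec i) v).natAbs : ℝ) ^ (1 / 8 : ℝ) ≤ C1 * (3 * q0 * (N : ℝ) ^ 2) ^ (1 / 8 : ℝ) := by
            refine mul_le_mul_of_nonneg_left ?_ (by linarith)
            exact Real.rpow_le_rpow (Nat.cast_nonneg _) h7 (by norm_num)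
        _ = C1 * (((3 : ℝ) * q0) ^ (1 / 8 : ℝ) * (N : ℝ) ^ (1 / 4 : ℝ)) := by
            rw [Real.mul_rpow (by positivity) (by positivity), h9]
        _ ≤ C1 * ((3 * q0) * (N : ℝ) ^ (1 / 4 : ℝ)) := by
            refine mul_le_mul_of_nonneg_left ?_ (by linarith)
            exact mul_le_mul_of_nonneg_right h8 (by positivity)
        _ = 3 * C1 * q0 * (N : ℝ) ^ (1 / 4 : ℝ) := by ring
  have hcard : (((box2 N).filter fun u => ∃ (n : V) (d : ℕ), Prim n ∧ 0 < d ∧ d ≤ 3 * N ^ 2 ∧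
      4 * N * nm n < q0 * d ∧ dsc n = 0 ∧ (d : ℤ) ∣ dot n u.1 ∧ (d : ℤ) ∣ dot n u.2 ∧ dot n u.1 ≠ 0).card : ℝ) ≤
      ∑ i ∈ I, ∑ v ∈ box N, ∑ d ∈ (dot (E3d_vec i) v).natAbs.divisors, ((T i v d).card : ℝ) := by
    have h1 := (card_le_card hsub).trans (card_biUnion_le.trans
      (sum_le_sum fun i _ => card_biUnion_le.trans (sum_le_sum fun v _ =>
        card_biUnion_le (s := (dot (E3d_vec i) v).natAbs.divisors) (t := fun d => T i v d))))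
    exact_mod_cast h1
  have hq4 : (q0 : ℝ) ^ (1 / 4 : ℝ) ≤ q0 := by
    calc (q0 : ℝ) ^ (1 / 4 : ℝ) ≤ (q0 : ℝ) ^ (1 : ℝ) :=
          Real.rpow_le_rpow_of_exponent_le hq' (by norm_num)
      _ = q0 := Real.rpow_one _
  have hN4 : (1 : ℝ) ≤ (N : ℝ) ^ (1 / 4 : ℝ) := Real.one_le_rpow hN' (by norm_num)
  have hKK : ((K : ℝ) ^ (1 / 4 : ℝ)) ^ 2 ≤ q0 * (N : ℝ) ^ (1 / 4 : ℝ) := by
    have h1 : ((K : ℝ) ^ (1 / 4 : ℝ)) ^ 2 = ((K : ℝ) ^ 2) ^ (1 / 4 : ℝ) := by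
      rw [← Real.rpow_natCast, ← Real.rpow_natCast, ← Real.rpow_mul (Nat.cast_nonneg _),
        ← Real.rpow_mul (Nat.cast_nonneg _), mul_comm]
    have h2 : ((K : ℝ) ^ 2) ≤ q0 * N := by exact_mod_cast hK2
    rw [h1]
    calc ((K : ℝ) ^ 2) ^ (1 / 4 : ℝ) ≤ (q0 * N : ℝ) ^ (1 / 4 : ℝ) :=
          Real.rpow_le_rpow (by positivity) h2 (by norm_num)
      _ = (q0 : ℝ) ^ (1 / 4 : ℝ) * (N : ℝ) ^ (1 / 4 : ℝ) := Real.mul_rpow (by positivity) (by positivity)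
      _ ≤ q0 * (N : ℝ) ^ (1 / 4 : ℝ) := mul_le_mul_of_nonneg_right hq4 (by positivity)
  have hK2' : (K : ℝ) ^ 2 ≤ q0 * N := by exact_mod_cast hK2
  have hsumF : ∑ i ∈ I, (4 * (N : ℝ) ^ 2 / ((max i.2.1 1 * max i.2.2 1 : ℕ) : ℝ) + 5 * N) ≤
      656 * q0 * (N : ℝ) ^ 2 * (N : ℝ) ^ (1 / 4 : ℝ) := by
    calc ∑ i ∈ I, (4 * (N : ℝ) ^ 2 / ((max i.2.1 1 * max i.2.2 1 : ℕ) : ℝ) + 5 * N) ≤
        ∑ i ∈ F, (4 * (N : ℝ) ^ 2 / ((max i.2.1 1 * max i.2.2 1 : ℕ) : ℝ) + 5 * N) :=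
          sum_le_sum_of_subset_of_nonneg (filter_subset _ _) fun i _ _ => by positivity
      _ ≤ 576 * (N : ℝ) ^ 2 * ((K : ℝ) ^ (1 / 4 : ℝ)) ^ 2 + 80 * (N : ℝ) * (K : ℝ) ^ 2 := E3d_sum N K hK0
      _ ≤ 576 * (N : ℝ) ^ 2 * (q0 * (N : ℝ) ^ (1 / 4 : ℝ)) + 80 * (N : ℝ) * (q0 * N) := by gcongr
      _ = 576 * q0 * (N : ℝ) ^ 2 * (N : ℝ) ^ (1 / 4 : ℝ) + 80 * q0 * (N : ℝ) ^ 2 * 1 := by ring
      _ ≤ 576 * q0 * (N : ℝ) ^ 2 * (N : ℝ) ^ (1 / 4 : ℝ) + 80 * q0 * (N : ℝ) ^ 2 * (N : ℝ) ^ (1 / 4 : ℝ) := by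
          gcongr
      _ = 656 * q0 * (N : ℝ) ^ 2 * (N : ℝ) ^ (1 / 4 : ℝ) := by ring
  have hpow : (N : ℝ) ^ (11 / 2 : ℝ) = (N : ℝ) ^ (5 : ℕ) * ((N : ℝ) ^ (1 / 4 : ℝ) * (N : ℝ) ^ (1 / 4 : ℝ)) := by
    rw [← Real.rpow_natCast, ← Real.rpow_add (by linarith), ← Real.rpow_add (by linarith)]
    norm_num
  calc _ ≤ ∑ i ∈ I, ∑ v ∈ box N, ∑ d ∈ (dot (E3d_vec i) v).natAbs.divisors, ((T i v d).card : ℝ) := hcard
    _ ≤ ∑ i ∈ I, ∑ v ∈ box N, ∑ d ∈ (dot (E3d_vec i) v).natAbs.divisors,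
          2 * q0 * (4 * (N : ℝ) ^ 2 / ((max i.2.1 1 * max i.2.2 1 : ℕ) : ℝ) + 5 * N) :=
        sum_le_sum fun i hi => sum_le_sum fun v _ => sum_le_sum fun d _ => hT i hi v d
    _ = ∑ i ∈ I, ∑ v ∈ box N, (((dot (E3d_vec i) v).natAbs.divisors).card : ℝ) *
          (2 * q0 * (4 * (N : ℝ) ^ 2 / ((max i.2.1 1 * max i.2.2 1 : ℕ) : ℝ) + 5 * N)) := by
        refine sum_congr rfl fun i _ => sum_congr rfl fun v _ => ?_
        rw [sum_const, nsmul_eq_mul]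
    _ ≤ ∑ i ∈ I, ∑ v ∈ box N, (3 * C1 * q0 * (N : ℝ) ^ (1 / 4 : ℝ)) *
          (2 * q0 * (4 * (N : ℝ) ^ 2 / ((max i.2.1 1 * max i.2.2 1 : ℕ) : ℝ) + 5 * N)) :=
        sum_le_sum fun i hi => sum_le_sum fun v hv => mul_le_mul_of_nonneg_right (hD i hi v hv) (by positivity)
    _ = ((box N).card : ℝ) * ((3 * C1 * q0 * (N : ℝ) ^ (1 / 4 : ℝ)) * (2 * q0 *
          ∑ i ∈ I, (4 * (N : ℝ) ^ 2 / ((max i.2.1 1 * max i.2.2 1 : ℕ) : ℝ) + 5 * N))) := by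
        rw [mul_sum, mul_sum, mul_sum]
        refine sum_congr rfl fun i _ => ?_
        rw [sum_const, nsmul_eq_mul]
    _ ≤ (27 * (N : ℝ) ^ 3) * ((3 * C1 * q0 * (N : ℝ) ^ (1 / 4 : ℝ)) * (2 * q0 *
          (656 * q0 * (N : ℝ) ^ 2 * (N : ℝ) ^ (1 / 4 : ℝ)))) := by
        have h1 := E3d_card_box N hN
        have h2 : (0 : ℝ) ≤ ∑ i ∈ I, (4 * (N : ℝ) ^ 2 / ((max i.2.1 1 * max i.2.2 1 : ℕ) : ℝ) + 5 * N) :=
          sum_nonneg fun i _ => by positivity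
        gcongr
    _ = 106272 * C1 * (q0 : ℝ) ^ 3 * (N : ℝ) ^ (11 / 2 : ℝ) := by
        rw [hpow]
        ring
    _ ≤ 106272 * C1 * (q0 : ℝ) ^ 8 * (N : ℝ) ^ (11 / 2 : ℝ) := by
        have h1 : (q0 : ℝ) ^ 3 ≤ (q0 : ℝ) ^ 8 := pow_le_pow_right₀ hq' (by norm_num)
        gcongr

/-- (E3c3) Proof. `res ≠ 0`, so `dot n u.1 ≠ 0` or `dot n u.2 ≠ 0` (E3c2); by symmetry let `dot n u.1 ≠ 0`. Let `ν = nm n`, `4 N ν < q0 d ≤ 3 q0 N²`, so `ν < q0 N`. For given `n` and `v = u.1 ∈ box N`, `d` divides `dot n v ≠ 0`,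
`|dot n v| ≤ 3 N ν ≤ 3 q0 N²`, so at most `τ ≤ C₁ (3 q0 N²)^{1/8}` values of `d`, and for each of them at most `2 q0 (4N²/ν + 5N)` vectors `w = u.2` (`mult_count`). The number of `v` is `≤ 27 N³`. By E3c1 the vectors `n` are
given by `(s, a, b)` with `ν = max(a², b²)`: `∑_n (4N²/ν + 5N) ≤ 2 ∑_{(a,b) ≠ 0, max(a²,b²) ≤ q0 N} (4N²/max(a,b)² + 5N) ≤ 2 ∑_{j=1}^{q0 N} 8 j (4N²/j²) + 2 · 5N (3 √(q0 N))²` (crude: number of `(a,b)` with `max = j` is `8j`, `j ≤ √(q0N)`)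
`≤ 64 N² (1 + log(q0 N)) + 90 q0 N² ≤ C q0 N² (1 + log (q0 N))`. Total `≤ C q0^3 N^{5} (q0 N)^{1/4} (1 + log(q0 N)) ≤ C q0^8 N^{11/2}`. -/
theorem exc3_card_eq : ∃ C : ℝ, 0 < C ∧ ∀ N q0 : ℕ, 0 < N → 0 < q0 →
    (((box2 N).filter fun u => res u.1 u.2 ≠ 0 ∧ ∃ (n : V) (d : ℕ), Prim n ∧ 0 < d ∧ d ≤ 3 * N ^ 2 ∧
      4 * N * nm n < q0 * d ∧ dsc n = 0 ∧ (d : ℤ) ∣ dot n u.1 ∧ (d : ℤ) ∣ dot n u.2).card : ℝ) ≤
      C * (q0 : ℝ) ^ 8 * (N : ℝ) ^ (11 / 2 : ℝ) := by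
  obtain ⟨C, hC, h⟩ := E3d_main
  refine ⟨2 * C, by positivity, ?_⟩
  intro N q0 hN hq
  have h0 := h N q0 hN hq
  set A : Finset (V × V) := (box2 N).filter fun u => ∃ (n : V) (d : ℕ), Prim n ∧ 0 < d ∧ d ≤ 3 * N ^ 2 ∧
      4 * N * nm n < q0 * d ∧ dsc n = 0 ∧ (d : ℤ) ∣ dot n u.1 ∧ (d : ℤ) ∣ dot n u.2 ∧ dot n u.1 ≠ 0 with hA
  have hsub : ((box2 N).filter fun u => res u.1 u.2 ≠ 0 ∧ ∃ (n : V) (d : ℕ), Prim n ∧ 0 < d ∧ d ≤ 3 * N ^ 2 ∧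
      4 * N * nm n < q0 * d ∧ dsc n = 0 ∧ (d : ℤ) ∣ dot n u.1 ∧ (d : ℤ) ∣ dot n u.2) ⊆ A ∪ A.image Prod.swap := by
    intro u hu
    obtain ⟨h1, h2, n, d, g1, g2, g3, g4, g5, g6, g7⟩ := mem_filter.1 hu
    obtain ⟨k1, k2⟩ := mem_box2.1 h1
    rw [mem_union]
    by_cases g8 : dot n u.1 = 0
    · right
      have g9 : dot n u.2 ≠ 0 := fun g9 => h2 (res_zero_of n g1 g5 u.1 u.2 g8 g9)
      rw [mem_image]
      refine ⟨(u.2, u.1), ?_, rfl⟩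
      rw [hA]
      exact mem_filter.2 ⟨mem_box2.2 ⟨k2, k1⟩, n, d, g1, g2, g3, g4, g5, g7, g6, g9⟩
    · left
      rw [hA]
      exact mem_filter.2 ⟨h1, n, d, g1, g2, g3, g4, g5, g6, g7, g8⟩
  have h1 : ((box2 N).filter fun u => res u.1 u.2 ≠ 0 ∧ ∃ (n : V) (d : ℕ), Prim n ∧ 0 < d ∧ d ≤ 3 * N ^ 2 ∧
      4 * N * nm n < q0 * d ∧ dsc n = 0 ∧ (d : ℤ) ∣ dot n u.1 ∧ (d : ℤ) ∣ dot n u.2).card ≤ A.card + A.card := by
    calc _ ≤ (A ∪ A.image Prod.swap).card := card_le_card hsub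
      _ ≤ A.card + (A.image Prod.swap).card := card_union_le _ _
      _ ≤ A.card + A.card := Nat.add_le_add_left card_image_le _
  have h2 : (((box2 N).filter fun u => res u.1 u.2 ≠ 0 ∧ ∃ (n : V) (d : ℕ), Prim n ∧ 0 < d ∧ d ≤ 3 * N ^ 2 ∧
      4 * N * nm n < q0 * d ∧ dsc n = 0 ∧ (d : ℤ) ∣ dot n u.1 ∧ (d : ℤ) ∣ dot n u.2).card : ℝ) ≤
      (A.card : ℝ) + (A.card : ℝ) := by exact_mod_cast h1
  calc _ ≤ (A.card : ℝ) + (A.card : ℝ) := h2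
    _ ≤ C * (q0 : ℝ) ^ 8 * (N : ℝ) ^ (11 / 2 : ℝ) + C * (q0 : ℝ) ^ 8 * (N : ℝ) ^ (11 / 2 : ℝ) := add_le_add h0 h0
    _ = 2 * C * (q0 : ℝ) ^ 8 * (N : ℝ) ^ (11 / 2 : ℝ) := by ring

end FGO
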