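import Pool.Agent.Lib.MP_1ad228_ntG.Defs

/-! JOB Sw: a divisor `β` of the resultant may be replaced by one with `δ² ≤ |res|`. -/

set_option autoImplicit false

namespace FGO

open Finset

private theorem Sw_aux1 {p : ℕ} (hp : p.Prime) {x : ℤ} (hx : ¬ (p : ℤ) ∣ x) : Int.gcd x p = 1 := by
  have h : Nat.Coprime p x.natAbs :=
    (Nat.Prime.coprime_iff_not_dvd hp).2 fun h => hx (Int.natCast_dvd.2 h)
  rw [Int.gcd_comm]
  exact h

private theorem Sw_aux2 {p : ℕ} (hp : p.Prime) {x y : ℤ} (hx : ¬ (p : ℤ) ∣ x)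
    (hy : ¬ (p : ℤ) ∣ y) : ¬ (p : ℤ) ∣ x * y := fun h =>
  ((Int.Prime.dvd_mul' hp h).elim hx hy)

/-- (Sw1) At a prime `p ∣ disc v` the resultant is a square.
Proof. `16 a² res v w = T² + disc v * (...)` with `T = A b² - 2 a b B + 4 a² C` (`v = (a, b, c)`, `w = (A, B, C)`; find the cofactor with `ring`). If `p ≠ 2`, `p ∤ a`, `p ∤ res`:
`res * (4a)² ≡ T² mod p`, `p ∤ T`, so `jacobiSym (res) p = 1` (`jacobiSym.mod_left`, `jacobiSym.mul_left`, `jacobiSym.sq_one`). -/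
theorem res_jac (v w : V) (p : ℕ) (hp : p.Prime) (h2 : p ≠ 2) (hR : ¬ (p : ℤ) ∣ res v w) (hd : (p : ℤ) ∣ disc v)
    (ha : ¬ (p : ℤ) ∣ v.1) : jacobiSym (res v w) p = 1 := by
  obtain ⟨α, hα⟩ : ∃ α, α = v.1 * w.2.1 - w.1 * v.2.1 := ⟨_, rfl⟩
  obtain ⟨X, hX⟩ : ∃ X, X = 2 * v.1 * (v.1 * w.2.2 - w.1 * v.2.2) - v.2.1 * α := ⟨_, rfl⟩
  have key : (2 * v.1) ^ 2 * res v w = X ^ 2 - disc v * α ^ 2 := by
    rw [hX, hα]
    unfold res disc
    ring
  have hp2 : ¬ (p : ℤ) ∣ 2 := by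
    intro h
    have h3 : p ∣ 2 := by exact_mod_cast h
    exact h2 ((Nat.prime_dvd_prime_iff_eq hp Nat.prime_two).1 h3)
  have h2a : ¬ (p : ℤ) ∣ 2 * v.1 := Sw_aux2 hp hp2 ha
  have hXp : ¬ (p : ℤ) ∣ X := by
    intro h
    have h3 : (p : ℤ) ∣ (2 * v.1) ^ 2 * res v w := by
      rw [key]
      exact dvd_sub (dvd_pow h (by norm_num)) (hd.mul_right _)
    rw [pow_two] at h3
    exact Sw_aux2 hp (Sw_aux2 hp h2a h2a) hR h3
  have h4 : jacobiSym ((2 * v.1) ^ 2 * res v w) p = jacobiSym (X ^ 2) p := by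
    apply jacobiSym.mod_left'
    rw [key]
    apply Int.ModEq.symm
    rw [Int.modEq_iff_dvd]
    have e : X ^ 2 - disc v * α ^ 2 - X ^ 2 = -(disc v * α ^ 2) := by ring
    rw [e]
    exact (hd.mul_right _).neg_right
  rw [jacobiSym.mul_left, jacobiSym.sq_one' (Sw_aux1 hp h2a), jacobiSym.sq_one' (Sw_aux1 hp hXp),
    one_mul] at h4
  exact h4

private theorem Sw_aux3 {v w : V} {β δ m : ℤ} (h : res v w = β * (δ * m ^ 2)) (h1 : Cnd β v w) :
    Cnd δ v w := by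
  intro p hp h2 hR hd hd2 ha
  have h3 := h1 p hp h2 hR hd hd2 ha
  have h4 := res_jac v w p hp h2 hR hd ha
  have hβ : ¬ (p : ℤ) ∣ β := fun h5 => hR (by rw [h]; exact h5.mul_right _)
  have hm : ¬ (p : ℤ) ∣ m := fun h5 => hR (by
    rw [h]
    exact ((dvd_pow h5 (by norm_num)).mul_left _).mul_left _)
  rw [h, jacobiSym.mul_left, jacobiSym.mul_left, jacobiSym.sq_one' (Sw_aux1 hp hm), mul_one] at h4
  have h5 := jacobiSym.sq_one (Sw_aux1 hp hβ)
  rw [jacobiSym.mul_left] at h3 ⊢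
  have h6 : jacobiSym δ p = jacobiSym β p := by
    have e : jacobiSym δ p = jacobiSym β p ^ 2 * jacobiSym δ p := by rw [h5, one_mul]
    rw [e, pow_two, mul_assoc, h4, mul_one]
  rw [h6]
  exact h3

/-- (Sw2) Proof. If `β² ≤ |res|` take `δ = β`. Otherwise `res = β β'`, `β'² ≤ |res|` (as `|β'| < |β|`). Write `β' = s m²` with `s` squarefree (`Nat.sq_mul_squarefree` for `natAbs`,
the sign into `s`), `m ≠ 0`; `δ = s`: `δ ∣ β' ∣ res`, `δ² ≤ β'²`. For the conditions at `p` (`p ∤ res`, so `p ∤ β, s, m`): `jacobiSym` is multiplicative in the numerator: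
`1 = J(res) = J(β) J(β')` (Sw1), `J(β') = J(s) J(m)² = J(s)`, all values are `± 1`, so `J(s) = J(β)` and `J(s a) = J(β a) = 1`. For `Cnd δ w v` use `res w v = res v w`. -/
theorem switch (v w : V) (hR : res v w ≠ 0) (β : ℤ) (hβ : Squarefree β) (hd : β ∣ res v w) (h1 : Cnd β v w)
    (h2 : Cnd β w v) : Bad (v, w) := by
  by_cases hle : β ^ 2 ≤ |res v w|
  · exact ⟨hR, β, hβ, hd, hle, h1, h2⟩
  rw [not_le] at hle
  obtain ⟨β', hβ'⟩ := hd
  have hβ'0 : β' ≠ 0 := by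
    rintro rfl
    exact hR (by rw [hβ', mul_zero])
  have hβ0 : β ≠ 0 := by
    rintro rfl
    exact hR (by rw [hβ', zero_mul])
  obtain ⟨s, m, hsm, hs⟩ := Nat.sq_mul_squarefree β'.natAbs
  obtain ⟨δ, hδ⟩ : ∃ δ : ℤ, δ = β'.sign * s := ⟨_, rfl⟩
  have hβδ : β' = δ * (m : ℤ) ^ 2 := by
    have h3 : β' = β'.sign * (β'.natAbs : ℤ) := (Int.sign_mul_natAbs β').symm
    rw [hδ]
    conv_lhs => rw [h3, ← hsm]
    push_cast
    ring
  have hδn : δ.natAbs = s := by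
    rw [hδ, Int.natAbs_mul, Int.natAbs_sign_of_ne_zero hβ'0, one_mul, Int.natAbs_natCast]
  have hsf : Squarefree δ := by
    rw [← Int.squarefree_natAbs, hδn]
    exact hs
  have hres : res v w = β * (δ * (m : ℤ) ^ 2) := by rw [hβ', hβδ]
  have hm0 : (m : ℤ) ≠ 0 := by
    intro h
    rw [h] at hβδ
    apply hβ'0
    rw [hβδ]
    ring
  refine ⟨hR, δ, hsf, ?_, ?_, Sw_aux3 hres h1, Sw_aux3 (by rw [res_symm, hres]) h2⟩
  · rw [hres]
    exact ⟨β * (m : ℤ) ^ 2, by ring⟩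
  · have h3 : |β'| < |β| := by
      rw [hβ', abs_mul, ← sq_abs, pow_two] at hle
      exact lt_of_mul_lt_mul_left hle (abs_nonneg β)
    have h4 : δ ^ 2 ≤ β' ^ 2 := by
      have h5 : (1 : ℤ) ≤ (m : ℤ) ^ 2 := by
        have : 0 < (m : ℤ) ^ 2 := by positivity
        linarith
      rw [hβδ, mul_pow]
      exact le_mul_of_one_le_right (sq_nonneg _) (one_le_pow₀ h5)
    calc δ ^ 2 ≤ β' ^ 2 := h4
      _ = |β'| * |β'| := by rw [← sq_abs, pow_two]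
      _ ≤ |β| * |β'| := mul_le_mul_of_nonneg_right h3.le (abs_nonneg _)
      _ = |res v w| := by rw [hβ', abs_mul]

end FGO
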