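import Pool.Agent.Lib.MP_1ad228_nt.GTGlob
import Pool.Agent.Lib.MP_1ad228_ntG.Al3d
import Pool.Agent.Lib.MP_1ad228_ntG.Sw
import Pool.Agent.Lib.MP_1ad228_ntG.Z0
import Pool.Agent.Lib.MP_1ad228_ntG.An2

/-! JOB Fin: first half of the theorem. -/

set_option autoImplicit false

open Classical

namespace FGO

open Finset ZG

/-- (Fin1) Proof. `res ≠ 0` and `Adelic`: `adelic_arith`, `switch`. `Global` implies `Adelic` by `ZG.glob` (`GTGlob.lean`; `hR` for `![bq v, bq w]` from `res v w ≠ 0`, `res_symm`, `Fin.forall_fin_two`; `D = 1 ≠ 0`). -/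
theorem bad_of (v w : V) (h : ¬ (¬ Adelic ![bq v, bq w] 1 ∧ ¬ Global ![bq v, bq w] 1)) :
    res v w = 0 ∨ Bad (v, w) := by
  by_cases hR : res v w = 0
  · exact Or.inl hR
  · right
    have hA : Adelic ![bq v, bq w] 1 := by
      by_contra hA
      apply h
      refine ⟨hA, fun hG => hA (glob ?_ one_ne_zero hG)⟩
      intro i j hij
      fin_cases i <;> fin_cases j
      · exact absurd rfl hij
      · exact hR
      · have h1 : res w v ≠ 0 := by rw [res_symm]; exact hR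
        exact h1
      · exact absurd rfl hij
    obtain ⟨β, h1, h2, h3, h4⟩ := adelic_arith v w hR hA
    exact switch v w hR β h1 h2 h3 h4

theorem Fin_LL (N : ℕ) (hN : 16 ≤ N) : 0 < Real.log (Real.log N) ∧ Real.log (Real.log N) ≤ N := by
  have hN' : (16 : ℝ) ≤ (N : ℝ) := by exact_mod_cast hN
  have h1 : 1 < Real.log N := by
    rw [Real.lt_log_iff_exp_lt (by linarith)]
    have := Real.exp_one_lt_d9
    linarith
  refine ⟨Real.log_pos h1, ?_⟩
  have h2 : Real.log (Real.log N) ≤ Real.log N := by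
    have := Real.log_le_sub_one_of_pos (show 0 < Real.log N by linarith)
    linarith
  have h3 : Real.log N ≤ N := by
    have := Real.log_le_sub_one_of_pos (show (0 : ℝ) < N by linarith)
    linarith
  linarith

/-- (Fin2) Proof. `q ↦ ((q.1.A, q.1.B, q.1.C), (q.2.A, q.2.B, q.2.C))` is injective from the subtype into `{u ∈ box2 N : res = 0} ∪ {u ∈ box2 N : Bad u}` (`bad_of`; `bq (q.1.A, ..) = q.1`: `rfl` after `cases`), so
`Nat.card ≤` the sum of the two cardinalities (`Nat.card_le_card_of_injective` into the subtype of the finset, finite), `res_zero_card`, `bad_card`; `729 N^5 ≤ 729 N^6/LL` since `LL ≤ log N ≤ N`. -/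
theorem part1 : ∃ C : ℝ, ∀ N : ℕ, 16 ≤ N →
    (Nat.card {q : BQ × BQ // InBox N q ∧ ¬ (¬ Adelic ![q.1, q.2] 1 ∧ ¬ Global ![q.1, q.2] 1)} : ℝ) ≤
      C * (N : ℝ) ^ 6 / Real.log (Real.log N) := by
  obtain ⟨C, hC, hb⟩ := bad_card
  refine ⟨C + 729, fun N hN => ?_⟩
  obtain ⟨hL, hLN⟩ := Fin_LL N hN
  set S : Finset (V × V) := ((box2 N).filter fun u => res u.1 u.2 = 0) ∪ (box2 N).filter Bad with hS
  have hle : Nat.card {q : BQ × BQ // InBox N q ∧ ¬ (¬ Adelic ![q.1, q.2] 1 ∧ ¬ Global ![q.1, q.2] 1)} ≤ S.card := by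
    have hmem : ∀ q : {q : BQ × BQ // InBox N q ∧ ¬ (¬ Adelic ![q.1, q.2] 1 ∧ ¬ Global ![q.1, q.2] 1)},
        (((q.1.1.A, q.1.1.B, q.1.1.C), (q.1.2.A, q.1.2.B, q.1.2.C)) : V × V) ∈ S := by
      rintro ⟨⟨g, h⟩, hbx, hq⟩
      have hm : (((g.A, g.B, g.C), (h.A, h.B, h.C)) : V × V) ∈ box2 N := by
        rw [mem_box2, mem_box, mem_box]
        exact hbx
      rcases bad_of (g.A, g.B, g.C) (h.A, h.B, h.C) hq with h1 | h1
      · exact mem_union_left _ (mem_filter.2 ⟨hm, h1⟩)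
      · exact mem_union_right _ (mem_filter.2 ⟨hm, h1⟩)
    have hcard : Nat.card S = S.card := by rw [Nat.card_eq_fintype_card, Fintype.card_coe]
    rw [← hcard]
    refine Nat.card_le_card_of_injective (fun q => (⟨_, hmem q⟩ : S)) ?_
    rintro ⟨⟨⟨a, b, c⟩, ⟨d, e, f⟩⟩, hq⟩ ⟨⟨⟨a', b', c'⟩, ⟨d', e', f'⟩⟩, hq'⟩ heq
    have h1 := congrArg Subtype.val heq
    simp only [Prod.mk.injEq] at h1
    obtain ⟨⟨h1, h2, h3⟩, h4, h5, h6⟩ := h1
    subst h1 h2 h3 h4 h5 h6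
    rfl
  have hS2 : (S.card : ℝ) ≤ 729 * (N : ℝ) ^ 5 + C * (N : ℝ) ^ 6 / Real.log (Real.log N) := by
    have h1 : (S.card : ℝ) ≤ (((box2 N).filter fun u => res u.1 u.2 = 0).card : ℝ) + (((box2 N).filter Bad).card : ℝ) := by
      exact_mod_cast card_union_le _ _
    exact h1.trans (add_le_add (res_zero_card N (by omega)) (hb N hN))
  have h5 : 729 * (N : ℝ) ^ 5 ≤ 729 * (N : ℝ) ^ 6 / Real.log (Real.log N) := by
    rw [le_div_iff₀ hL]
    have h6 : 729 * (N : ℝ) ^ 5 * Real.log (Real.log N) ≤ 729 * (N : ℝ) ^ 5 * N :=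
      mul_le_mul_of_nonneg_left hLN (by positivity)
    calc 729 * (N : ℝ) ^ 5 * Real.log (Real.log N) ≤ 729 * (N : ℝ) ^ 5 * N := h6
      _ = 729 * (N : ℝ) ^ 6 := by ring
  calc (Nat.card {q : BQ × BQ // InBox N q ∧ ¬ (¬ Adelic ![q.1, q.2] 1 ∧ ¬ Global ![q.1, q.2] 1)} : ℝ)
      ≤ (S.card : ℝ) := by exact_mod_cast hle
    _ ≤ 729 * (N : ℝ) ^ 5 + C * (N : ℝ) ^ 6 / Real.log (Real.log N) := hS2
    _ ≤ 729 * (N : ℝ) ^ 6 / Real.log (Real.log N) + C * (N : ℝ) ^ 6 / Real.log (Real.log N) := by linarith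
    _ = (C + 729) * (N : ℝ) ^ 6 / Real.log (Real.log N) := by ring

end FGO
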