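import Pool.Agent.Lib.MP_1ad228_ntG.Tr0

/-! JOB Tr: transformation of the character sum of a product of two quadratic polynomials (checked by computer for p = 7, 11, 13). -/

set_option autoImplicit false

namespace FGO

open Finset

private theorem Tr_fib {F : Type*} [Fintype F] [DecidableEq F] (s : Finset F) (u : F → F)
    (φ : F → ℤ) :
    ∑ x ∈ s, φ (u x) = ∑ y, φ y * ((s.filter fun x => u x = y).card : ℤ) := by
  rw [← Finset.sum_fiberwise s u (fun x => φ (u x))]
  apply Finset.sum_congr rfl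
  intro y _
  have h1 : ∑ x ∈ s.filter (fun x => u x = y), φ (u x) =
      ∑ _x ∈ s.filter (fun x => u x = y), φ y := by
    apply Finset.sum_congr rfl
    intro x hx
    rw [(Finset.mem_filter.1 hx).2]
  rw [h1, Finset.sum_const, nsmul_eq_mul, mul_comm]

private theorem Tr_sum_neg (p : ℕ) [Fact p.Prime] (hp : p ≠ 2) :
    ∑ s : ZMod p, quadraticChar (ZMod p) (-s) = 0 := by
  have h1 : ∑ s : ZMod p, quadraticChar (ZMod p) (-s) = ∑ s : ZMod p, quadraticChar (ZMod p) s :=
    Fintype.sum_equiv (Equiv.neg (ZMod p)) _ _ (fun s => rfl)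
  rw [h1]
  apply quadraticChar_sum_zero
  rw [ZMod.ringChar_zmod_n]
  exact hp

private theorem Tr_ne (p : ℕ) [Fact p.Prime] {d : ZMod p}
    (h1 : quadraticChar (ZMod p) d = -1) : d ≠ 0 := by
  rintro rfl
  rw [quadraticChar_zero] at h1
  norm_num at h1

private theorem Tr_lead (p : ℕ) [Fact p.Prime] {a b c : ZMod p}
    (h1 : quadraticChar (ZMod p) (b ^ 2 - 4 * a * c) = -1) : a ≠ 0 := by
  rintro rfl
  have h2 := quadraticChar_neg_one_iff_not_isSquare.1 h1
  exact h2 ⟨b, by ring⟩

private theorem Tr_val (p : ℕ) [Fact p.Prime] {a b c : ZMod p}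
    (h1 : quadraticChar (ZMod p) (b ^ 2 - 4 * a * c) = -1) (x : ZMod p) :
    a * x ^ 2 + b * x + c ≠ 0 := by
  intro hx
  have h2 := quadraticChar_neg_one_iff_not_isSquare.1 h1
  apply h2
  refine ⟨2 * a * x + b, ?_⟩
  have h3 : (2 * a * x + b) * (2 * a * x + b) - (b ^ 2 - 4 * a * c) =
      4 * a * (a * x ^ 2 + b * x + c) := by ring
  rw [hx, mul_zero] at h3
  exact (sub_eq_zero.1 h3).symm

private theorem Tr_count (p : ℕ) [Fact p.Prime] (hp : p ≠ 2) (a b c : ZMod p)
    (h : ¬ (a = 0 ∧ b = 0 ∧ c = 0)) :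
    ((univ.filter fun x : ZMod p => a * x ^ 2 + b * x + c = 0).card : ℤ) +
      (if a = 0 then 1 else 0) = 1 + quadraticChar (ZMod p) (b ^ 2 - 4 * a * c) := by
  by_cases ha : a = 0
  · subst ha
    by_cases hb : b = 0
    · subst hb
      have hc : c ≠ 0 := fun hc => h ⟨rfl, rfl, hc⟩
      have h1 : (univ.filter fun x : ZMod p => 0 * x ^ 2 + 0 * x + c = 0) = ∅ := by
        apply Finset.filter_eq_empty_iff.2
        intro x _ hx
        apply hc
        rw [← hx]; ring
      rw [h1]
      simp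
    · have h1 : (univ.filter fun x : ZMod p => 0 * x ^ 2 + b * x + c = 0) = {-c / b} := by
        ext x
        simp only [mem_filter, mem_univ, true_and, mem_singleton]
        constructor
        · intro hx
          rw [eq_div_iff hb]
          linear_combination hx
        · rintro rfl
          field_simp
          ring
      rw [h1]
      have h2 : b ^ 2 - 4 * 0 * c = b ^ 2 := by ring
      rw [h2, quadraticChar_sq_one' hb]
      simp
  · rw [if_neg ha, add_zero, card_roots p hp a b c ha]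

/-- (Tr2) Proof. `g = (a, b, c)`, `h = (A, B, C)` have no zeros `(x : z)` (their discriminants `d`, `D` are nonresidues; in particular `a, A ≠ 0`). `χ = quadraticChar`. Let `s = - h(x)/g(x) ≠ 0`, `χ(g(x) h(x)) = χ(-s)` since `g h = - s g²`; the point at infinity
`(1 : 0)` has `s = -A/a`, `χ(aA) = χ(-s)`. Sort by `s ∈ F*`: the number of `x ∈ F` with `s g(x) + h(x) = 0` plus `1` if `s a + A = 0` is `1 + χ(Δ(s))` where `Δ(s) = (s b + B)² - 4 (s a + A)(s c + C) = d s² + 2 e s + D`:
if `s a + A ≠ 0` this is `card_roots`; if `s a + A = 0` and `s b + B ≠ 0` there is one finite root and infinity, `1 + χ(square) = 2`; if `s a + A = s b + B = 0` then `s c + C ≠ 0` (otherwise `res = 0`), no finite root, infinity: `1 = 1 + χ(0)`.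
So the left side is `∑_{s ≠ 0} χ(-s)(1 + χ(Δ(s))) = ∑_{s ≠ 0} χ(-s Δ(s))` (`∑ χ = 0`: `quadraticChar_sum_zero`). Next, for `s ≠ 0`, `χ(-s Δ(s)) = χ(-Δ(s)/s)`; sort by `t = Δ(s)/s`: `#{s ≠ 0 : d s² + (2e - t) s + D = 0} = 1 + χ((2e-t)² - 4dD)`
(`card_roots`, all roots are `≠ 0` as `D ≠ 0`). So it equals `∑_t χ(-t)(1 + χ((t - 2e)² - 4dD)) = ∑_t χ(-t ((t-2e)² - 4dD))`. -/
theorem sum_transform (p : ℕ) [Fact p.Prime] (hp : p ≠ 2) (a b c A B C : ZMod p)
    (h1 : quadraticChar (ZMod p) (b ^ 2 - 4 * a * c) = -1) (h2 : quadraticChar (ZMod p) (B ^ 2 - 4 * A * C) = -1)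
    (hR : (a * C - A * c) ^ 2 - (a * B - A * b) * (b * C - B * c) ≠ 0) :
    (∑ x : ZMod p, quadraticChar (ZMod p) ((a * x ^ 2 + b * x + c) * (A * x ^ 2 + B * x + C))) +
      quadraticChar (ZMod p) (a * A) =
    ∑ t : ZMod p, quadraticChar (ZMod p) (-t * ((t - 2 * (b * B - 2 * a * C - 2 * A * c)) ^ 2 -
      4 * (b ^ 2 - 4 * a * c) * (B ^ 2 - 4 * A * C))) := by
  have ha : a ≠ 0 := Tr_lead p h1
  have hA : A ≠ 0 := Tr_lead p h2
  have hg := Tr_val p h1
  have hh := Tr_val p h2
  have hd := Tr_ne p h1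
  have hD := Tr_ne p h2
  set χ := quadraticChar (ZMod p) with hχ
  set d := b ^ 2 - 4 * a * c with hddef
  set D := B ^ 2 - 4 * A * C with hDdef
  set e := b * B - 2 * a * C - 2 * A * c with hedef
  -- first transformation
  have s1 : ∑ x : ZMod p, χ ((a * x ^ 2 + b * x + c) * (A * x ^ 2 + B * x + C)) =
      ∑ s : ZMod p, χ (-s) * ((univ.filter fun x : ZMod p =>
        (s * a + A) * x ^ 2 + (s * b + B) * x + (s * c + C) = 0).card : ℤ) := by
    have e1 : ∀ x : ZMod p, χ ((a * x ^ 2 + b * x + c) * (A * x ^ 2 + B * x + C)) =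
        χ (-(-(A * x ^ 2 + B * x + C) / (a * x ^ 2 + b * x + c))) := by
      intro x
      have e2 : (a * x ^ 2 + b * x + c) * (A * x ^ 2 + B * x + C) =
          (a * x ^ 2 + b * x + c) ^ 2 *
            (-(-(A * x ^ 2 + B * x + C) / (a * x ^ 2 + b * x + c))) := by
        have := hg x
        field_simp
      rw [e2, map_mul, hχ, quadraticChar_sq_one' (hg x), one_mul]
    rw [Finset.sum_congr rfl fun x _ => e1 x]
    rw [Tr_fib univ (fun x => -(A * x ^ 2 + B * x + C) / (a * x ^ 2 + b * x + c))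
      (fun s => χ (-s))]
    apply Finset.sum_congr rfl
    intro s _
    congr 3
    ext x
    simp only [mem_filter, mem_univ, true_and]
    rw [div_eq_iff (hg x)]
    constructor
    · intro h; linear_combination -h
    · intro h; linear_combination -h
  have s2 : χ (a * A) = ∑ s : ZMod p, χ (-s) * (if s * a + A = 0 then 1 else 0) := by
    rw [Finset.sum_eq_single (-A / a)]
    · have e1 : -A / a * a + A = 0 := by field_simp; ring
      rw [if_pos e1, mul_one]
      have e2 : a * A = a ^ 2 * (-(-A / a)) := by field_simp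
      rw [e2, map_mul, hχ, quadraticChar_sq_one' ha, one_mul]
    · intro s _ hs
      rw [if_neg, mul_zero]
      intro h
      apply hs
      rw [eq_div_iff ha]
      linear_combination h
    · intro h; exact absurd (mem_univ _) h
  have s3 : ∀ s : ZMod p, ((univ.filter fun x : ZMod p =>
        (s * a + A) * x ^ 2 + (s * b + B) * x + (s * c + C) = 0).card : ℤ) +
        (if s * a + A = 0 then 1 else 0) = 1 + χ (d * s ^ 2 + 2 * e * s + D) := by
    intro s
    rw [Tr_count p hp (s * a + A) (s * b + B) (s * c + C)]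
    · congr 2
      rw [hddef, hDdef, hedef]; ring
    · rintro ⟨k1, k2, k3⟩
      apply hR
      have kA : A = -(s * a) := by linear_combination k1
      have kB : B = -(s * b) := by linear_combination k2
      have kC : C = -(s * c) := by linear_combination k3
      rw [kA, kB, kC]; ring
  have s4 : (∑ x : ZMod p, χ ((a * x ^ 2 + b * x + c) * (A * x ^ 2 + B * x + C))) + χ (a * A) =
      ∑ s : ZMod p, χ (-s * (d * s ^ 2 + 2 * e * s + D)) := by
    rw [s1, s2, ← Finset.sum_add_distrib]
    have e1 : ∀ s : ZMod p, χ (-s) * ((univ.filter fun x : ZMod p =>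
        (s * a + A) * x ^ 2 + (s * b + B) * x + (s * c + C) = 0).card : ℤ) +
        χ (-s) * (if s * a + A = 0 then 1 else 0) =
        χ (-s) + χ (-s * (d * s ^ 2 + 2 * e * s + D)) := by
      intro s
      rw [← mul_add, s3 s, map_mul]; ring
    rw [Finset.sum_congr rfl fun s _ => e1 s, Finset.sum_add_distrib, hχ, Tr_sum_neg p hp, zero_add]
  rw [s4]
  -- second transformation
  have t1 : ∑ s : ZMod p, χ (-s * (d * s ^ 2 + 2 * e * s + D)) =
      ∑ s ∈ univ.filter (fun s : ZMod p => s ≠ 0), χ (-((d * s ^ 2 + 2 * e * s + D) / s)) := by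
    have e1 : ∑ s : ZMod p, χ (-s * (d * s ^ 2 + 2 * e * s + D)) =
        ∑ s ∈ univ.filter (fun s : ZMod p => s ≠ 0), χ (-s * (d * s ^ 2 + 2 * e * s + D)) := by
      symm
      apply Finset.sum_subset (Finset.filter_subset _ _)
      intro s _ hs
      have hs0 : s = 0 := by
        by_contra h
        exact hs (by simp [h])
      rw [hs0, neg_zero, zero_mul, hχ, quadraticChar_zero]
    rw [e1]
    apply Finset.sum_congr rfl
    intro s hs
    have hs0 : s ≠ 0 := (Finset.mem_filter.1 hs).2
    have e2 : -s * (d * s ^ 2 + 2 * e * s + D) =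
        s ^ 2 * (-((d * s ^ 2 + 2 * e * s + D) / s)) := by
      field_simp
    rw [e2, map_mul, hχ, quadraticChar_sq_one' hs0, one_mul]
  rw [t1, Tr_fib (univ.filter (fun s : ZMod p => s ≠ 0))
    (fun s => (d * s ^ 2 + 2 * e * s + D) / s) (fun t => χ (-t))]
  have t2 : ∀ t : ZMod p, (((univ.filter (fun s : ZMod p => s ≠ 0)).filter
      (fun s => (d * s ^ 2 + 2 * e * s + D) / s = t)).card : ℤ) =
      1 + χ ((t - 2 * e) ^ 2 - 4 * d * D) := by
    intro t
    have e1 : (univ.filter (fun s : ZMod p => s ≠ 0)).filter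
        (fun s => (d * s ^ 2 + 2 * e * s + D) / s = t) =
        univ.filter (fun s : ZMod p => d * s ^ 2 + (2 * e - t) * s + D = 0) := by
      ext s
      simp only [mem_filter, mem_univ, true_and]
      constructor
      · rintro ⟨hs, h⟩
        rw [div_eq_iff hs] at h
        linear_combination h
      · intro h
        have hs : s ≠ 0 := by
          rintro rfl
          apply hD
          linear_combination h
        refine ⟨hs, ?_⟩
        rw [div_eq_iff hs]
        linear_combination h
    rw [e1, card_roots p hp d (2 * e - t) D hd]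
    congr 2
    ring
  have t3 : ∀ t : ZMod p, χ (-t) * (((univ.filter (fun s : ZMod p => s ≠ 0)).filter
      (fun s => (d * s ^ 2 + 2 * e * s + D) / s = t)).card : ℤ) =
      χ (-t) + χ (-t * ((t - 2 * e) ^ 2 - 4 * d * D)) := by
    intro t
    rw [t2 t, map_mul]; ring
  rw [Finset.sum_congr rfl fun t _ => t3 t, Finset.sum_add_distrib, hχ, Tr_sum_neg p hp, zero_add]

end FGO
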