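import Pool.Agent.Lib.MP_1ad228_ntG.We
import Pool.Agent.Lib.MP_1ad228_ntG.Tr

/-! JOB Fp: points modulo `p`. -/

set_option autoImplicit false

namespace FGO

open Finset

/-- (Fp1) Proof. `χ = quadraticChar`. Suppose there is no such point. Then for all `x`: `g(x) h(x) ≠ 0` (no zeros as the discriminants are nonresidues) is not a square, `χ = -1`, and `χ(aA) = -1`: the left side of `sum_transform` is `-(p+1)`. On the right: `dD` has
`χ = 1`, so `dD = f²`, `f ≠ 0`, and with `e = bB - 2aC - 2Ac`: `(t - 2e)² - 4f² = (t - t₁)(t - t₂)`, `t₁ = 2e + 2f`, `t₂ = 2e - 2f`, `t₁ ≠ t₂`, `t₁ t₂ = 4(e² - dD) = 16 res ≠ 0`. The sum is `χ(-1) ∑ χ(t (t-t₁)(t-t₂))`, of absolute value `≤ 4√p + 1 < p + 1`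
for `p ≥ 17` (`cubic_sum`; cast to `ℝ`): contradiction. -/
theorem exists_point (p : ℕ) [Fact p.Prime] (hp : 17 ≤ p) (a b c A B C : ZMod p)
    (h1 : quadraticChar (ZMod p) (b ^ 2 - 4 * a * c) = -1) (h2 : quadraticChar (ZMod p) (B ^ 2 - 4 * A * C) = -1)
    (hR : (a * C - A * c) ^ 2 - (a * B - A * b) * (b * C - B * c) ≠ 0) :
    ∃ x z y : ZMod p, ¬ (x = 0 ∧ z = 0) ∧ y ≠ 0 ∧
      (a * x ^ 2 + b * x * z + c * z ^ 2) * (A * x ^ 2 + B * x * z + C * z ^ 2) = y ^ 2 := by
  classical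
  have hp2 : p ≠ 2 := by omega
  have hroot : ∀ a b c x : ZMod p, quadraticChar (ZMod p) (b ^ 2 - 4 * a * c) = -1 →
      a * x ^ 2 + b * x + c ≠ 0 := by
    intro a b c x h h0
    have hns := quadraticChar_neg_one_iff_not_isSquare.mp h
    exact hns ⟨2 * a * x + b, by linear_combination (-4 * a) * h0⟩
  have hlead : ∀ a b c : ZMod p, quadraticChar (ZMod p) (b ^ 2 - 4 * a * c) = -1 → a ≠ 0 := by
    intro a b c h h0
    have hns := quadraticChar_neg_one_iff_not_isSquare.mp h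
    exact hns ⟨b, by rw [h0]; ring⟩
  by_contra hcon
  have hcon' : ∀ x z y : ZMod p, ¬ (x = 0 ∧ z = 0) → y ≠ 0 →
      (a * x ^ 2 + b * x * z + c * z ^ 2) * (A * x ^ 2 + B * x * z + C * z ^ 2) ≠ y ^ 2 := by
    intro x z y h3 h4 h5
    exact hcon ⟨x, z, y, h3, h4, h5⟩
  have ha := hlead a b c h1
  have hA := hlead A B C h2
  have hval : ∀ x : ZMod p, quadraticChar (ZMod p) ((a * x ^ 2 + b * x + c) * (A * x ^ 2 + B * x + C)) = -1 := by
    intro x
    rw [quadraticChar_neg_one_iff_not_isSquare]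
    rintro ⟨y, hy⟩
    have hne : (a * x ^ 2 + b * x + c) * (A * x ^ 2 + B * x + C) ≠ 0 :=
      mul_ne_zero (hroot a b c x h1) (hroot A B C x h2)
    refine hcon' x 1 y (fun h => one_ne_zero h.2) ?_ ?_
    · rintro rfl
      apply hne
      rw [hy]
      ring
    · linear_combination hy
  have hinf : quadraticChar (ZMod p) (a * A) = -1 := by
    rw [quadraticChar_neg_one_iff_not_isSquare]
    rintro ⟨y, hy⟩
    have hne : a * A ≠ 0 := mul_ne_zero ha hA
    refine hcon' 1 0 y (fun h => one_ne_zero h.1) ?_ ?_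
    · rintro rfl
      apply hne
      rw [hy]
      ring
    · linear_combination hy
  have hsum := sum_transform p hp2 a b c A B C h1 h2 hR
  rw [Finset.sum_congr rfl (fun x _ => hval x), hinf, Finset.sum_const, Finset.card_univ, ZMod.card] at hsum
  have hdne : b ^ 2 - 4 * a * c ≠ 0 := by
    intro h0
    rw [h0, quadraticChar_zero] at h1
    norm_num at h1
  have hDne : B ^ 2 - 4 * A * C ≠ 0 := by
    intro h0
    rw [h0, quadraticChar_zero] at h2
    norm_num at h2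
  have hdD : quadraticChar (ZMod p) ((b ^ 2 - 4 * a * c) * (B ^ 2 - 4 * A * C)) = 1 := by
    rw [map_mul, h1, h2]
    norm_num
  obtain ⟨f, hf⟩ := (quadraticChar_one_iff_isSquare (mul_ne_zero hdne hDne)).mp hdD
  have hfne : f ≠ 0 := by
    rintro rfl
    exact mul_ne_zero hdne hDne (by rw [hf]; ring)
  have h2ne : (2 : ZMod p) ≠ 0 := by
    intro h0
    have h3 : ((2 : ℕ) : ZMod p) = 0 := by exact_mod_cast h0
    rw [ZMod.natCast_eq_zero_iff] at h3
    exact hp2 ((Nat.prime_dvd_prime_iff_eq (Fact.out) Nat.prime_two).mp h3)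
  set e : ZMod p := b * B - 2 * a * C - 2 * A * c with he
  have hprod : (2 * e + 2 * f) * (2 * e - 2 * f) =
      2 ^ 4 * ((a * C - A * c) ^ 2 - (a * B - A * b) * (b * C - B * c)) := by
    rw [he]
    linear_combination 4 * hf
  have hprodne : (2 * e + 2 * f) * (2 * e - 2 * f) ≠ 0 := by
    rw [hprod]
    exact mul_ne_zero (pow_ne_zero 4 h2ne) hR
  have ht1 : 2 * e + 2 * f ≠ 0 := left_ne_zero_of_mul hprodne
  have ht2 : 2 * e - 2 * f ≠ 0 := right_ne_zero_of_mul hprodne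
  have ht12 : 2 * e + 2 * f ≠ 2 * e - 2 * f := by
    intro h0
    have h3 : 2 ^ 2 * f = 0 := by linear_combination h0
    exact mul_ne_zero (pow_ne_zero 2 h2ne) hfne h3
  have hbd := cubic_sum p (by omega) (2 * e + 2 * f) (2 * e - 2 * f) ht1 ht2 ht12
  have hrhs : (∑ t : ZMod p, quadraticChar (ZMod p) (-t * ((t - 2 * e) ^ 2 -
      4 * (b ^ 2 - 4 * a * c) * (B ^ 2 - 4 * A * C)))) =
      quadraticChar (ZMod p) (-1) * ∑ x : ZMod p, quadraticChar (ZMod p)
        (x * (x - (2 * e + 2 * f)) * (x - (2 * e - 2 * f))) := by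
    rw [Finset.mul_sum]
    refine Finset.sum_congr rfl fun x _ => ?_
    rw [← map_mul]
    congr 1
    linear_combination (4 * x) * hf
  rw [hrhs] at hsum
  have hneg1 : |((quadraticChar (ZMod p) (-1) : ℤ) : ℝ)| = 1 := by
    have h3 : (-1 : ZMod p) ≠ 0 := neg_ne_zero.mpr one_ne_zero
    rcases quadraticChar_dichotomy h3 with h | h
    · rw [h]; norm_num
    · rw [h]; norm_num
  have hR' : (((p : ℤ) : ℝ) + 1) = |((quadraticChar (ZMod p) (-1) : ℤ) : ℝ) *
      ∑ x : ZMod p, ((quadraticChar (ZMod p) (x * (x - (2 * e + 2 * f)) * (x - (2 * e - 2 * f))) : ℤ) : ℝ)| := by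
    have h3 := congrArg (fun z : ℤ => |(z : ℝ)|) hsum
    simp only [Int.cast_mul, Int.cast_sum] at h3
    rw [← h3]
    have h4 : (p • (-1 : ℤ) + -1 : ℤ) = -((p : ℤ) + 1) := by
      rw [nsmul_eq_mul]
      ring
    rw [h4]
    push_cast
    rw [abs_neg, abs_of_nonneg (by positivity)]
  rw [abs_mul, hneg1, one_mul] at hR'
  have hfin : (p : ℝ) ≤ 4 * √(p : ℝ) := by
    have h3 := hbd
    rw [← hR'] at h3
    push_cast at h3
    linarith
  have hs : √(p : ℝ) * √(p : ℝ) = p := Real.mul_self_sqrt (by positivity)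
  have hp17 : (17 : ℝ) ≤ p := by exact_mod_cast hp
  have hspos : 0 < √(p : ℝ) := Real.sqrt_pos.mpr (by linarith)
  have h5 : √(p : ℝ) ≤ 4 := by
    by_contra h6
    push Not at h6
    nlinarith
  nlinarith

end FGO
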