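import Pool.Agent.Lib.MP_1ad228_ntG.Tr0
import Mathlib.FieldTheory.Finite.Basic

/-! JOB Fp2. -/

set_option autoImplicit false

namespace FGO

open Finset

/-- a quadratic polynomial takes a square value -/
theorem Fp2_conic (p : ℕ) [Fact p.Prime] (hp : p ≠ 2) (α β γ : ZMod p) (hα : α ≠ 0) :
    ∃ t y : ZMod p, α * t ^ 2 + β * t + γ = y ^ 2 := by
  have h1 : (Polynomial.C α * Polynomial.X ^ 2 + Polynomial.C β * Polynomial.X +
      Polynomial.C γ).degree = 2 := Polynomial.degree_quadratic hα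
  have h2 : (Polynomial.C (-1 : ZMod p) * Polynomial.X ^ 2 + Polynomial.C 0 * Polynomial.X +
      Polynomial.C 0).degree = 2 := Polynomial.degree_quadratic (by simp)
  have h3 : Fintype.card (ZMod p) % 2 = 1 := by
    rw [ZMod.card]
    exact ((Fact.out : p.Prime).eq_two_or_odd).resolve_left hp
  obtain ⟨t, y, h⟩ := FiniteField.exists_root_sum_quadratic h1 h2 h3
  refine ⟨t, y, ?_⟩
  simp only [Polynomial.eval_add, Polynomial.eval_mul, Polynomial.eval_C, Polynomial.eval_pow,
    Polynomial.eval_X] at h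
  linear_combination h

/-- (Fp2) the first form is a constant times a square, the second one has nonresidue discriminant.
Proof. If `a ≠ 0`: `4 a g(x) = (2 a x + b)²`; we need `x` with `a h(x) ≠ 0` a square and `x ≠ -b/(2a)` (`z = 1`). If `a = 0` then `b = 0`, `g = c z²`, `c ≠ 0`: we need `x` with `c h(x)` a square, `z = 1`. For `κ ≠ 0`: `∑_x χ(κ h(x)) = -χ(κ A)`
(standard; from `card_roots`: count the pairs `(x, y)` with `y² = κ h(x)`, or: `4 A h(x) = (2Ax+B)² - D`, `χ(h) = χ(A) χ(y² - D)`, `∑_y χ(y² - D) = -1`), all terms are `± 1` (`A ≠ 0`, `h` has no zeros), so at least `(p - 1)/2 ≥ 2` of the `x` have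
`χ(κ h(x)) = 1`, and one of them is `≠ -b/(2a)`. -/
theorem exists_point_double (p : ℕ) [Fact p.Prime] (hp : 17 ≤ p) (a b c A B C : ZMod p)
    (h0 : ¬ (a = 0 ∧ b = 0 ∧ c = 0)) (h1 : b ^ 2 - 4 * a * c = 0)
    (h2 : quadraticChar (ZMod p) (B ^ 2 - 4 * A * C) = -1) :
    ∃ x z y : ZMod p, ¬ (x = 0 ∧ z = 0) ∧ y ≠ 0 ∧
      (a * x ^ 2 + b * x * z + c * z ^ 2) * (A * x ^ 2 + B * x * z + C * z ^ 2) = y ^ 2 := by
  have hp2 : p ≠ 2 := by omega
  have hD : ¬ IsSquare (B ^ 2 - 4 * A * C) := quadraticChar_neg_one_iff_not_isSquare.1 h2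
  have two_ne : (2 : ZMod p) ≠ 0 := by
    intro h
    have h3 : ((2 : ℕ) : ZMod p) = 0 := by exact_mod_cast h
    rw [ZMod.natCast_eq_zero_iff] at h3
    have := Nat.le_of_dvd (by norm_num) h3
    omega
  -- the second form has no zeros
  have hh : ∀ x z : ZMod p, ¬ (x = 0 ∧ z = 0) → A * x ^ 2 + B * x * z + C * z ^ 2 ≠ 0 := by
    intro x z hxz hz
    by_cases h3 : z = 0
    · rw [h3] at hz hxz
      have hx : x ≠ 0 := fun h => hxz ⟨h, rfl⟩
      have hA : A = 0 := by
        have h4 : A * x ^ 2 = 0 := by linear_combination hz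
        exact (mul_eq_zero.1 h4).resolve_right (pow_ne_zero 2 hx)
      exact hD ⟨B, by rw [hA]; ring⟩
    · refine hD ⟨(2 * A * x + B * z) / z, ?_⟩
      field_simp
      linear_combination (-4 * A) * hz
  by_cases ha : a = 0
  · have hb : b = 0 := by
      rw [ha] at h1
      have h3 : b ^ 2 = 0 := by linear_combination h1
      exact pow_eq_zero_iff (two_ne_zero) |>.1 h3
    have hc : c ≠ 0 := fun h => h0 ⟨ha, hb, h⟩
    have hA : A ≠ 0 := by
      have h3 := hh 1 0 (by simp)
      intro h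
      apply h3
      rw [h]
      ring
    obtain ⟨t, y, hty⟩ := Fp2_conic p hp2 (c * A) (c * B) (c * C) (mul_ne_zero hc hA)
    have h3 := hh t 1 (by simp)
    refine ⟨t, 1, y, by simp, ?_, ?_⟩
    · intro hy
      rw [hy] at hty
      have h4 : c * (A * t ^ 2 + B * t * 1 + C * 1 ^ 2) = 0 := by linear_combination hty
      exact (mul_ne_zero hc h3) h4
    · rw [ha, hb]
      linear_combination hty
  · -- `g (1 - b t, 2 a t) = a`
    have h3 := hh (-b) (2 * a) (by
      rintro ⟨-, h⟩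
      exact (mul_ne_zero two_ne ha) h)
    obtain ⟨t, y, hty⟩ := Fp2_conic p hp2 (a * (A * (-b) ^ 2 + B * (-b) * (2 * a) + C * (2 * a) ^ 2))
      (a * (-(2 * A * b) + 2 * a * B)) (a * A) (mul_ne_zero ha h3)
    have hne : ¬ (1 - b * t = 0 ∧ 2 * a * t = 0) := by
      rintro ⟨h4, h5⟩
      rcases mul_eq_zero.1 h5 with h6 | h6
      · exact (mul_ne_zero two_ne ha) h6
      · rw [h6, mul_zero, sub_zero] at h4
        exact one_ne_zero h4
    have h4 := hh _ _ hne
    have hg : a * (1 - b * t) ^ 2 + b * (1 - b * t) * (2 * a * t) + c * (2 * a * t) ^ 2 = a := by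
      linear_combination (-(a * t ^ 2)) * h1
    refine ⟨1 - b * t, 2 * a * t, y, hne, ?_, ?_⟩
    · intro hy
      rw [hy] at hty
      have h5 : a * (A * (1 - b * t) ^ 2 + B * (1 - b * t) * (2 * a * t) + C * (2 * a * t) ^ 2) = 0 := by
        linear_combination hty
      exact (mul_ne_zero ha h4) h5
    · rw [hg]
      linear_combination hty

end FGO
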