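import Pool.Agent.Lib.MP_1ad228_ntG.Defs
import Pool.Agent.Lib.MP_1ad228_nt.ZHodd

/-! JOB Hn: points over `ℚ_p`, `p ≥ 17`. -/

set_option autoImplicit false

namespace FGO

open Finset

private theorem Hn_sq (p : ℕ) (D t : ℤ) (h : (p : ℤ) ∣ D - t ^ 2) : jacobiSym D p = jacobiSym t p ^ 2 := by
  rw [← jacobiSym.pow_left, jacobiSym.mod_left D, jacobiSym.mod_left (t ^ 2)]
  congr 1
  exact Int.emod_eq_emod_iff_emod_sub_eq_zero.2 (Int.emod_eq_zero_of_dvd h)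

/-- (Hn1) Proof. `m = g(x,z) h(x,z)` is an integer `≡ y² mod p`, prime to `p`, `jacobiSym m p = 1`, so it is a square in `ℚ_[p]` (`ZC.isSquare_int_iff`). The point is `(x, z, √m)`; `BQ.ev_cast`-type casts. -/
theorem lift_square (p : ℕ) [Fact p.Prime] (hp : p ≠ 2) (v w : V) (x z y : ℤ) (hxz : ¬ (x = 0 ∧ z = 0))
    (hy : ¬ (p : ℤ) ∣ y)
    (h : (p : ℤ) ∣ (v.1 * x ^ 2 + v.2.1 * x * z + v.2.2 * z ^ 2) * (w.1 * x ^ 2 + w.2.1 * x * z + w.2.2 * z ^ 2) - y ^ 2) :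
    ∃ X Z Y : ℚ_[p], ¬ (X = 0 ∧ Z = 0) ∧ Y ^ 2 = (bq v).ev X Z * (bq w).ev X Z := by
  set m : ℤ := (v.1 * x ^ 2 + v.2.1 * x * z + v.2.2 * z ^ 2) * (w.1 * x ^ 2 + w.2.1 * x * z + w.2.2 * z ^ 2) with hm
  have hpp : p.Prime := Fact.out
  have hpi : Prime (p : ℤ) := Nat.prime_iff_prime_int.1 hpp
  have hpm : ¬ (p : ℤ) ∣ m := by
    intro h1
    apply hy
    have h2 : (p : ℤ) ∣ y ^ 2 := by
      have h3 := dvd_sub h1 h
      rwa [sub_sub_cancel] at h3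
    exact hpi.dvd_of_dvd_pow h2
  have hj : jacobiSym m p = 1 := by
    rw [Hn_sq p m y h]
    have h1 : jacobiSym y p ≠ 0 := by
      intro h2
      rw [← jacobiSym.legendreSym.to_jacobiSym, legendreSym.eq_zero_iff, ZMod.intCast_zmod_eq_zero_iff_dvd] at h2
      exact hy h2
    rcases jacobiSym.trichotomy y p with h2 | h2 | h2
    · exact absurd h2 h1
    · rw [h2]; norm_num
    · rw [h2]; norm_num
  obtain ⟨r, hr⟩ := (ZC.isSquare_int_iff hp m hpm).2 hj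
  refine ⟨x, z, r, ?_, ?_⟩
  · rintro ⟨h1, h2⟩
    exact hxz ⟨by exact_mod_cast h1, by exact_mod_cast h2⟩
  · rw [pow_two, ← hr, hm]
    unfold bq ZG.BQ.ev
    push_cast
    ring

/-- (Hn2) Proof. `disc v` is a nonzero square `s²` in `ℚ_[p]` (`ZC.isSquare_int_iff`; `p ∤ disc v` as the symbol is `1`). If `v.1 ≠ 0`: `X = -v.2.1 + s`, `Z = 2 v.1`: `(bq v).ev X Z = 0`. If `v.1 = 0`: `X = 1`, `Z = 0`. `Y = 0`. -/
theorem lift_root (p : ℕ) [Fact p.Prime] (hp : p ≠ 2) (v w : V) (h : jacobiSym (disc v) p = 1) :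
    ∃ X Z Y : ℚ_[p], ¬ (X = 0 ∧ Z = 0) ∧ Y ^ 2 = (bq v).ev X Z * (bq w).ev X Z := by
  have hpd : ¬ (p : ℤ) ∣ disc v := by
    intro h1
    rw [← jacobiSym.legendreSym.to_jacobiSym, (legendreSym.eq_zero_iff p (disc v)).2
      ((ZMod.intCast_zmod_eq_zero_iff_dvd _ _).2 h1)] at h
    exact zero_ne_one h
  obtain ⟨s, hs⟩ := (ZC.isSquare_int_iff hp (disc v) hpd).2 h
  by_cases h0 : v.1 = 0
  · refine ⟨1, 0, 0, ?_, ?_⟩
    · rintro ⟨h1, -⟩
      exact one_ne_zero h1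
    · have h1 : (bq v).ev (1 : ℚ_[p]) 0 = 0 := by
        unfold bq ZG.BQ.ev
        rw [h0]
        push_cast
        ring
      rw [h1]
      ring
  · refine ⟨-v.2.1 + s, 2 * v.1, 0, ?_, ?_⟩
    · rintro ⟨-, h1⟩
      have h2 : (v.1 : ℚ_[p]) = 0 := by
        rcases mul_eq_zero.1 h1 with h3 | h3
        · exact absurd h3 two_ne_zero
        · exact h3
      exact h0 (by exact_mod_cast h2)
    · have h1 : (bq v).ev (-v.2.1 + s : ℚ_[p]) (2 * v.1) = 0 := by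
        unfold bq ZG.BQ.ev
        unfold disc at hs
        push_cast at hs
        linear_combination (-(v.1 : ℚ_[p])) * hs
      rw [h1]
      ring

/-- (Hn3) Proof. If `v` has no root modulo `p` (`jacobiSym (disc v) p = -1`) and `p ∣ res v w` then `p ∣ crs v w`: `n = crs v w`, `n₂² ≡ n₁ n₃`. If `p ∤ n₃`: with `r ≡ n₂/n₃` we get `n₁ ≡ r² n₃`, `0 = dot n v ≡ n₃ ev v r`: a root, contradiction.
If `p ∣ n₃` then `p ∣ n₂`; if `p ∤ n₁` then `p ∣ v.1`, and `disc v ≡ v.2.1²` is a square: contradiction. -/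
theorem crs_of_res (p : ℕ) [Fact p.Prime] (hp : p ≠ 2) (v w : V) (h : jacobiSym (disc v) p = -1)
    (hR : (p : ℤ) ∣ res v w) : Dv p (crs v w) := by
  have hpp : p.Prime := Fact.out
  have hpi : Prime (p : ℤ) := Nat.prime_iff_prime_int.1 hpp
  obtain ⟨a, b, c⟩ := v
  obtain ⟨a', b', c'⟩ := w
  unfold disc at h
  unfold res at hR
  unfold Dv crs
  simp only at h hR ⊢
  have hns : ∀ t : ℤ, ¬ (p : ℤ) ∣ (b ^ 2 - 4 * a * c) - t ^ 2 := by
    intro t ht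
    rw [Hn_sq p _ t ht] at h
    nlinarith [sq_nonneg (jacobiSym t p)]
  set n1 : ℤ := b * c' - c * b' with hn1
  set n2 : ℤ := c * a' - a * c' with hn2
  set n3 : ℤ := a * b' - b * a' with hn3
  have hR' : (p : ℤ) ∣ n2 ^ 2 - n1 * n3 := by
    have h1 : n2 ^ 2 - n1 * n3 = (a * c' - a' * c) ^ 2 - (a * b' - a' * b) * (b * c' - b' * c) := by
      rw [hn1, hn2, hn3]
      ring
    rw [h1]
    exact hR
  have hdot : n1 * a + n2 * b + n3 * c = 0 := by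
    rw [hn1, hn2, hn3]
    ring
  by_cases h3 : (p : ℤ) ∣ n3
  · have h2 : (p : ℤ) ∣ n2 := by
      have h4 : (p : ℤ) ∣ n2 ^ 2 := by
        have h5 := dvd_add hR' (Dvd.dvd.mul_left h3 n1)
        rwa [sub_add_cancel] at h5
      exact hpi.dvd_of_dvd_pow h4
    refine ⟨?_, h2, h3⟩
    by_contra h1
    have h4 : (p : ℤ) ∣ n1 * a := by
      have h5 : n1 * a = -(n2 * b + n3 * c) := by linarith
      rw [h5]
      exact (dvd_neg).2 (dvd_add (Dvd.dvd.mul_right h2 b) (Dvd.dvd.mul_right h3 c))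
    have h5 := (hpi.dvd_or_dvd h4).resolve_left h1
    apply hns b
    have h6 : b ^ 2 - 4 * a * c - b ^ 2 = a * (-4 * c) := by ring
    rw [h6]
    exact Dvd.dvd.mul_right h5 _
  · exfalso
    have hcop : IsCoprime n3 (p : ℤ) := ((Prime.coprime_iff_not_dvd hpi).2 h3).symm
    obtain ⟨u, k, huk⟩ := hcop
    -- `r = n2 u`
    have h4 : (p : ℤ) ∣ n3 * (n2 * u) - n2 := by
      refine ⟨-(k * n2), ?_⟩
      linear_combination n2 * huk
    have h5 : (p : ℤ) ∣ n3 ^ 2 * (a * (n2 * u) ^ 2 + b * (n2 * u) + c) := by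
      have h6 : n3 ^ 2 * (a * (n2 * u) ^ 2 + b * (n2 * u) + c) =
          (n3 * (n2 * u) - n2) * (a * (n3 * (n2 * u) + n2) + b * n3) + a * (n2 ^ 2 - n1 * n3) +
            n3 * (n1 * a + n2 * b + n3 * c) := by ring
      rw [h6, hdot, mul_zero, add_zero]
      exact dvd_add (Dvd.dvd.mul_right h4 _) (Dvd.dvd.mul_left hR' _)
    have h6 : (p : ℤ) ∣ a * (n2 * u) ^ 2 + b * (n2 * u) + c := by
      rcases hpi.dvd_or_dvd h5 with h7 | h7
      · exact absurd (hpi.dvd_of_dvd_pow h7) h3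
      · exact h7
    apply hns (2 * a * (n2 * u) + b)
    have h7 : b ^ 2 - 4 * a * c - (2 * a * (n2 * u) + b) ^ 2 =
        (a * (n2 * u) ^ 2 + b * (n2 * u) + c) * (-4 * a) := by ring
    rw [h7]
    exact Dvd.dvd.mul_right h6 _

end FGO
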