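import Pool.Agent.Lib.MP_1ad228_ntG.Hn
import Pool.Agent.Lib.MP_1ad228_ntG.Fp
import Pool.Agent.Lib.MP_1ad228_ntG.Fp2

/-! JOB Hn2: points over the p-adic numbers. -/

set_option autoImplicit false

namespace FGO

open Finset

private theorem Hn2_lift (p : ℕ) [Fact p.Prime] (hp : p ≠ 2) (v w : V)
    (h : ∃ x z y : ZMod p, ¬ (x = 0 ∧ z = 0) ∧ y ≠ 0 ∧
      ((v.1 : ZMod p) * x ^ 2 + (v.2.1 : ZMod p) * x * z + (v.2.2 : ZMod p) * z ^ 2) *
        ((w.1 : ZMod p) * x ^ 2 + (w.2.1 : ZMod p) * x * z + (w.2.2 : ZMod p) * z ^ 2) = y ^ 2) :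
    ∃ X Z Y : ℚ_[p], ¬ (X = 0 ∧ Z = 0) ∧ Y ^ 2 = (bq v).ev X Z * (bq w).ev X Z := by
  obtain ⟨x, z, y, h1, h2, h3⟩ := h
  obtain ⟨x, rfl⟩ := ZMod.intCast_surjective x
  obtain ⟨z, rfl⟩ := ZMod.intCast_surjective z
  obtain ⟨y, rfl⟩ := ZMod.intCast_surjective y
  refine lift_square p hp v w x z y ?_ ?_ ?_
  · rintro ⟨rfl, rfl⟩
    exact h1 ⟨by simp, by simp⟩
  · intro h4
    exact h2 ((ZMod.intCast_zmod_eq_zero_iff_dvd _ _).2 h4)
  · rw [← ZMod.intCast_zmod_eq_zero_iff_dvd]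
    push_cast
    rw [h3, sub_self]

private theorem Hn2_swap (p : ℕ) [Fact p.Prime] (v w : V)
    (h : ∃ X Z Y : ℚ_[p], ¬ (X = 0 ∧ Z = 0) ∧ Y ^ 2 = (bq w).ev X Z * (bq v).ev X Z) :
    ∃ X Z Y : ℚ_[p], ¬ (X = 0 ∧ Z = 0) ∧ Y ^ 2 = (bq v).ev X Z * (bq w).ev X Z := by
  obtain ⟨X, Z, Y, h1, h2⟩ := h
  exact ⟨X, Z, Y, h1, by rw [h2, mul_comm]⟩

private theorem Hn2_char (p : ℕ) [Fact p.Prime] (v : V) :
    quadraticChar (ZMod p) ((v.2.1 : ZMod p) ^ 2 - 4 * (v.1 : ZMod p) * (v.2.2 : ZMod p)) = jacobiSym (disc v) p := by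
  rw [← jacobiSym.legendreSym.to_jacobiSym]
  unfold legendreSym disc
  push_cast
  rfl

private theorem Hn2_zero (p : ℕ) [Fact p.Prime] (v : V) (h : jacobiSym (disc v) p = 0) :
    (p : ℤ) ∣ disc v := by
  rw [← jacobiSym.legendreSym.to_jacobiSym, legendreSym.eq_zero_iff, ZMod.intCast_zmod_eq_zero_iff_dvd] at h
  exact h

private theorem Hn2_double (p : ℕ) [Fact p.Prime] (hp : 17 ≤ p) (v w : V)
    (h0 : ¬ ((p : ℤ) ∣ v.1 ∧ (p : ℤ) ∣ v.2.1 ∧ (p : ℤ) ∣ v.2.2)) (hv : jacobiSym (disc v) p = 0)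
    (hw : jacobiSym (disc w) p = -1) :
    ∃ X Z Y : ℚ_[p], ¬ (X = 0 ∧ Z = 0) ∧ Y ^ 2 = (bq v).ev X Z * (bq w).ev X Z := by
  refine Hn2_lift p (by omega) v w (exists_point_double p hp _ _ _ _ _ _ ?_ ?_ ?_)
  · rintro ⟨a1, a2, a3⟩
    rw [ZMod.intCast_zmod_eq_zero_iff_dvd] at a1 a2 a3
    exact h0 ⟨a1, a2, a3⟩
  · have h1 := Hn2_zero p v hv
    rw [← ZMod.intCast_zmod_eq_zero_iff_dvd] at h1
    unfold disc at h1
    push_cast at h1
    exact h1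
  · rw [Hn2_char, hw]

/-- (Hn4) Proof. Cases by `jacobiSym (disc v) p`, `jacobiSym (disc w) p` (values `0, 1, -1`). If one of them is `1`: `lift_root` (for `w` exchange the forms, `mul_comm`). If both are `-1`: `p ∤ res` (Hn3), `exists_point` for the residues (`quadraticChar` and `jacobiSym`:
`jacobiSym.legendreSym.to_jacobiSym`, `legendreSym = quadraticChar (cast)`), `lift_square` with integer representatives. If `p ∣ disc v` and `jacobiSym (disc w) p = -1`: `v` is not `≡ 0 mod p` (otherwise `p ∣ crs`), `exists_point_double`; the same with `v, w` exchanged.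
Both divisible by `p` is excluded. (`ZMod.intCast_surjective` for representatives.) -/
theorem local_point (p : ℕ) [Fact p.Prime] (hp : 17 ≤ p) (v w : V) (h1 : ¬ Dv p (crs v w))
    (h2 : ¬ ((p : ℤ) ∣ disc v ∧ (p : ℤ) ∣ disc w)) :
    ∃ X Z Y : ℚ_[p], ¬ (X = 0 ∧ Z = 0) ∧ Y ^ 2 = (bq v).ev X Z * (bq w).ev X Z := by
  have hp2 : p ≠ 2 := by omega
  have hv0 : ¬ ((p : ℤ) ∣ v.1 ∧ (p : ℤ) ∣ v.2.1 ∧ (p : ℤ) ∣ v.2.2) := by
    rintro ⟨a1, a2, a3⟩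
    apply h1
    unfold Dv crs
    exact ⟨dvd_sub (Dvd.dvd.mul_right a2 _) (Dvd.dvd.mul_right a3 _),
      dvd_sub (Dvd.dvd.mul_right a3 _) (Dvd.dvd.mul_right a1 _),
      dvd_sub (Dvd.dvd.mul_right a1 _) (Dvd.dvd.mul_right a2 _)⟩
  have hw0 : ¬ ((p : ℤ) ∣ w.1 ∧ (p : ℤ) ∣ w.2.1 ∧ (p : ℤ) ∣ w.2.2) := by
    rintro ⟨a1, a2, a3⟩
    apply h1
    unfold Dv crs
    exact ⟨dvd_sub (Dvd.dvd.mul_left a3 _) (Dvd.dvd.mul_left a2 _),
      dvd_sub (Dvd.dvd.mul_left a1 _) (Dvd.dvd.mul_left a3 _),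
      dvd_sub (Dvd.dvd.mul_left a2 _) (Dvd.dvd.mul_left a1 _)⟩
  rcases jacobiSym.trichotomy (disc v) p with hv | hv | hv
  · rcases jacobiSym.trichotomy (disc w) p with hw | hw | hw
    · exact absurd ⟨Hn2_zero p v hv, Hn2_zero p w hw⟩ h2
    · exact Hn2_swap p v w (lift_root p hp2 w v hw)
    · exact Hn2_double p hp v w hv0 hv hw
  · exact lift_root p hp2 v w hv
  · rcases jacobiSym.trichotomy (disc w) p with hw | hw | hw
    · exact Hn2_swap p v w (Hn2_double p hp w v hw0 hw hv)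
    · exact Hn2_swap p v w (lift_root p hp2 w v hw)
    · refine Hn2_lift p hp2 v w (exists_point p hp _ _ _ _ _ _ ?_ ?_ ?_)
      · rw [Hn2_char, hv]
      · rw [Hn2_char, hw]
      · intro h3
        apply h1
        refine crs_of_res p hp2 v w hv ?_
        rw [← ZMod.intCast_zmod_eq_zero_iff_dvd]
        unfold res
        push_cast
        exact h3

end FGO
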