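import Pool.Agent.Lib.MP_1ad228_ntG.Defs

/-! JOB Kr2: counting the elements of a coset of the lattice, and sums of characters over it. -/

set_option autoImplicit false

open Classical

namespace FGO

open Finset

private theorem Kr2_one (M m k : ℕ) (hm : 0 < m) (hM : M = m * k) (c : ℤ) :
    ((Ico (0 : ℤ) (M : ℤ)).filter fun x => (m : ℤ) ∣ x - c).card = k := by
  have h1 : ((Ico (0 : ℤ) (M : ℤ)).filter fun x => (m : ℤ) ∣ x - c) =
      (Ico (0 : ℤ) (M : ℤ)).filter fun x => x ≡ c [ZMOD (m : ℤ)] := by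
    refine Finset.filter_congr fun x _ => ?_
    rw [Int.modEq_comm, Int.modEq_iff_dvd]
  have hm' : (0 : ℤ) < m := by exact_mod_cast hm
  have h2 := Int.Ico_filter_modEq_card (0 : ℤ) (M : ℤ) hm' c
  rw [h1]
  have h3 : (((M : ℤ) - c : ℤ) : ℚ) / ((m : ℤ) : ℚ) = (((0 : ℤ) - c : ℤ) : ℚ) / ((m : ℤ) : ℚ) + ((k : ℤ) : ℚ) := by
    have : ((m : ℤ) : ℚ) ≠ 0 := by exact_mod_cast hm.ne'
    rw [hM]
    push_cast
    field_simp
    ring
  have h4 : (((Ico (0 : ℤ) (M : ℤ)).filter fun x => x ≡ c [ZMOD (m : ℤ)]).card : ℤ) = k := by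
    rw [h2]
    push_cast at h3 ⊢
    rw [h3]
    have h5 := Int.ceil_add_natCast (((0 : ℚ) - c) / (m : ℚ)) k
    rw [h5]
    simp
  exact_mod_cast h4

/-- (Kr2a) Proof. `M = δ q M'`. For fixed `(a, b) ∈ [0, M)²` with `a ≡ c₁`, `b ≡ c₂ mod q` (that are `(M/q)²` pairs) the number of `x ∈ [0, M)` with `x ≡ c₃ mod q` and
`x ≡ -(a r² + b r) mod δ` is `M / (δ q)` (Chinese remainder theorem: one class modulo `δ q`; `Int.Ico_filter_dvd_card`, `Int.count..`, or `Nat.count_modEq_card`).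
(`Finset.card_eq_sum_ones`, `Finset.sum_product`; first a lemma for one coordinate: `#{x ∈ Ico 0 M : m ∣ x - c} = M / m` for `m ∣ M`.) -/
theorem card_coset (M δ q : ℕ) (hM : 0 < M) (hδ : 0 < δ) (hq : 0 < q) (hc : δ.Coprime q) (hd : δ * q ∣ M) (r : ℤ)
    (c : V) : ((cube M).filter (Cos δ q r c)).card * (δ * q ^ 3) = M ^ 3 := by
  obtain ⟨k, hk⟩ := hd
  have hcop : IsCoprime (q : ℤ) (δ : ℤ) := (Nat.isCoprime_iff_coprime.mpr hc).symm
  have hx : ∀ a b : ℤ, ∑ x ∈ Ico (0 : ℤ) (M : ℤ), (if Cos δ q r c (a, b, x) then 1 else 0) =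
      (if (q : ℤ) ∣ a - c.1 then 1 else 0) * ((if (q : ℤ) ∣ b - c.2.1 then 1 else 0) * k) := by
    intro a b
    by_cases ha : (q : ℤ) ∣ a - c.1
    swap
    · rw [if_neg ha, zero_mul]
      exact Finset.sum_eq_zero fun x _ => if_neg fun h => ha h.1.1
    by_cases hb : (q : ℤ) ∣ b - c.2.1
    swap
    · rw [if_neg hb, zero_mul, mul_zero]
      exact Finset.sum_eq_zero fun x _ => if_neg fun h => hb h.1.2.1
    rw [if_pos ha, if_pos hb, one_mul, one_mul]
    have hcop2 := hcop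
    obtain ⟨u, v, huv⟩ := hcop
    have h1 : ∀ x : ℤ, Cos δ q r c (a, b, x) ↔
        ((δ * q : ℕ) : ℤ) ∣ x - (c.2.2 * (v * δ) - (a * r ^ 2 + b * r) * (u * q)) := by
      intro x
      have hq' : (q : ℤ) ∣ (c.2.2 * (v * δ) - (a * r ^ 2 + b * r) * (u * q)) - c.2.2 :=
        ⟨-c.2.2 * u - (a * r ^ 2 + b * r) * u, by linear_combination c.2.2 * huv⟩
      have hδ' : (δ : ℤ) ∣ (c.2.2 * (v * δ) - (a * r ^ 2 + b * r) * (u * q)) + (a * r ^ 2 + b * r) :=
        ⟨c.2.2 * v + (a * r ^ 2 + b * r) * v, by linear_combination -(a * r ^ 2 + b * r) * huv⟩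
      constructor
      · intro h
        have h2 : (q : ℤ) ∣ x - (c.2.2 * (v * δ) - (a * r ^ 2 + b * r) * (u * q)) := by
          have h3 := dvd_sub h.1.2.2 hq'
          have e : (x - c.2.2) - ((c.2.2 * (v * δ) - (a * r ^ 2 + b * r) * (u * q)) - c.2.2) =
            x - (c.2.2 * (v * δ) - (a * r ^ 2 + b * r) * (u * q)) := by ring
          rwa [e] at h3
        have h4 : (δ : ℤ) ∣ x - (c.2.2 * (v * δ) - (a * r ^ 2 + b * r) * (u * q)) := by
          have h5 : (δ : ℤ) ∣ a * r ^ 2 + b * r + x := h.2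
          have h3 := dvd_sub h5 hδ'
          have e : (a * r ^ 2 + b * r + x) - ((c.2.2 * (v * δ) - (a * r ^ 2 + b * r) * (u * q)) + (a * r ^ 2 + b * r)) =
            x - (c.2.2 * (v * δ) - (a * r ^ 2 + b * r) * (u * q)) := by ring
          rwa [e] at h3
        push_cast
        exact hcop2.symm.mul_dvd h4 h2
      · intro h
        push_cast at h
        have h2 : (q : ℤ) ∣ x - (c.2.2 * (v * δ) - (a * r ^ 2 + b * r) * (u * q)) := (dvd_mul_left _ _).trans h
        have h4 : (δ : ℤ) ∣ x - (c.2.2 * (v * δ) - (a * r ^ 2 + b * r) * (u * q)) := (dvd_mul_right _ _).trans h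
        refine ⟨⟨ha, hb, ?_⟩, ?_⟩
        · have h3 := dvd_add h2 hq'
          have e : (x - (c.2.2 * (v * δ) - (a * r ^ 2 + b * r) * (u * q))) +
            ((c.2.2 * (v * δ) - (a * r ^ 2 + b * r) * (u * q)) - c.2.2) = x - c.2.2 := by ring
          rwa [e] at h3
        · have h3 := dvd_add h4 hδ'
          have e : (x - (c.2.2 * (v * δ) - (a * r ^ 2 + b * r) * (u * q))) +
            ((c.2.2 * (v * δ) - (a * r ^ 2 + b * r) * (u * q)) + (a * r ^ 2 + b * r)) = a * r ^ 2 + b * r + x := by ring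
          rwa [e] at h3
    simp only [h1]
    rw [← Finset.card_filter]
    exact Kr2_one M (δ * q) k (Nat.mul_pos hδ hq) hk _
  have hone : ∀ c : ℤ, ∑ a ∈ Ico (0 : ℤ) (M : ℤ), (if (q : ℤ) ∣ a - c then 1 else 0) = δ * k := by
    intro c
    rw [← Finset.card_filter]
    refine Kr2_one M q (δ * k) hq ?_ c
    rw [hk]
    ring
  have hcard : ((cube M).filter (Cos δ q r c)).card = (δ * k) * ((δ * k) * k) := by
    rw [Finset.card_filter, cube, Finset.sum_product]
    simp only [Finset.sum_product, hx]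
    simp only [← Finset.mul_sum, ← Finset.sum_mul, hone]
  rw [hcard, hk]
  ring

end FGO
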