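import Pool.Agent.Lib.MP_1ad228_ntG.Kr2

/-! JOB Kr2b: sums of characters over a coset. -/

set_option autoImplicit false

open Classical

namespace FGO

open Finset

/-- reduction modulo `M` of all coordinates -/
private def Kr2b_red (M : ℕ) (v : V) : V := (v.1 % M, v.2.1 % M, v.2.2 % M)

private theorem Kr2b_dvd (M : ℕ) (a : ℤ) : (M : ℤ) ∣ a % M - a := by
  have h := Int.emod_add_mul_ediv a M
  exact ⟨-(a / M), by linarith⟩

private theorem Kr2b_red_cg (M : ℕ) (v : V) : Cg M (Kr2b_red M v) v :=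
  ⟨Kr2b_dvd M v.1, Kr2b_dvd M v.2.1, Kr2b_dvd M v.2.2⟩

private theorem Kr2b_red_mem (M : ℕ) (hM : 0 < M) (v : V) : Kr2b_red M v ∈ cube M := by
  have hM0 : (M : ℤ) ≠ 0 := by exact_mod_cast hM.ne'
  have hM1 : (0 : ℤ) < M := by exact_mod_cast hM
  rw [mem_cube]
  exact ⟨⟨Int.emod_nonneg _ hM0, Int.emod_lt_of_pos _ hM1⟩,
    ⟨Int.emod_nonneg _ hM0, Int.emod_lt_of_pos _ hM1⟩,
    ⟨Int.emod_nonneg _ hM0, Int.emod_lt_of_pos _ hM1⟩⟩

private theorem Kr2b_eq {M : ℕ} {v w : V} (hv : v ∈ cube M) (hw : w ∈ cube M) (h : Cg M v w) :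
    v = w := by
  rw [mem_cube] at hv hw
  have key : ∀ a b : ℤ, 0 ≤ a → a < M → 0 ≤ b → b < M → (M : ℤ) ∣ a - b → a = b := by
    intro a b ha ha' hb hb' hab
    have h1 : |a - b| < M := by
      rw [abs_lt]
      constructor <;> linarith
    have h2 := Int.eq_zero_of_abs_lt_dvd hab h1
    linarith
  obtain ⟨⟨a1, a2⟩, ⟨a3, a4⟩, a5, a6⟩ := hv
  obtain ⟨⟨b1, b2⟩, ⟨b3, b4⟩, b5, b6⟩ := hw
  exact Prod.ext (key _ _ a1 a2 b1 b2 h.1)
    (Prod.ext (key _ _ a3 a4 b3 b4 h.2.1) (key _ _ a5 a6 b5 b6 h.2.2))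

private theorem Kr2b_ev {d : ℕ} {v w : V} (r : ℤ) (h : Cg d v w) (hw : (d : ℤ) ∣ ev w r) :
    (d : ℤ) ∣ ev v r := by
  obtain ⟨⟨x, hx⟩, ⟨y, hy⟩, ⟨z, hz⟩⟩ := h
  obtain ⟨t, ht⟩ := hw
  refine ⟨x * r ^ 2 + y * r + z + t, ?_⟩
  unfold ev at ht ⊢
  linear_combination hx * r ^ 2 + hy * r + hz + ht

private theorem Kr2b_exp {M : ℕ} (hM : 0 < M) (k : V) {v w : V} (h : Cg M v w) :
    Complex.exp (2 * Real.pi * Complex.I * ((dot k v : ℂ) / (M : ℂ))) =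
      Complex.exp (2 * Real.pi * Complex.I * ((dot k w : ℂ) / (M : ℂ))) := by
  obtain ⟨⟨x, hx⟩, ⟨y, hy⟩, ⟨z, hz⟩⟩ := h
  have hM0 : (M : ℂ) ≠ 0 := by exact_mod_cast hM.ne'
  have h1 : dot k v = dot k w + M * (k.1 * x + k.2.1 * y + k.2.2 * z) := by
    unfold dot
    linear_combination k.1 * hx + k.2.1 * hy + k.2.2 * hz
  rw [Complex.exp_eq_exp_iff_exists_int]
  refine ⟨k.1 * x + k.2.1 * y + k.2.2 * z, ?_⟩
  rw [h1]
  push_cast
  field_simp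

private theorem Kr2b_cg_trans {d : ℕ} {u v w : V} (h : Cg d u v) (h' : Cg d v w) : Cg d u w := by
  obtain ⟨h1, h2, h3⟩ := h
  obtain ⟨g1, g2, g3⟩ := h'
  refine ⟨?_, ?_, ?_⟩
  · have := dvd_add h1 g1
    rwa [sub_add_sub_cancel] at this
  · have := dvd_add h2 g2
    rwa [sub_add_sub_cancel] at this
  · have := dvd_add h3 g3
    rwa [sub_add_sub_cancel] at this

private theorem Kr2b_cg_of_dvd {d M : ℕ} (hd : d ∣ M) {u v : V} (h : Cg M u v) : Cg d u v := by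
  have h1 : (d : ℤ) ∣ (M : ℤ) := by exact_mod_cast hd
  exact ⟨dvd_trans h1 h.1, dvd_trans h1 h.2.1, dvd_trans h1 h.2.2⟩

private theorem Kr2b_cg_symm {d : ℕ} {u v : V} (h : Cg d u v) : Cg d v u := by
  obtain ⟨h1, h2, h3⟩ := h
  exact ⟨(dvd_sub_comm).mp h1, (dvd_sub_comm).mp h2, (dvd_sub_comm).mp h3⟩

/-- (Kr2b) Sums of a nontrivial character vanish.
Proof. Let `u ∈ V` with `Cos δ q r 0 u` and `¬ M ∣ dot k u`. The translation `v ↦ (v + u) mod M` (coordinatewise `Int.emod`) is a bijection of the filtered cube (`δ q ∣ M`), and multiplies every term by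
`e(dot k u / M) ≠ 1` (`Complex.exp_eq_one_iff`). So the sum `T` satisfies `T = e(..) T`, `T = 0`. (`Finset.sum_bij'` or `Finset.sum_nbij'`.) -/
theorem char_sum_zero (M δ q : ℕ) (hM : 0 < M) (hd : δ * q ∣ M) (r : ℤ) (c k u : V)
    (hu : Cos δ q r (0, 0, 0) u) (hku : ¬ (M : ℤ) ∣ dot k u) :
    ∑ v ∈ (cube M).filter (Cos δ q r c), Complex.exp (2 * Real.pi * Complex.I * ((dot k v : ℂ) / (M : ℂ))) = 0 := by
  have hM0 : (M : ℂ) ≠ 0 := by exact_mod_cast hM.ne'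
  have hδM : δ ∣ M := dvd_trans (dvd_mul_right δ q) hd
  have hqM : q ∣ M := dvd_trans (dvd_mul_left q δ) hd
  obtain ⟨hu1, hu2⟩ := hu
  -- translations preserve the set
  have hmem : ∀ (s : ℤ) (v : V), v ∈ (cube M).filter (Cos δ q r c) →
      Kr2b_red M (v.1 + s * u.1, v.2.1 + s * u.2.1, v.2.2 + s * u.2.2) ∈
        (cube M).filter (Cos δ q r c) := by
    intro s v hv
    rw [mem_filter] at hv ⊢
    obtain ⟨_, hv1, hv2⟩ := hv
    refine ⟨Kr2b_red_mem M hM _, ?_, ?_⟩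
    · refine Kr2b_cg_trans (Kr2b_cg_of_dvd hqM (Kr2b_red_cg M _)) (Kr2b_cg_trans ?_ hv1)
      obtain ⟨a1, a2, a3⟩ := hu1
      refine ⟨?_, ?_, ?_⟩
      · simp only [sub_zero] at a1
        rw [add_sub_cancel_left]
        exact dvd_mul_of_dvd_right a1 s
      · simp only [sub_zero] at a2
        rw [add_sub_cancel_left]
        exact dvd_mul_of_dvd_right a2 s
      · simp only [sub_zero] at a3
        rw [add_sub_cancel_left]
        exact dvd_mul_of_dvd_right a3 s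
    · refine Kr2b_ev r (Kr2b_cg_of_dvd hδM (Kr2b_red_cg M _)) ?_
      have h1 : ev (v.1 + s * u.1, v.2.1 + s * u.2.1, v.2.2 + s * u.2.2) r =
          ev v r + s * ev u r := by
        unfold ev
        ring
      rw [h1]
      exact dvd_add hv2 (dvd_mul_of_dvd_right hu2 s)
  set F := (cube M).filter (Cos δ q r c) with hF
  set S : ℂ := ∑ v ∈ F, Complex.exp (2 * Real.pi * Complex.I * ((dot k v : ℂ) / (M : ℂ))) with hS
  set z : ℂ := Complex.exp (2 * Real.pi * Complex.I * ((dot k u : ℂ) / (M : ℂ))) with hz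
  have hbij : S = ∑ v ∈ F, z * Complex.exp (2 * Real.pi * Complex.I * ((dot k v : ℂ) / (M : ℂ))) := by
    rw [hS]
    symm
    refine Finset.sum_nbij' (fun v => Kr2b_red M (v.1 + 1 * u.1, v.2.1 + 1 * u.2.1, v.2.2 + 1 * u.2.2))
      (fun v => Kr2b_red M (v.1 + (-1) * u.1, v.2.1 + (-1) * u.2.1, v.2.2 + (-1) * u.2.2))
      (fun v hv => hmem 1 v hv) (fun v hv => hmem (-1) v hv) ?_ ?_ ?_
    · intro v hv
      have hv' : v ∈ cube M := (mem_filter.mp hv).1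
      refine Kr2b_eq (Kr2b_red_mem M hM _) hv' (Kr2b_cg_trans (Kr2b_red_cg M _) ?_)
      obtain ⟨h1, h2, h3⟩ := Kr2b_red_cg M (v.1 + 1 * u.1, v.2.1 + 1 * u.2.1, v.2.2 + 1 * u.2.2)
      refine ⟨?_, ?_, ?_⟩
      · have e : (Kr2b_red M (v.1 + 1 * u.1, v.2.1 + 1 * u.2.1, v.2.2 + 1 * u.2.2)).1 + (-1) * u.1 - v.1 =
            (Kr2b_red M (v.1 + 1 * u.1, v.2.1 + 1 * u.2.1, v.2.2 + 1 * u.2.2)).1 - (v.1 + 1 * u.1) := by ring
        exact e ▸ h1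
      · have e : (Kr2b_red M (v.1 + 1 * u.1, v.2.1 + 1 * u.2.1, v.2.2 + 1 * u.2.2)).2.1 + (-1) * u.2.1 - v.2.1 =
            (Kr2b_red M (v.1 + 1 * u.1, v.2.1 + 1 * u.2.1, v.2.2 + 1 * u.2.2)).2.1 - (v.2.1 + 1 * u.2.1) := by ring
        exact e ▸ h2
      · have e : (Kr2b_red M (v.1 + 1 * u.1, v.2.1 + 1 * u.2.1, v.2.2 + 1 * u.2.2)).2.2 + (-1) * u.2.2 - v.2.2 =
            (Kr2b_red M (v.1 + 1 * u.1, v.2.1 + 1 * u.2.1, v.2.2 + 1 * u.2.2)).2.2 - (v.2.2 + 1 * u.2.2) := by ring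
        exact e ▸ h3
    · intro v hv
      have hv' : v ∈ cube M := (mem_filter.mp hv).1
      refine Kr2b_eq (Kr2b_red_mem M hM _) hv' (Kr2b_cg_trans (Kr2b_red_cg M _) ?_)
      obtain ⟨h1, h2, h3⟩ := Kr2b_red_cg M (v.1 + (-1) * u.1, v.2.1 + (-1) * u.2.1, v.2.2 + (-1) * u.2.2)
      refine ⟨?_, ?_, ?_⟩
      · have e : (Kr2b_red M (v.1 + (-1) * u.1, v.2.1 + (-1) * u.2.1, v.2.2 + (-1) * u.2.2)).1 + 1 * u.1 - v.1 =
            (Kr2b_red M (v.1 + (-1) * u.1, v.2.1 + (-1) * u.2.1, v.2.2 + (-1) * u.2.2)).1 - (v.1 + (-1) * u.1) := by ring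
        exact e ▸ h1
      · have e : (Kr2b_red M (v.1 + (-1) * u.1, v.2.1 + (-1) * u.2.1, v.2.2 + (-1) * u.2.2)).2.1 + 1 * u.2.1 - v.2.1 =
            (Kr2b_red M (v.1 + (-1) * u.1, v.2.1 + (-1) * u.2.1, v.2.2 + (-1) * u.2.2)).2.1 - (v.2.1 + (-1) * u.2.1) := by ring
        exact e ▸ h2
      · have e : (Kr2b_red M (v.1 + (-1) * u.1, v.2.1 + (-1) * u.2.1, v.2.2 + (-1) * u.2.2)).2.2 + 1 * u.2.2 - v.2.2 =
            (Kr2b_red M (v.1 + (-1) * u.1, v.2.1 + (-1) * u.2.1, v.2.2 + (-1) * u.2.2)).2.2 - (v.2.2 + (-1) * u.2.2) := by ring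
        exact e ▸ h3
    · intro v _
      rw [Kr2b_exp hM k (Kr2b_red_cg M (v.1 + 1 * u.1, v.2.1 + 1 * u.2.1, v.2.2 + 1 * u.2.2)), hz,
        ← Complex.exp_add]
      congr 1
      have h1 : dot k (v.1 + 1 * u.1, v.2.1 + 1 * u.2.1, v.2.2 + 1 * u.2.2) = dot k v + dot k u := by
        unfold dot
        ring
      rw [h1]
      push_cast
      ring
  rw [← Finset.mul_sum, ← hS] at hbij
  have hz1 : z ≠ 1 := by
    intro h
    rw [hz, Complex.exp_eq_one_iff] at h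
    obtain ⟨n, hn⟩ := h
    apply hku
    refine ⟨n, ?_⟩
    have hpi : (2 * Real.pi * Complex.I : ℂ) ≠ 0 := Complex.two_pi_I_ne_zero
    have h2 : (dot k u : ℂ) / (M : ℂ) = n := by
      have h3 : (2 * Real.pi * Complex.I : ℂ) * ((dot k u : ℂ) / (M : ℂ)) =
          (2 * Real.pi * Complex.I : ℂ) * n := by
        rw [hn]
        ring
      exact mul_left_cancel₀ hpi h3
    rw [div_eq_iff hM0] at h2
    have h4 : ((dot k u : ℤ) : ℂ) = ((M * n : ℤ) : ℂ) := by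
      rw [h2]
      push_cast
      ring
    exact_mod_cast h4
  have h5 : (z - 1) * S = 0 := by
    rw [sub_mul, one_mul, ← hbij, sub_self]
  rcases mul_eq_zero.mp h5 with h | h
  · exact absurd (sub_eq_zero.mp h) hz1
  · exact h

end FGO
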