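import Pool.Agent.Lib.MP_1ad228_ntG.Defs

/-! JOB Kr3: small characters are nontrivial on a good lattice. -/

set_option autoImplicit false

namespace FGO

open Finset

private theorem Kr3_aux1 {D M' : ℤ} (hD : 0 < D) {x : ℤ} (h : D * M' ∣ x * D) : M' ∣ x := by
  rw [mul_comm x D] at h
  exact Int.dvd_of_mul_dvd_mul_left (ne_of_gt hD) h

private theorem Kr3_nm (m : ℕ) (n : V) :
    nm ((m : ℤ) * n.1, (m : ℤ) * n.2.1, (m : ℤ) * n.2.2) = m * nm n := by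
  simp only [nm, Int.natAbs_mul, Int.natAbs_natCast]
  rw [Nat.mul_max_mul_left, Nat.mul_max_mul_left]

/-- (Kr3) Proof. Suppose not: `M ∣ dot k u` (`M = 4NJ`) for all `u` with `Cos δ q r 0 u`. Write `J = δ q J'`, so `M = δ q M'`, `M' = 4 N J'`.
(1) `u = δ q e_i` (unit vectors) is allowed, so `M ∣ δ q k_i`, i.e. `M' ∣ k_i`: write `k = M' n` coordinatewise, `n ≠ 0`. As `|k_i| < J = δ q J'`: `4 N |n_i| J' = |k_i| < δ q J'`, so `4 N nm n < δ q ≤ q0 δ`.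
(2) For every `w` with `δ ∣ ev w r` the vector `u = q w` is allowed: `M ∣ q M' dot n w`, i.e. `δ ∣ dot n w`.
(3) `w = (0, 0, 1) * ..`: put `t = n.2.2`. `w = (1, 0, -r²)` has `ev w r = 0`, so `δ ∣ n.1 - r² n.2.2 = n.1 - t r²`; `w = (0, 1, -r)`: `δ ∣ n.2.1 - t r`; and `δ ∣ n.2.2 - t = 0`.
So `Good N q0 δ r` applied to `n` gives `q0 δ ≤ 4 N nm n`: contradiction with (1). -/
theorem exists_move {N J δ q q0 : ℕ} {r : ℤ} (hN : 0 < N) (hJ : 0 < J) (hδ : 0 < δ) (hq : 0 < q)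
    (hd : δ * q ∣ J) (hq0 : q ≤ q0) (hG : Good N q0 δ r) (k : V) (hk : k ≠ 0) (hkJ : nm k < J) :
    ∃ u : V, Cos δ q r (0, 0, 0) u ∧ ¬ ((4 * N * J : ℕ) : ℤ) ∣ dot k u := by
  by_contra hcon
  have hall : ∀ u : V, Cos δ q r (0, 0, 0) u → ((4 * N * J : ℕ) : ℤ) ∣ dot k u := by
    intro u hu
    by_contra h
    exact hcon ⟨u, hu, h⟩
  obtain ⟨J', rfl⟩ := hd
  obtain ⟨k1, k2, k3⟩ := k
  have hJ' : 0 < J' := by
    rcases Nat.eq_zero_or_pos J' with h | h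
    · subst h; simp at hJ
    · exact h
  have hDpos : (0 : ℤ) < (δ : ℤ) * q := by positivity
  have hM : ((4 * N * (δ * q * J') : ℕ) : ℤ) = ((δ : ℤ) * q) * ((4 * N * J' : ℕ) : ℤ) := by
    push_cast; ring
  have h1 : ((4 * N * J' : ℕ) : ℤ) ∣ k1 := by
    have hc : Cos δ q r (0, 0, 0) ((δ : ℤ) * q, 0, 0) := by
      refine ⟨⟨?_, ?_, ?_⟩, ?_⟩
      · exact ⟨δ, by simp only; ring⟩
      · exact ⟨0, by simp⟩
      · exact ⟨0, by simp⟩
      · exact ⟨q * r ^ 2, by simp only [ev]; ring⟩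
    have h := hall _ hc
    rw [hM] at h
    have e : dot (k1, k2, k3) ((δ : ℤ) * q, 0, 0) = k1 * ((δ : ℤ) * q) := by simp [dot]
    rw [e] at h
    exact Kr3_aux1 hDpos h
  have h2 : ((4 * N * J' : ℕ) : ℤ) ∣ k2 := by
    have hc : Cos δ q r (0, 0, 0) (0, (δ : ℤ) * q, 0) := by
      refine ⟨⟨?_, ?_, ?_⟩, ?_⟩
      · exact ⟨0, by simp⟩
      · exact ⟨δ, by simp only; ring⟩
      · exact ⟨0, by simp⟩
      · exact ⟨q * r, by simp only [ev]; ring⟩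
    have h := hall _ hc
    rw [hM] at h
    have e : dot (k1, k2, k3) (0, (δ : ℤ) * q, 0) = k2 * ((δ : ℤ) * q) := by simp [dot]
    rw [e] at h
    exact Kr3_aux1 hDpos h
  have h3 : ((4 * N * J' : ℕ) : ℤ) ∣ k3 := by
    have hc : Cos δ q r (0, 0, 0) (0, 0, (δ : ℤ) * q) := by
      refine ⟨⟨?_, ?_, ?_⟩, ?_⟩
      · exact ⟨0, by simp⟩
      · exact ⟨0, by simp⟩
      · exact ⟨δ, by simp only; ring⟩
      · exact ⟨q, by simp only [ev]; ring⟩
    have h := hall _ hc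
    rw [hM] at h
    have e : dot (k1, k2, k3) (0, 0, (δ : ℤ) * q) = k3 * ((δ : ℤ) * q) := by simp [dot]
    rw [e] at h
    exact Kr3_aux1 hDpos h
  obtain ⟨n1, rfl⟩ := h1
  obtain ⟨n2, rfl⟩ := h2
  obtain ⟨n3, rfl⟩ := h3
  have hn : ((n1, n2, n3) : V) ≠ 0 := by
    intro h0
    apply hk
    have e1 : n1 = 0 := congrArg (fun v : V => v.1) h0
    have e2 : n2 = 0 := congrArg (fun v : V => v.2.1) h0
    have e3 : n3 = 0 := congrArg (fun v : V => v.2.2) h0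
    subst e1; subst e2; subst e3
    simp
  have hnm := Kr3_nm (4 * N * J') (n1, n2, n3)
  simp only at hnm
  rw [hnm] at hkJ
  have hlt : 4 * N * nm (n1, n2, n3) < δ * q := by
    have : J' * (4 * N * nm (n1, n2, n3)) < J' * (δ * q) := by
      calc J' * (4 * N * nm (n1, n2, n3)) = 4 * N * J' * nm (n1, n2, n3) := by ring
        _ < δ * q * J' := hkJ
        _ = J' * (δ * q) := by ring
    exact Nat.lt_of_mul_lt_mul_left this
  have hw : ∀ w : V, (δ : ℤ) ∣ ev w r → (δ : ℤ) ∣ dot (n1, n2, n3) w := by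
    rintro ⟨w1, w2, w3⟩ ⟨t, ht⟩
    have hc : Cos δ q r (0, 0, 0) ((q : ℤ) * w1, (q : ℤ) * w2, (q : ℤ) * w3) := by
      refine ⟨⟨?_, ?_, ?_⟩, ?_⟩
      · exact ⟨w1, by simp⟩
      · exact ⟨w2, by simp⟩
      · exact ⟨w3, by simp⟩
      · refine ⟨q * t, ?_⟩
        simp only [ev] at ht ⊢
        linear_combination (q : ℤ) * ht
    obtain ⟨s, hs⟩ := hall _ hc
    refine ⟨s, ?_⟩
    rw [hM] at hs
    simp only [dot] at hs ⊢
    have hne : ((4 * N * J' : ℕ) : ℤ) * q ≠ 0 := by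
      have : 0 < 4 * N * J' * q := by positivity
      exact_mod_cast this.ne'
    have := mul_left_cancel₀ hne
      (show ((4 * N * J' : ℕ) : ℤ) * q * (n1 * w1 + n2 * w2 + n3 * w3)
        = ((4 * N * J' : ℕ) : ℤ) * q * ((δ : ℤ) * s) by linear_combination hs)
    linarith
  have hg := hG (n1, n2, n3) hn ⟨n3, ?_, ?_, ?_⟩
  · have : δ * q ≤ q0 * δ := by
      calc δ * q ≤ δ * q0 := Nat.mul_le_mul_left _ hq0
        _ = q0 * δ := Nat.mul_comm _ _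
    omega
  · have h := hw (1, 0, -r ^ 2) ⟨0, by simp [ev]⟩
    obtain ⟨s, hs⟩ := h
    refine ⟨s, ?_⟩
    simp only [dot] at hs ⊢
    linarith
  · have h := hw (0, 1, -r) ⟨0, by simp [ev]⟩
    obtain ⟨s, hs⟩ := h
    refine ⟨s, ?_⟩
    simp only [dot] at hs ⊢
    linarith
  · exact ⟨0, by simp⟩

end FGO
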