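import Pool.Agent.Lib.MP_1ad228_ntG.Kr1
import Pool.Agent.Lib.MP_1ad228_ntG.Kr2
import Pool.Agent.Lib.MP_1ad228_ntG.Kr2b
import Pool.Agent.Lib.MP_1ad228_ntG.Kr3

/-! JOB Kr4: exact sums of the kernel over the cosets of a good lattice. -/

set_option autoImplicit false

open Classical

namespace FGO

open Finset

/-- the character -/
private noncomputable def Kr4e (M : ℕ) (a : ℤ) : ℂ :=
  Complex.exp (2 * Real.pi * Complex.I * ((a : ℂ) / (M : ℂ)))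

private theorem Kr4e_add (M : ℕ) (a b : ℤ) : Kr4e M (a + b) = Kr4e M a * Kr4e M b := by
  unfold Kr4e
  rw [← Complex.exp_add]
  congr 1
  push_cast
  ring

private theorem Kr4e_conj (M : ℕ) (a : ℤ) : (starRingEnd ℂ) (Kr4e M a) = Kr4e M (-a) := by
  unfold Kr4e
  rw [← Complex.exp_conj]
  congr 1
  simp only [map_mul, map_div₀, Complex.conj_I, Complex.conj_ofReal, map_intCast, map_natCast, map_ofNat,
    Int.cast_neg]
  ring

private theorem Kr4_wt (J M : ℕ) (a : ℤ) : ((wt J M a : ℝ) : ℂ) =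
    2 / (J : ℂ) ^ 2 * ∑ p ∈ range J ×ˢ range J, Kr4e M (((p.1 : ℤ) - (p.2 : ℤ)) * a) := by
  unfold wt
  push_cast
  congr 1
  have h1 : ∑ j ∈ range J, Complex.exp (2 * Real.pi * Complex.I * ((j : ℂ) * (a : ℂ) / (M : ℂ))) =
      ∑ j ∈ range J, Kr4e M ((j : ℤ) * a) := by
    refine sum_congr rfl fun j _ => ?_
    unfold Kr4e
    push_cast
    rfl
  rw [h1, ← Complex.mul_conj', map_sum, sum_mul_sum, sum_product]
  refine sum_congr rfl fun i _ => sum_congr rfl fun j _ => ?_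
  rw [Kr4e_conj, ← Kr4e_add]
  congr 1
  ring

/-- the frequency of six indices -/
private def Kr4k (t : (ℕ × ℕ) × ((ℕ × ℕ) × (ℕ × ℕ))) : V :=
  ((t.1.1 : ℤ) - (t.1.2 : ℤ), (t.2.1.1 : ℤ) - (t.2.1.2 : ℤ), (t.2.2.1 : ℤ) - (t.2.2.2 : ℤ))

private theorem Kr4_W (J M : ℕ) (v : V) : ((W J M v : ℝ) : ℂ) =
    (2 / (J : ℂ) ^ 2) ^ 3 * ∑ t ∈ (range J ×ˢ range J) ×ˢ ((range J ×ˢ range J) ×ˢ (range J ×ˢ range J)),
      Kr4e M (dot (Kr4k t) v) := by
  unfold W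
  push_cast
  rw [Kr4_wt, Kr4_wt, Kr4_wt]
  have h1 : ∑ t ∈ (range J ×ˢ range J) ×ˢ ((range J ×ˢ range J) ×ˢ (range J ×ˢ range J)),
      Kr4e M (dot (Kr4k t) v) =
      (∑ p ∈ range J ×ˢ range J, Kr4e M (((p.1 : ℤ) - (p.2 : ℤ)) * v.1)) *
      ((∑ p ∈ range J ×ˢ range J, Kr4e M (((p.1 : ℤ) - (p.2 : ℤ)) * v.2.1)) *
      ∑ p ∈ range J ×ˢ range J, Kr4e M (((p.1 : ℤ) - (p.2 : ℤ)) * v.2.2)) := by
    rw [sum_product]
    rw [sum_mul_sum (range J ×ˢ range J) (range J ×ˢ range J) (fun p => Kr4e M (((p.1 : ℤ) - (p.2 : ℤ)) * v.2.1))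
      (fun p => Kr4e M (((p.1 : ℤ) - (p.2 : ℤ)) * v.2.2))]
    rw [← sum_product (range J ×ˢ range J) (range J ×ˢ range J)
      (fun x => Kr4e M (((x.1.1 : ℤ) - (x.1.2 : ℤ)) * v.2.1) * Kr4e M (((x.2.1 : ℤ) - (x.2.2 : ℤ)) * v.2.2)),
      sum_mul_sum]
    refine sum_congr rfl fun i _ => sum_congr rfl fun j _ => ?_
    rw [← Kr4e_add, ← Kr4e_add]
    congr 1
    unfold dot Kr4k
    ring
  rw [h1]
  ring

private theorem Kr4_card (J : ℕ) :
    (((range J ×ˢ range J) ×ˢ ((range J ×ˢ range J) ×ˢ (range J ×ˢ range J))).filter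
      fun t => Kr4k t = 0).card = J ^ 3 := by
  have h : (range J ×ˢ (range J ×ˢ range J)).card = J ^ 3 := by
    simp only [card_product, card_range]
    ring
  rw [← h]
  refine card_nbij' (fun t => (t.1.1, t.2.1.1, t.2.2.1)) (fun s => ((s.1, s.1), ((s.2.1, s.2.1), (s.2.2, s.2.2))))
    ?_ ?_ ?_ ?_
  · rintro ⟨⟨a, b⟩, ⟨c, d⟩, ⟨e, f⟩⟩ ht
    simp only [coe_filter, Set.mem_ofPred_eq, mem_product, mem_coe] at ht ⊢
    exact ⟨ht.1.1.1, ht.1.2.1.1, ht.1.2.2.1⟩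
  · rintro ⟨a, b, c⟩ hs
    simp only [mem_coe, mem_product] at hs
    simp only [coe_filter, Set.mem_ofPred_eq, mem_product]
    refine ⟨⟨⟨hs.1, hs.1⟩, ⟨hs.2.1, hs.2.1⟩, hs.2.2, hs.2.2⟩, ?_⟩
    unfold Kr4k
    simp only [sub_self]
    rfl
  · rintro ⟨⟨a, b⟩, ⟨c, d⟩, ⟨e, f⟩⟩ ht
    simp only [coe_filter, Set.mem_ofPred_eq, mem_product] at ht
    have h0 := ht.2
    have e1 : ((a : ℤ) - b = 0) ∧ ((c : ℤ) - d = 0) ∧ ((e : ℤ) - f = 0) :=
      ⟨congrArg Prod.fst h0, congrArg (fun x => x.2.1) h0, congrArg (fun x => x.2.2) h0⟩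
    obtain ⟨e1, e2, e3⟩ := e1
    have e1' : a = b := by omega
    have e2' : c = d := by omega
    have e3' : e = f := by omega
    subst e1' e2' e3'
    rfl
  · rintro ⟨a, b, c⟩ hs
    rfl

/-- (Kr4a) Proof. `M = 4NJ`. `‖∑ j<J e(j a/M)‖² = ∑_{j, j' < J} e((j - j') a / M)` (`Complex.mul_conj`/`Complex.normSq`; work in `ℂ`, cast the claim to `ℂ`), so
`W J M v = (2/J²)³ ∑_{(j,j') ∈ (range J)^6} e(dot k v / M)` with `k = (j₁ - j₁', j₂ - j₂', j₃ - j₃')`, `nm k < J`. Exchange the sums (`Finset.sum_comm`). For `k ≠ 0` the inner sum is `0` (`exists_move`,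
`char_sum_zero`); `k = 0` occurs `J³` times and gives `#(coset) = M³/(δ q³)` (`card_coset`). Total: `(2/J²)³ J³ M³/(δ q³) = (8N)³/(δ q³)`. -/
theorem ex_coset {N J δ q q0 : ℕ} {r : ℤ} (hN : 0 < N) (hJ : 0 < J) (hδ : 0 < δ) (hq : 0 < q)
    (hc : δ.Coprime q) (hd : δ * q ∣ J) (hq0 : q ≤ q0) (hG : Good N q0 δ r) (c : V) :
    ∑ v ∈ (cube (4 * N * J)).filter (Cos δ q r c), W J (4 * N * J) v = (8 * (N : ℝ)) ^ 3 / ((δ : ℝ) * (q : ℝ) ^ 3) := by
  set M : ℕ := 4 * N * J with hM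
  have hM0 : 0 < M := by positivity
  have hdM : δ * q ∣ M := hd.trans (Dvd.intro_left _ rfl)
  set T := (range J ×ˢ range J) ×ˢ ((range J ×ˢ range J) ×ˢ (range J ×ˢ range J)) with hT
  set S := (cube M).filter (Cos δ q r c) with hS
  have hcard : (S.card : ℂ) * ((δ : ℂ) * (q : ℂ) ^ 3) = (M : ℂ) ^ 3 := by
    have := card_coset M δ q hM0 hδ hq hc hdM r c
    exact_mod_cast this
  have hδ' : (δ : ℂ) ≠ 0 := by exact_mod_cast hδ.ne'
  have hq' : (q : ℂ) ≠ 0 := by exact_mod_cast hq.ne'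
  have hJ' : (J : ℂ) ≠ 0 := by exact_mod_cast hJ.ne'
  have hin : ∀ t ∈ T, ∑ v ∈ S, Kr4e M (dot (Kr4k t) v) = if Kr4k t = 0 then (S.card : ℂ) else 0 := by
    intro t ht
    split_ifs with h0
    · rw [h0]
      have : ∀ v ∈ S, Kr4e M (dot 0 v) = 1 := by
        intro v _
        have : dot 0 v = 0 := by
          unfold dot
          simp
        rw [this]
        unfold Kr4e
        simp
      rw [sum_congr rfl this, sum_const, nsmul_eq_mul, mul_one]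
    · have hk : nm (Kr4k t) < J := by
        rw [hT] at ht
        simp only [mem_product, mem_range] at ht
        obtain ⟨⟨h1, h2⟩, ⟨h3, h4⟩, h5, h6⟩ := ht
        unfold nm Kr4k
        simp only
        omega
      obtain ⟨u, hu, hku⟩ := exists_move hN hJ hδ hq hd hq0 hG (Kr4k t) h0 hk
      exact char_sum_zero M δ q hM0 hdM r c (Kr4k t) u hu hku
  have hC : ((∑ v ∈ S, W J M v : ℝ) : ℂ) = (((8 * (N : ℝ)) ^ 3 / ((δ : ℝ) * (q : ℝ) ^ 3) : ℝ) : ℂ) := by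
    rw [Complex.ofReal_sum]
    rw [sum_congr rfl fun v _ => Kr4_W J M v, ← mul_sum, sum_comm, sum_congr rfl hin, ← sum_filter, sum_const,
      Kr4_card, nsmul_eq_mul]
    have hS' : (S.card : ℂ) = (M : ℂ) ^ 3 / ((δ : ℂ) * (q : ℂ) ^ 3) := by
      rw [eq_div_iff (mul_ne_zero hδ' (pow_ne_zero _ hq'))]
      exact hcard
    rw [hS', hM]
    push_cast
    field_simp
    ring
  exact_mod_cast hC

end FGO
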