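import Pool.Agent.Lib.MP_1ad228_ntG.Per

/-! JOB LcA: the density of `p ∣ res`. -/

set_option autoImplicit false

open Classical

namespace FGO

open Finset

/-- the resultant as a polynomial in the six coordinates -/
def LcA_rF {F : Type} [CommRing F] (a b c A B C : F) : F :=
  (a * C - A * c) ^ 2 - (a * B - A * b) * (b * C - B * c)

/-- the indicator function of zero -/
noncomputable def LcA_I {F : Type} [Zero F] (x : F) : ℝ := if x = 0 then 1 else 0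

theorem LcA_I_of_eq {F : Type} [Zero F] {x : F} (h : x = 0) : LcA_I x = 1 := by
  unfold LcA_I
  exact if_pos h

theorem LcA_I_of_ne {F : Type} [Zero F] {x : F} (h : x ≠ 0) : LcA_I x = 0 := by
  unfold LcA_I
  exact if_neg h

theorem LcA_ip_eq (p : ℕ) (u : V × V) :
    ip p u = LcA_I (LcA_rF (u.1.1 : ZMod p) (u.1.2.1 : ZMod p) (u.1.2.2 : ZMod p) (u.2.1 : ZMod p)
      (u.2.2.1 : ZMod p) (u.2.2.2 : ZMod p)) := by
  have h : ((res u.1 u.2 : ℤ) : ZMod p) = LcA_rF (u.1.1 : ZMod p) (u.1.2.1 : ZMod p) (u.1.2.2 : ZMod p)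
      (u.2.1 : ZMod p) (u.2.2.1 : ZMod p) (u.2.2.2 : ZMod p) := by
    unfold res LcA_rF
    push_cast
    ring
  unfold ip LcA_I
  rw [← h]
  by_cases hd : (p : ℤ) ∣ res u.1 u.2
  · rw [if_pos hd, if_pos ((ZMod.intCast_zmod_eq_zero_iff_dvd _ _).2 hd)]
  · rw [if_neg hd, if_neg fun h0 => hd ((ZMod.intCast_zmod_eq_zero_iff_dvd _ _).1 h0)]

theorem LcA_cast_eq {p : ℕ} {x y : ℤ} (h : (p : ℤ) ∣ x - y) : (x : ZMod p) = (y : ZMod p) := by
  have := (ZMod.intCast_zmod_eq_zero_iff_dvd _ _).2 h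
  push_cast at this
  exact sub_eq_zero.1 this

theorem Per_ip (p : ℕ) : Per p (ip p) := by
  intro u u' h1 h2
  rw [LcA_ip_eq, LcA_ip_eq, LcA_cast_eq h1.1, LcA_cast_eq h1.2.1, LcA_cast_eq h1.2.2, LcA_cast_eq h2.1,
    LcA_cast_eq h2.2.1, LcA_cast_eq h2.2.2]

theorem LcA_sum_Ico {p : ℕ} [Fact p.Prime] (φ : ZMod p → ℝ) :
    ∑ x ∈ Ico (0 : ℤ) (p : ℤ), φ (x : ZMod p) = ∑ x : ZMod p, φ x := by
  have hp : 0 < p := (Fact.out : p.Prime).pos
  refine Finset.sum_bij' (fun x _ => (x : ZMod p)) (fun y _ => (y.val : ℤ)) ?_ ?_ ?_ ?_ ?_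
  · intro a _
    exact Finset.mem_univ _
  · intro a _
    rw [mem_Ico]
    exact ⟨by positivity, by exact_mod_cast ZMod.val_lt a⟩
  · intro a ha
    rw [mem_Ico] at ha
    rw [ZMod.val_intCast]
    exact Int.emod_eq_of_lt ha.1 ha.2
  · intro a _
    simp
  · intro a _
    rfl

theorem LcA_sum_cube {p : ℕ} [Fact p.Prime] (φ : ZMod p → ZMod p → ZMod p → ℝ) :
    ∑ v ∈ cube p, φ (v.1 : ZMod p) (v.2.1 : ZMod p) (v.2.2 : ZMod p) = ∑ a : ZMod p, ∑ b : ZMod p, ∑ c : ZMod p, φ a b c := by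
  unfold cube
  rw [Finset.sum_product]
  rw [← LcA_sum_Ico (fun a => ∑ b : ZMod p, ∑ c : ZMod p, φ a b c)]
  refine Finset.sum_congr rfl fun a _ => ?_
  rw [Finset.sum_product]
  rw [← LcA_sum_Ico (fun b => ∑ c : ZMod p, φ (a : ZMod p) b c)]
  refine Finset.sum_congr rfl fun b _ => ?_
  rw [← LcA_sum_Ico (fun c => φ (a : ZMod p) (b : ZMod p) c)]

theorem LcA_sum_cube2 {p : ℕ} [Fact p.Prime] (φ : ZMod p → ZMod p → ZMod p → ZMod p → ZMod p → ZMod p → ℝ) :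
    ∑ u ∈ cube2 p, φ (u.1.1 : ZMod p) (u.1.2.1 : ZMod p) (u.1.2.2 : ZMod p) (u.2.1 : ZMod p) (u.2.2.1 : ZMod p)
      (u.2.2.2 : ZMod p) = ∑ a : ZMod p, ∑ b : ZMod p, ∑ c : ZMod p, ∑ A : ZMod p, ∑ B : ZMod p, ∑ C : ZMod p,
        φ a b c A B C := by
  unfold cube2
  rw [Finset.sum_product]
  rw [← LcA_sum_cube (fun a b c => ∑ A : ZMod p, ∑ B : ZMod p, ∑ C : ZMod p, φ a b c A B C)]
  refine Finset.sum_congr rfl fun v _ => ?_
  exact LcA_sum_cube (fun A B C => φ (v.1 : ZMod p) (v.2.1 : ZMod p) (v.2.2 : ZMod p) A B C)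

section field

variable {p : ℕ} [Fact p.Prime]

/-- an affine bijection -/
theorem LcA_sum_affine (φ : ZMod p → ℝ) {m : ZMod p} (hm : m ≠ 0) (t : ZMod p) :
    ∑ x : ZMod p, φ (m * x + t) = ∑ x : ZMod p, φ x := by
  let e : ZMod p ≃ ZMod p := (Equiv.mulLeft₀ m hm).trans (Equiv.addRight t)
  exact Equiv.sum_comp e φ

theorem LcA_card : (Fintype.card (ZMod p) : ℝ) = p := by
  rw [ZMod.card]

theorem LcA_sum_const (c : ℝ) : ∑ _x : ZMod p, c = p * c := by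
  rw [Finset.sum_const, Finset.card_univ, nsmul_eq_mul, LcA_card]

theorem LcA_I_sum : ∑ t : ZMod p, LcA_I t = 1 := by
  rw [Finset.sum_eq_single (0 : ZMod p)]
  · exact LcA_I_of_eq rfl
  · intro b _ hb
    exact LcA_I_of_ne hb
  · intro h
    exact absurd (Finset.mem_univ _) h

/-- a linear equation -/
theorem LcA_sum_lin {m : ZMod p} (hm : m ≠ 0) (t : ZMod p) : ∑ x : ZMod p, LcA_I (m * x + t) = 1 := by
  rw [LcA_sum_affine (fun y => LcA_I y) hm t]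
  exact LcA_I_sum

theorem LcA_two (h2 : p ≠ 2) : (2 : ZMod p) ≠ 0 := by
  intro h
  have : ((2 : ℕ) : ZMod p) = 0 := by exact_mod_cast h
  rw [ZMod.natCast_eq_zero_iff] at this
  exact h2 ((Nat.prime_dvd_prime_iff_eq Fact.out Nat.prime_two).1 this)

theorem LcA_char (h2 : p ≠ 2) : ringChar (ZMod p) ≠ 2 := by
  rw [ZMod.ringChar_zmod_n]
  exact h2

/-- the number of square roots -/
theorem LcA_sqrt (h2 : p ≠ 2) (D : ZMod p) :
    ∑ t : ZMod p, LcA_I (t ^ 2 - D) = 1 + (quadraticChar (ZMod p) D : ℝ) := by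
  have h := quadraticChar_card_sqrts (LcA_char h2) D
  have h' : (({x : ZMod p | x ^ 2 = D}.toFinset.card : ℕ) : ℝ) = (quadraticChar (ZMod p) D : ℝ) + 1 := by
    exact_mod_cast h
  have e : ∑ t : ZMod p, LcA_I (t ^ 2 - D) = (({x : ZMod p | x ^ 2 = D}.toFinset.card : ℕ) : ℝ) := by
    have e1 : ∀ t : ZMod p, LcA_I (t ^ 2 - D) = if t ∈ {x : ZMod p | x ^ 2 = D}.toFinset then (1 : ℝ) else 0 := by
      intro t
      by_cases ht : t ^ 2 = D
      · rw [LcA_I_of_eq (sub_eq_zero.2 ht), if_pos (by simpa using ht)]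
      · rw [LcA_I_of_ne (sub_ne_zero.2 ht), if_neg (by simpa using ht)]
    rw [Finset.sum_congr rfl fun t _ => e1 t, Finset.sum_ite_mem, Finset.univ_inter, Finset.sum_const, nsmul_eq_mul, mul_one]
  rw [e, h', add_comm]

/-- the number of roots of the resultant in the last variable -/
theorem LcA_C (h2 : p ≠ 2) {a : ZMod p} (ha : a ≠ 0) (b c A B : ZMod p) :
    ∑ C : ZMod p, LcA_I (LcA_rF a b c A B C) =
      1 + (quadraticChar (ZMod p) ((a * B + -(A * b)) ^ 2 * (b ^ 2 - 4 * a * c)) : ℝ) := by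
  have h2' := LcA_two h2
  have hm : (2 * a ^ 2 : ZMod p) ≠ 0 := mul_ne_zero h2' (pow_ne_zero _ ha)
  rw [← LcA_sqrt h2, ← LcA_sum_affine (fun t => LcA_I (t ^ 2 - (a * B + -(A * b)) ^ 2 * (b ^ 2 - 4 * a * c))) hm
    (-(2 * a * A * c + b * (a * B - A * b)))]
  refine Finset.sum_congr rfl fun C _ => ?_
  have e : (2 * a ^ 2 * C + -(2 * a * A * c + b * (a * B - A * b))) ^ 2 - (a * B + -(A * b)) ^ 2 * (b ^ 2 - 4 * a * c) =
      (2 * a) ^ 2 * LcA_rF a b c A B C := by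
    unfold LcA_rF
    ring
  have hne : ((2 * a) ^ 2 : ZMod p) ≠ 0 := pow_ne_zero _ (mul_ne_zero h2' ha)
  unfold LcA_I
  rw [e]
  by_cases h0 : LcA_rF a b c A B C = 0
  · rw [if_pos h0, if_pos (by rw [h0, mul_zero])]
  · rw [if_neg h0, if_neg (mul_ne_zero hne h0)]

theorem LcA_chi_sq_sum (d : ℝ) : ∑ t : ZMod p, (quadraticChar (ZMod p) (t ^ 2) : ℝ) * d = (p - 1) * d := by
  rw [← Finset.sum_mul]
  congr 1
  have h : ∀ t : ZMod p, (quadraticChar (ZMod p) (t ^ 2) : ℝ) = 1 - LcA_I t := by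
    intro t
    unfold LcA_I
    by_cases ht : t = 0
    · subst ht
      simp
    · rw [quadraticChar_sq_one' ht, if_neg ht]
      norm_num
  rw [Finset.sum_congr rfl fun t _ => h t, Finset.sum_sub_distrib, LcA_sum_const]
  rw [LcA_I_sum]
  ring

theorem LcA_BC (h2 : p ≠ 2) {a : ZMod p} (ha : a ≠ 0) (b c A : ZMod p) :
    ∑ B : ZMod p, ∑ C : ZMod p, LcA_I (LcA_rF a b c A B C) =
      p + (p - 1) * (quadraticChar (ZMod p) (b ^ 2 - 4 * a * c) : ℝ) := by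
  rw [Finset.sum_congr rfl fun B _ => LcA_C h2 ha b c A B, Finset.sum_add_distrib, LcA_sum_const]
  have h : ∀ B : ZMod p, (quadraticChar (ZMod p) ((a * B + -(A * b)) ^ 2 * (b ^ 2 - 4 * a * c)) : ℝ) =
      (quadraticChar (ZMod p) ((a * B + -(A * b)) ^ 2) : ℝ) * (quadraticChar (ZMod p) (b ^ 2 - 4 * a * c) : ℝ) := by
    intro B
    rw [map_mul]
    push_cast
    ring
  rw [Finset.sum_congr rfl fun B _ => h B]
  rw [LcA_sum_affine (fun t => (quadraticChar (ZMod p) (t ^ 2) : ℝ) * (quadraticChar (ZMod p) (b ^ 2 - 4 * a * c) : ℝ)) ha,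
    LcA_chi_sq_sum]
  ring

theorem LcA_a (h2 : p ≠ 2) {a : ZMod p} (ha : a ≠ 0) :
    ∑ b : ZMod p, ∑ c : ZMod p, ∑ A : ZMod p, ∑ B : ZMod p, ∑ C : ZMod p, LcA_I (LcA_rF a b c A B C) = (p : ℝ) ^ 4 := by
  have h4 : (-4 * a : ZMod p) ≠ 0 := by
    have h2' := LcA_two h2
    have : (-4 * a : ZMod p) = -(2 * 2 * a) := by ring
    rw [this]
    exact neg_ne_zero.2 (mul_ne_zero (mul_ne_zero h2' h2') ha)
  have hb : ∀ b : ZMod p, ∑ c : ZMod p, ∑ A : ZMod p, ∑ B : ZMod p, ∑ C : ZMod p, LcA_I (LcA_rF a b c A B C) = (p : ℝ) ^ 3 := by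
    intro b
    have hc : ∀ c : ZMod p, ∑ A : ZMod p, ∑ B : ZMod p, ∑ C : ZMod p, LcA_I (LcA_rF a b c A B C) =
        (p : ℝ) ^ 2 + p * (p - 1) * (quadraticChar (ZMod p) (-4 * a * c + b ^ 2) : ℝ) := by
      intro c
      rw [Finset.sum_congr rfl fun A _ => LcA_BC h2 ha b c A, LcA_sum_const]
      have : (-4 * a * c + b ^ 2 : ZMod p) = b ^ 2 - 4 * a * c := by ring
      rw [this]
      ring
    rw [Finset.sum_congr rfl fun c _ => hc c, Finset.sum_add_distrib, LcA_sum_const, ← Finset.mul_sum]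
    rw [LcA_sum_affine (fun t => (quadraticChar (ZMod p) t : ℝ)) h4]
    have h0 : ∑ t : ZMod p, (quadraticChar (ZMod p) t : ℝ) = 0 := by
      have := quadraticChar_sum_zero (LcA_char h2)
      exact_mod_cast this
    rw [h0]
    ring
  rw [Finset.sum_congr rfl fun b _ => hb b, LcA_sum_const]
  ring

theorem LcA_split (φ : ZMod p → ℝ) (x : ℝ) (h : ∀ a : ZMod p, a ≠ 0 → φ a = x) :
    ∑ a : ZMod p, φ a = φ 0 + (p - 1) * x := by
  have : ∀ a : ZMod p, φ a = x + (φ 0 - x) * LcA_I a := by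
    intro a
    unfold LcA_I
    by_cases ha : a = 0
    · subst ha
      simp
    · rw [if_neg ha, h a ha]
      ring
  rw [Finset.sum_congr rfl fun a _ => this a, Finset.sum_add_distrib, ← Finset.mul_sum, LcA_sum_const]
  rw [LcA_I_sum]
  ring

theorem LcA_zero_b {b : ZMod p} (hb : b ≠ 0) (c : ZMod p) :
    ∑ A : ZMod p, ∑ B : ZMod p, ∑ C : ZMod p, LcA_I (LcA_rF 0 b c A B C) = (p : ℝ) ^ 2 + (p - 1) * p := by
  rw [LcA_split (fun A => ∑ B : ZMod p, ∑ C : ZMod p, LcA_I (LcA_rF 0 b c A B C)) p]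
  · have : ∀ B C : ZMod p, LcA_I (LcA_rF 0 b c 0 B C) = 1 := by
      intro B C
      unfold LcA_I LcA_rF
      simp
    simp only [this, LcA_sum_const]
    ring
  · intro A hA
    have : ∀ B : ZMod p, ∑ C : ZMod p, LcA_I (LcA_rF 0 b c A B C) = 1 := by
      intro B
      rw [← LcA_sum_lin (mul_ne_zero hA (pow_ne_zero 2 hb)) (A * (A * c ^ 2 - b * B * c))]
      refine Finset.sum_congr rfl fun C _ => ?_
      congr 1
      unfold LcA_rF
      ring
    simp only [this, LcA_sum_const]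
    ring

theorem LcA_zero_zero {c : ZMod p} (hc : c ≠ 0) :
    ∑ A : ZMod p, ∑ B : ZMod p, ∑ C : ZMod p, LcA_I (LcA_rF 0 0 c A B C) = (p : ℝ) ^ 2 := by
  rw [LcA_split (fun A => ∑ B : ZMod p, ∑ C : ZMod p, LcA_I (LcA_rF 0 0 c A B C)) 0]
  · have : ∀ B C : ZMod p, LcA_I (LcA_rF 0 0 c 0 B C) = 1 := by
      intro B C
      unfold LcA_I LcA_rF
      simp
    simp only [this, LcA_sum_const]
    ring
  · intro A hA
    have : ∀ B C : ZMod p, LcA_I (LcA_rF 0 0 c A B C) = 0 := by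
      intro B C
      have e : LcA_rF 0 0 c A B C = (A * c) ^ 2 := by
        unfold LcA_rF
        ring
      unfold LcA_I
      rw [e, if_neg (pow_ne_zero 2 (mul_ne_zero hA hc))]
    simp only [this, LcA_sum_const]
    ring

theorem LcA_total (h2 : p ≠ 2) :
    ∑ a : ZMod p, ∑ b : ZMod p, ∑ c : ZMod p, ∑ A : ZMod p, ∑ B : ZMod p, ∑ C : ZMod p,
      LcA_I (LcA_rF a b c A B C) = (p : ℝ) ^ 5 + (p : ℝ) ^ 4 - (p : ℝ) ^ 3 := by
  rw [LcA_split (fun a => ∑ b : ZMod p, ∑ c : ZMod p, ∑ A : ZMod p, ∑ B : ZMod p, ∑ C : ZMod p,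
    LcA_I (LcA_rF a b c A B C)) ((p : ℝ) ^ 4) (fun a ha => LcA_a h2 ha)]
  rw [LcA_split (fun b => ∑ c : ZMod p, ∑ A : ZMod p, ∑ B : ZMod p, ∑ C : ZMod p,
    LcA_I (LcA_rF 0 b c A B C)) (p * ((p : ℝ) ^ 2 + (p - 1) * p))
    (fun b hb => by rw [Finset.sum_congr rfl fun c _ => LcA_zero_b hb c, LcA_sum_const])]
  rw [LcA_split (fun c => ∑ A : ZMod p, ∑ B : ZMod p, ∑ C : ZMod p,
    LcA_I (LcA_rF 0 0 c A B C)) ((p : ℝ) ^ 2) (fun c hc => LcA_zero_zero hc)]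
  have : ∀ A B C : ZMod p, LcA_I (LcA_rF 0 0 0 A B C) = 1 := by
    intro A B C
    unfold LcA_I LcA_rF
    simp
  simp only [this, LcA_sum_const]
  ring

end field

/-- (LcA) The number of pairs modulo `p` with `p ∣ res` is `p⁵ + p⁴ - p³` (checked by computer for `p = 3, 5`).
Proof. `v = (a, b, c)`, `w = (A, B, C)` in `F_p` (`ZMod p`), `p` odd. Count for fixed `v` the number of `w` with `res = 0`.
Case `a ≠ 0`: for fixed `A, B` the resultant is `a² C² - (2aAc + b(aB - Ab)) C + A²c² + (aB - Ab)Bc`, a quadratic polynomial in `C` with discriminant `(aB - Ab)² (b² - 4ac)`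
(`ring`). Number of roots `C`: `1` if `aB = Ab`, else `1 + χ(b² - 4ac)` (`χ = quadraticChar (ZMod p)`). There are `p` pairs `(A, B)` with `aB = Ab` and `p² - p` others: in total
`p² + (p² - p) χ(b² - 4ac)`. Sum over `c` (for fixed `a ≠ 0`, `b`): `b² - 4ac` runs through `F_p`, `∑ χ = 0` (`quadraticChar_sum_zero`), so the total for `a ≠ 0` is `(p-1) p · p · p² = p⁵ - p⁴`.
Case `a = 0`, `b ≠ 0`: `res = A (A c² + b² C - b c B)`: `A = 0`: `p²`; `A ≠ 0`: `C` is determined by `A, B`: `(p-1) p`; so `2p² - p` for each of the `(p-1) p` forms.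
Case `a = b = 0`, `c ≠ 0`: `res = A² c²`: `p²` each, `p - 1` forms. Case `v = 0`: `p³`. Total `(p⁵ - p⁴) + (p-1)p(2p² - p) + (p-1)p² + p³ = p⁵ + p⁴ - p³`.
(Transfer from `cube2 p` to `(ZMod p)^6` by `Int.cast`, e.g. `ZMod.intCast..`, or work with `Finset.range p` and `ZMod`; choose the most convenient encoding.) -/
theorem Ex_ip (p : ℕ) (hp : p.Prime) (h2 : p ≠ 2) :
    Ex p (ip p) = 1 / (p : ℝ) + 1 / (p : ℝ) ^ 2 - 1 / (p : ℝ) ^ 3 := by
  have : Fact p.Prime := ⟨hp⟩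
  have hp0 : (p : ℝ) ≠ 0 := by exact_mod_cast hp.ne_zero
  unfold Ex
  rw [Finset.sum_congr rfl fun u _ => LcA_ip_eq p u,
    LcA_sum_cube2 (fun a b c A B C => LcA_I (LcA_rF a b c A B C)), LcA_total h2]
  field_simp

end FGO
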