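import Pool.Agent.Lib.MP_1ad228_ntG.Per

/-! JOB LcB: the density of the violated classes modulo `p²`. -/

set_option autoImplicit false

open Classical

namespace FGO

open Finset

/-- Proof. `disc v mod p²` depends only on `v mod p²`; `jacobiSym` depends only on the numerator modulo `p` (`jacobiSym.mod_left`). -/
theorem Om_congr (δ : ℤ) (p : ℕ) (v w : V) (h : Cg (p ^ 2) v w) : Om δ p v ↔ Om δ p w := by
  obtain ⟨h1, h2, h3⟩ := h
  push_cast at h1 h2 h3
  have hd : (p : ℤ) ^ 2 ∣ disc v - disc w := by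
    have e : disc v - disc w = (v.2.1 + w.2.1) * (v.2.1 - w.2.1) - 4 * v.2.2 * (v.1 - w.1) - 4 * w.1 * (v.2.2 - w.2.2) := by
      unfold disc
      ring
    rw [e]
    exact dvd_sub (dvd_sub (Dvd.dvd.mul_left h2 _) (Dvd.dvd.mul_left h1 _)) (Dvd.dvd.mul_left h3 _)
  have hp2 : (p : ℤ) ∣ (p : ℤ) ^ 2 := Dvd.intro_left (p : ℤ) (by ring)
  have e1 : (p : ℤ) ∣ disc v ↔ (p : ℤ) ∣ disc w := dvd_iff_dvd_of_dvd_sub (hp2.trans hd)
  have e2 : (p : ℤ) ^ 2 ∣ disc v ↔ (p : ℤ) ^ 2 ∣ disc w := dvd_iff_dvd_of_dvd_sub hd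
  have e3 : (p : ℤ) ∣ v.1 ↔ (p : ℤ) ∣ w.1 := dvd_iff_dvd_of_dvd_sub (hp2.trans h1)
  have e4 : jacobiSym (δ * v.1) p = jacobiSym (δ * w.1) p := by
    have h5 : (δ * w.1) ≡ (δ * v.1) [ZMOD (p : ℤ)] := by
      rw [Int.modEq_iff_dvd]
      have e : δ * v.1 - δ * w.1 = δ * (v.1 - w.1) := by ring
      rw [e]
      exact Dvd.dvd.mul_left (hp2.trans h1) _
    rw [jacobiSym.mod_left (δ * v.1), jacobiSym.mod_left (δ * w.1), h5]
  unfold Om
  rw [e1, e2, e3, e4]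

/-- the indicator of a proposition -/
noncomputable def LcB_ind (P : Prop) : ℝ := if P then 1 else 0

theorem LcB_ind_true {P : Prop} (h : P) : LcB_ind P = 1 := by
  unfold LcB_ind
  exact if_pos h

theorem LcB_ind_false {P : Prop} (h : ¬ P) : LcB_ind P = 0 := by
  unfold LcB_ind
  exact if_neg h

theorem LcB_ind_congr {P Q : Prop} (h : P ↔ Q) : LcB_ind P = LcB_ind Q := by
  rw [propext h]

theorem LcB_card (q : ℕ) (P : V → Prop) : (((cube q).filter P).card : ℝ) = ∑ v ∈ cube q, LcB_ind (P v) := by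
  rw [Finset.card_eq_sum_ones, Finset.sum_filter]
  push_cast
  refine Finset.sum_congr rfl fun v _ => ?_
  by_cases h : P v
  · rw [if_pos h, LcB_ind_true h]
  · rw [if_neg h, LcB_ind_false h]

theorem LcB_sum_Ico (q : ℕ) (φ : ℤ → ℝ) : ∑ x ∈ Ico (0 : ℤ) (q : ℤ), φ x = ∑ i ∈ range q, φ (i : ℤ) := by
  refine Finset.sum_bij' (fun x _ => x.toNat) (fun i _ => (i : ℤ)) ?_ ?_ ?_ ?_ ?_
  · intro a ha
    rw [mem_Ico] at ha
    rw [mem_range]
    omega
  · intro a ha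
    rw [mem_range] at ha
    rw [mem_Ico]
    omega
  · intro a ha
    rw [mem_Ico] at ha
    exact Int.toNat_of_nonneg ha.1
  · intro a _
    exact Int.toNat_natCast a
  · intro a ha
    rw [mem_Ico] at ha
    rw [Int.toNat_of_nonneg ha.1]

theorem LcB_sum_cube (q : ℕ) (φ : V → ℝ) :
    ∑ v ∈ cube q, φ v = ∑ a ∈ range q, ∑ b ∈ range q, ∑ c ∈ range q, φ ((a : ℤ), (b : ℤ), (c : ℤ)) := by
  unfold cube
  rw [Finset.sum_product, LcB_sum_Ico]
  refine Finset.sum_congr rfl fun a _ => ?_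
  rw [Finset.sum_product, LcB_sum_Ico]
  refine Finset.sum_congr rfl fun b _ => ?_
  rw [LcB_sum_Ico]

theorem LcB_range (n k : ℕ) (φ : ℕ → ℝ) :
    ∑ i ∈ range (n * k), φ i = ∑ j ∈ range k, ∑ x ∈ range n, φ (n * j + x) := by
  induction k with
  | zero => simp
  | succ k ih => rw [Nat.mul_succ, Finset.sum_range_add, ih, Finset.sum_range_succ]

theorem LcB_sum_zmod (n : ℕ) [NeZero n] (φ : ZMod n → ℝ) : ∑ i ∈ range n, φ (i : ZMod n) = ∑ x : ZMod n, φ x := by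
  refine Finset.sum_bij' (fun i _ => (i : ZMod n)) (fun x _ => x.val) ?_ ?_ ?_ ?_ ?_
  · intro a _
    exact Finset.mem_univ _
  · intro a _
    rw [mem_range]
    exact ZMod.val_lt a
  · intro a ha
    rw [mem_range] at ha
    exact ZMod.val_cast_of_lt ha
  · intro a _
    exact ZMod.natCast_zmod_val a
  · intro a _
    rfl

/-- the number of solutions of a linear congruence -/
theorem LcB_lin (n k : ℕ) (hn : 0 < n) (m t : ℤ) (hm : IsUnit ((m : ℤ) : ZMod n)) :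
    ∑ c ∈ range (n * k), LcB_ind ((n : ℤ) ∣ t - m * (c : ℤ)) = k := by
  have : NeZero n := ⟨hn.ne'⟩
  rw [LcB_range]
  have h1 : ∀ j ∈ range k, ∑ x ∈ range n, LcB_ind ((n : ℤ) ∣ t - m * ((n * j + x : ℕ) : ℤ)) = 1 := by
    intro j _
    have h2 : ∀ x ∈ range n, LcB_ind ((n : ℤ) ∣ t - m * ((n * j + x : ℕ) : ℤ)) =
        (fun y : ZMod n => LcB_ind ((t : ZMod n) - (m : ZMod n) * y = 0)) (x : ZMod n) := by
      intro x _
      apply LcB_ind_congr
      rw [← ZMod.intCast_zmod_eq_zero_iff_dvd]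
      push_cast
      rw [ZMod.natCast_self, zero_mul, zero_add]
    rw [Finset.sum_congr rfl h2, LcB_sum_zmod n (fun y : ZMod n => LcB_ind ((t : ZMod n) - (m : ZMod n) * y = 0))]
    obtain ⟨w, hw⟩ := hm
    rw [Finset.sum_eq_single ((w⁻¹ : (ZMod n)ˣ) * (t : ZMod n))]
    · apply LcB_ind_true
      rw [← hw, Units.mul_inv_cancel_left, sub_self]
    · intro b _ hb
      apply LcB_ind_false
      intro h
      apply hb
      rw [sub_eq_zero] at h
      rw [h, ← hw, Units.inv_mul_cancel_left]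
    · intro h
      exact absurd (Finset.mem_univ _) h
  rw [Finset.sum_congr rfl h1]
  simp

theorem LcB_unit (p k : ℕ) (hp : p.Prime) (h2 : p ≠ 2) (a : ℕ) (ha : ¬ (p : ℤ) ∣ (a : ℤ)) :
    IsUnit (((4 * (a : ℤ) : ℤ)) : ZMod (p ^ k)) := by
  have h1 : ((4 * (a : ℤ) : ℤ) : ZMod (p ^ k)) = ((4 * a : ℕ) : ZMod (p ^ k)) := by
    push_cast
    ring
  rw [h1, ZMod.isUnit_iff_coprime]
  apply Nat.Coprime.pow_right
  apply Nat.Coprime.mul_left
  · have : Nat.Coprime 2 p := (Nat.coprime_primes Nat.prime_two hp).2 (Ne.symm h2)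
    exact Nat.Coprime.pow_left 2 this
  · rw [Nat.coprime_comm]
    exact (Nat.Prime.coprime_iff_not_dvd hp).2 fun h => ha (by exact_mod_cast h)

/-- the number of the last coordinates -/
theorem LcB_c (p : ℕ) (hp : p.Prime) (h2 : p ≠ 2) (a b : ℕ) (ha : ¬ (p : ℤ) ∣ (a : ℤ)) :
    ∑ c ∈ range (p ^ 2), LcB_ind ((p : ℤ) ∣ (b : ℤ) ^ 2 - 4 * a * c ∧ ¬ (p : ℤ) ^ 2 ∣ (b : ℤ) ^ 2 - 4 * a * c) = (p : ℝ) - 1 := by
  have hpd : (p : ℤ) ∣ (p : ℤ) ^ 2 := Dvd.intro_left (p : ℤ) (by ring)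
  have h1 : ∀ c ∈ range (p ^ 2), LcB_ind ((p : ℤ) ∣ (b : ℤ) ^ 2 - 4 * a * c ∧ ¬ (p : ℤ) ^ 2 ∣ (b : ℤ) ^ 2 - 4 * a * c) =
      LcB_ind ((p : ℤ) ∣ (b : ℤ) ^ 2 - 4 * a * c) - LcB_ind (((p ^ 2 : ℕ) : ℤ) ∣ (b : ℤ) ^ 2 - 4 * a * c) := by
    intro c _
    push_cast
    by_cases hA : (p : ℤ) ^ 2 ∣ (b : ℤ) ^ 2 - 4 * a * c
    · rw [LcB_ind_true hA, LcB_ind_true (hpd.trans hA), LcB_ind_false (fun h => h.2 hA)]
      ring
    · by_cases hB : (p : ℤ) ∣ (b : ℤ) ^ 2 - 4 * a * c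
      · rw [LcB_ind_false hA, LcB_ind_true hB, LcB_ind_true ⟨hB, hA⟩]
        ring
      · rw [LcB_ind_false hA, LcB_ind_false hB, LcB_ind_false (fun h => hB h.1)]
        ring
  rw [Finset.sum_congr rfl h1, Finset.sum_sub_distrib]
  have u1 := LcB_unit p 1 hp h2 a ha
  rw [pow_one] at u1
  have u2 := LcB_unit p 2 hp h2 a ha
  have s1 := LcB_lin p p hp.pos (4 * (a : ℤ)) ((b : ℤ) ^ 2) u1
  have s2 := LcB_lin (p ^ 2) 1 (pow_pos hp.pos 2) (4 * (a : ℤ)) ((b : ℤ) ^ 2) u2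
  rw [← pow_two] at s1
  rw [mul_one] at s2
  rw [s1, s2]
  push_cast
  ring

/-- the number of nonresidues -/
theorem LcB_nonres (p : ℕ) [Fact p.Prime] (h2 : p ≠ 2) :
    2 * ∑ y : ZMod p, LcB_ind (quadraticChar (ZMod p) y = -1) = (p : ℝ) - 1 := by
  have hch : ringChar (ZMod p) ≠ 2 := by
    rw [ZMod.ringChar_zmod_n]
    exact h2
  have h0 : ∑ t : ZMod p, (quadraticChar (ZMod p) t : ℝ) = 0 := by
    have := quadraticChar_sum_zero hch
    exact_mod_cast this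
  have h1 : ∀ y : ZMod p, 2 * LcB_ind (quadraticChar (ZMod p) y = -1) =
      (1 - LcB_ind (y = 0)) - (quadraticChar (ZMod p) y : ℝ) := by
    intro y
    by_cases hy : y = 0
    · subst hy
      rw [LcB_ind_true rfl, LcB_ind_false (by simp)]
      simp
    · rcases quadraticChar_dichotomy hy with h | h
      · rw [LcB_ind_false hy, h, LcB_ind_false (by norm_num)]
        norm_num
      · rw [LcB_ind_false hy, h, LcB_ind_true rfl]
        norm_num
  rw [Finset.mul_sum, Finset.sum_congr rfl fun y _ => h1 y, Finset.sum_sub_distrib, h0, Finset.sum_sub_distrib]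
  have h3 : ∑ y : ZMod p, LcB_ind (y = 0) = 1 := by
    rw [Finset.sum_eq_single (0 : ZMod p)]
    · exact LcB_ind_true rfl
    · intro b _ hb
      exact LcB_ind_false hb
    · intro h
      exact absurd (Finset.mem_univ _) h
  rw [h3, Finset.sum_const, Finset.card_univ, ZMod.card, nsmul_eq_mul]
  ring

theorem LcB_a (δ : ℤ) (p : ℕ) (hp : p.Prime) (h2 : p ≠ 2) (hδ : ¬ (p : ℤ) ∣ δ) :
    2 * ∑ a ∈ range (p ^ 2), LcB_ind (¬ (p : ℤ) ∣ (a : ℤ) ∧ jacobiSym (δ * (a : ℤ)) p = -1) = (p : ℝ) * (p - 1) := by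
  have : Fact p.Prime := ⟨hp⟩
  have hδ' : (δ : ZMod p) ≠ 0 := fun h => hδ ((ZMod.intCast_zmod_eq_zero_iff_dvd _ _).1 h)
  rw [pow_two, LcB_range]
  have h1 : ∀ j ∈ range p, ∑ x ∈ range p, LcB_ind (¬ (p : ℤ) ∣ ((p * j + x : ℕ) : ℤ) ∧ jacobiSym (δ * ((p * j + x : ℕ) : ℤ)) p = -1) =
      ∑ y : ZMod p, LcB_ind (quadraticChar (ZMod p) y = -1) := by
    intro j _
    have h3 : ∀ x ∈ range p, LcB_ind (¬ (p : ℤ) ∣ ((p * j + x : ℕ) : ℤ) ∧ jacobiSym (δ * ((p * j + x : ℕ) : ℤ)) p = -1) =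
        (fun y : ZMod p => LcB_ind (quadraticChar (ZMod p) ((δ : ZMod p) * y) = -1)) (x : ZMod p) := by
      intro x _
      apply LcB_ind_congr
      have e1 : jacobiSym (δ * ((p * j + x : ℕ) : ℤ)) p = quadraticChar (ZMod p) ((δ : ZMod p) * (x : ZMod p)) := by
        rw [← jacobiSym.legendreSym.to_jacobiSym]
        unfold legendreSym
        congr 1
        push_cast
        rw [ZMod.natCast_self, zero_mul, zero_add]
      rw [e1]
      constructor
      · intro h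
        exact h.2
      · intro h
        refine ⟨?_, h⟩
        intro hd
        rw [← ZMod.intCast_zmod_eq_zero_iff_dvd] at hd
        push_cast at hd
        rw [ZMod.natCast_self, zero_mul, zero_add] at hd
        rw [hd, mul_zero] at h
        simp at h
    rw [Finset.sum_congr rfl h3, LcB_sum_zmod p (fun y : ZMod p => LcB_ind (quadraticChar (ZMod p) ((δ : ZMod p) * y) = -1))]
    exact Equiv.sum_comp (Equiv.mulLeft₀ (δ : ZMod p) hδ') (fun y => LcB_ind (quadraticChar (ZMod p) y = -1))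
  rw [Finset.sum_congr rfl h1, Finset.sum_const, card_range, nsmul_eq_mul]
  have := LcB_nonres p h2
  linear_combination (p : ℝ) * this

/-- (LcB1) `#{v ∈ cube (p²) : Om δ p v} = p³ (p-1)² / 2` (checked by computer for `p = 3, 5, 7`).
Proof. `a` modulo `p²` is prime to `p` with `J(δ a) = -1`: `p (p-1)/2` classes (exactly half of the nonzero residues modulo `p` are nonresidues, `p ∤ δ`; `p` lifts each). `b`: all `p²` classes.
Given `a, b`: `c ↦ b² - 4ac` is a bijection of `Z/p²` (`4a` is a unit), and the value has to be `≡ 0 mod p`, `≢ 0 mod p²`: `p - 1` classes `c`. -/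
theorem card_Om (δ : ℤ) (p : ℕ) (hp : p.Prime) (h2 : p ≠ 2) (hδ : ¬ (p : ℤ) ∣ δ) :
    2 * ((cube (p ^ 2)).filter (Om δ p)).card = p ^ 3 * (p - 1) ^ 2 := by
  have key : (2 : ℝ) * (((cube (p ^ 2)).filter (Om δ p)).card : ℝ) = (p : ℝ) ^ 3 * ((p : ℝ) - 1) ^ 2 := by
    rw [LcB_card, LcB_sum_cube]
    have h1 : ∀ a ∈ range (p ^ 2), ∑ b ∈ range (p ^ 2), ∑ c ∈ range (p ^ 2), LcB_ind (Om δ p ((a : ℤ), (b : ℤ), (c : ℤ))) =
        LcB_ind (¬ (p : ℤ) ∣ (a : ℤ) ∧ jacobiSym (δ * (a : ℤ)) p = -1) * ((p : ℝ) ^ 2 * ((p : ℝ) - 1)) := by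
      intro a _
      by_cases ha : ¬ (p : ℤ) ∣ (a : ℤ) ∧ jacobiSym (δ * (a : ℤ)) p = -1
      · rw [LcB_ind_true ha, one_mul]
        have h3 : ∀ b ∈ range (p ^ 2), ∑ c ∈ range (p ^ 2), LcB_ind (Om δ p ((a : ℤ), (b : ℤ), (c : ℤ))) = (p : ℝ) - 1 := by
          intro b _
          rw [← LcB_c p hp h2 a b ha.1]
          refine Finset.sum_congr rfl fun c _ => ?_
          apply LcB_ind_congr
          unfold Om disc
          constructor
          · intro h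
            exact ⟨h.1, h.2.1⟩
          · intro h
            exact ⟨h.1, h.2, ha.1, ha.2⟩
        rw [Finset.sum_congr rfl h3, Finset.sum_const, card_range, nsmul_eq_mul]
        push_cast
        ring
      · rw [LcB_ind_false ha, zero_mul]
        apply Finset.sum_eq_zero
        intro b _
        apply Finset.sum_eq_zero
        intro c _
        apply LcB_ind_false
        intro h
        exact ha ⟨h.2.2.1, h.2.2.2⟩
    rw [Finset.sum_congr rfl h1, ← Finset.sum_mul]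
    have := LcB_a δ p hp h2 hδ
    linear_combination ((p : ℝ) ^ 2 * ((p : ℝ) - 1)) * this
  have hp1 : 1 ≤ p := hp.one_lt.le
  have e : ((2 * ((cube (p ^ 2)).filter (Om δ p)).card : ℕ) : ℝ) = ((p ^ 3 * (p - 1) ^ 2 : ℕ) : ℝ) := by
    push_cast [Nat.cast_sub hp1]
    exact key
  exact_mod_cast e

end FGO
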