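import Pool.Agent.Lib.MP_1ad228_ntG.Defs

/-! JOB Per: mean values of periodic functions. -/

set_option autoImplicit false

namespace FGO

open Finset

theorem Per.mono {a b : ℕ} {φ : V × V → ℝ} (h : Per a φ) (hab : a ∣ b) : Per b φ := by
  intro u u' h1 h2
  have hd : (a : ℤ) ∣ (b : ℤ) := Int.natCast_dvd_natCast.2 hab
  exact h u u' ⟨hd.trans h1.1, hd.trans h1.2.1, hd.trans h1.2.2⟩ ⟨hd.trans h2.1, hd.trans h2.2.1, hd.trans h2.2.2⟩

theorem Per.mul {a b : ℕ} {φ ψ : V × V → ℝ} (h : Per a φ) (h' : Per b ψ) : Per (a * b) fun u => φ u * ψ u := by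
  intro u u' h1 h2
  have e1 := h.mono (Dvd.intro b rfl) u u' h1 h2
  have e2 := h'.mono (Dvd.intro_left a rfl) u u' h1 h2
  simp only [e1, e2]

private theorem Per_card (q : ℕ) : (cube2 q).card = q ^ 6 := by
  simp only [cube2, cube, card_product, Int.card_Ico, sub_zero, Int.toNat_natCast]
  ring

/-- the reduction of all coordinates modulo `q` -/
private def Per_md (q : ℕ) (u : V × V) : V × V :=
  ((u.1.1 % q, u.1.2.1 % q, u.1.2.2 % q), (u.2.1 % q, u.2.2.1 % q, u.2.2.2 % q))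

private theorem Per_dvd (q : ℕ) (x : ℤ) : (q : ℤ) ∣ x - x % q :=
  ⟨x / q, by linear_combination - Int.emod_add_mul_ediv x q⟩

private theorem Per_val {q : ℕ} {φ : V × V → ℝ} (h : Per q φ) (u : V × V) : φ u = φ (Per_md q u) :=
  h u _ ⟨Per_dvd _ _, Per_dvd _ _, Per_dvd _ _⟩ ⟨Per_dvd _ _, Per_dvd _ _, Per_dvd _ _⟩

private theorem Per_mem {q : ℕ} (hq : 0 < q) (u : V × V) : Per_md q u ∈ cube2 q := by
  have h0 : (0 : ℤ) < q := Int.natCast_pos.2 hq
  have h1 : ∀ x : ℤ, 0 ≤ x % q ∧ x % q < q :=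
    fun x => ⟨Int.emod_nonneg x h0.ne', Int.emod_lt_of_pos x h0⟩
  rw [mem_cube2, mem_cube, mem_cube]
  exact ⟨⟨h1 _, h1 _, h1 _⟩, ⟨h1 _, h1 _, h1 _⟩⟩

private theorem Per_eq {a b : ℕ} (h : a.Coprime b) {x y : ℤ} (hx : 0 ≤ x ∧ x < (a * b : ℕ))
    (hy : 0 ≤ y ∧ y < (a * b : ℕ)) (h1 : x % a = y % a) (h2 : x % b = y % b) : x = y := by
  have h3 : (a : ℤ) ∣ x - y := by
    have := Int.emod_eq_emod_iff_emod_sub_eq_zero.1 h1
    exact Int.dvd_of_emod_eq_zero this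
  have h4 : (b : ℤ) ∣ x - y := by
    have := Int.emod_eq_emod_iff_emod_sub_eq_zero.1 h2
    exact Int.dvd_of_emod_eq_zero this
  have h5 : ((a * b : ℕ) : ℤ) ∣ x - y := by
    rw [Nat.cast_mul]
    exact (Nat.isCoprime_iff_coprime.2 h).mul_dvd h3 h4
  have h6 : |x - y| < ((a * b : ℕ) : ℤ) := by
    rw [abs_lt]
    constructor <;> linarith [hx.1, hx.2, hy.1, hy.2]
  have h7 := Int.eq_zero_of_abs_lt_dvd h5 h6
  linarith

/-- (Per1) Proof. Chinese remainder theorem: the map `cube2 (a b) → cube2 a × cube2 b`, `u ↦ (u mod a, u mod b)` (all six coordinates) is a bijection, and `φ u = φ (u mod a)`, `ψ u = ψ (u mod b)`.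
(For one coordinate: `x ↦ (x mod a, x mod b)` is a bijection `Ico 0 (ab) → Ico 0 a × Ico 0 b`; injective by coprimality, and the cardinalities agree: `Finset.sum_nbij`/`Finset.surj_on_of_inj_on_of_card_le`.) -/
theorem Ex_mul {a b : ℕ} (ha : 0 < a) (hb : 0 < b) (h : a.Coprime b) {φ ψ : V × V → ℝ} (hφ : Per a φ) (hψ : Per b ψ) :
    Ex (a * b) (fun u => φ u * ψ u) = Ex a φ * Ex b ψ := by
  have hinj : Set.InjOn (fun u : V × V => (Per_md a u, Per_md b u)) (cube2 (a * b) : Set (V × V)) := by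
    intro u hu u' hu' he
    rw [Finset.mem_coe, mem_cube2, mem_cube, mem_cube] at hu hu'
    have e1 := congrArg Prod.fst he
    have e2 := congrArg Prod.snd he
    simp only [Per_md, Prod.mk.injEq] at e1 e2
    obtain ⟨⟨a1, a2, a3⟩, a4, a5, a6⟩ := e1
    obtain ⟨⟨b1, b2, b3⟩, b4, b5, b6⟩ := e2
    refine Prod.ext (Prod.ext ?_ (Prod.ext ?_ ?_)) (Prod.ext ?_ (Prod.ext ?_ ?_))
    · exact Per_eq h hu.1.1 hu'.1.1 a1 b1
    · exact Per_eq h hu.1.2.1 hu'.1.2.1 a2 b2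
    · exact Per_eq h hu.1.2.2 hu'.1.2.2 a3 b3
    · exact Per_eq h hu.2.1 hu'.2.1 a4 b4
    · exact Per_eq h hu.2.2.1 hu'.2.2.1 a5 b5
    · exact Per_eq h hu.2.2.2 hu'.2.2.2 a6 b6
  have hmaps : Set.MapsTo (fun u : V × V => (Per_md a u, Per_md b u)) (cube2 (a * b) : Set (V × V))
      (cube2 a ×ˢ cube2 b : Finset ((V × V) × (V × V))) := by
    intro u _
    rw [Finset.mem_coe, mem_product]
    exact ⟨Per_mem ha u, Per_mem hb u⟩
  have hsurj : Set.SurjOn (fun u : V × V => (Per_md a u, Per_md b u)) (cube2 (a * b) : Set (V × V))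
      (cube2 a ×ˢ cube2 b : Finset ((V × V) × (V × V))) := by
    refine Finset.surjOn_of_injOn_of_card_le _ hmaps hinj ?_
    rw [card_product, Per_card, Per_card, Per_card, mul_pow]
  have hs : ∑ u ∈ cube2 (a * b), φ u * ψ u =
      ∑ z ∈ cube2 a ×ˢ cube2 b, φ z.1 * ψ z.2 := by
    refine Finset.sum_nbij (fun u : V × V => (Per_md a u, Per_md b u)) (fun u hu => hmaps hu) hinj
      hsurj fun u _ => ?_
    rw [Per_val hφ u, Per_val hψ u]
  unfold Ex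
  rw [hs, Finset.sum_product, Nat.cast_mul, mul_pow, div_mul_div_comm, Finset.sum_mul_sum]

theorem Ex_add (q : ℕ) (φ ψ : V × V → ℝ) : Ex q (fun u => φ u + ψ u) = Ex q φ + Ex q ψ := by
  unfold Ex
  rw [Finset.sum_add_distrib, add_div]

theorem Ex_sub (q : ℕ) (φ ψ : V × V → ℝ) : Ex q (fun u => φ u - ψ u) = Ex q φ - Ex q ψ := by
  unfold Ex
  rw [Finset.sum_sub_distrib, sub_div]

theorem Ex_smul (q : ℕ) (c : ℝ) (φ : V × V → ℝ) : Ex q (fun u => c * φ u) = c * Ex q φ := by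
  unfold Ex
  rw [← Finset.mul_sum, mul_div_assoc]

theorem Ex_mono (q : ℕ) (φ ψ : V × V → ℝ) (h : ∀ u, φ u ≤ ψ u) : Ex q φ ≤ Ex q ψ := by
  unfold Ex
  exact div_le_div_of_nonneg_right (Finset.sum_le_sum fun u _ => h u) (by positivity)

/-- (Per4) Proof. `#(cube2 q) = q^6`. -/
theorem Ex_const {q : ℕ} (hq : 0 < q) (c : ℝ) : Ex q (fun _ => c) = c := by
  have h1 : (q : ℝ) ^ 6 ≠ 0 := pow_ne_zero _ (Nat.cast_ne_zero.2 hq.ne')
  unfold Ex
  rw [Finset.sum_const, Per_card, nsmul_eq_mul, Nat.cast_pow, mul_div_cancel_left₀ _ h1]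

end FGO
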