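import Pool.Agent.Lib.MP_1ad228_ntG.Hn2

/-! JOB Po1: everywhere locally soluble pairs. -/

set_option autoImplicit false

namespace FGO

open Finset

theorem Po1_aux (n : ℕ) (hn : 2 ≤ n) : 0 < 8 * primorial n ∧ 8 ∣ 8 * primorial n ∧
    ∀ p : ℕ, p.Prime → (p ∣ 8 * primorial n ↔ p ≤ n) := by
  refine ⟨Nat.mul_pos (by norm_num) (primorial_pos n), Nat.dvd_mul_right 8 _, fun p hp => ?_⟩
  constructor
  · intro h
    rcases (hp.dvd_mul).1 h with h | h
    · have h2 : p ∣ 2 ^ 3 := by simpa using h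
      have := (Nat.prime_dvd_prime_iff_eq hp Nat.prime_two).1 (hp.dvd_of_dvd_pow h2)
      omega
    · unfold primorial at h
      obtain ⟨q, hq, hpq⟩ := (Prime.dvd_finsetProd_iff hp.prime _).1 h
      have hq' := mem_filter.1 hq
      have := (Nat.prime_dvd_prime_iff_eq hp hq'.2).1 hpq
      have h3 := mem_range.1 hq'.1
      omega
  · intro h
    refine Dvd.dvd.mul_left ?_ 8
    unfold primorial
    exact dvd_prod_of_mem (fun p => p) (mem_filter.2 ⟨mem_range.2 (by omega), hp⟩)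

theorem exists_m0 : ∃ m : ℕ, 0 < m ∧ 8 ∣ m ∧ ∀ p : ℕ, p.Prime → (p ∣ m ↔ p ≤ 1000) :=
  ⟨_, Po1_aux 1000 (by norm_num)⟩

/-- the modulus used for the positive proportion: divisible by `8`, with the prime factors `p ≤ 1000` -/
noncomputable def m0 : ℕ := exists_m0.choose

theorem m0_pos : 0 < m0 := exists_m0.choose_spec.1

theorem eight_dvd_m0 : 8 ∣ m0 := exists_m0.choose_spec.2.1

theorem dvd_m0_iff (p : ℕ) (hp : p.Prime) : p ∣ m0 ↔ p ≤ 1000 := exists_m0.choose_spec.2.2 p hp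

/-- an integer `≡ 1 mod 8` is a square in `ℚ_2` -/
theorem Po1_two (m : ℤ) (hm : (8 : ℤ) ∣ m - 1) : IsSquare (m : ℚ_[2]) := by
  have h8 : ‖((1 - m : ℤ) : ℤ_[2])‖ ≤ 1 / 8 := by
    have h := (PadicInt.norm_int_le_pow_iff_dvd (p := 2) (k := 1 - m) (n := 3)).2 (by
      norm_num
      have := dvd_neg.2 hm
      simpa using this)
    refine h.trans ?_
    norm_num
  have hF : ‖(Polynomial.X ^ 2 - Polynomial.C (m : ℤ_[2])).aeval (1 : ℤ_[2])‖ <
      ‖(Polynomial.derivative (Polynomial.X ^ 2 - Polynomial.C (m : ℤ_[2]))).aeval (1 : ℤ_[2])‖ ^ 2 := by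
    have e1 : (Polynomial.X ^ 2 - Polynomial.C (m : ℤ_[2])).aeval (1 : ℤ_[2]) = ((1 - m : ℤ) : ℤ_[2]) := by
      simp
    have e2 : (Polynomial.derivative (Polynomial.X ^ 2 - Polynomial.C (m : ℤ_[2]))).aeval (1 : ℤ_[2]) = 2 := by
      simp
      norm_num
    have hn2 : ‖(2 : ℤ_[2])‖ = 1 / 2 := by
      have := PadicInt.norm_p (p := 2)
      simpa using this
    rw [e1, e2, hn2]
    refine lt_of_le_of_lt h8 ?_
    norm_num
  obtain ⟨z, hz, -⟩ := hensels_lemma hF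
  have hz' : z ^ 2 = (m : ℤ_[2]) := by
    have : z ^ 2 - (m : ℤ_[2]) = 0 := by simpa using hz
    exact sub_eq_zero.1 this
  have hz2 : (z : ℚ_[2]) ^ 2 = (m : ℚ_[2]) := by
    have := congrArg (fun w : ℤ_[2] => (w : ℚ_[2])) hz'
    simpa using this
  exact ⟨z, by rw [← hz2, sq]⟩

theorem Po1_dvd {v w : V} {d : ℤ} (h1 : d ∣ v.1 - 1) (h2 : d ∣ w.1 - 1) : d ∣ v.1 * w.1 - 1 := by
  have : v.1 * w.1 - 1 = (v.1 - 1) * w.1 + (w.1 - 1) := by ring
  rw [this]
  exact dvd_add (Dvd.dvd.mul_right h1 _) h2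

/-- (Po1) Proof. Real: `(1, 0, √(v.1 w.1))`, `v.1 w.1 > 0`. `p > 1000`: `local_point`. `2 < p ≤ 1000`: `v.1 w.1 ≡ 1 mod p` (`p ∣ m0`), a square in `ℚ_[p]` (`ZC.isSquare_int_iff`), the point `(1, 0, ·)`. `p = 2`: `v.1 w.1 ≡ 1 mod 8`, a square in `ℚ_[2]`
(see `GTLoc.lean`/`ZHtwo.lean`/`ZBase.lean` for squares `≡ 1 mod 8` in `ℚ_2`; e.g. `ZC.isSquare_two_iff` or Hensel). -/
theorem els_of (v w : V) (h1 : (m0 : ℤ) ∣ v.1 - 1) (h2 : (m0 : ℤ) ∣ w.1 - 1) (h3 : 0 < v.1) (h4 : 0 < w.1)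
    (h5 : ∀ p : ℕ, p.Prime → 1000 < p → ¬ Dv p (crs v w) ∧ ¬ ((p : ℤ) ∣ disc v ∧ (p : ℤ) ∣ disc w)) :
    ELS (bq v) (bq w) := by
  have hpt : ∀ (F : Type) [Field F] (s : F), ((v.1 * w.1 : ℤ) : F) = s * s →
      ∃ x z y : F, ¬ (x = 0 ∧ z = 0) ∧ y ^ 2 = (bq v).ev x z * (bq w).ev x z := by
    intro F _ s hs
    refine ⟨1, 0, s, fun h => one_ne_zero h.1, ?_⟩
    push_cast at hs
    unfold ZG.BQ.ev bq
    simp only
    rw [sq, ← hs]
    ring
  refine ⟨fun p hp => ?_, ?_⟩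
  · have hpp := hp.out
    by_cases hle : p ≤ 1000
    · have hpm : p ∣ m0 := (dvd_m0_iff p hpp).2 hle
      by_cases h2p : p = 2
      · subst h2p
        have h8 : (8 : ℤ) ∣ (m0 : ℤ) := by exact_mod_cast eight_dvd_m0
        obtain ⟨s, hs⟩ := Po1_two (v.1 * w.1) (Po1_dvd (h8.trans h1) (h8.trans h2))
        exact hpt _ s hs
      · have hpd : (p : ℤ) ∣ (m0 : ℤ) := by exact_mod_cast hpm
        have hd := Po1_dvd (hpd.trans h1) (hpd.trans h2)
        have hnd : ¬ (p : ℤ) ∣ v.1 * w.1 := by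
          intro h
          have h6 := dvd_sub h hd
          simp only [sub_sub_cancel] at h6
          have h7 : p ∣ 1 := by exact_mod_cast h6
          exact hpp.one_lt.ne' (Nat.dvd_one.1 h7)
        have hj : jacobiSym (v.1 * w.1) p = 1 := by
          have h6 : jacobiSym (v.1 * w.1) p = jacobiSym 1 p := by
            rw [jacobiSym.mod_left, jacobiSym.mod_left 1]
            congr 1
            exact (Int.emod_emod_of_dvd _ dvd_rfl).symm.trans (by
              have : v.1 * w.1 ≡ 1 [ZMOD p] := (Int.modEq_iff_dvd.2 (by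
                have := dvd_neg.2 hd
                simpa using this))
              rw [this, Int.emod_emod_of_dvd _ dvd_rfl])
          rw [h6, jacobiSym.one_left]
        obtain ⟨s, hs⟩ := (ZC.isSquare_int_iff h2p (v.1 * w.1) hnd).2 hj
        exact hpt _ s hs
    · have hp1 : 1000 < p := by omega
      obtain ⟨h6, h7⟩ := h5 p hpp hp1
      exact local_point p (by omega) v w h6 h7
  · have hpos : (0 : ℝ) ≤ ((v.1 * w.1 : ℤ) : ℝ) := by exact_mod_cast (mul_pos h3 h4).le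
    exact hpt ℝ (Real.sqrt ((v.1 * w.1 : ℤ) : ℝ)) (Real.mul_self_sqrt hpos).symm

end FGO
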