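import Pool.Agent.Lib.MP_1ad228_ntG.Pl

/-! JOB Po2: exceptional pairs for primes `p ≤ N`, inside a residue class. `m` is a modulus prime to `p`, `m ≤ N`. -/

set_option autoImplicit false

open Classical

namespace FGO

open Finset

/-- counting one coordinate, when the modulus is at most `N` -/
theorem Po2_count1 (N d : ℕ) (hd : 0 < d) (hdN : d ≤ N) (c : ℤ) :
    (((Icc (-(N : ℤ)) (N : ℤ)).filter fun x => (d : ℤ) ∣ x - c).card : ℝ) ≤ 3 * (N : ℝ) / d := by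
  have h := class_count N d hd c
  have hd' : (0 : ℝ) < d := by exact_mod_cast hd
  have h1 : (1 : ℝ) ≤ (N : ℝ) / d := by
    rw [le_div_iff₀ hd', one_mul]; exact_mod_cast hdN
  have e : 3 * (N : ℝ) / d = 2 * (N : ℝ) / d + (N : ℝ) / d := by ring
  rw [e]
  linarith

/-- counting one coordinate without a condition -/
theorem Po2_count0 (N : ℕ) (hN : 1 ≤ N) :
    (((Icc (-(N : ℤ)) (N : ℤ))).card : ℝ) ≤ 3 * (N : ℝ) := by
  rw [Int.card_Icc]
  have e : ((N : ℤ) + 1 - -(N : ℤ)).toNat = 2 * N + 1 := by omega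
  rw [e]
  push_cast
  have : (1 : ℝ) ≤ N := by exact_mod_cast hN
  linarith

/-- counting one coordinate with two coprime moduli -/
theorem Po2_count2 (N m p : ℕ) (hm : 0 < m) (hp : 0 < p) (hc : m.Coprime p) (a b : ℤ) :
    (((Icc (-(N : ℤ)) (N : ℤ)).filter fun x => (m : ℤ) ∣ x - a ∧ (p : ℤ) ∣ x - b).card : ℝ) ≤
      2 * (N : ℝ) / ((m : ℝ) * p) + 1 := by
  have hco : IsCoprime (m : ℤ) (p : ℤ) := Nat.isCoprime_iff_coprime.mpr hc
  obtain ⟨s, t, hst⟩ := hco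
  have h := class_count N (m * p) (Nat.mul_pos hm hp) (s * m * b + t * p * a)
  refine le_trans ?_ (le_trans h ?_)
  · have hsub : ((Icc (-(N : ℤ)) (N : ℤ)).filter fun x => (m : ℤ) ∣ x - a ∧ (p : ℤ) ∣ x - b) ⊆
        ((Icc (-(N : ℤ)) (N : ℤ)).filter fun x => ((m * p : ℕ) : ℤ) ∣ x - (s * m * b + t * p * a)) := by
      intro x hx
      rw [mem_filter] at hx ⊢
      refine ⟨hx.1, ?_⟩
      rw [Nat.cast_mul]
      apply IsCoprime.mul_dvd ⟨s, t, hst⟩
      · have e : x - (s * m * b + t * p * a) = (x - a) + (m : ℤ) * (s * (a - b)) := by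
          have : t * (p : ℤ) = 1 - s * m := by linarith
          rw [this]; ring
        rw [e]
        exact dvd_add hx.2.1 (dvd_mul_right _ _)
      · have e : x - (s * m * b + t * p * a) = (x - b) + (p : ℤ) * (t * (b - a)) := by
          have : s * (m : ℤ) = 1 - t * p := by linarith
          rw [this]; ring
        rw [e]
        exact dvd_add hx.2.2 (dvd_mul_right _ _)
    exact_mod_cast card_le_card hsub
  · push_cast
    exact le_refl _

/-- the vectors of the box in a residue class modulo `p`, the first coordinate also in a class modulo `m` -/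
theorem Po2_countV (N m p : ℕ) (hm : 0 < m) (hp : 0 < p) (hpN : p ≤ N) (hc : m.Coprime p) (c : V) :
    (((box N).filter fun w => (m : ℤ) ∣ w.1 - 1 ∧ Cg p w c).card : ℝ) ≤
      (2 * (N : ℝ) / ((m : ℝ) * p) + 1) * (3 * (N : ℝ) / p) ^ 2 := by
  have hsub : ((box N).filter fun w => (m : ℤ) ∣ w.1 - 1 ∧ Cg p w c) ⊆
      ((Icc (-(N : ℤ)) (N : ℤ)).filter fun x => (m : ℤ) ∣ x - 1 ∧ (p : ℤ) ∣ x - c.1) ×ˢ
      (((Icc (-(N : ℤ)) (N : ℤ)).filter fun x => (p : ℤ) ∣ x - c.2.1) ×ˢ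
        ((Icc (-(N : ℤ)) (N : ℤ)).filter fun x => (p : ℤ) ∣ x - c.2.2)) := by
    intro w hw
    rw [mem_filter] at hw
    obtain ⟨h1, h2, h3, h4, h5⟩ := hw
    simp only [box, mem_product] at h1
    simp only [mem_product, mem_filter]
    exact ⟨⟨h1.1, h2, h3⟩, ⟨h1.2.1, h4⟩, ⟨h1.2.2, h5⟩⟩
  have h1 : (((box N).filter fun w => (m : ℤ) ∣ w.1 - 1 ∧ Cg p w c).card : ℝ) ≤
      (((Icc (-(N : ℤ)) (N : ℤ)).filter fun x => (m : ℤ) ∣ x - 1 ∧ (p : ℤ) ∣ x - c.1).card : ℝ) *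
      ((((Icc (-(N : ℤ)) (N : ℤ)).filter fun x => (p : ℤ) ∣ x - c.2.1).card : ℝ) *
        (((Icc (-(N : ℤ)) (N : ℤ)).filter fun x => (p : ℤ) ∣ x - c.2.2).card : ℝ)) := by
    have := card_le_card hsub
    rw [card_product, card_product] at this
    exact_mod_cast this
  refine h1.trans ?_
  rw [pow_two]
  have a1 := Po2_count2 N m p hm hp hc 1 c.1
  have a2 := Po2_count1 N p hp hpN c.2.1
  have a3 := Po2_count1 N p hp hpN c.2.2
  exact mul_le_mul a1 (mul_le_mul a2 a3 (Nat.cast_nonneg _) (by positivity))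
    (by positivity) (by positivity)

/-- the vectors of the box with the first coordinate in a class modulo `m` -/
theorem Po2_countL (N m : ℕ) (hm : 0 < m) (hmN : m ≤ N) :
    (((box N).filter fun w => (m : ℤ) ∣ w.1 - 1).card : ℝ) ≤
      (3 * (N : ℝ) / m) * (3 * (N : ℝ)) ^ 2 := by
  have hsub : ((box N).filter fun w => (m : ℤ) ∣ w.1 - 1) ⊆
      ((Icc (-(N : ℤ)) (N : ℤ)).filter fun x => (m : ℤ) ∣ x - 1) ×ˢ
      ((Icc (-(N : ℤ)) (N : ℤ)) ×ˢ (Icc (-(N : ℤ)) (N : ℤ))) := by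
    intro w hw
    rw [mem_filter] at hw
    obtain ⟨h1, h2⟩ := hw
    simp only [box, mem_product] at h1
    simp only [mem_product, mem_filter]
    exact ⟨⟨h1.1, h2⟩, h1.2.1, h1.2.2⟩
  have h1 : (((box N).filter fun w => (m : ℤ) ∣ w.1 - 1).card : ℝ) ≤
      (((Icc (-(N : ℤ)) (N : ℤ)).filter fun x => (m : ℤ) ∣ x - 1).card : ℝ) *
      (((Icc (-(N : ℤ)) (N : ℤ)).card : ℝ) * ((Icc (-(N : ℤ)) (N : ℤ)).card : ℝ)) := by
    have := card_le_card hsub
    rw [card_product, card_product] at this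
    exact_mod_cast this
  refine h1.trans ?_
  rw [pow_two]
  have a1 := Po2_count1 N m hm hmN 1
  have a2 := Po2_count0 N (by omega)
  exact mul_le_mul a1 (mul_le_mul a2 a2 (Nat.cast_nonneg _) (by positivity))
    (by positivity) (by positivity)

/-- proportional vectors modulo `p` -/
theorem Po2_prop (p : ℕ) (hp : p.Prime) (v w : V) (hv : ¬ Dv p v) (h : Dv p (crs v w)) :
    ∃ l ∈ range p, Cg p w ((l : ℤ) * v.1, (l : ℤ) * v.2.1, (l : ℤ) * v.2.2) := by
  have : Fact p.Prime := ⟨hp⟩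
  have hz : ∀ z : ℤ, (p : ℤ) ∣ z ↔ (z : ZMod p) = 0 := fun z =>
    (ZMod.intCast_zmod_eq_zero_iff_dvd z p).symm
  obtain ⟨h1, h2, h3⟩ := h
  simp only [crs] at h1 h2 h3
  rw [hz] at h1 h2 h3
  push_cast at h1 h2 h3
  have key : ∀ t : ZMod p, ((w.1 : ZMod p) = t * v.1 ∧ (w.2.1 : ZMod p) = t * v.2.1 ∧
      (w.2.2 : ZMod p) = t * v.2.2) →
      ∃ l ∈ range p, Cg p w ((l : ℤ) * v.1, (l : ℤ) * v.2.1, (l : ℤ) * v.2.2) := by
    intro t ht
    refine ⟨t.val, mem_range.mpr (ZMod.val_lt t), ?_, ?_, ?_⟩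
    · rw [hz]; push_cast; rw [ZMod.natCast_zmod_val, ht.1, sub_self]
    · rw [hz]; push_cast; rw [ZMod.natCast_zmod_val, ht.2.1, sub_self]
    · rw [hz]; push_cast; rw [ZMod.natCast_zmod_val, ht.2.2, sub_self]
  by_cases c1 : (v.1 : ZMod p) = 0
  · by_cases c2 : (v.2.1 : ZMod p) = 0
    · have c3 : (v.2.2 : ZMod p) ≠ 0 := by
        intro c3
        exact hv ⟨(hz _).mpr c1, (hz _).mpr c2, (hz _).mpr c3⟩
      apply key ((w.2.2 : ZMod p) / v.2.2)
      refine ⟨?_, ?_, ?_⟩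
      · field_simp
        linear_combination h2
      · field_simp
        linear_combination (-1 : ZMod p) * h1
      · field_simp
    · apply key ((w.2.1 : ZMod p) / v.2.1)
      refine ⟨?_, ?_, ?_⟩
      · field_simp
        linear_combination (-1 : ZMod p) * h3
      · field_simp
      · field_simp
        linear_combination h1
  · apply key ((w.1 : ZMod p) / v.1)
    refine ⟨?_, ?_, ?_⟩
    · field_simp
    · field_simp
      linear_combination h3
    · field_simp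
      linear_combination (-1 : ZMod p) * h2

/-- (Po2a) Proof. In `[-N, N]`: `x ≡ 1 mod m`: `≤ 2N/m + 1 ≤ 3N/m`; `x ≡ a mod p`: `≤ 2N/p + 1 ≤ 3N/p`; both: `≤ 2N/(mp) + 1` (`class_count`, Chinese remainder theorem). If `v ≢ 0 mod p`, `w ≡ λ v mod p` for one of `p` values `λ`: for each `λ` at most
`(2N/(mp) + 1)(3N/p)²` vectors `w`; the number of `v` is `≤ (3N/m)(3N)²`. If `v ≡ 0 mod p`: at most `(2N/(mp)+1)(3N/p)²` vectors `v` and `(3N/m)(3N)²` vectors `w`. Total `≤ (27N³/m)(9N²/p²)(p + 1)(2N/(mp) + 1) ≤ 972 N^6/(m²p²) + 486 N^5/(m p)`. -/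
theorem crs_class (N m p : ℕ) (hm : 0 < m) (hmN : m ≤ N) (hp : p.Prime) (hpN : p ≤ N) (hc : m.Coprime p) :
    (((box2 N).filter fun u => (m : ℤ) ∣ u.1.1 - 1 ∧ (m : ℤ) ∣ u.2.1 - 1 ∧ Dv p (crs u.1 u.2)).card : ℝ) ≤
      972 * (N : ℝ) ^ 6 / ((m : ℝ) ^ 2 * (p : ℝ) ^ 2) + 486 * (N : ℝ) ^ 5 / p := by
  set A := (box N).filter fun w => (m : ℤ) ∣ w.1 - 1 with hA
  set B : V → Finset V := fun c => (box N).filter fun w => (m : ℤ) ∣ w.1 - 1 ∧ Cg p w c with hB
  set K : ℝ := (2 * (N : ℝ) / ((m : ℝ) * p) + 1) * (3 * (N : ℝ) / p) ^ 2 with hK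
  set L : ℝ := (3 * (N : ℝ) / m) * (3 * (N : ℝ)) ^ 2 with hL
  have hp0 : 0 < p := hp.pos
  have hBK : ∀ c, ((B c).card : ℝ) ≤ K := fun c => Po2_countV N m p hm hp0 hpN hc c
  have hAL : (A.card : ℝ) ≤ L := Po2_countL N m hm hmN
  have hsub : ((box2 N).filter fun u => (m : ℤ) ∣ u.1.1 - 1 ∧ (m : ℤ) ∣ u.2.1 - 1 ∧ Dv p (crs u.1 u.2)) ⊆
      (B 0 ×ˢ A) ∪ (range p ×ˢ A).biUnion (fun x =>
        (B ((x.1 : ℤ) * x.2.1, (x.1 : ℤ) * x.2.2.1, (x.1 : ℤ) * x.2.2.2)).image (fun w => (x.2, w))) := by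
    intro u hu
    rw [mem_filter, mem_box2] at hu
    obtain ⟨⟨hu1, hu2⟩, hu3, hu4, hu5⟩ := hu
    rw [mem_union]
    by_cases hv : Dv p u.1
    · left
      rw [mem_product]
      refine ⟨?_, ?_⟩
      · rw [hB]
        simp only [mem_filter]
        refine ⟨hu1, hu3, ?_⟩
        refine ⟨?_, ?_, ?_⟩
        · show (p : ℤ) ∣ u.1.1 - 0
          rw [sub_zero]; exact hv.1
        · show (p : ℤ) ∣ u.1.2.1 - 0
          rw [sub_zero]; exact hv.2.1
        · show (p : ℤ) ∣ u.1.2.2 - 0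
          rw [sub_zero]; exact hv.2.2
      · rw [hA, mem_filter]
        exact ⟨hu2, hu4⟩
    · right
      rw [mem_biUnion]
      obtain ⟨l, hl, hcg⟩ := Po2_prop p hp u.1 u.2 hv hu5
      refine ⟨(l, u.1), ?_, ?_⟩
      · rw [mem_product]
        refine ⟨hl, ?_⟩
        rw [hA, mem_filter]
        exact ⟨hu1, hu3⟩
      · rw [mem_image]
        refine ⟨u.2, ?_, rfl⟩
        rw [hB]
        simp only [mem_filter]
        exact ⟨hu2, hu4, hcg⟩
  have h1 : (((box2 N).filter fun u => (m : ℤ) ∣ u.1.1 - 1 ∧ (m : ℤ) ∣ u.2.1 - 1 ∧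
      Dv p (crs u.1 u.2)).card : ℝ) ≤ K * L + (p * L) * K := by
    have h2 := (card_le_card hsub).trans (card_union_le _ _)
    have h3 : ((B 0 ×ˢ A).card : ℝ) ≤ K * L := by
      rw [card_product]
      push_cast
      exact mul_le_mul (hBK 0) hAL (Nat.cast_nonneg _) (by positivity)
    have h4 : (((range p ×ˢ A).biUnion (fun x =>
        (B ((x.1 : ℤ) * x.2.1, (x.1 : ℤ) * x.2.2.1, (x.1 : ℤ) * x.2.2.2)).image
          (fun w => (x.2, w)))).card : ℝ) ≤ (p * L) * K := by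
      have h5 : (((range p ×ˢ A).biUnion (fun x =>
        (B ((x.1 : ℤ) * x.2.1, (x.1 : ℤ) * x.2.2.1, (x.1 : ℤ) * x.2.2.2)).image
          (fun w => (x.2, w)))).card : ℝ) ≤ ∑ x ∈ range p ×ˢ A,
          (((B ((x.1 : ℤ) * x.2.1, (x.1 : ℤ) * x.2.2.1, (x.1 : ℤ) * x.2.2.2)).image
            (fun w => (x.2, w))).card : ℝ) := by
        exact_mod_cast card_biUnion_le
      refine h5.trans ?_
      have h6 : ∑ x ∈ range p ×ˢ A,
          (((B ((x.1 : ℤ) * x.2.1, (x.1 : ℤ) * x.2.2.1, (x.1 : ℤ) * x.2.2.2)).image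
            (fun w => (x.2, w))).card : ℝ) ≤ ∑ x ∈ range p ×ˢ A, K := by
        apply sum_le_sum
        intro x _
        exact le_trans (Nat.cast_le.mpr card_image_le) (hBK _)
      refine h6.trans ?_
      rw [sum_const, card_product, card_range, nsmul_eq_mul]
      push_cast
      have hK0 : 0 ≤ K := by positivity
      apply mul_le_mul_of_nonneg_right _ hK0
      exact mul_le_mul_of_nonneg_left hAL (Nat.cast_nonneg _)
    have h7 : (((box2 N).filter fun u => (m : ℤ) ∣ u.1.1 - 1 ∧ (m : ℤ) ∣ u.2.1 - 1 ∧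
      Dv p (crs u.1 u.2)).card : ℝ) ≤ ((B 0 ×ˢ A).card : ℝ) + (((range p ×ˢ A).biUnion (fun x =>
        (B ((x.1 : ℤ) * x.2.1, (x.1 : ℤ) * x.2.2.1, (x.1 : ℤ) * x.2.2.2)).image
          (fun w => (x.2, w)))).card : ℝ) := by exact_mod_cast h2
    linarith
  refine h1.trans ?_
  have hpR : (1 : ℝ) ≤ p := by exact_mod_cast hp0
  have hmR : (1 : ℝ) ≤ m := by exact_mod_cast hm
  have hKL : 0 ≤ K * L := by positivity
  have h8 : K * L + (p * L) * K ≤ 2 * p * (K * L) := by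
    have : K * L ≤ p * (K * L) := le_mul_of_one_le_left hKL hpR
    linarith [this, mul_comm (p * L : ℝ) K, mul_assoc (p : ℝ) L K, mul_comm L K]
  refine h8.trans ?_
  have hp' : (p : ℝ) ≠ 0 := by positivity
  have hm' : (m : ℝ) ≠ 0 := by positivity
  have e : 2 * p * (K * L) = 972 * (N : ℝ) ^ 6 / ((m : ℝ) ^ 2 * (p : ℝ) ^ 2)
      + 486 * (N : ℝ) ^ 5 / (m * p) := by
    rw [hK, hL]
    field_simp
    ring
  rw [e]
  have h9 : 486 * (N : ℝ) ^ 5 / (m * p) ≤ 486 * (N : ℝ) ^ 5 / p := by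
    apply div_le_div_of_nonneg_left (by positivity) (by positivity)
    exact le_mul_of_one_le_left (by positivity) hmR
  linarith

end FGO
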