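import Pool.Agent.Lib.MP_1ad228_ntG.Pl

/-! JOB Po2b. -/

set_option autoImplicit false

open Classical

namespace FGO

open Finset

/-- fibrewise counting -/
theorem Po2b_fib {α β : Type*} (s : Finset α) (t : Finset β) (f : α → β) (hf : ∀ x ∈ s, f x ∈ t)
    (K : ℝ) (h : ∀ y ∈ t, ∀ s' : Finset α, s' ⊆ s → (∀ x ∈ s', f x = y) → (s'.card : ℝ) ≤ K) :
    (s.card : ℝ) ≤ t.card * K := by
  rw [card_eq_sum_card_fiberwise (f := f) (s := s) (t := t) hf]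
  push_cast
  refine (sum_le_sum (g := fun _ => K) fun y hy => h y hy _ (filter_subset _ _) ?_).trans ?_
  · intro x hx
    exact (mem_filter.1 hx).2
  · rw [sum_const, nsmul_eq_mul]

private theorem Po2b_Icc (N : ℕ) (hN : 0 < N) : (((Icc (-(N : ℤ)) (N : ℤ)).card : ℕ) : ℝ) ≤ 3 * N := by
  rw [Int.card_Icc]
  have h : ((N : ℤ) + 1 - -(N : ℤ)).toNat = 2 * N + 1 := by omega
  rw [h]
  push_cast
  have : (1 : ℝ) ≤ N := by exact_mod_cast hN
  linarith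

private theorem Po2b_cls (N d : ℕ) (hd : 0 < d) (hdN : d ≤ N) (c : ℤ) :
    (((Icc (-(N : ℤ)) (N : ℤ)).filter fun x => (d : ℤ) ∣ x - c).card : ℝ) ≤ 3 * N / d := by
  refine (class_count N d hd c).trans ?_
  have hd0 : (0 : ℝ) < d := by exact_mod_cast hd
  have h1 : (1 : ℝ) ≤ N / d := by
    rw [le_div_iff₀ hd0, one_mul]
    exact_mod_cast hdN
  have h2 : 3 * (N : ℝ) / d = 2 * N / d + N / d := by ring
  rw [h2]
  linarith

/-- the first part: `p` does not divide `v.1` -/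
theorem Po2b_one (N m p : ℕ) (hm : 0 < m) (hmN : m ≤ N) (hp : p.Prime) (h2 : p ≠ 2) (hpN : p ≤ N) :
    (((box N).filter fun v => ((m : ℤ) ∣ v.1 - 1 ∧ (p : ℤ) ∣ disc v) ∧ ¬ (p : ℤ) ∣ v.1).card : ℝ) ≤
      27 * (N : ℝ) ^ 3 / (m * p) := by
  have hN : 0 < N := by omega
  have hpp : Prime (p : ℤ) := Nat.prime_iff_prime_int.1 hp
  have hp0 : (0 : ℝ) < p := by exact_mod_cast hp.pos
  have hm0 : (0 : ℝ) < m := by exact_mod_cast hm
  have h1 := Po2b_fib ((box N).filter fun v => ((m : ℤ) ∣ v.1 - 1 ∧ (p : ℤ) ∣ disc v) ∧ ¬ (p : ℤ) ∣ v.1)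
    (((Icc (-(N : ℤ)) (N : ℤ)).filter fun x => (m : ℤ) ∣ x - 1) ×ˢ Icc (-(N : ℤ)) (N : ℤ))
    (fun v => (v.1, v.2.1)) (by
      intro v hv
      obtain ⟨hb, ⟨h3, -⟩, -⟩ := mem_filter.1 hv
      have hb := mem_box.1 hb
      rw [mem_product, mem_filter, mem_Icc, mem_Icc]
      exact ⟨⟨abs_le.1 hb.1, h3⟩, abs_le.1 hb.2.1⟩) (3 * (N : ℝ) / p) (by
      rintro ⟨x, y⟩ _ s' hs hs2
      rcases s'.eq_empty_or_nonempty with h0 | ⟨w0, h0⟩
      · rw [h0, card_empty]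
        push_cast
        positivity
      · refine le_trans ?_ (Po2b_cls N p hp.pos hpN w0.2.2)
        have h4 : s'.card ≤ ((Icc (-(N : ℤ)) (N : ℤ)).filter fun z => (p : ℤ) ∣ z - w0.2.2).card := by
          refine card_le_card_of_injOn (fun w => w.2.2) ?_ ?_
          · intro w hw
            obtain ⟨hb, ⟨-, h5⟩, h6⟩ := mem_filter.1 (hs (mem_coe.1 hw))
            obtain ⟨-, ⟨-, h5'⟩, -⟩ := mem_filter.1 (hs h0)
            have hb := mem_box.1 hb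
            have e1 := hs2 w (mem_coe.1 hw)
            have e2 := hs2 w0 h0
            have ex : w.1 = w0.1 := (congrArg Prod.fst e1).trans (congrArg Prod.fst e2).symm
            have ey : w.2.1 = w0.2.1 := (congrArg Prod.snd e1).trans (congrArg Prod.snd e2).symm
            rw [mem_coe, mem_filter, mem_Icc]
            refine ⟨abs_le.1 hb.2.2, ?_⟩
            have h7 : (p : ℤ) ∣ 4 * w.1 * (w.2.2 - w0.2.2) := by
              have e : 4 * w.1 * (w.2.2 - w0.2.2) = disc w0 - disc w := by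
                simp only [disc]
                rw [ex, ey]
                ring
              rw [e]
              exact dvd_sub h5' h5
            rcases hpp.dvd_or_dvd h7 with h8 | h8
            · exfalso
              rcases hpp.dvd_or_dvd h8 with h9 | h9
              · have h10 : p ∣ 4 := by exact_mod_cast h9
                have h11 : p ∣ 2 ^ 2 := by norm_num; exact h10
                exact h2 ((Nat.prime_dvd_prime_iff_eq hp Nat.prime_two).1 (hp.dvd_of_dvd_pow h11))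
              · exact h6 h9
            · exact h8
          · intro w hw w' hw' h
            have e1 := hs2 w (mem_coe.1 hw)
            have e2 := hs2 w' (mem_coe.1 hw')
            exact Prod.ext ((congrArg Prod.fst e1).trans (congrArg Prod.fst e2).symm)
              (Prod.ext ((congrArg Prod.snd e1).trans (congrArg Prod.snd e2).symm) h)
        exact_mod_cast h4)
  refine h1.trans ?_
  rw [card_product]
  push_cast
  have h3 := Po2b_cls N m hm hmN 1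
  have h4 := Po2b_Icc N hN
  have h5 : (((Icc (-(N : ℤ)) (N : ℤ)).filter fun x => (m : ℤ) ∣ x - 1).card : ℝ) *
      ((Icc (-(N : ℤ)) (N : ℤ)).card : ℝ) ≤ 3 * N / m * (3 * N) :=
    mul_le_mul h3 h4 (Nat.cast_nonneg _) (by positivity)
  have h6 := mul_le_mul_of_nonneg_right h5 (by positivity : (0 : ℝ) ≤ 3 * N / p)
  refine h6.trans (le_of_eq ?_)
  field_simp
  ring

/-- the second part: `p` divides `v.1` -/
theorem Po2b_two (N m p : ℕ) (hm : 0 < m) (hmN : m ≤ N) (hp : p.Prime) (hpN : p ≤ N)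
    (hc : m.Coprime p) :
    (((box N).filter fun v => ((m : ℤ) ∣ v.1 - 1 ∧ (p : ℤ) ∣ disc v) ∧ (p : ℤ) ∣ v.1).card : ℝ) ≤
      18 * (N : ℝ) ^ 3 / (m * p) + 9 * (N : ℝ) ^ 2 / p := by
  have hN : 0 < N := by omega
  have hpp : Prime (p : ℤ) := Nat.prime_iff_prime_int.1 hp
  have hp0 : (0 : ℝ) < p := by exact_mod_cast hp.pos
  have hp1 : (1 : ℝ) ≤ p := by exact_mod_cast hp.one_lt.le
  have hm0 : (0 : ℝ) < m := by exact_mod_cast hm
  obtain ⟨s, hs⟩ : ∃ s, s = (box N).filter fun v => ((m : ℤ) ∣ v.1 - 1 ∧ (p : ℤ) ∣ disc v) ∧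
    (p : ℤ) ∣ v.1 := ⟨_, rfl⟩
  rw [← hs]
  rcases s.eq_empty_or_nonempty with h0 | ⟨v0, h0⟩
  · rw [h0, card_empty]
    push_cast
    positivity
  · have hsub : s ⊆ ((Icc (-(N : ℤ)) (N : ℤ)).filter fun x => ((m * p : ℕ) : ℤ) ∣ x - v0.1) ×ˢ
        (((Icc (-(N : ℤ)) (N : ℤ)).filter fun y => (p : ℤ) ∣ y - 0) ×ˢ Icc (-(N : ℤ)) (N : ℤ)) := by
      intro v hv
      rw [hs, mem_filter] at hv h0
      obtain ⟨hb, ⟨h3, h4⟩, h5⟩ := hv
      obtain ⟨-, ⟨h3', -⟩, h5'⟩ := h0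
      have hb := mem_box.1 hb
      rw [mem_product, mem_product, mem_filter, mem_filter, mem_Icc, mem_Icc, mem_Icc]
      refine ⟨⟨abs_le.1 hb.1, ?_⟩, ⟨abs_le.1 hb.2.1, ?_⟩, abs_le.1 hb.2.2⟩
      · push_cast
        have hc' : IsCoprime (m : ℤ) (p : ℤ) := Nat.isCoprime_iff_coprime.2 hc
        refine hc'.mul_dvd ?_ (dvd_sub h5 h5')
        have e : v.1 - v0.1 = (v.1 - 1) - (v0.1 - 1) := by ring
        rw [e]
        exact dvd_sub h3 h3'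
      · rw [sub_zero]
        refine hpp.dvd_of_dvd_pow (n := 2) ?_
        have e : v.2.1 ^ 2 = disc v + v.1 * (4 * v.2.2) := by
          simp only [disc]
          ring
        rw [e]
        exact dvd_add h4 (h5.mul_right _)
    have h1 := card_le_card hsub
    rw [card_product, card_product] at h1
    have h2 : (s.card : ℝ) ≤
        (((Icc (-(N : ℤ)) (N : ℤ)).filter fun x => ((m * p : ℕ) : ℤ) ∣ x - v0.1).card : ℝ) *
        ((((Icc (-(N : ℤ)) (N : ℤ)).filter fun y => (p : ℤ) ∣ y - 0).card : ℝ) *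
          ((Icc (-(N : ℤ)) (N : ℤ)).card : ℝ)) := by exact_mod_cast h1
    have h3 := class_count N (m * p) (Nat.mul_pos hm hp.pos) v0.1
    have h4 := Po2b_cls N p hp.pos hpN 0
    have h5 := Po2b_Icc N hN
    have h6 : (((Icc (-(N : ℤ)) (N : ℤ)).filter fun y => (p : ℤ) ∣ y - 0).card : ℝ) *
          ((Icc (-(N : ℤ)) (N : ℤ)).card : ℝ) ≤ 3 * N / p * (3 * N) :=
      mul_le_mul h4 h5 (Nat.cast_nonneg _) (by positivity)
    have h7 := mul_le_mul h3 h6 (by positivity) (by positivity)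
    refine h2.trans (h7.trans ?_)
    have e1 : (2 * (N : ℝ) / ((m * p : ℕ) : ℝ) + 1) * (3 * N / p * (3 * N)) =
        18 * N ^ 3 / (m * p) / p + 9 * N ^ 2 / p := by
      push_cast
      field_simp
      ring
    rw [e1]
    have e2 : 18 * (N : ℝ) ^ 3 / (m * p) / p ≤ 18 * N ^ 3 / (m * p) :=
      div_le_self (by positivity) hp1
    linarith

/-- (Po2b) Proof. One vector `v`: `p ∤ v.1`: `v.2.2` is in one class modulo `p` (`4 v.1 v.2.2 ≡ v.2.1²`, `p ≠ 2`): `≤ (3N/m)(3N)(3N/p)`; `p ∣ v.1`: then `p ∣ v.2.1`: `≤ (2N/(mp)+1)(3N/p)(3N)`. Sum `≤ 45 N³/(m p) + 9 N²/p`. The pairs: the square,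
`≤ 2 (45 N³/(mp))² + 2 (9N²/p)² = 4050 N^6/(m²p²) + 162 N⁴/p²`. -/
theorem disc_class (N m p : ℕ) (hm : 0 < m) (hmN : m ≤ N) (hp : p.Prime) (h2 : p ≠ 2) (hpN : p ≤ N)
    (hc : m.Coprime p) :
    (((box2 N).filter fun u => (m : ℤ) ∣ u.1.1 - 1 ∧ (m : ℤ) ∣ u.2.1 - 1 ∧ (p : ℤ) ∣ disc u.1 ∧
      (p : ℤ) ∣ disc u.2).card : ℝ) ≤
      4050 * (N : ℝ) ^ 6 / ((m : ℝ) ^ 2 * (p : ℝ) ^ 2) + 162 * (N : ℝ) ^ 4 / (p : ℝ) ^ 2 := by
  have hp0 : (0 : ℝ) < p := by exact_mod_cast hp.pos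
  have hm0 : (0 : ℝ) < m := by exact_mod_cast hm
  obtain ⟨s, hs⟩ : ∃ s, s = (box N).filter fun v => (m : ℤ) ∣ v.1 - 1 ∧ (p : ℤ) ∣ disc v := ⟨_, rfl⟩
  have hsub : ((box2 N).filter fun u => (m : ℤ) ∣ u.1.1 - 1 ∧ (m : ℤ) ∣ u.2.1 - 1 ∧
      (p : ℤ) ∣ disc u.1 ∧ (p : ℤ) ∣ disc u.2) ⊆ s ×ˢ s := by
    rintro ⟨v, w⟩ hu
    obtain ⟨h1, h3, h4, h5, h6⟩ := mem_filter.1 hu
    rw [mem_box2] at h1
    rw [mem_product, hs, mem_filter, mem_filter]
    exact ⟨⟨h1.1, h3, h5⟩, h1.2, h4, h6⟩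
  have h1 := card_le_card hsub
  rw [card_product] at h1
  have h3 : (s.card : ℝ) ≤ 45 * (N : ℝ) ^ 3 / (m * p) + 9 * (N : ℝ) ^ 2 / p := by
    have e : s = ((box N).filter fun v => ((m : ℤ) ∣ v.1 - 1 ∧ (p : ℤ) ∣ disc v) ∧ ¬ (p : ℤ) ∣ v.1) ∪
        ((box N).filter fun v => ((m : ℤ) ∣ v.1 - 1 ∧ (p : ℤ) ∣ disc v) ∧ (p : ℤ) ∣ v.1) := by
      rw [hs]
      ext v
      rw [mem_union, mem_filter, mem_filter, mem_filter]
      tauto
    have h4 : s.card ≤ ((box N).filter fun v => ((m : ℤ) ∣ v.1 - 1 ∧ (p : ℤ) ∣ disc v) ∧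
        ¬ (p : ℤ) ∣ v.1).card + ((box N).filter fun v => ((m : ℤ) ∣ v.1 - 1 ∧ (p : ℤ) ∣ disc v) ∧
          (p : ℤ) ∣ v.1).card := by
      rw [e]
      exact card_union_le _ _
    have h5 := Po2b_one N m p hm hmN hp h2 hpN
    have h6 := Po2b_two N m p hm hmN hp hpN hc
    have h7 : (s.card : ℝ) ≤ (((box N).filter fun v => ((m : ℤ) ∣ v.1 - 1 ∧ (p : ℤ) ∣ disc v) ∧
        ¬ (p : ℤ) ∣ v.1).card : ℝ) + (((box N).filter fun v => ((m : ℤ) ∣ v.1 - 1 ∧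
          (p : ℤ) ∣ disc v) ∧ (p : ℤ) ∣ v.1).card : ℝ) := by exact_mod_cast h4
    have h8 : 45 * (N : ℝ) ^ 3 / (m * p) = 27 * (N : ℝ) ^ 3 / (m * p) + 18 * (N : ℝ) ^ 3 / (m * p) := by
      ring
    rw [h8]
    linarith
  have h4 : (((box2 N).filter fun u => (m : ℤ) ∣ u.1.1 - 1 ∧ (m : ℤ) ∣ u.2.1 - 1 ∧
      (p : ℤ) ∣ disc u.1 ∧ (p : ℤ) ∣ disc u.2).card : ℝ) ≤ (s.card : ℝ) * s.card := by
    exact_mod_cast h1
  refine h4.trans ?_
  have h5 : (0 : ℝ) ≤ s.card := Nat.cast_nonneg _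
  have h6 : (s.card : ℝ) * s.card ≤ (45 * (N : ℝ) ^ 3 / (m * p) + 9 * (N : ℝ) ^ 2 / p) ^ 2 := by
    rw [sq]
    exact mul_le_mul h3 h3 h5 (h5.trans h3)
  refine h6.trans ?_
  have h7 : 4050 * (N : ℝ) ^ 6 / ((m : ℝ) ^ 2 * (p : ℝ) ^ 2) + 162 * (N : ℝ) ^ 4 / (p : ℝ) ^ 2 =
      2 * (45 * (N : ℝ) ^ 3 / (m * p)) ^ 2 + 2 * (9 * (N : ℝ) ^ 2 / p) ^ 2 := by
    field_simp
    ring
  rw [h7]
  nlinarith [sq_nonneg (45 * (N : ℝ) ^ 3 / (m * p) - 9 * (N : ℝ) ^ 2 / p)]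

end FGO
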