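import Pool.Agent.Lib.MP_1ad228_ntG.Defs

/-! JOB Po4: a positive proportion is everywhere locally soluble. -/

set_option autoImplicit false

open Classical

namespace FGO

open Finset

/-- (Po4a) Proof. `v.1 ∈ {1, 1 + m, ...} ∩ [1, N]`: at least `N/m` values (real division, `m ≤ N`), the same for `w.1`, and the other four coordinates `2N + 1 ≥ 2N` values each. -/
theorem class_lower (N m : ℕ) (hm : 0 < m) (hmN : m ≤ N) :
    16 * (N : ℝ) ^ 6 / (m : ℝ) ^ 2 ≤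
      (((box2 N).filter fun u => (m : ℤ) ∣ u.1.1 - 1 ∧ (m : ℤ) ∣ u.2.1 - 1 ∧ 0 < u.1.1 ∧ 0 < u.2.1).card : ℝ) := by
  obtain ⟨k, hk⟩ : ∃ k : ℕ, k = (N - 1) / m + 1 := ⟨_, rfl⟩
  have hN : 0 < N := by omega
  have hk1 : N ≤ m * k := by
    rw [hk, mul_add, mul_one]
    have h1 := Nat.div_add_mod (N - 1) m
    have h2 := Nat.mod_lt (N - 1) hm
    omega
  have hk2 : ∀ i : ℕ, i < k → m * i + 1 ≤ N := by
    intro i hi
    have h1 : m * i ≤ m * ((N - 1) / m) := Nat.mul_le_mul_left _ (by omega)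
    have h2 := Nat.mul_div_le (N - 1) m
    omega
  obtain ⟨A, hA⟩ : ∃ A : Finset ℤ, A = (range k).image (fun i : ℕ => (m : ℤ) * (i : ℤ) + 1) :=
    ⟨_, rfl⟩
  have hAc : A.card = k := by
    rw [hA, Finset.card_image_of_injective, Finset.card_range]
    intro a b hab
    have h1 : (m : ℤ) * (a : ℤ) = (m : ℤ) * (b : ℤ) := by
      have h2 : (m : ℤ) * (a : ℤ) + 1 = (m : ℤ) * (b : ℤ) + 1 := hab
      linarith
    have hm0 : (m : ℤ) ≠ 0 := by exact_mod_cast hm.ne'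
    exact_mod_cast mul_left_cancel₀ hm0 h1
  have hAm : ∀ x ∈ A, (m : ℤ) ∣ x - 1 ∧ 0 < x ∧ |x| ≤ (N : ℤ) := by
    intro x hx
    rw [hA, Finset.mem_image] at hx
    obtain ⟨i, hi, rfl⟩ := hx
    have hi2 := hk2 i (Finset.mem_range.mp hi)
    have h1 : (0 : ℤ) ≤ (m : ℤ) * (i : ℤ) := by positivity
    have h2 : (m : ℤ) * (i : ℤ) + 1 ≤ (N : ℤ) := by exact_mod_cast hi2
    refine ⟨⟨(i : ℤ), by ring⟩, by linarith, ?_⟩
    rw [abs_of_pos (by linarith)]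
    exact h2
  obtain ⟨B, hB⟩ : ∃ B : Finset V, B = A ×ˢ (Icc (-(N : ℤ)) (N : ℤ) ×ˢ Icc (-(N : ℤ)) (N : ℤ)) :=
    ⟨_, rfl⟩
  have hIc : (Icc (-(N : ℤ)) (N : ℤ)).card = 2 * N + 1 := by
    rw [Int.card_Icc]
    omega
  have hBc : B.card = k * ((2 * N + 1) * (2 * N + 1)) := by
    rw [hB, Finset.card_product, Finset.card_product, hAc, hIc]
  have hBm : ∀ v ∈ B, v ∈ box N ∧ (m : ℤ) ∣ v.1 - 1 ∧ 0 < v.1 := by
    intro v hv
    rw [hB, Finset.mem_product, Finset.mem_product, Finset.mem_Icc, Finset.mem_Icc] at hv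
    obtain ⟨h1, h2, h3⟩ := hv
    have h4 := hAm v.1 h1
    exact ⟨mem_box.mpr ⟨h4.2.2, abs_le.mpr h2, abs_le.mpr h3⟩, h4.1, h4.2.1⟩
  have hsub : B ×ˢ B ⊆ (box2 N).filter fun u =>
      (m : ℤ) ∣ u.1.1 - 1 ∧ (m : ℤ) ∣ u.2.1 - 1 ∧ 0 < u.1.1 ∧ 0 < u.2.1 := by
    intro u hu
    rw [Finset.mem_product] at hu
    have h1 := hBm u.1 hu.1
    have h2 := hBm u.2 hu.2
    rw [Finset.mem_filter, mem_box2]
    exact ⟨⟨h1.1, h2.1⟩, h1.2.1, h2.2.1, h1.2.2, h2.2.2⟩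
  have hcard := Finset.card_le_card hsub
  rw [Finset.card_product, hBc] at hcard
  have hcardR : ((k : ℝ) * ((2 * N + 1) * (2 * N + 1))) * ((k : ℝ) * ((2 * N + 1) * (2 * N + 1)))
      ≤ (((box2 N).filter fun u => (m : ℤ) ∣ u.1.1 - 1 ∧ (m : ℤ) ∣ u.2.1 - 1 ∧ 0 < u.1.1 ∧
        0 < u.2.1).card : ℝ) := by
    exact_mod_cast hcard
  refine le_trans ?_ hcardR
  have hmR : (0 : ℝ) < m := by exact_mod_cast hm
  have hkR : (N : ℝ) / m ≤ k := by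
    rw [div_le_iff₀ hmR]
    have : (N : ℝ) ≤ (m : ℝ) * k := by exact_mod_cast hk1
    linarith
  have hNR : (0 : ℝ) ≤ N := by positivity
  have h1 : (N : ℝ) / m * (4 * (N : ℝ) ^ 2) ≤ (k : ℝ) * ((2 * N + 1) * (2 * N + 1)) := by
    apply mul_le_mul hkR _ (by positivity) (by positivity)
    nlinarith
  have h2 : 16 * (N : ℝ) ^ 6 / (m : ℝ) ^ 2
      = ((N : ℝ) / m * (4 * (N : ℝ) ^ 2)) * ((N : ℝ) / m * (4 * (N : ℝ) ^ 2)) := by
    field_simp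
    ring
  rw [h2]
  exact mul_le_mul h1 h1 (by positivity) (by positivity)

end FGO
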