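import Pool.Agent.Lib.MP_1ad228_ntG.Po1
import Pool.Agent.Lib.MP_1ad228_ntG.Po2
import Pool.Agent.Lib.MP_1ad228_ntG.Po2b
import Pool.Agent.Lib.MP_1ad228_ntG.Po3
import Pool.Agent.Lib.MP_1ad228_ntG.Po4
import Pool.Agent.Lib.MP_1ad228_ntG.E2b
import Pool.Agent.Lib.MP_1ad228_ntG.Z0

/-! JOB Po5: a positive proportion is everywhere locally soluble. -/

set_option autoImplicit false

open Classical

namespace FGO

open Finset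

private theorem Po5_sum (N : ℕ) : ∑ n ∈ Ioc 1000 N, ((n : ℝ) ^ 2)⁻¹ ≤ 1 / 1000 := by
  rcases le_or_gt 1000 N with h | h
  · have h1 := sum_Ioc_inv_sq_le_sub (α := ℝ) (k := 1000) (n := N) (by norm_num) h
    have h2 : (0 : ℝ) ≤ ((N : ℕ) : ℝ)⁻¹ := by positivity
    have h3 : (((1000 : ℕ) : ℝ))⁻¹ = 1 / 1000 := by norm_num
    rw [h3] at h1
    linarith
  · rw [Finset.Ioc_eq_empty (by omega), sum_empty]
    norm_num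

private theorem Po5_inj (N : ℕ) (G : Finset (V × V)) (hG : ∀ u ∈ G, u ∈ box2 N ∧ ELS (bq u.1) (bq u.2)) :
    (G.card : ℝ) ≤ (Nat.card {q : ZG.BQ × ZG.BQ // InBox N q ∧ ELS q.1 q.2} : ℝ) := by
  have hfin : Finite {q : ZG.BQ × ZG.BQ // InBox N q ∧ ELS q.1 q.2} := by
    have h1 : ({q : ZG.BQ × ZG.BQ | InBox N q ∧ ELS q.1 q.2}).Finite := by
      refine ((box2 N).finite_toSet.image fun u => (bq u.1, bq u.2)).subset ?_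
      rintro ⟨g, h⟩ ⟨hb, -⟩
      refine ⟨((g.A, g.B, g.C), (h.A, h.B, h.C)), ?_, rfl⟩
      rw [Finset.mem_coe, mem_box2, mem_box, mem_box]
      exact hb
    exact h1.to_subtype
  have hbx : ∀ u : V × V, u ∈ box2 N → InBox N (bq u.1, bq u.2) := by
    intro u hu
    rw [mem_box2, mem_box, mem_box] at hu
    exact hu
  have hcard : Nat.card G ≤ Nat.card {q : ZG.BQ × ZG.BQ // InBox N q ∧ ELS q.1 q.2} := by
    refine Nat.card_le_card_of_injective (fun u : G => (⟨(bq u.1.1, bq u.1.2),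
      hbx u.1 (hG u.1 u.2).1, (hG u.1 u.2).2⟩ : {q : ZG.BQ × ZG.BQ // InBox N q ∧ ELS q.1 q.2})) ?_
    rintro ⟨⟨⟨a, b, c⟩, ⟨A, B, C⟩⟩, hu⟩ ⟨⟨⟨a', b', c'⟩, ⟨A', B', C'⟩⟩, hu'⟩ h
    simp only [Subtype.mk.injEq, Prod.mk.injEq, bq, ZG.BQ.mk.injEq] at h
    obtain ⟨⟨h1, h2, h3⟩, h4, h5, h6⟩ := h
    subst h1 h2 h3 h4 h5 h6
    rfl
  rw [Nat.card_eq_finsetCard] at hcard
  exact_mod_cast hcard

private theorem Po5_num (N m S s0 s1 s2 s3 s4 G : ℝ) (hN : 1 ≤ N) (hm : 1 ≤ m) (hNm : m ^ 2 * (12700 + 60 * m ^ 2) ≤ N)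
    (hS : 16 * N ^ 6 / m ^ 2 ≤ S) (hSu : S ≤ G + (s0 + (s1 + (s2 + (s3 + s4)))))
    (h0 : s0 ≤ 729 * N ^ 5) (h1 : s1 ≤ 10192 * N ^ 5) (h2 : s2 ≤ 1701 * N ^ 5)
    (h3 : s3 ≤ (5022 * N ^ 6 / m ^ 2 + 486 * N ^ 5 * (243 * m ^ 2) / 2 + 162 * N ^ 4) * (1 / 1000))
    (h4 : s4 ≤ N * (N ^ 5 / m ^ 2)) : 1 / m ^ 2 * N ^ 6 ≤ G := by
  have hm2 : 0 < m ^ 2 := by positivity
  have hN5 : (0 : ℝ) ≤ N ^ 5 := by positivity
  have h5 : N * (N ^ 5 / m ^ 2) = N ^ 6 / m ^ 2 := by ring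
  have h6 : 16 * N ^ 6 / m ^ 2 = 16 * (N ^ 6 / m ^ 2) := by ring
  have h7 : 5022 * N ^ 6 / m ^ 2 = 5022 * (N ^ 6 / m ^ 2) := by ring
  have h8 : 1 / m ^ 2 * N ^ 6 = N ^ 6 / m ^ 2 := by ring
  have h9 : (12700 + 60 * m ^ 2) * N ^ 5 ≤ N ^ 6 / m ^ 2 := by
    rw [le_div_iff₀ hm2]
    calc (12700 + 60 * m ^ 2) * N ^ 5 * m ^ 2 = (m ^ 2 * (12700 + 60 * m ^ 2)) * N ^ 5 := by ring
      _ ≤ N * N ^ 5 := mul_le_mul_of_nonneg_right hNm hN5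
      _ = N ^ 6 := by ring
  have h10 : N ^ 4 ≤ N ^ 5 := pow_le_pow_right₀ hN (by norm_num)
  have h11 : 486 * N ^ 5 * (243 * m ^ 2) / 2 = 59049 * (m ^ 2 * N ^ 5) := by ring
  have h12 : (12700 + 60 * m ^ 2) * N ^ 5 = 12700 * N ^ 5 + 60 * (m ^ 2 * N ^ 5) := by ring
  have h13 : 0 ≤ m ^ 2 * N ^ 5 := by positivity
  have h14 : 0 ≤ N ^ 6 / m ^ 2 := by positivity
  rw [h5] at h4
  rw [h6] at hS
  rw [h7, h11] at h3
  rw [h12] at h9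
  rw [h8]
  linarith

private theorem Po5_main (m : ℕ) (hmpos : 0 < m) (hmcop : ∀ p : ℕ, p.Prime → 1000 < p → m.Coprime p)
    (hels : ∀ u : V × V, (m : ℤ) ∣ u.1.1 - 1 → (m : ℤ) ∣ u.2.1 - 1 → 0 < u.1.1 → 0 < u.2.1 →
      (∀ p : ℕ, p.Prime → 1000 < p → ¬ Dv p (crs u.1 u.2) ∧ ¬ ((p : ℤ) ∣ disc u.1 ∧ (p : ℤ) ∣ disc u.2)) →
      ELS (bq u.1) (bq u.2)) :
    ∃ c : ℝ, 0 < c ∧ ∃ N₀ : ℕ, ∀ N : ℕ, N₀ ≤ N →
    c * (N : ℝ) ^ 6 ≤ (Nat.card {q : ZG.BQ × ZG.BQ // InBox N q ∧ ELS q.1 q.2} : ℝ) := by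
  have hm1 : (1 : ℝ) ≤ (m : ℝ) := by exact_mod_cast hmpos
  refine ⟨1 / (m : ℝ) ^ 2, by positivity, m ^ 2 * (12700 + 60 * m ^ 2), fun N hN => ?_⟩
  have hmN : m ≤ N := by
    refine le_trans ?_ hN
    have h1 : m ≤ m ^ 2 := Nat.le_self_pow (by norm_num) m
    have h2 : m ^ 2 * 1 ≤ m ^ 2 * (12700 + 60 * m ^ 2) := Nat.mul_le_mul_left _ (by omega)
    omega
  have hN1 : 0 < N := lt_of_lt_of_le hmpos hmN
  have hN6 : 6 ≤ N := by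
    have h2 : 1 * (12700 + 60 * m ^ 2) ≤ m ^ 2 * (12700 + 60 * m ^ 2) :=
      Nat.mul_le_mul_right _ (Nat.pow_pos hmpos)
    omega
  have hN1' : (1 : ℝ) ≤ (N : ℝ) := by exact_mod_cast hN1
  have hNm' : (m : ℝ) ^ 2 * (12700 + 60 * (m : ℝ) ^ 2) ≤ (N : ℝ) := by exact_mod_cast hN
  -- the sets
  have hS := class_lower N m hmpos hmN
  have hR := res_zero_card N hN1
  have hCL := crs_large N hN1
  have hDL := disc_large N hN6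
  set S : Finset (V × V) := (box2 N).filter fun u => (m : ℤ) ∣ u.1.1 - 1 ∧ (m : ℤ) ∣ u.2.1 - 1 ∧
    0 < u.1.1 ∧ 0 < u.2.1 with hSdef
  set R : Finset (V × V) := (box2 N).filter fun u => res u.1 u.2 = 0 with hRdef
  set CL : Finset (V × V) := (box2 N).filter fun u => res u.1 u.2 ≠ 0 ∧
    ∃ p : ℕ, p.Prime ∧ N < p ∧ Dv p (crs u.1 u.2) with hCLdef
  set DL : Finset (V × V) := (box2 N).filter fun u => u.1.1 ≠ 0 ∧ u.2.1 ≠ 0 ∧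
    ∃ p : ℕ, p.Prime ∧ N < p ∧ (p : ℤ) ∣ disc u.1 ∧ (p : ℤ) ∣ disc u.2 with hDLdef
  set G : Finset (V × V) := S.filter fun u => ∀ p : ℕ, p.Prime → 1000 < p →
    ¬ Dv p (crs u.1 u.2) ∧ ¬ ((p : ℤ) ∣ disc u.1 ∧ (p : ℤ) ∣ disc u.2) with hGdef
  set P : Finset ℕ := (Ioc 1000 N).filter Nat.Prime with hPdef
  set Bp : ℕ → Finset (V × V) := fun p => (box2 N).filter fun u =>
    (m : ℤ) ∣ u.1.1 - 1 ∧ (m : ℤ) ∣ u.2.1 - 1 ∧ Dv p (crs u.1 u.2) with hBpdef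
  set Dp : ℕ → Finset (V × V) := fun p => (box2 N).filter fun u =>
    (m : ℤ) ∣ u.1.1 - 1 ∧ (m : ℤ) ∣ u.2.1 - 1 ∧ (p : ℤ) ∣ disc u.1 ∧ (p : ℤ) ∣ disc u.2 with hDpdef
  have hsub : S ⊆ G ∪ (R ∪ (CL ∪ (DL ∪ P.biUnion fun p => Bp p ∪ Dp p))) := by
    intro u hu
    have hu' := hu
    rw [hSdef, mem_filter] at hu'
    obtain ⟨hub, hu1, hu2, hu3, hu4⟩ := hu'
    simp only [mem_union]
    by_cases hg : ∀ p : ℕ, p.Prime → 1000 < p →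
      ¬ Dv p (crs u.1 u.2) ∧ ¬ ((p : ℤ) ∣ disc u.1 ∧ (p : ℤ) ∣ disc u.2)
    · left
      rw [hGdef, mem_filter]
      exact ⟨hu, hg⟩
    · right
      by_cases hr : res u.1 u.2 = 0
      · left
        rw [hRdef, mem_filter]
        exact ⟨hub, hr⟩
      · right
        push Not at hg
        obtain ⟨p, hp, hp1, hp2⟩ := hg
        rcases le_or_gt p N with hpN | hpN
        · right
          right
          rw [mem_biUnion]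
          refine ⟨p, ?_, ?_⟩
          · rw [hPdef, mem_filter, mem_Ioc]
            exact ⟨⟨hp1, hpN⟩, hp⟩
          · rw [mem_union]
            by_cases hd : Dv p (crs u.1 u.2)
            · left
              rw [hBpdef, mem_filter]
              exact ⟨hub, hu1, hu2, hd⟩
            · right
              rw [hDpdef, mem_filter]
              exact ⟨hub, hu1, hu2, hp2 hd⟩
        · by_cases hd : Dv p (crs u.1 u.2)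
          · left
            rw [hCLdef, mem_filter]
            exact ⟨hub, hr, p, hp, hpN, hd⟩
          · right
            left
            rw [hDLdef, mem_filter]
            exact ⟨hub, hu3.ne', hu4.ne', p, hp, hpN, hp2 hd⟩
  have hcard : S.card ≤ G.card + (R.card + (CL.card + (DL.card + ∑ p ∈ P, ((Bp p).card + (Dp p).card)))) := by
    refine (card_le_card hsub).trans ((card_union_le _ _).trans (Nat.add_le_add_left ?_ _))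
    refine (card_union_le _ _).trans (Nat.add_le_add_left ?_ _)
    refine (card_union_le _ _).trans (Nat.add_le_add_left ?_ _)
    refine (card_union_le _ _).trans (Nat.add_le_add_left ?_ _)
    refine card_biUnion_le.trans (sum_le_sum fun p _ => card_union_le _ _)
  have hcard' : (S.card : ℝ) ≤ (G.card : ℝ) + ((R.card : ℝ) + ((CL.card : ℝ) + ((DL.card : ℝ) +
      ∑ p ∈ P, (((Bp p).card : ℝ) + ((Dp p).card : ℝ))))) := by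
    have h := hcard
    have h' : ((S.card : ℕ) : ℝ) ≤ ((G.card + (R.card + (CL.card + (DL.card +
      ∑ p ∈ P, ((Bp p).card + (Dp p).card)))) : ℕ) : ℝ) := by exact_mod_cast h
    push_cast at h'
    exact h'
  have hper : ∀ p ∈ P, ((Bp p).card : ℝ) + ((Dp p).card : ℝ) ≤
      (5022 * (N : ℝ) ^ 6 / (m : ℝ) ^ 2 + 486 * (N : ℝ) ^ 5 * (243 * (m : ℝ) ^ 2) / 2 + 162 * (N : ℝ) ^ 4) *
        ((p : ℝ) ^ 2)⁻¹ + (N : ℝ) ^ 5 / (m : ℝ) ^ 2 := by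
    intro p hp
    rw [hPdef, mem_filter, mem_Ioc] at hp
    obtain ⟨⟨hp1, hpN⟩, hpp⟩ := hp
    have hcop : m.Coprime p := hmcop p hpp hp1
    have h1 := crs_class N m p hmpos hmN hpp hpN hcop
    have h2 := disc_class N m p hmpos hmN hpp (by omega) hpN hcop
    have hp0 : (0 : ℝ) < (p : ℝ) := by
      have h3 : 0 < p := by omega
      exact_mod_cast h3
    have hmr : (0 : ℝ) < (m : ℝ) := by linarith
    have hinv : 1 / (p : ℝ) ≤ (243 * (m : ℝ) ^ 2) / 2 * ((p : ℝ) ^ 2)⁻¹ + 1 / (486 * (m : ℝ) ^ 2) := by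
      have h3 : (243 * (m : ℝ) ^ 2) / 2 * ((p : ℝ) ^ 2)⁻¹ + 1 / (486 * (m : ℝ) ^ 2) - 1 / (p : ℝ) =
          1 / (486 * (m : ℝ) ^ 2) * (243 * (m : ℝ) ^ 2 / (p : ℝ) - 1) ^ 2 := by
        field_simp
        ring
      have h4 : 0 ≤ 1 / (486 * (m : ℝ) ^ 2) * (243 * (m : ℝ) ^ 2 / (p : ℝ) - 1) ^ 2 := by positivity
      linarith
    have h5 : (486 * (N : ℝ) ^ 5) * (1 / (p : ℝ)) ≤ (486 * (N : ℝ) ^ 5) *
        ((243 * (m : ℝ) ^ 2) / 2 * ((p : ℝ) ^ 2)⁻¹ + 1 / (486 * (m : ℝ) ^ 2)) :=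
      mul_le_mul_of_nonneg_left hinv (by positivity)
    have h6 : (486 * (N : ℝ) ^ 5) * ((243 * (m : ℝ) ^ 2) / 2 * ((p : ℝ) ^ 2)⁻¹ + 1 / (486 * (m : ℝ) ^ 2)) =
        486 * (N : ℝ) ^ 5 * (243 * (m : ℝ) ^ 2) / 2 * ((p : ℝ) ^ 2)⁻¹ + (N : ℝ) ^ 5 / (m : ℝ) ^ 2 := by
      field_simp
      try ring
    have h7 : 972 * (N : ℝ) ^ 6 / ((m : ℝ) ^ 2 * (p : ℝ) ^ 2) = 972 * ((N : ℝ) ^ 6 / (m : ℝ) ^ 2 * ((p : ℝ) ^ 2)⁻¹) := by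
      field_simp
    have h8 : 4050 * (N : ℝ) ^ 6 / ((m : ℝ) ^ 2 * (p : ℝ) ^ 2) = 4050 * ((N : ℝ) ^ 6 / (m : ℝ) ^ 2 * ((p : ℝ) ^ 2)⁻¹) := by
      field_simp
    have h9 : 162 * (N : ℝ) ^ 4 / (p : ℝ) ^ 2 = 162 * (N : ℝ) ^ 4 * ((p : ℝ) ^ 2)⁻¹ := by
      rw [div_eq_mul_inv]
    have h10 : 486 * (N : ℝ) ^ 5 / (p : ℝ) = (486 * (N : ℝ) ^ 5) * (1 / (p : ℝ)) := by
      rw [mul_one_div]
    have h11 : (5022 * (N : ℝ) ^ 6 / (m : ℝ) ^ 2 + 486 * (N : ℝ) ^ 5 * (243 * (m : ℝ) ^ 2) / 2 + 162 * (N : ℝ) ^ 4) *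
        ((p : ℝ) ^ 2)⁻¹ = 5022 * ((N : ℝ) ^ 6 / (m : ℝ) ^ 2 * ((p : ℝ) ^ 2)⁻¹) +
        486 * (N : ℝ) ^ 5 * (243 * (m : ℝ) ^ 2) / 2 * ((p : ℝ) ^ 2)⁻¹ + 162 * (N : ℝ) ^ 4 * ((p : ℝ) ^ 2)⁻¹ := by
      ring
    rw [h7, h10] at h1
    rw [h8, h9] at h2
    rw [h6] at h5
    rw [h11]
    have h1' : ((Bp p).card : ℝ) ≤ 972 * ((N : ℝ) ^ 6 / (m : ℝ) ^ 2 * ((p : ℝ) ^ 2)⁻¹) +
      (486 * (N : ℝ) ^ 5) * (1 / (p : ℝ)) := h1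
    have h2' : ((Dp p).card : ℝ) ≤ 4050 * ((N : ℝ) ^ 6 / (m : ℝ) ^ 2 * ((p : ℝ) ^ 2)⁻¹) +
      162 * (N : ℝ) ^ 4 * ((p : ℝ) ^ 2)⁻¹ := h2
    linarith
  have hsum : ∑ p ∈ P, (((Bp p).card : ℝ) + ((Dp p).card : ℝ)) ≤
      (5022 * (N : ℝ) ^ 6 / (m : ℝ) ^ 2 + 486 * (N : ℝ) ^ 5 * (243 * (m : ℝ) ^ 2) / 2 + 162 * (N : ℝ) ^ 4) *
        (1 / 1000) + (N : ℝ) * ((N : ℝ) ^ 5 / (m : ℝ) ^ 2) := by
    refine (sum_le_sum hper).trans ?_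
    rw [sum_add_distrib, ← mul_sum, sum_const, nsmul_eq_mul]
    have h1 : ∑ p ∈ P, ((p : ℝ) ^ 2)⁻¹ ≤ 1 / 1000 := by
      refine le_trans (sum_le_sum_of_subset_of_nonneg (filter_subset _ _) fun p _ _ => inv_nonneg.mpr (sq_nonneg _)) (Po5_sum N)
    have h2 : ((P.card : ℕ) : ℝ) ≤ (N : ℝ) := by
      have h3 : P.card ≤ (Ioc 1000 N).card := card_le_card (filter_subset _ _)
      rw [Nat.card_Ioc] at h3
      have h4 : P.card ≤ N := by omega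
      exact_mod_cast h4
    have h3 : (0 : ℝ) ≤ 5022 * (N : ℝ) ^ 6 / (m : ℝ) ^ 2 + 486 * (N : ℝ) ^ 5 * (243 * (m : ℝ) ^ 2) / 2 +
      162 * (N : ℝ) ^ 4 := by positivity
    have h4 : (0 : ℝ) ≤ (N : ℝ) ^ 5 / (m : ℝ) ^ 2 := by positivity
    exact add_le_add (mul_le_mul_of_nonneg_left h1 h3) (mul_le_mul_of_nonneg_right h2 h4)
  have hG : ∀ u ∈ G, u ∈ box2 N ∧ ELS (bq u.1) (bq u.2) := by
    intro u hu
    rw [hGdef, mem_filter, hSdef, mem_filter] at hu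
    obtain ⟨⟨hub, hu1, hu2, hu3, hu4⟩, hu5⟩ := hu
    exact ⟨hub, hels u hu1 hu2 hu3 hu4 hu5⟩
  refine le_trans ?_ (Po5_inj N G hG)
  refine Po5_num (N : ℝ) (m : ℝ) (S.card : ℝ) (R.card : ℝ) (CL.card : ℝ) (DL.card : ℝ)
    ((5022 * (N : ℝ) ^ 6 / (m : ℝ) ^ 2 + 486 * (N : ℝ) ^ 5 * (243 * (m : ℝ) ^ 2) / 2 + 162 * (N : ℝ) ^ 4) *
        (1 / 1000)) ((N : ℝ) * ((N : ℝ) ^ 5 / (m : ℝ) ^ 2)) (G.card : ℝ) hN1' hm1 hNm' hS ?_ hR hCL hDL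
    le_rfl le_rfl
  refine hcard'.trans ?_
  gcongr

/-- (Po4b) Proof. `m = m0`. The set of Po4a minus: the pairs with `res = 0` (`≤ 729 N^5`), those with a prime `1000 < p ≤ N` (so prime to `m0`) of Po2a or Po2b: `≤ ∑_{p > 1000} (972 + 4050) N^6/(m²p²) + ∑_{p ≤ N} (486 N^5/p + 162 N⁴/p²) ≤ 5022 N^6/(1000 m²) + 486 N^5 (1 + log N) + 324 N⁴`,
those with a prime `p > N`: `crs_large`, `disc_large`: `≤ 12000 N^5`. By `els_of` all others satisfy `ELS (bq u.1) (bq u.2)`. So the number is `≥ (16 - 5.1) N^6/m² - 15000 N^5 (1 + log N) ≥ N^6/m²` for `N ≥ N₀` (`(1 + log N)/N → 0`), `c = 1/m0²`.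
Finally `u ↦ (bq u.1, bq u.2)` is an injection into the subtype (which is finite: a subtype of the image of `box2 N`). (`∑_{p > 1000} 1/p² ≤ 1/1000`; `m0 ≤ N` for `N ≥ N₀`.) -/
theorem part2 : ∃ c : ℝ, 0 < c ∧ ∃ N₀ : ℕ, ∀ N : ℕ, N₀ ≤ N →
    c * (N : ℝ) ^ 6 ≤ (Nat.card {q : ZG.BQ × ZG.BQ // InBox N q ∧ ELS q.1 q.2} : ℝ) := by
  refine Po5_main m0 m0_pos (fun p hp hp1 => ?_) (fun u hu1 hu2 hu3 hu4 hu5 => els_of u.1 u.2 hu1 hu2 hu3 hu4 hu5)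
  rw [Nat.coprime_comm, hp.coprime_iff_not_dvd, dvd_m0_iff p hp]
  exact not_le.mpr hp1

end FGO
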