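import Pool.Agent.Lib.MP_1ad228_ntG.Kr4b
import Pool.Agent.Lib.MP_1ad228_ntG.Kr5
import Pool.Agent.Lib.MP_1ad228_ntG.Per2
import Pool.Agent.Lib.MP_1ad228_ntG.Bon

/-! JOB SV: the sieve. -/

set_option autoImplicit false

open Classical

namespace FGO

open Finset

/-- (SV) Proof. `J = δ * (∏ p ∈ Q, p) ^ 2`, `M = 4NJ`. `f u = ∏ p ∈ Q, (1 - x p u) ≥ 0` is periodic modulo `M`; `box_le_cube`. By `bonf` for every `u`:
`f u ≤ ∑_{D ⊆ Q, |D| ≤ 2k} (-1)^|D| ∏_D x p u`; multiply by `W W ≥ 0`, exchange the sums, `ex_pair` with `q = (∏_D p)²` (coprime to `δ`, `δ q ∣ J`, `q ≤ q0` by `hk`, `Per` and the mean value by `Ex_prod`):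
total `(8N)^6/δ² * ∑_{D, |D| ≤ 2k} (-1)^|D| ∏_D Ex (p²) (x p)`. Then `bonf_up`, `esymm_le` for the numbers `Ex (p^2) (x p) ∈ [0, 1]` (`Ex_mono`, `Ex_const`) and monotonicity in `B`. -/
theorem sieve {N δ q0 k : ℕ} {r : ℤ} (hN : 0 < N) (hδ : 0 < δ) (Q : Finset ℕ)
    (hQ : ∀ p ∈ Q, p.Prime ∧ ¬ p ∣ δ) (hk : ∀ D ⊆ Q, D.card ≤ 2 * k → (∏ p ∈ D, p) ^ 2 ≤ q0)
    (hG : Good N q0 δ r) (x : ℕ → V × V → ℝ) (hx : ∀ p ∈ Q, Per (p ^ 2) (x p)) (h0 : ∀ p ∈ Q, ∀ u, 0 ≤ x p u)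
    (h1 : ∀ p ∈ Q, ∀ u, x p u ≤ 1) (B : ℝ) (hB : ∑ p ∈ Q, Ex (p ^ 2) (x p) ≤ B) :
    ∑ u ∈ (box2 N).filter (Lam δ r), ∏ p ∈ Q, (1 - x p u) ≤
      (8 * (N : ℝ)) ^ 6 / (δ : ℝ) ^ 2 *
        (∏ p ∈ Q, (1 - Ex (p ^ 2) (x p)) + B ^ (2 * k + 1) / ((2 * k + 1).factorial : ℝ)) := by
  classical
  have hpp : ∀ p ∈ Q, p.Prime := fun p hp => (hQ p hp).1
  set J : ℕ := δ * (∏ p ∈ Q, p) ^ 2 with hJdef
  have hprod : 0 < ∏ p ∈ Q, p := Finset.prod_pos fun p hp => (hpp p hp).pos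
  have hJ : 0 < J := Nat.mul_pos hδ (pow_pos hprod 2)
  have hδJ : δ ∣ J := Dvd.intro _ rfl
  set M : ℕ := 4 * N * J with hM
  have hpM : ∀ p ∈ Q, p ^ 2 ∣ M := by
    intro p hp
    have e1 : p ^ 2 ∣ (∏ p ∈ Q, p) ^ 2 := pow_dvd_pow_of_dvd (Finset.dvd_prod_of_mem _ hp) 2
    exact (e1.trans (Dvd.intro_left δ rfl)).trans (Dvd.intro_left (4 * N) rfl)
  have hf0 : ∀ u : V × V, 0 ≤ ∏ p ∈ Q, (1 - x p u) := fun u =>
    Finset.prod_nonneg fun p hp => sub_nonneg.2 (h1 p hp u)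
  have hfP : Per M fun u => ∏ p ∈ Q, (1 - x p u) := by
    intro u u' e1 e2
    refine Finset.prod_congr rfl fun p hp => ?_
    rw [(hx p hp).mono (hpM p hp) u u' e1 e2]
  refine (box_le_cube hN hJ hδJ (r := r) _ hf0 hfP).trans ?_
  set K : Finset (Finset ℕ) := Q.powerset.filter (fun D => D.card ≤ 2 * k) with hK
  have hKm : ∀ D ∈ K, D ⊆ Q ∧ D.card ≤ 2 * k := by
    intro D hD
    rw [hK, Finset.mem_filter, Finset.mem_powerset] at hD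
    exact hD
  -- the pointwise bound
  have hpt : ∀ u : V × V, W J M u.1 * W J M u.2 * ∏ p ∈ Q, (1 - x p u) ≤
      ∑ D ∈ K, (-1 : ℝ) ^ D.card * (W J M u.1 * W J M u.2 * ∏ p ∈ D, x p u) := by
    intro u
    have e1 := bonf Q (fun p => x p u) (fun p hp => h0 p hp u) (fun p hp => h1 p hp u) k
    have e2 : 0 ≤ W J M u.1 * W J M u.2 := mul_nonneg (W_nonneg _ _ _) (W_nonneg _ _ _)
    refine (mul_le_mul_of_nonneg_left e1 e2).trans (le_of_eq ?_)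
    rw [Finset.mul_sum]
    refine Finset.sum_congr rfl fun D _ => ?_
    ring
  refine (Finset.sum_le_sum fun u _ => hpt u).trans ?_
  rw [Finset.sum_comm]
  -- the mean values
  have hD : ∀ D ∈ K, ∑ u ∈ (cube2 M).filter (Lam δ r), (-1 : ℝ) ^ D.card * (W J M u.1 * W J M u.2 *
      ∏ p ∈ D, x p u) = (8 * (N : ℝ)) ^ 6 / (δ : ℝ) ^ 2 * ((-1 : ℝ) ^ D.card *
        ∏ p ∈ D, Ex (p ^ 2) (x p)) := by
    intro D hDK
    obtain ⟨hDQ, hDc⟩ := hKm D hDK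
    have hDp : ∀ p ∈ D, p.Prime := fun p hp => hpp p (hDQ hp)
    have hP := Ex_prod D hDp x fun p hp => hx p (hDQ hp)
    have hq : 0 < (∏ p ∈ D, p) ^ 2 := pow_pos (Finset.prod_pos fun p hp => (hDp p hp).pos) 2
    have hc : δ.Coprime ((∏ p ∈ D, p) ^ 2) := by
      refine Nat.Coprime.pow_right 2 (Nat.Coprime.prod_right fun p hp => ?_)
      exact ((Nat.Prime.coprime_iff_not_dvd (hDp p hp)).2 (hQ p (hDQ hp)).2).symm
    have hd : δ * (∏ p ∈ D, p) ^ 2 ∣ J :=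
      mul_dvd_mul_left δ (pow_dvd_pow_of_dvd (Finset.prod_dvd_prod_of_subset _ _ _ hDQ) 2)
    have e1 := ex_pair hN hJ hδ hq hc hd (hk D hDQ hDc) hG (fun u => ∏ p ∈ D, x p u) hP.1
    rw [← Finset.mul_sum, e1, hP.2]
    ring
  rw [Finset.sum_congr rfl hD, ← Finset.mul_sum]
  refine mul_le_mul_of_nonneg_left ?_ (by positivity)
  have hy0 : ∀ p ∈ Q, 0 ≤ Ex (p ^ 2) (x p) := by
    intro p hp
    have hq : 0 < p ^ 2 := pow_pos (hpp p hp).pos 2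
    have e := Ex_mono (p ^ 2) (fun _ => 0) (x p) (h0 p hp)
    rwa [Ex_const hq] at e
  have hy1 : ∀ p ∈ Q, Ex (p ^ 2) (x p) ≤ 1 := by
    intro p hp
    have hq : 0 < p ^ 2 := pow_pos (hpp p hp).pos 2
    have e := Ex_mono (p ^ 2) (x p) (fun _ => 1) (h1 p hp)
    rwa [Ex_const hq] at e
  refine (bonf_up Q (fun p => Ex (p ^ 2) (x p)) hy0 hy1 k).trans ?_
  refine add_le_add le_rfl ((esymm_le Q _ hy0 (2 * k + 1)).trans ?_)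
  have hs0 : 0 ≤ ∑ p ∈ Q, Ex (p ^ 2) (x p) := Finset.sum_nonneg hy0
  gcongr

end FGO
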