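import Pool.Agent.Lib.MP_1ad228_ntG.St

/-! JOB St2: the structure of the bad pairs. -/

set_option autoImplicit false

open Classical

namespace FGO

open Finset

/-- the number of primes of `Q` dividing the resultant, as a filter over natural numbers -/
theorem St2_om_eq (Q : Finset ℕ) (u : V × V) :
    om Q u = (Q.filter (fun p : ℕ => (p : ℤ) ∣ res u.1 u.2)).card := by
  unfold om
  first
    | rfl
    | (have h : ((do let a ← Q; pure (a : ℤ)) : Finset ℤ) = Q.image (fun a : ℕ => (a : ℤ)) := by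
        ext x
        simp only [Finset.bind_def, Finset.pure_def, Finset.mem_sup, Finset.mem_singleton,
          Finset.mem_image]
        constructor
        · rintro ⟨a, ha, hx⟩
          exact ⟨a, ha, hx.symm⟩
        · rintro ⟨a, ha, hx⟩
          exact ⟨a, ha, hx.symm⟩
       rw [h, Finset.filter_image, Finset.card_image_of_injective _ Nat.cast_injective])

/-- (St3) Proof. `δ` from `Bad u`; `|δ| = d0 d1` where `d0` is the product of the prime factors `≤ P0` and `d1` that of the others (`δ` squarefree, `Nat` factorisation of `δ.natAbs`); `σ = sign δ`. `d0 ∣ primorial P0`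
(`primorial P0 = ∏ p ∈ (range (P0+1)).filter Nat.Prime, p`), `d1 ∈ DD N P0`: `δ² ≤ |res| ≤ 8N⁴ < (3N²)² + 1` gives `d1 ≤ |δ| ≤ 3N²`. `common_root` (`Exc2 P0 u` is false, so no prime `p > P0` divides `crs` or both leading coefficients) gives `r`, `Lam d1 r u`;
`Good N q0 d1 r` because `Exc3 N q0 u` is false. `omd Q d1 ≤ om Q u ≤ m` since `d1 ∣ res`. Product: let `p ∈ Q`, `p ∤ d1`. If `p ∣ res` then `1 - xp = 1/2`. If `p ∤ res`: `Cnd δ u.1 u.2` and `Cnd δ u.2 u.1` (`res_symm`) show that `Om δ p u.1`, `Om δ p u.2`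
are false (`1 ≠ -1`; `p > P0 ≥ 2` so `p ≠ 2`), so `1 - xp = 1`. The product is `(1/2)^j` with `j = #{p ∈ Q : p ∤ d1, p ∣ res} = om Q u - omd Q d1 ≤ m - omd Q d1`. (`(σ * d0 * d1 : ℤ) = δ`.) -/
theorem structure_thm (N P0 q0 m : ℕ) (hN : 0 < N) (hP0 : 2 ≤ P0) (Q : Finset ℕ) (hQ : ∀ p ∈ Q, p.Prime ∧ P0 < p)
    (u : V × V) (hu : u ∈ box2 N) (hB : Bad u) (h2 : ¬ Exc2 P0 u) (h3 : ¬ Exc3 N q0 u) (h4 : om Q u ≤ m) :
    ∃ σ ∈ ({1, -1} : Finset ℤ), ∃ d0 ∈ (primorial P0).divisors, ∃ d1 ∈ DD N P0, ∃ r ∈ range d1,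
      Good N q0 d1 (r : ℤ) ∧ Lam d1 (r : ℤ) u ∧ omd Q d1 ≤ m ∧
      (1 / 2 : ℝ) ^ (m - omd Q d1) ≤ ∏ p ∈ Q.filter (fun p => ¬ p ∣ d1), (1 - xp (σ * d0 * d1) p u) := by
  obtain ⟨hres, δ, hsq, hdvd, hle, hc1, hc2⟩ := hB
  have hδ0 : δ ≠ 0 := hsq.ne_zero
  have hnsq : Squarefree δ.natAbs := Int.squarefree_natAbs.mpr hsq
  have hn0 : δ.natAbs ≠ 0 := Int.natAbs_ne_zero.mpr hδ0
  obtain ⟨d0, hd0⟩ : ∃ d0 : ℕ, d0 = ∏ p ∈ δ.natAbs.primeFactors.filter (fun p => p ≤ P0), p :=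
    ⟨_, rfl⟩
  obtain ⟨d1, hd1⟩ : ∃ d1 : ℕ, d1 = ∏ p ∈ δ.natAbs.primeFactors.filter (fun p => ¬ p ≤ P0), p :=
    ⟨_, rfl⟩
  have hprod : d0 * d1 = δ.natAbs := by
    rw [hd0, hd1, Finset.prod_filter_mul_prod_filter_not]
    exact Nat.prod_primeFactors_of_squarefree hnsq
  have hd1dvd : d1 ∣ δ.natAbs := ⟨d0, by rw [mul_comm]; exact hprod.symm⟩
  have hd1pos : 0 < d1 := Nat.pos_of_dvd_of_pos hd1dvd (Nat.pos_of_ne_zero hn0)
  have hd1res : (d1 : ℤ) ∣ res u.1 u.2 := by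
    have h5 : (d1 : ℤ) ∣ δ := Int.natCast_dvd.mpr hd1dvd
    exact h5.trans hdvd
  have hd1prime : ∀ p : ℕ, p.Prime → p ∣ d1 → P0 < p := by
    intro p hp hpd
    rw [hd1] at hpd
    obtain ⟨q, hq, hpq⟩ := (Prime.dvd_finsetProd_iff hp.prime _).mp hpd
    have hq2 := Finset.mem_filter.mp hq
    have hqp : q.Prime := Nat.prime_of_mem_primeFactors hq2.1
    have : p = q := (Nat.prime_dvd_prime_iff_eq hp hqp).mp hpq
    rw [this]
    exact not_le.mp hq2.2
  have hδN : δ.natAbs ≤ 3 * N ^ 2 := by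
    have h5 := abs_res_le N u hu
    have h6 : δ ^ 2 ≤ 8 * (N : ℤ) ^ 4 := hle.trans h5
    have h7 : ((δ.natAbs : ℕ) : ℤ) ^ 2 = δ ^ 2 := Int.natAbs_sq δ
    have h8 : ((δ.natAbs : ℕ) : ℤ) ≤ 3 * (N : ℤ) ^ 2 := by
      by_contra hcon
      push Not at hcon
      have hN4 : 0 ≤ (N : ℤ) ^ 4 := by positivity
      have hN2 : 0 ≤ (N : ℤ) ^ 2 := by positivity
      nlinarith
    exact_mod_cast h8
  have hd1le : d1 ≤ 3 * N ^ 2 := (Nat.le_of_dvd (Nat.pos_of_ne_zero hn0) hd1dvd).trans hδN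
  have hDD : d1 ∈ DD N P0 := by
    unfold DD
    rw [Finset.mem_filter, Finset.mem_Icc]
    exact ⟨⟨hd1pos, hd1le⟩, hnsq.squarefree_of_dvd hd1dvd, hd1prime⟩
  have hd0div : d0 ∈ (primorial P0).divisors := by
    rw [Nat.mem_divisors]
    refine ⟨?_, (primorial_pos P0).ne'⟩
    rw [hd0]
    unfold primorial
    apply Finset.prod_dvd_prod_of_subset
    intro q hq
    have hq2 := Finset.mem_filter.mp hq
    rw [Finset.mem_filter, Finset.mem_range]
    exact ⟨by have := hq2.2; omega, Nat.prime_of_mem_primeFactors hq2.1⟩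
  obtain ⟨r, hr, hv, hw⟩ := common_root d1 hd1pos u.1 u.2 hd1res (by
    intro p hp hpd
    refine ⟨fun h5 => h2 ⟨hres, p, hp, hd1prime p hp hpd, Or.inl h5⟩,
      fun h5 => h2 ⟨hres, p, hp, hd1prime p hp hpd, Or.inr h5⟩⟩)
  have hgood : Good N q0 d1 (r : ℤ) := by
    by_contra hg
    exact h3 ⟨hres, d1, hd1pos, hd1le, (r : ℤ), hv, hw, hg⟩
  have hsub : ∀ p, p ∈ Q → p ∣ d1 → (p : ℤ) ∣ res u.1 u.2 := by
    intro p _ hpd
    exact (Int.natCast_dvd_natCast.mpr hpd).trans hd1res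
  -- the two disjoint sets of primes
  have hcard : (Q.filter fun p : ℕ => ¬ p ∣ d1 ∧ (p : ℤ) ∣ res u.1 u.2).card + omd Q d1 ≤ om Q u := by
    rw [St2_om_eq]
    unfold omd
    rw [← Finset.card_union_of_disjoint]
    · apply Finset.card_le_card
      intro p hp
      rw [Finset.mem_union, Finset.mem_filter, Finset.mem_filter] at hp
      rw [Finset.mem_filter]
      rcases hp with hp | hp
      · exact ⟨hp.1, hp.2.2⟩
      · exact ⟨hp.1, hsub p hp.1 hp.2⟩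
    · rw [Finset.disjoint_left]
      intro p hp hp2
      rw [Finset.mem_filter] at hp hp2
      exact hp.2.1 hp2.2
  have hom : omd Q d1 ≤ m := by omega
  have hσ : (δ.sign * (d0 : ℤ) * (d1 : ℤ)) = δ := by
    rw [mul_assoc, ← Nat.cast_mul, hprod]
    exact Int.sign_mul_natAbs δ
  have hOm : ∀ p ∈ Q, ¬ (p : ℤ) ∣ res u.1 u.2 → ¬ (Om δ p u.1 ∨ Om δ p u.2) := by
    intro p hp hpr h5
    have hp2 := hQ p hp
    have hpn : p ≠ 2 := by have := hp2.2; omega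
    rcases h5 with h5 | h5
    · have h6 := hc1 p hp2.1 hpn hpr h5.1 h5.2.1 h5.2.2.1
      have h7 := h5.2.2.2
      rw [h6] at h7
      norm_num at h7
    · have h6 := hc2 p hp2.1 hpn (by rw [res_symm]; exact hpr) h5.1 h5.2.1 h5.2.2.1
      have h7 := h5.2.2.2
      rw [h6] at h7
      norm_num at h7
  refine ⟨δ.sign, ?_, d0, hd0div, d1, hDD, r, hr, hgood, ⟨hv, hw⟩, hom, ?_⟩
  · rw [Finset.mem_insert, Finset.mem_singleton]
    rcases lt_or_gt_of_ne hδ0 with h5 | h5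
    · right; exact Int.sign_eq_neg_one_of_neg h5
    · left; exact Int.sign_eq_one_of_pos h5
  · rw [hσ]
    have h5 : ∏ p ∈ Q.filter (fun p => ¬ p ∣ d1), (1 - xp δ p u)
        = ∏ p ∈ Q.filter (fun p => ¬ p ∣ d1),
            (if (p : ℤ) ∣ res u.1 u.2 then (1 / 2 : ℝ) else 1) := by
      apply Finset.prod_congr rfl
      intro p hp
      have hp1 := (Finset.mem_filter.mp hp).1
      unfold xp
      by_cases h6 : (p : ℤ) ∣ res u.1 u.2
      · rw [if_pos h6, if_pos h6]; norm_num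
      · rw [if_neg h6, if_neg h6, if_neg (hOm p hp1 h6)]; norm_num
    rw [h5, ← Finset.prod_filter, Finset.prod_const]
    apply pow_le_pow_of_le_one (by norm_num) (by norm_num)
    have h6 : ((Q.filter (fun p => ¬ p ∣ d1)).filter (fun p : ℕ => (p : ℤ) ∣ res u.1 u.2)).card
        ≤ (Q.filter fun p : ℕ => ¬ p ∣ d1 ∧ (p : ℤ) ∣ res u.1 u.2).card := by
      apply Finset.card_le_card
      intro p hp
      rw [Finset.mem_filter, Finset.mem_filter] at hp
      rw [Finset.mem_filter]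
      exact ⟨hp.1.1, hp.1.2, hp.2⟩
    omega

end FGO
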