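import Pool.Agent.Lib.MP_1ad228_ntG.Kr4b
import Pool.Agent.Lib.MP_1ad228_ntG.Kr5
import Pool.Agent.Lib.MP_1ad228_ntG.LcA

/-! JOB TK: few resultants have many small prime factors. -/

set_option autoImplicit false

open Classical

namespace FGO

open Finset

/-- (TK1) Proof. For `δ = 1` every root is good: `n ≠ 0` gives `nm n ≥ 1`. -/
theorem good_one (N : ℕ) (r : ℤ) : Good N (4 * N) 1 r := by
  intro n hn _
  have h1 : 1 ≤ nm n := by
    by_contra h
    have h0 : nm n = 0 := by omega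
    unfold nm at h0
    apply hn
    have a1 : n.1.natAbs = 0 := by omega
    have a2 : n.2.1.natAbs = 0 := by omega
    have a3 : n.2.2.natAbs = 0 := by omega
    exact Prod.ext (Int.natAbs_eq_zero.1 a1) (Prod.ext (Int.natAbs_eq_zero.1 a2) (Int.natAbs_eq_zero.1 a3))
  calc 4 * N * 1 ≤ 4 * N * nm n := Nat.mul_le_mul_left _ h1

private theorem TK_ip_sq (p : ℕ) (u : V × V) : ip p u * ip p u = ip p u := by
  unfold ip
  split_ifs <;> simp

private theorem TK_lam (r : ℤ) (u : V × V) : Lam 1 r u := by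
  refine ⟨?_, ?_⟩ <;> simp

private theorem TK_per_sub {q : ℕ} {φ : V × V → ℝ} (h : Per q φ) (c : ℝ) : Per q fun u => φ u - c := by
  intro u u' h1 h2
  simp only [h u u' h1 h2]

private theorem TK_diag {p : ℕ} (hp : 0 < p) :
    Ex p (fun u => (ip p u - Ex p (ip p)) * (ip p u - Ex p (ip p))) ≤ Ex p (ip p) := by
  set ρ := Ex p (ip p) with hρ
  have e1 : (fun u => (ip p u - ρ) * (ip p u - ρ)) = fun u => (1 - 2 * ρ) * ip p u + ρ ^ 2 := by
    funext u
    have := TK_ip_sq p u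
    linear_combination this
  rw [e1, Ex_add, Ex_smul, Ex_const hp, ← hρ]
  nlinarith [sq_nonneg ρ]

private theorem TK_off {p p' : ℕ} (hp : p.Prime) (hp' : p'.Prime) (hne : p ≠ p') :
    Ex (p * p') (fun u => (ip p u - Ex p (ip p)) * (ip p' u - Ex p' (ip p'))) = 0 := by
  rw [Ex_mul hp.pos hp'.pos ((Nat.coprime_primes hp hp').2 hne) (TK_per_sub (Per_ip p) _)
    (TK_per_sub (Per_ip p') _), Ex_sub p (ip p) (fun _ => Ex p (ip p)), Ex_const hp.pos, sub_self, zero_mul]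

/-- (TK2) Proof. `f = (∑_{p ∈ Q} (ip p - ρ_p))²` with `ρ_p = Ex p (ip p)`, `J = ∏_{p ∈ Q} p`, `M = 4NJ`; `box_le_cube` (`δ = 1`, `r = 0`, `Lam 1 0 u` is always true). Expand the square: for `p ≠ p'` the function
`(ip p - ρ_p)(ip p' - ρ_p')` is periodic modulo `p p' ≤ 4N` with mean value `0` (`Ex_mul`, `Ex_sub`, `Ex_const`); for `p = p'` the mean value is `ρ_p - ρ_p² ≤ ρ_p` (`ip² = ip`). By `ex_pair` (`δ = 1`, `q = p p'` or `p`, `q0 = 4N`,
`good_one`) the total is `(8N)^6 ∑ (ρ_p - ρ_p²) ≤ (8N)^6 ∑ ρ_p`. (`p ≤ p·p' ≤ 4N` for some `p'`; for `p = p'` use `hQ p p`: `p ≤ p² ≤ 4N`.) -/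
theorem variance (N : ℕ) (hN : 0 < N) (Q : Finset ℕ) (hQ : ∀ p ∈ Q, p.Prime ∧ p ≠ 2)
    (hQ2 : ∀ p ∈ Q, ∀ p' ∈ Q, p * p' ≤ 4 * N) :
    ∑ u ∈ box2 N, (∑ p ∈ Q, (ip p u - Ex p (ip p))) ^ 2 ≤ (8 * (N : ℝ)) ^ 6 * ∑ p ∈ Q, Ex p (ip p) := by
  set J : ℕ := ∏ p ∈ Q, p with hJdef
  have hJ : 0 < J := Finset.prod_pos fun p hp => (hQ p hp).1.pos
  have hdJ : ∀ p ∈ Q, p ∣ J := fun p hp => Finset.dvd_prod_of_mem (fun p => p) hp
  set g : ℕ → V × V → ℝ := fun p u => ip p u - Ex p (ip p) with hg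
  have hgper : ∀ p ∈ Q, Per (4 * N * J) (g p) := fun p hp =>
    (TK_per_sub (Per_ip p) _).mono ((hdJ p hp).mul_left (4 * N))
  have hfper : Per (4 * N * J) (fun u => (∑ p ∈ Q, g p u) ^ 2) := by
    intro u u' h1 h2
    have : ∑ p ∈ Q, g p u = ∑ p ∈ Q, g p u' := Finset.sum_congr rfl fun p hp => hgper p hp u u' h1 h2
    simp only [this]
  have hbox := box_le_cube (δ := 1) (r := 0) hN hJ (one_dvd J) (fun u => (∑ p ∈ Q, g p u) ^ 2)
    (fun u => sq_nonneg _) hfper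
  have hfilt : (box2 N).filter (Lam 1 0) = box2 N := Finset.filter_true_of_mem fun u _ => TK_lam 0 u
  rw [hfilt] at hbox
  refine hbox.trans ?_
  -- the pairs
  have hterm : ∀ p ∈ Q, ∀ p' ∈ Q,
      ∑ u ∈ (cube2 (4 * N * J)).filter (Lam 1 0),
        W J (4 * N * J) u.1 * W J (4 * N * J) u.2 * (g p u * g p' u) ≤
        if p = p' then (8 * (N : ℝ)) ^ 6 * Ex p (ip p) else 0 := by
    intro p hp p' hp'
    split_ifs with hpp
    · subst hpp
      have hle : p ≤ 4 * N := (Nat.le_mul_of_pos_left p (hQ p hp).1.pos).trans (hQ2 p hp p hp)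
      have h := ex_pair (δ := 1) (r := 0) (q := p) (q0 := 4 * N) hN hJ one_pos (hQ p hp).1.pos
        (Nat.coprime_one_left p) (by rw [one_mul]; exact hdJ p hp) hle (good_one N 0)
        (fun u => g p u * g p u) (by
          intro u u' h1 h2
          have := TK_per_sub (Per_ip p) (Ex p (ip p)) u u' h1 h2
          simp only [hg, this])
      rw [h]
      have h2 := TK_diag (hQ p hp).1.pos
      have h3 : (0 : ℝ) ≤ (8 * (N : ℝ)) ^ 6 := by positivity
      simp only [Nat.cast_one, one_pow, div_one]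
      exact mul_le_mul_of_nonneg_left h2 h3
    · have hcop : p.Coprime p' := (Nat.coprime_primes (hQ p hp).1 (hQ p' hp').1).2 hpp
      have h := ex_pair (δ := 1) (r := 0) (q := p * p') (q0 := 4 * N) hN hJ one_pos
        (Nat.mul_pos (hQ p hp).1.pos (hQ p' hp').1.pos)
        (Nat.coprime_one_left _) (by rw [one_mul]; exact hcop.mul_dvd_of_dvd_of_dvd (hdJ p hp) (hdJ p' hp'))
        (hQ2 p hp p' hp') (good_one N 0)
        (fun u => g p u * g p' u) ((TK_per_sub (Per_ip p) _).mul (TK_per_sub (Per_ip p') _))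
      rw [h]
      have h2 := TK_off (hQ p hp).1 (hQ p' hp').1 hpp
      have h3 : Ex (p * p') (fun u => g p u * g p' u) = 0 := h2
      rw [h3, mul_zero]
  calc ∑ u ∈ (cube2 (4 * N * J)).filter (Lam 1 0),
        W J (4 * N * J) u.1 * W J (4 * N * J) u.2 * (∑ p ∈ Q, g p u) ^ 2
      = ∑ u ∈ (cube2 (4 * N * J)).filter (Lam 1 0),
          ∑ p ∈ Q, ∑ p' ∈ Q, W J (4 * N * J) u.1 * W J (4 * N * J) u.2 * (g p u * g p' u) := by
        refine Finset.sum_congr rfl fun u _ => ?_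
        rw [sq, Finset.sum_mul_sum, Finset.mul_sum]
        refine Finset.sum_congr rfl fun p _ => ?_
        rw [Finset.mul_sum]
    _ = ∑ p ∈ Q, ∑ p' ∈ Q, ∑ u ∈ (cube2 (4 * N * J)).filter (Lam 1 0),
          W J (4 * N * J) u.1 * W J (4 * N * J) u.2 * (g p u * g p' u) := by
        rw [Finset.sum_comm]
        refine Finset.sum_congr rfl fun p _ => ?_
        rw [Finset.sum_comm]
    _ ≤ ∑ p ∈ Q, ∑ p' ∈ Q, if p = p' then (8 * (N : ℝ)) ^ 6 * Ex p (ip p) else 0 :=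
        Finset.sum_le_sum fun p hp => Finset.sum_le_sum fun p' hp' => hterm p hp p' hp'
    _ = ∑ p ∈ Q, (8 * (N : ℝ)) ^ 6 * Ex p (ip p) := by
        refine Finset.sum_congr rfl fun p hp => ?_
        rw [Finset.sum_ite_eq]
        simp [hp]
    _ = (8 * (N : ℝ)) ^ 6 * ∑ p ∈ Q, Ex p (ip p) := by rw [Finset.mul_sum]

end FGO
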