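import Pool.Agent.Lib.MP_1ad228_ntG.Defs

/-! JOB Tr0. -/

set_option autoImplicit false

namespace FGO

open Finset

/-- (Tr1) the number of the roots of a quadratic polynomial. Proof. Complete the square; `quadraticChar_card_sqrts` (the number of `y` with `y² = d` is `χ(d) + 1`), bijection `y = 2 a x + b`. -/
theorem card_roots (p : ℕ) [Fact p.Prime] (hp : p ≠ 2) (a b c : ZMod p) (ha : a ≠ 0) :
    ((univ.filter fun x : ZMod p => a * x ^ 2 + b * x + c = 0).card : ℤ) =
      1 + quadraticChar (ZMod p) (b ^ 2 - 4 * a * c) := by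
  have hch : ringChar (ZMod p) ≠ 2 := by
    rw [ZMod.ringChar_zmod_n]
    exact hp
  have h2 : (2 : ZMod p) ≠ 0 := Ring.two_ne_zero hch
  have h4a : (4 * a : ZMod p) ≠ 0 := by
    have : (4 : ZMod p) = 2 * 2 := by norm_num
    rw [this]
    exact mul_ne_zero (mul_ne_zero h2 h2) ha
  have h2a : (2 * a : ZMod p) ≠ 0 := mul_ne_zero h2 ha
  have hs := quadraticChar_card_sqrts hch (b ^ 2 - 4 * a * c)
  rw [add_comm, ← hs]
  congr 1
  refine Finset.card_bij (fun x _ => 2 * a * x + b) ?_ ?_ ?_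
  · intro x hx
    rw [mem_filter] at hx
    rw [Set.mem_toFinset, Set.mem_ofPred_eq]
    have : (2 * a * x + b) ^ 2 = 4 * a * (a * x ^ 2 + b * x + c) + (b ^ 2 - 4 * a * c) := by ring
    rw [this, hx.2, mul_zero, zero_add]
  · intro x _ y _ hxy
    have h1 : 2 * a * x = 2 * a * y := add_right_cancel hxy
    exact mul_left_cancel₀ h2a h1
  · intro y hy
    rw [Set.mem_toFinset, Set.mem_ofPred_eq] at hy
    refine ⟨(y - b) / (2 * a), ?_, ?_⟩
    · rw [mem_filter]
      refine ⟨mem_univ _, ?_⟩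
      have h : 4 * a * (a * ((y - b) / (2 * a)) ^ 2 + b * ((y - b) / (2 * a)) + c) = 0 := by
        have e1 : 4 * a * (a * ((y - b) / (2 * a)) ^ 2 + b * ((y - b) / (2 * a)) + c) =
            (2 * a * ((y - b) / (2 * a))) ^ 2 + 2 * b * (2 * a * ((y - b) / (2 * a))) + 4 * a * c := by ring
        rw [e1, mul_div_cancel₀ _ h2a]
        have e2 : (y - b) ^ 2 + 2 * b * (y - b) + 4 * a * c = y ^ 2 - (b ^ 2 - 4 * a * c) := by ring
        rw [e2, hy, sub_self]
      rcases mul_eq_zero.mp h with h | h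
      · exact absurd h h4a
      · exact h
    · show 2 * a * ((y - b) / (2 * a)) + b = y
      rw [mul_div_cancel₀ _ h2a, sub_add_cancel]

end FGO
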