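import Pool.Agent.Lib.MP_1ad228_ntG.UB
import Pool.Agent.Lib.MP_1ad228_ntG.St2

/-! JOB UB2: the union bound. -/

set_option autoImplicit false

open Classical

namespace FGO

open Finset

private theorem UB2_card {α β : Type} [DecidableEq β] (s : Finset α) (t : α → Finset β) (b : α → ℝ)
    (h : ∀ a ∈ s, ((t a).card : ℝ) ≤ b a) : ((s.biUnion t).card : ℝ) ≤ ∑ a ∈ s, b a := by
  refine (Nat.cast_le.mpr Finset.card_biUnion_le).trans ?_
  rw [Nat.cast_sum]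
  exact Finset.sum_le_sum h

private theorem UB2_nonneg (P0 k : ℕ) (hP0 : 4 ≤ P0) (Q : Finset ℕ) (hQ : ∀ p ∈ Q, p.Prime ∧ P0 < p) (d : ℕ) :
    0 ≤ ∏ p ∈ Q.filter (fun p => ¬ p ∣ d), (1 - dn p) +
      (∑ p ∈ Q, 2 / (p : ℝ)) ^ (2 * k + 1) / ((2 * k + 1).factorial : ℝ) := by
  refine add_nonneg (Finset.prod_nonneg (fun p hp => ?_)) ?_
  · have hp' := hQ p (Finset.mem_filter.mp hp).1
    have h5 : (5 : ℝ) ≤ p := by exact_mod_cast (by omega : 5 ≤ p)
    unfold dn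
    have h1 : 3 / (2 * (p : ℝ)) ≤ 1 := by
      rw [div_le_one (by positivity)]
      linarith
    have h2 : 0 ≤ 4 / (p : ℝ) ^ 2 := by positivity
    linarith
  · refine div_nonneg (pow_nonneg (Finset.sum_nonneg (fun p _ => by positivity)) _) (Nat.cast_nonneg _)

/-- (UB3) Proof. `structure_thm` and `Finset.card_biUnion_le` over `σ` (2), `d0` (`≤ 2^P0`), `d1 ∈ DD N P0`, `r ∈ range d1` (`d1` values; only the good `r` contribute, for the others the set is empty or bounded by the same nonnegative number). -/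
theorem union_bound (N P0 q0 m k : ℕ) (hN : 0 < N) (hP0 : 4 ≤ P0) (Q : Finset ℕ) (hQ : ∀ p ∈ Q, p.Prime ∧ P0 < p)
    (hk : ∀ D ⊆ Q, D.card ≤ 2 * k → (∏ p ∈ D, p) ^ 2 ≤ q0) :
    (((box2 N).filter Bad).card : ℝ) ≤ ((box2 N).filter (Exc2 P0)).card + ((box2 N).filter (Exc3 N q0)).card +
      ((box2 N).filter fun u => m < om Q u).card +
      2 * 2 ^ P0 * (8 * (N : ℝ)) ^ 6 * 2 ^ m * ∑ d ∈ DD N P0, 1 / (d : ℝ) * (1 / 2) ^ (omd Q d) *
        (∏ p ∈ Q.filter (fun p => ¬ p ∣ d), (1 - dn p) +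
          (∑ p ∈ Q, 2 / (p : ℝ)) ^ (2 * k + 1) / ((2 * k + 1).factorial : ℝ)) := by
  set G : ℕ → ℝ := fun d => ∏ p ∈ Q.filter (fun p => ¬ p ∣ d), (1 - dn p) +
    (∑ p ∈ Q, 2 / (p : ℝ)) ^ (2 * k + 1) / ((2 * k + 1).factorial : ℝ) with hGdef
  have hG0 : ∀ d, 0 ≤ G d := fun d => UB2_nonneg P0 k hP0 Q hQ d
  set S : ℤ → ℕ → ℕ → ℕ → Finset (V × V) := fun σ d0 d1 r => (box2 N).filter fun u =>
    Lam d1 (r : ℤ) u ∧ omd Q d1 ≤ m ∧
      (1 / 2 : ℝ) ^ (m - omd Q d1) ≤ ∏ p ∈ Q.filter (fun p => ¬ p ∣ d1), (1 - xp (σ * d0 * d1) p u) with hS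
  set U : Finset (V × V) := ({1, -1} : Finset ℤ).biUnion fun σ => (primorial P0).divisors.biUnion fun d0 =>
    (DD N P0).biUnion fun d1 => ((range d1).filter (fun r : ℕ => Good N q0 d1 (r : ℤ))).biUnion fun r =>
      S σ d0 d1 r with hU
  have hsub : (box2 N).filter Bad ⊆ (((box2 N).filter (Exc2 P0) ∪ (box2 N).filter (Exc3 N q0)) ∪
      (box2 N).filter (fun u => m < om Q u)) ∪ U := by
    intro u hu
    rw [Finset.mem_filter] at hu
    obtain ⟨hu1, hu2⟩ := hu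
    by_cases h2 : Exc2 P0 u
    · exact Finset.mem_union_left _ (Finset.mem_union_left _ (Finset.mem_union_left _
        (Finset.mem_filter.mpr ⟨hu1, h2⟩)))
    by_cases h3 : Exc3 N q0 u
    · exact Finset.mem_union_left _ (Finset.mem_union_left _ (Finset.mem_union_right _
        (Finset.mem_filter.mpr ⟨hu1, h3⟩)))
    by_cases h4 : m < om Q u
    · exact Finset.mem_union_left _ (Finset.mem_union_right _ (Finset.mem_filter.mpr ⟨hu1, h4⟩))
    · obtain ⟨σ, hσ, d0, hd0, d1, hd1, r, hr, hg, hL, ho, hp⟩ :=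
        structure_thm N P0 q0 m hN (by omega) Q hQ u hu1 hu2 h2 h3 (not_lt.mp h4)
      refine Finset.mem_union_right _ ?_
      rw [hU]
      refine Finset.mem_biUnion.mpr ⟨σ, hσ, Finset.mem_biUnion.mpr ⟨d0, hd0, Finset.mem_biUnion.mpr
        ⟨d1, hd1, Finset.mem_biUnion.mpr ⟨r, Finset.mem_filter.mpr ⟨hr, hg⟩, ?_⟩⟩⟩⟩
      exact Finset.mem_filter.mpr ⟨hu1, hL, ho, hp⟩
  have hcard := Finset.card_le_card hsub
  have hc1 := Finset.card_union_le (((box2 N).filter (Exc2 P0) ∪ (box2 N).filter (Exc3 N q0)) ∪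
      (box2 N).filter (fun u => m < om Q u)) U
  have hc2 := Finset.card_union_le ((box2 N).filter (Exc2 P0) ∪ (box2 N).filter (Exc3 N q0))
      ((box2 N).filter (fun u => m < om Q u))
  have hc3 := Finset.card_union_le ((box2 N).filter (Exc2 P0)) ((box2 N).filter (Exc3 N q0))
  have hc : (((box2 N).filter Bad).card : ℝ) ≤ ((box2 N).filter (Exc2 P0)).card +
      ((box2 N).filter (Exc3 N q0)).card + ((box2 N).filter fun u => m < om Q u).card + (U.card : ℝ) := by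
    exact_mod_cast (by omega : ((box2 N).filter Bad).card ≤ ((box2 N).filter (Exc2 P0)).card +
      ((box2 N).filter (Exc3 N q0)).card + ((box2 N).filter fun u => m < om Q u).card + U.card)
  refine hc.trans (add_le_add_right ?_ _)
  have hterm : ∀ σ ∈ ({1, -1} : Finset ℤ), ∀ d0 ∈ (primorial P0).divisors, ∀ d1 ∈ DD N P0,
      ((((range d1).filter (fun r : ℕ => Good N q0 d1 (r : ℤ))).biUnion fun r => S σ d0 d1 r).card : ℝ) ≤
        (8 * (N : ℝ)) ^ 6 * 2 ^ m * (1 / (d1 : ℝ) * (1 / 2) ^ (omd Q d1) * G d1) := by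
    intro σ hσ d0 hd0 d1 hd1
    have hd1' : 0 < d1 := by
      unfold DD at hd1
      have := (Finset.mem_Icc.mp (Finset.mem_filter.mp hd1).1).1
      omega
    have hd1r : (0 : ℝ) < d1 := by exact_mod_cast hd1'
    have hσ' : σ = 1 ∨ σ = -1 := by simpa using hσ
    have h1 := UB2_card ((range d1).filter (fun r : ℕ => Good N q0 d1 (r : ℤ))) (fun r => S σ d0 d1 r)
      (fun _ => 2 ^ m * (1 / 2) ^ (omd Q d1) * ((8 * (N : ℝ)) ^ 6 / (d1 : ℝ) ^ 2) * G d1)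
      (fun r hr => one_term N P0 q0 m k hN hP0 Q hQ hk σ hσ' d0 hd0 d1 hd1 (r : ℤ) (Finset.mem_filter.mp hr).2)
    refine h1.trans ?_
    rw [Finset.sum_const, nsmul_eq_mul]
    have h2 : ((((range d1).filter (fun r : ℕ => Good N q0 d1 (r : ℤ))).card : ℕ) : ℝ) ≤ d1 := by
      have := Finset.card_filter_le (range d1) (fun r : ℕ => Good N q0 d1 (r : ℤ))
      rw [Finset.card_range] at this
      exact_mod_cast this
    have h3 : 0 ≤ 2 ^ m * (1 / 2) ^ (omd Q d1) * ((8 * (N : ℝ)) ^ 6 / (d1 : ℝ) ^ 2) * G d1 :=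
      mul_nonneg (by positivity) (hG0 d1)
    refine (mul_le_mul_of_nonneg_right h2 h3).trans (le_of_eq ?_)
    field_simp
  have hU1 : (U.card : ℝ) ≤ ∑ _σ ∈ ({1, -1} : Finset ℤ), ∑ _d0 ∈ (primorial P0).divisors, ∑ d1 ∈ DD N P0,
      (8 * (N : ℝ)) ^ 6 * 2 ^ m * (1 / (d1 : ℝ) * (1 / 2) ^ (omd Q d1) * G d1) := by
    rw [hU]
    refine UB2_card _ _ _ (fun σ hσ => ?_)
    refine UB2_card _ _ _ (fun d0 hd0 => ?_)
    exact UB2_card _ _ _ (fun d1 hd1 => hterm σ hσ d0 hd0 d1 hd1)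
  refine hU1.trans ?_
  rw [← Finset.mul_sum, Finset.sum_const, Finset.sum_const, nsmul_eq_mul, nsmul_eq_mul]
  set T : ℝ := ∑ d ∈ DD N P0, 1 / (d : ℝ) * (1 / 2) ^ (omd Q d) * G d with hT
  have hT0 : 0 ≤ T := Finset.sum_nonneg (fun d _ => mul_nonneg (by positivity) (hG0 d))
  have h2 : ((({1, -1} : Finset ℤ).card : ℕ) : ℝ) = 2 := by
    rw [Finset.card_pair (by norm_num)]
    norm_num
  have h3 : (((primorial P0).divisors.card : ℕ) : ℝ) ≤ 2 ^ P0 := by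
    exact_mod_cast card_divisors_primorial P0
  rw [h2]
  have h4 : 0 ≤ (8 * (N : ℝ)) ^ 6 * 2 ^ m * T := mul_nonneg (by positivity) hT0
  have h5 := mul_le_mul_of_nonneg_right h3 h4
  calc (2 : ℝ) * (((primorial P0).divisors.card : ℝ) * ((8 * (N : ℝ)) ^ 6 * 2 ^ m * T)) ≤
        2 * (2 ^ P0 * ((8 * (N : ℝ)) ^ 6 * 2 ^ m * T)) := by linarith
    _ = _ := by ring

end FGO
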