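import Pool.Agent.Lib.MP_42948a_nt.WX.Main

/-! JOB We: the Weil bound for a split cubic. -/

set_option autoImplicit false

namespace FGO

open Finset

/-- four distinct shifts -/
theorem We_aux1 (p : ℕ) [Fact p.Prime] (hp : 3 < p) (α β γ : ZMod p) (h1 : α ≠ 0) (h2 : β ≠ 0)
    (h3 : γ ≠ 0) :
    |∑ u : ZMod p, ((quadraticChar (ZMod p) (u * (u + α) * (u + β) * (u + γ)) : ℤ) : ℝ)| ≤
      4 * √(p : ℝ) := by
  set q := quadraticChar (ZMod p) with hq
  set χ : MulChar (ZMod p) ℂ := q.ringHomComp (Int.castRingHom ℂ) with hχ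
  have hinj : Function.Injective (Int.castRingHom ℂ) := by
    intro x y hxy
    simpa using hxy
  have hne : χ ≠ 1 := by
    rw [hχ, MulChar.ringHomComp_ne_one_iff hinj]
    apply quadraticChar_ne_one
    rw [ZMod.ringChar_zmod_n]
    omega
  have hval : ∀ x, χ x = ((q x : ℤ) : ℂ) := by
    intro x
    simp [hχ, MulChar.ringHomComp_apply]
  have hstar : ∀ x, (starRingEnd ℂ) (χ x) = ((q x : ℤ) : ℂ) := by
    intro x
    rw [hval]
    exact map_intCast (starRingEnd ℂ) (q x)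
  have hw := Pool.Agent.Lib.MP_42948a_nt.WX.weil_all 2 (by norm_num) p χ hne
    (Sum.elim (fun i : Fin 2 => if i = 0 then (0 : ZMod p) else α)
      (fun i : Fin 2 => if i = 0 then β else γ)) (Sum.inl 0) (by
      intro i hi
      rcases i with i | i
      · fin_cases i
        · exact absurd rfl hi
        · simpa using h1
      · fin_cases i
        · simpa using h2
        · simpa using h3)
  simp only [Fin.prod_univ_two, Sum.elim_inl, Sum.elim_inr, if_true, hval] at hw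
  have hsum : ∑ x : ZMod p, (((q (x + 0) : ℤ) : ℂ) * ((q (x + if (1 : Fin 2) = 0 then 0 else α) : ℤ) : ℂ)) *
      ((starRingEnd ℂ) ((q (x + β) : ℤ) : ℂ) * (starRingEnd ℂ) ((q (x + if (1 : Fin 2) = 0 then β else γ) : ℤ) : ℂ)) =
      ((∑ u : ZMod p, ((q (u * (u + α) * (u + β) * (u + γ)) : ℤ) : ℝ) : ℝ) : ℂ) := by
    push_cast
    apply Finset.sum_congr rfl
    intro x _
    rw [map_intCast, map_intCast, add_zero]
    rw [map_mul, map_mul, map_mul]
    push_cast
    ring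
  rw [hsum, Complex.norm_real, Real.norm_eq_abs] at hw
  calc _ ≤ _ := hw
    _ = 4 * √(p : ℝ) := by push_cast; ring

/-- a point outside `0, a, b` -/
theorem We_aux2 (p : ℕ) [Fact p.Prime] (hp : 3 < p) (a b : ZMod p) :
    ∃ c : ZMod p, c ≠ 0 ∧ c ≠ a ∧ c ≠ b := by
  by_contra hcon
  push Not at hcon
  have hsub : (Finset.univ : Finset (ZMod p)) ⊆ {0, a, b} := by
    intro c _
    simp only [Finset.mem_insert, Finset.mem_singleton]
    by_cases h0 : c = 0
    · exact Or.inl h0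
    · by_cases h1 : c = a
      · exact Or.inr (Or.inl h1)
      · exact Or.inr (Or.inr (hcon c h0 h1))
  have h1 := Finset.card_le_card hsub
  rw [Finset.card_univ, ZMod.card] at h1
  have h2 : ({0, a, b} : Finset (ZMod p)).card ≤ 3 := Finset.card_le_three
  omega

/-- (We) Proof. `χ = quadraticChar (ZMod p)`. Choose `c ∉ {0, a, b}` (`p > 3`). The substitution `x = c + 1/u` is a bijection from `u ≠ 0` to `x ≠ c`, and for `u ≠ 0`:
`χ(x (x - a)(x - b)) = χ(u⁻³ (c u + 1)((c - a) u + 1)((c - b) u + 1)) = χ(c (c-a)(c-b)) χ(u (u + 1/c)(u + 1/(c-a))(u + 1/(c-b)))` (`χ(u⁻³) = χ(u)`: `u⁻³ = u · (u⁻²)²`); the term `u = 0` of the last sum is `0`. So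
`|∑_x| ≤ 1 + |∑_u χ(u (u + 1/c)(u + 1/(c-a))(u + 1/(c-b)))|`, four distinct shifts, and `WX.weil_all 2` (`WeilAll 2 4`) for the character `χ' = (quadraticChar (ZMod p)).ringHomComp (Int.castRingHom ℂ)` (`≠ 1` as `p ≠ 2`:
`quadraticChar_ne_one`; real, so `starRingEnd ℂ` does nothing) bounds it by `4 √p`. -/
theorem cubic_sum (p : ℕ) [Fact p.Prime] (hp : 3 < p) (a b : ZMod p) (ha : a ≠ 0) (hb : b ≠ 0) (hab : a ≠ b) :
    |∑ x : ZMod p, ((quadraticChar (ZMod p) (x * (x - a) * (x - b)) : ℤ) : ℝ)| ≤ 4 * √(p : ℝ) + 1 := by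
  obtain ⟨c, hc0, hca, hcb⟩ := We_aux2 p hp a b
  set q := quadraticChar (ZMod p) with hq
  have hca' : c - a ≠ 0 := sub_ne_zero.mpr hca
  have hcb' : c - b ≠ 0 := sub_ne_zero.mpr hcb
  set K : ZMod p := c * (c - a) * (c - b) with hK
  have habs : ∀ x : ZMod p, |((q x : ℤ) : ℝ)| ≤ 1 := by
    intro x
    by_cases hx : x = 0
    · rw [hx, hq, quadraticChar_zero]; simp
    · rcases quadraticChar_dichotomy hx with h | h
      · rw [hq, h]; simp
      · rw [hq, h]; simp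
  have hterm : ∀ u : ZMod p, u ≠ 0 →
      q ((c + u⁻¹) * (c + u⁻¹ - a) * (c + u⁻¹ - b)) =
        q K * q (u * (u + c⁻¹) * (u + (c - a)⁻¹) * (u + (c - b)⁻¹)) := by
    intro u hu
    have h1 : q (u ^ 2) = 1 := quadraticChar_sq_one' hu
    have h2 : q (u ^ 2 * u ^ 2) = 1 := by rw [map_mul, h1, one_mul]
    rw [← map_mul]
    calc q ((c + u⁻¹) * (c + u⁻¹ - a) * (c + u⁻¹ - b))
        = q ((c + u⁻¹) * (c + u⁻¹ - a) * (c + u⁻¹ - b)) * q (u ^ 2 * u ^ 2) := by
          rw [h2, mul_one]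
      _ = q ((c + u⁻¹) * (c + u⁻¹ - a) * (c + u⁻¹ - b) * (u ^ 2 * u ^ 2)) := (map_mul _ _ _).symm
      _ = _ := by
          congr 1
          rw [hK]
          field_simp
          ring
  have hsum : ∑ x : ZMod p, ((q (x * (x - a) * (x - b)) : ℤ) : ℝ) =
      ((q K : ℤ) : ℝ) * ∑ u : ZMod p, ((q (u * (u + c⁻¹) * (u + (c - a)⁻¹) * (u + (c - b)⁻¹)) : ℤ) : ℝ) +
        ((q (c * (c - a) * (c - b)) : ℤ) : ℝ) := by
    rw [← Finset.sum_erase_add _ _ (Finset.mem_univ c)]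
    congr 1
    rw [← Finset.sum_erase_add (a := (0 : ZMod p))
      (f := fun u : ZMod p => ((q (u * (u + c⁻¹) * (u + (c - a)⁻¹) * (u + (c - b)⁻¹)) : ℤ) : ℝ))
      _ (Finset.mem_univ 0)]
    have h0 : q ((0 : ZMod p) * (0 + c⁻¹) * (0 + (c - a)⁻¹) * (0 + (c - b)⁻¹)) = 0 := by
      rw [zero_mul, zero_mul, zero_mul, hq, quadraticChar_zero]
    rw [h0, Int.cast_zero, add_zero, Finset.mul_sum]
    symm
    apply Finset.sum_bij' (fun u _ => c + u⁻¹) (fun x _ => (x - c)⁻¹)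
    · intro u hu
      have hu0 : u ≠ 0 := Finset.ne_of_mem_erase hu
      rw [Finset.mem_erase]
      refine ⟨?_, Finset.mem_univ _⟩
      intro h
      apply inv_ne_zero hu0
      have : c + u⁻¹ = c + 0 := by rw [h, add_zero]
      exact add_left_cancel this
    · intro x hx
      have hx0 : x ≠ c := Finset.ne_of_mem_erase hx
      rw [Finset.mem_erase]
      exact ⟨inv_ne_zero (sub_ne_zero.mpr hx0), Finset.mem_univ _⟩
    · intro u hu
      simp
    · intro x hx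
      simp
    · intro u hu
      have hu0 : u ≠ 0 := Finset.ne_of_mem_erase hu
      rw [hterm u hu0]
      push_cast
      ring
  rw [hsum]
  have hw := We_aux1 p hp c⁻¹ (c - a)⁻¹ (c - b)⁻¹ (inv_ne_zero hc0) (inv_ne_zero hca')
    (inv_ne_zero hcb')
  refine (abs_add_le _ _).trans ?_
  rw [abs_mul]
  apply add_le_add _ (habs _)
  calc |((q K : ℤ) : ℝ)| * |∑ u : ZMod p, ((q (u * (u + c⁻¹) * (u + (c - a)⁻¹) * (u + (c - b)⁻¹)) : ℤ) : ℝ)|
      ≤ 1 * (4 * √(p : ℝ)) := mul_le_mul (habs _) hw (abs_nonneg _) (by norm_num)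
    _ = _ := one_mul _

end FGO
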